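import Mathlib

/-! The level and the exponents. -/

set_option autoImplicit false

namespace Pool.Agent.Y844.BT

theorem lvl (ω z : ℝ) (hω0 : 0 < ω) (hω1 : ω ≤ 1 / 1000) (hz200 : 200 ≤ z) (hLz100 : 100 / ω ≤ Real.log z) :
    ∃ X : ℕ, z ≤ X ∧ (X : ℝ) ^ (3 / 4 : ℝ) ≤ z ^ (1 + ω) ∧ (X : ℝ) ^ (3 / 4 - ω) ≤ z ∧
      z ≤ 2 * (X : ℝ) ^ (3 / 4 : ℝ) ∧ (1 + ω) * (1 - ω / 100) * Real.log z ≤ 3 / 4 * Real.log X ∧
      Real.log X ≤ 2 * Real.log z := by
  have hz0 : 0 < z := by linarith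
  set Lz : ℝ := Real.log z with hLzd
  have hLz0 : 0 < Lz := lt_of_lt_of_le (by positivity) hLz100
  set ξ : ℝ := 4 / 3 * (1 + ω) with hξ
  have hξ0 : 0 < ξ := by positivity
  set X : ℕ := ⌊z ^ ξ⌋₊ with hXd
  have hzξ0 : 0 < z ^ ξ := Real.rpow_pos_of_pos hz0 _
  have hXle : (X : ℝ) ≤ z ^ ξ := Nat.floor_le hzξ0.le
  have hXlt : z ^ ξ < X + 1 := Nat.lt_floor_add_one _
  have hzξ2 : 2 * z ≤ z ^ ξ := by
    have h1 : (z : ℝ) ^ (4 / 3 : ℝ) ≤ z ^ ξ := by
      apply Real.rpow_le_rpow_of_exponent_le (by linarith)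
      rw [hξ]
      linarith
    have h2 : (z : ℝ) ^ (4 / 3 : ℝ) = z * z ^ (1 / 3 : ℝ) := by
      rw [show (4 / 3 : ℝ) = 1 + 1 / 3 by norm_num, Real.rpow_add hz0, Real.rpow_one]
    have h3 : (2 : ℝ) ≤ z ^ (1 / 3 : ℝ) := by
      calc (2 : ℝ) = (8 : ℝ) ^ (1 / 3 : ℝ) := by
            rw [show (8 : ℝ) = 2 ^ (3 : ℝ) by norm_num, ← Real.rpow_mul (by norm_num)]
            norm_num
        _ ≤ z ^ (1 / 3 : ℝ) := Real.rpow_le_rpow (by norm_num) (by linarith) (by norm_num)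
    rw [h2] at h1
    have h4 : z * 2 ≤ z * z ^ (1 / 3 : ℝ) := mul_le_mul_of_nonneg_left h3 hz0.le
    linarith
  have hXz : z ≤ X := by linarith
  have hX1 : (1 : ℝ) < X := by linarith
  have hX1' : (1 : ℝ) ≤ X := hX1.le
  have hXpos : (0 : ℝ) < X := by linarith
  have hpos : ∀ z : ℝ, 0 < (X : ℝ) ^ z := fun z => Real.rpow_pos_of_pos hXpos z
  have hmono : ∀ z w : ℝ, z ≤ w → (X : ℝ) ^ z ≤ (X : ℝ) ^ w := fun z w h => Real.rpow_le_rpow_of_exponent_le hX1' h
  refine ⟨X, hXz, ?_, ?_, ?_, ?_, ?_⟩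
  · calc (X : ℝ) ^ (3 / 4 : ℝ) ≤ (z ^ ξ) ^ (3 / 4 : ℝ) := Real.rpow_le_rpow hXpos.le hXle (by norm_num)
      _ = z ^ (1 + ω) := by
          rw [← Real.rpow_mul hz0.le]
          congr 1
          rw [hξ]
          ring
  · calc (X : ℝ) ^ (3 / 4 - ω) ≤ (X : ℝ) ^ (1 / ξ) := by
          apply hmono
          rw [le_div_iff₀ hξ0, hξ]
          have : (3 / 4 - ω) * (4 / 3 * (1 + ω)) = 1 - ω / 3 - 4 / 3 * (ω * ω) := by ring
          rw [this]
          have : 0 ≤ ω * ω := mul_nonneg hω0.le hω0.le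
          linarith
      _ ≤ (z ^ ξ) ^ (1 / ξ) := Real.rpow_le_rpow hXpos.le hXle (by positivity)
      _ = z := by
          rw [← Real.rpow_mul hz0.le]
          rw [mul_one_div_cancel hξ0.ne', Real.rpow_one]
  · calc z = (z ^ ξ) ^ (1 / ξ) := by
          rw [← Real.rpow_mul hz0.le, mul_one_div_cancel hξ0.ne', Real.rpow_one]
      _ ≤ (2 * (X : ℝ)) ^ (1 / ξ) := Real.rpow_le_rpow hzξ0.le (by linarith) (by positivity)
      _ ≤ (2 * (X : ℝ)) ^ (3 / 4 : ℝ) := by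
          apply Real.rpow_le_rpow_of_exponent_le (by linarith)
          rw [div_le_iff₀ hξ0, hξ]
          linarith
      _ = (2 : ℝ) ^ (3 / 4 : ℝ) * (X : ℝ) ^ (3 / 4 : ℝ) := Real.mul_rpow (by norm_num) hXpos.le
      _ ≤ 2 * (X : ℝ) ^ (3 / 4 : ℝ) := by
          apply mul_le_mul_of_nonneg_right _ (hpos _).le
          calc (2 : ℝ) ^ (3 / 4 : ℝ) ≤ (2 : ℝ) ^ (1 : ℝ) := Real.rpow_le_rpow_of_exponent_le (by norm_num) (by norm_num)
            _ = 2 := Real.rpow_one _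
  · have h1 : z ^ ξ / 2 ≤ X := by linarith
    have h2 := Real.log_le_log (by positivity) h1
    rw [Real.log_div hzξ0.ne' (by norm_num), Real.log_rpow hz0] at h2
    have h3 : Real.log 2 ≤ 1 := by
      have := Real.log_two_lt_d9
      linarith
    have h4 : 100 ≤ ω * Lz := by
      rw [div_le_iff₀ hω0] at hLz100
      linarith
    have h5 : ξ * Lz - 1 ≤ Real.log X := by linarith
    have h6 : (1 + ω) * (1 - ω / 100) * Lz = (1 + ω) * Lz - (1 + ω) * (ω * Lz) / 100 := by ring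
    have h7 : 3 / 4 * (ξ * Lz - 1) = (1 + ω) * Lz - 3 / 4 := by rw [hξ]; ring
    have h8 : (1 + ω) * (ω * Lz) = ω * Lz + ω * (ω * Lz) := by ring
    have h9 : 0 ≤ ω * (ω * Lz) := by positivity
    rw [h6]
    linarith
  · calc Real.log X ≤ Real.log (z ^ ξ) := Real.log_le_log hXpos hXle
        _ = ξ * Lz := Real.log_rpow hz0 _
        _ ≤ 2 * Lz := by
            apply mul_le_mul_of_nonneg_right _ hLz0.le
            rw [hξ]
            linarith

theorem gam (ep κ x z : ℝ) (he : 0 < ep) (hκ0 : 0 < κ) (hκ2 : κ ≤ ep / 8) (hx1 : 1 ≤ x) (hz1' : 1 < z) (hzx : z ≤ x)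
    (hz1 : x ^ ep ≤ z) (hz2 : z ≤ x ^ (1 - ep)) (X : ℕ) (hXz : z ≤ X) (hXl : Real.log X ≤ 2 * Real.log z) :
    ∃ γ : ℝ, (X : ℝ) ^ γ = x / z ∧ 4 * κ ≤ γ ∧ γ ≤ 2 / ep := by
  have hx0 : 0 < x := by linarith
  have hz0 : 0 < z := by linarith
  have hXpos : (0 : ℝ) < X := by linarith
  have hlz : 0 < Real.log z := Real.log_pos hz1'
  have hLzX : Real.log z ≤ Real.log X := Real.log_le_log hz0 hXz
  have hlogX : 0 < Real.log X := by linarith
  have hLzx : Real.log z ≤ Real.log x := Real.log_le_log hz0 hzx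
  have hxz0 : 0 < x / z := by positivity
  have hLze : ep * Real.log x ≤ Real.log z := by
    rw [← Real.log_rpow hx0]
    exact Real.log_le_log (Real.rpow_pos_of_pos hx0 _) hz1
  refine ⟨Real.log (x / z) / Real.log X, ?_, ?_, ?_⟩
  · rw [Real.rpow_def_of_pos hXpos, mul_div_cancel₀ _ hlogX.ne', Real.exp_log hxz0]
  · rw [le_div_iff₀ hlogX]
    have h1 : ep * Real.log x ≤ Real.log (x / z) := by
      rw [← Real.log_rpow hx0]
      apply Real.log_le_log (Real.rpow_pos_of_pos hx0 _)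
      rw [le_div_iff₀ hz0]
      calc x ^ ep * z ≤ x ^ ep * x ^ (1 - ep) := mul_le_mul_of_nonneg_left hz2 (Real.rpow_pos_of_pos hx0 _).le
        _ = x := by
            rw [← Real.rpow_add hx0]
            rw [show ep + (1 - ep) = 1 by ring, Real.rpow_one]
    have h2 : Real.log X ≤ 2 * Real.log x := by linarith
    calc 4 * κ * Real.log X ≤ (ep / 2) * (2 * Real.log x) := by
          apply mul_le_mul (by linarith) h2 hlogX.le (by positivity)
      _ = ep * Real.log x := by ring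
      _ ≤ _ := h1
  · rw [div_le_iff₀ hlogX]
    have h1 : Real.log (x / z) ≤ Real.log x := by
      apply Real.log_le_log hxz0
      exact div_le_self hx0.le (by linarith)
    have h2 : Real.log x ≤ (2 / ep) * Real.log z := by
      have h3 : Real.log x = (1 / ep) * (ep * Real.log x) := by field_simp
      have h0 : 0 ≤ ep * Real.log x := mul_nonneg he.le (by linarith)
      calc Real.log x = (1 / ep) * (ep * Real.log x) := h3
        _ ≤ (2 / ep) * Real.log z := by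
            apply mul_le_mul _ hLze h0 (by positivity)
            apply div_le_div_of_nonneg_right (by norm_num) he.le
    exact h1.trans (h2.trans (mul_le_mul_of_nonneg_left hLzX (by positivity)))

theorem pts (k : ℕ) (hk : 1 ≤ k) (l : ℤ) (x y z ω : ℝ) (hω0 : 0 < ω) (hω1 : ω ≤ 1 / 1000) (hyz : y = k * z) (hyx : y ≤ x)
    (hz200 : 200 / ω ≤ z) (hz200' : 200 ≤ z)
    (u0 u1 : ℤ) (hu0 : u0 = ⌊(x - y - l) / k⌋) (hu1 : u1 = ⌊(x - l) / k⌋) :
    ∃ L Δ : ℕ, (L : ℤ) = u1 - u0 ∧ 1 ≤ Δ ∧ ω / 100 * z ≤ Δ ∧ (Δ + L : ℝ) ≤ z * (1 + ω / 50) ∧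
    ∀ t : ℤ, (t = (u0 - Δ) ∨ t = (u0 - Δ) + Δ ∨ t = (u0 - Δ) + (Δ + L : ℕ) ∨ t = (u0 - Δ) + (2 * Δ + L : ℕ)) →
        |(k : ℝ) * t + l| ≤ 3 * x ∧ (x / 8 ≤ |(k : ℝ) * t + l| ∨ x / z ≤ 16 * k) := by
  have hk0 : (0 : ℝ) < k := by exact_mod_cast hk
  have hk1 : (1 : ℝ) ≤ k := by exact_mod_cast hk
  have hz0 : 0 < z := by linarith
  have hy0 : 0 < y := by rw [hyz]; positivity
  have hu01 : u0 ≤ u1 := by
    rw [hu0, hu1]
    apply Int.floor_le_floor
    apply div_le_div_of_nonneg_right _ hk0.le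
    linarith
  have hL : ((u1 - u0).toNat : ℤ) = u1 - u0 := Int.toNat_of_nonneg (by omega)
  have hLr : ((u1 - u0).toNat : ℝ) = u1 - u0 := by exact_mod_cast hL
  have hΔl : ω / 100 * z ≤ (⌈ω / 100 * z⌉₊ : ℝ) := Nat.le_ceil _
  have hΔu : (⌈ω / 100 * z⌉₊ : ℝ) < ω / 100 * z + 1 := Nat.ceil_lt_add_one (by positivity)
  have hΔ1 : 1 ≤ ⌈ω / 100 * z⌉₊ := Nat.ceil_pos.2 (by positivity)
  generalize hLd : (u1 - u0).toNat = L at hL hLr
  generalize hΔd : ⌈ω / 100 * z⌉₊ = Δ at hΔl hΔu hΔ1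
  have a0 : (u0 : ℝ) ≤ (x - y - l) / k := by rw [hu0]; exact Int.floor_le _
  have a1 : (x - y - l) / k < u0 + 1 := by rw [hu0]; exact Int.lt_floor_add_one _
  have b0 : (u1 : ℝ) ≤ (x - l) / k := by rw [hu1]; exact Int.floor_le _
  have b1 : (x - l) / k < u1 + 1 := by rw [hu1]; exact Int.lt_floor_add_one _
  have hLz' : (L : ℝ) ≤ z + 1 := by
    rw [hLr]
    have : (x - l) / k - (x - y - l) / k = z := by
      rw [← sub_div, hyz, div_eq_iff hk0.ne']
      ring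
    linarith
  rw [le_div_iff₀ hk0] at a0 b0
  rw [div_lt_iff₀ hk0] at a1 b1
  have hkz : (k : ℝ) * 200 ≤ x := by
    calc (k : ℝ) * 200 ≤ k * z := mul_le_mul_of_nonneg_left hz200' hk0.le
      _ = y := hyz.symm
      _ ≤ x := hyx
  have hkΔ : (k : ℝ) * Δ ≤ x / 100 := by
    calc (k : ℝ) * Δ ≤ k * (ω / 100 * z + 1) := mul_le_mul_of_nonneg_left hΔu.le hk0.le
      _ = ω / 100 * y + k := by rw [hyz]; ring
      _ ≤ 1 / 1000 / 100 * x + x / 200 := by
          apply add_le_add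
          · apply mul_le_mul _ hyx hy0.le (by norm_num)
            linarith
          · linarith
      _ ≤ x / 100 := by linarith
  have hkΔ0 : 0 ≤ (k : ℝ) * Δ := by positivity
  refine ⟨L, Δ, hL, hΔ1, hΔl, ?_, ?_⟩
  · have h1 : 200 ≤ ω * z := by
      rw [div_le_iff₀ hω0] at hz200
      linarith
    have h2 : z * (1 + ω / 50) = z + ω * z / 50 := by ring
    rw [h2]
    have h3 : ω / 100 * z = ω * z / 100 := by ring
    rw [h3] at hΔu
    linarith
  · intro t ht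
    have hcase : x - y - k - k * Δ ≤ (k : ℝ) * t + l ∧ (k : ℝ) * t + l ≤ x + k * Δ := by
      rcases ht with ht | ht | ht | ht
      · have h1 : (k : ℝ) * t = (k : ℝ) * u0 - k * Δ := by rw [ht]; push_cast; ring
        rw [h1]
        have h2 : (u0 : ℝ) * k = k * u0 := mul_comm _ _
        have h3 : ((u0 : ℝ) + 1) * k = k * u0 + k := by ring
        rw [h2] at a0
        rw [h3] at a1
        constructor <;> linarith
      · have h1 : (k : ℝ) * t = (k : ℝ) * u0 := by rw [ht]; push_cast; ring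
        rw [h1]
        have h2 : (u0 : ℝ) * k = k * u0 := mul_comm _ _
        have h3 : ((u0 : ℝ) + 1) * k = k * u0 + k := by ring
        rw [h2] at a0
        rw [h3] at a1
        constructor <;> linarith
      · have h1 : (k : ℝ) * t = (k : ℝ) * u1 := by rw [ht]; push_cast; rw [hLr]; ring
        rw [h1]
        have h2 : (u1 : ℝ) * k = k * u1 := mul_comm _ _
        have h3 : ((u1 : ℝ) + 1) * k = k * u1 + k := by ring
        rw [h2] at b0
        rw [h3] at b1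
        constructor <;> linarith
      · have h1 : (k : ℝ) * t = (k : ℝ) * u1 + k * Δ := by rw [ht]; push_cast; rw [hLr]; ring
        rw [h1]
        have h2 : (u1 : ℝ) * k = k * u1 := mul_comm _ _
        have h3 : ((u1 : ℝ) + 1) * k = k * u1 + k := by ring
        rw [h2] at b0
        rw [h3] at b1
        constructor <;> linarith
    obtain ⟨h1, h2⟩ := hcase
    refine ⟨?_, ?_⟩
    · rw [abs_le]
      constructor <;> linarith
    · rcases le_or_gt x (16 * y) with h3 | h3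
      · right
        rw [div_le_iff₀ hz0]
        rw [hyz] at h3
        linarith
      · left
        refine le_trans ?_ (le_abs_self _)
        linarith

end Pool.Agent.Y844.BT
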