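import Mathlib
import Pool.Agent.H373R2.T4.DLS

/-! The double large sieve on the product of the line and a residue ring. -/

set_option autoImplicit false

namespace Pool.Agent.Y844.BT

open Finset
open Pool.Agent.H469R2.NK (e norm_e e_add conj_e e_zero)
open Pool.Agent.H373R2.T4 (grid_sum)

theorem norm_one_sub_e (α : ℝ) (h : |α| ≤ 1 / 2) : 4 * |α| ≤ ‖1 - e α‖ := by
  have h1 : ‖1 - e α‖ = ‖(2 * Real.sin (Real.pi * α) : ℝ)‖ := by
    rw [norm_sub_rev]
    unfold e
    have h2 := Complex.norm_exp_I_mul_ofReal_sub_one (2 * Real.pi * α)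
    rw [mul_comm Complex.I] at h2
    rw [h2]
    congr 3
    ring
  have hpi := Real.pi_pos
  have h3 := Real.mul_abs_le_abs_sin (x := Real.pi * α) (by
    rw [abs_mul, abs_of_pos hpi]
    nlinarith)
  rw [h1, Real.norm_eq_abs, abs_mul, abs_of_pos (by norm_num : (0 : ℝ) < 2)]
  rw [abs_mul, abs_of_pos hpi] at h3
  have h4 : 2 / Real.pi * (Real.pi * |α|) = 2 * |α| := by field_simp
  linarith

theorem ker_bd (α : ℝ) (h : |α| ≤ 1 / 2) (n : ℕ) : ‖∑ p ∈ range n, e (α * p)‖ * (2 * |α|) ≤ 1 := by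
  have h1 : (1 - e α) * ∑ p ∈ range n, e (α * p) = 1 - e (α * n) := by
    induction n with
    | zero => simp [e_zero]
    | succ n ih =>
      rw [sum_range_succ, mul_add, ih]
      have : e (α * ((n + 1 : ℕ) : ℝ)) = e α * e (α * n) := by
        rw [← e_add]
        congr 1
        push_cast
        ring
      rw [this]
      ring
  have h2 : ‖1 - e α‖ * ‖∑ p ∈ range n, e (α * p)‖ ≤ 2 := by
    rw [← norm_mul, h1]
    refine (norm_sub_le _ _).trans ?_
    rw [norm_one, norm_e]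
    norm_num
  have h3 := norm_one_sub_e α h
  have h4 := norm_nonneg (∑ p ∈ range n, e (α * p))
  nlinarith

theorem shift_pairs {τ γ : Type*} [DecidableEq γ] (S : Finset τ) (c : τ → γ) (sh : γ → γ)
    (hsh : Function.Injective sh) :
    (((S ×ˢ S).filter (fun v => c v.1 = sh (c v.2))).card : ℝ) ≤
      (((S ×ˢ S).filter (fun v => c v.1 = c v.2)).card : ℝ) := by
  classical
  set 𝒞 : Finset γ := S.image c with h𝒞
  set M : γ → ℕ := fun g => (S.filter (fun s => c s = g)).card with hM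
  have key : ∀ f : γ → γ, ((S ×ˢ S).filter (fun v => c v.1 = f (c v.2))).card = ∑ g ∈ 𝒞, M (f g) * M g := by
    intro f
    have h1 : ∀ v ∈ (S ×ˢ S).filter (fun v => c v.1 = f (c v.2)), c v.2 ∈ 𝒞 := by
      intro v hv
      rw [mem_filter, mem_product] at hv
      exact mem_image_of_mem c hv.1.2
    rw [card_eq_sum_card_fiberwise h1]
    apply sum_congr rfl
    intro g _
    rw [← card_product]
    congr 1
    ext v
    simp only [mem_filter, mem_product]
    constructor
    · rintro ⟨⟨⟨h2, h3⟩, h4⟩, h5⟩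
      exact ⟨⟨h2, by rw [h4, h5]⟩, h3, h5⟩
    · rintro ⟨⟨h2, h3⟩, h4, h5⟩
      exact ⟨⟨⟨h2, h4⟩, by rw [h3, h5]⟩, h5⟩
  have k1 := key sh
  have k2 := key id
  simp only [id] at k2
  rw [k1, k2]
  push_cast
  have h3 : ∑ g ∈ 𝒞, (M (sh g) : ℝ) * M g ≤ ∑ g ∈ 𝒞, (((M (sh g) : ℝ) * M (sh g)) / 2 + ((M g : ℝ) * M g) / 2) := by
    apply sum_le_sum
    intro g _
    nlinarith [sq_nonneg ((M (sh g) : ℝ) - M g)]
  have h4 : ∑ g ∈ 𝒞, ((M (sh g) : ℝ) * M (sh g)) ≤ ∑ g ∈ 𝒞, ((M g : ℝ) * M g) := by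
    have h5 : ∑ g ∈ 𝒞, ((M (sh g) : ℝ) * M (sh g)) = ∑ g ∈ 𝒞.image sh, ((M g : ℝ) * M g) := by
      rw [sum_image (fun a _ b _ h => hsh h)]
    rw [h5]
    have h6 : ∑ g ∈ 𝒞.image sh, ((M g : ℝ) * M g) = ∑ g ∈ (𝒞.image sh).filter (fun g => g ∈ 𝒞), ((M g : ℝ) * M g) := by
      rw [sum_filter_of_ne]
      intro g _ hne
      by_contra hg
      apply hne
      have : M g = 0 := by
        simp only [hM]
        rw [card_eq_zero, filter_eq_empty_iff]
        intro s hs h7
        exact hg (h7 ▸ mem_image_of_mem c hs)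
      rw [this]
      simp
    rw [h6]
    apply sum_le_sum_of_subset_of_nonneg
    · intro g hg
      exact (mem_filter.1 hg).2
    · intro g _ _
      positivity
  rw [sum_add_distrib, ← sum_div, ← sum_div] at h3
  linarith

/-- the weights of the cells -/
noncomputable def ph (i : ℕ) : ℝ := if i ≤ 1 then 4 else 1 / (4 * ((i : ℝ) - 1) ^ 2)

theorem ph_nonneg (i : ℕ) : 0 ≤ ph i := by
  unfold ph
  split_ifs <;> positivity

theorem ph_sum (n : ℕ) : ∑ i ∈ range n, ph i ≤ 17 / 2 := by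
  have h1 : ∀ n : ℕ, ∑ i ∈ range (n + 3), ph i ≤ 17 / 2 - 1 / (4 * ((n : ℝ) + 1)) := by
    intro n
    induction n with
    | zero =>
      rw [sum_range_succ, sum_range_succ, sum_range_succ]
      simp [ph]
      norm_num
    | succ n ih =>
      rw [show n + 1 + 3 = (n + 3) + 1 from rfl, sum_range_succ]
      have h2 : ph (n + 3) = 1 / (4 * ((n : ℝ) + 2) ^ 2) := by
        unfold ph
        rw [if_neg (by omega)]
        congr 3
        push_cast
        ring
      rw [h2]
      have h3 : 1 / (4 * ((n : ℝ) + 2) ^ 2) ≤ 1 / (4 * ((n : ℝ) + 1)) - 1 / (4 * (((n + 1 : ℕ) : ℝ) + 1)) := by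
        push_cast
        rw [div_sub_div _ _ (by positivity) (by positivity), div_le_div_iff₀ (by positivity) (by positivity)]
        nlinarith [sq_nonneg (n : ℝ), Nat.cast_nonneg (α := ℝ) n]
      linarith
  have h2 : ∑ i ∈ range n, ph i ≤ ∑ i ∈ range (n + 3), ph i := by
    apply sum_le_sum_of_subset_of_nonneg
    · intro i hi
      rw [mem_range] at hi ⊢
      omega
    · intro i _ _
      exact ph_nonneg i
  have h3 := h1 n
  have h4 : 0 ≤ 1 / (4 * ((n : ℝ) + 1)) := by positivity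
  linarith

theorem sum_bU_le {α β : Type*} [DecidableEq β] (s : Finset α) (t : α → Finset β) (f : β → ℝ)
    (hf : ∀ b, 0 ≤ f b) : ∑ b ∈ s.biUnion t, f b ≤ ∑ a ∈ s, ∑ b ∈ t a, f b := by
  classical
  induction s using Finset.induction_on with
  | empty => simp
  | insert a s ha ih =>
    rw [biUnion_insert, sum_insert ha]
    have h1 := sum_union_inter (s₁ := t a) (s₂ := s.biUnion t) (f := f)
    have h2 : 0 ≤ ∑ b ∈ t a ∩ s.biUnion t, f b := sum_nonneg fun b _ => hf b
    linarith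

/-- the sum of the kernel -/
theorem ker_sum {τ γ : Type*} [DecidableEq γ] (S : Finset τ) (y : τ → ℝ) (v : τ → γ) (Y : ℝ) (hY : 0 < Y)
    (J : ℕ) (hJ : 1 ≤ J) (hy : ∀ s ∈ S, 0 ≤ y s ∧ y s ≤ Y) :
    ∑ z ∈ (S ×ˢ S).filter (fun z => v z.1 = v z.2),
      ‖∑ p ∈ range (2 * J), e (1 / (4 * Y) * p * (y z.1 - y z.2))‖ ^ 2 ≤
      17 * J ^ 2 * (((S ×ˢ S).filter (fun z => v z.1 = v z.2 ∧ |y z.1 - y z.2| ≤ 4 * Y / J)).card : ℝ) := by
  classical
  have hJ0 : (0 : ℝ) < J := by exact_mod_cast hJ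
  set ρ : ℝ := 4 * Y / J with hρ
  have hρ0 : 0 < ρ := by positivity
  set c : τ → ℕ := fun s => ⌊y s / ρ⌋₊ with hc
  have hcs : ∀ s ∈ S, (c s : ℝ) * ρ ≤ y s ∧ y s < (c s + 1) * ρ := by
    intro s hs
    constructor
    · have := Nat.floor_le (div_nonneg (hy s hs).1 hρ0.le)
      rwa [le_div_iff₀ hρ0] at this
    · have := Nat.lt_floor_add_one (y s / ρ)
      rwa [div_lt_iff₀ hρ0] at this
  -- the kernel in terms of cells
  have hker : ∀ z ∈ (S ×ˢ S), ∀ i : ℕ, (c z.1 = c z.2 + i ∨ c z.2 = c z.1 + i) →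
      ‖∑ p ∈ range (2 * J), e (1 / (4 * Y) * p * (y z.1 - y z.2))‖ ^ 2 ≤ J ^ 2 * ph i := by
    intro z hz i hi
    rw [mem_product] at hz
    obtain ⟨h1, h2⟩ := hcs z.1 hz.1
    obtain ⟨h3, h4⟩ := hcs z.2 hz.2
    have hrw : ∑ p ∈ range (2 * J), e (1 / (4 * Y) * p * (y z.1 - y z.2)) =
        ∑ p ∈ range (2 * J), e ((1 / (4 * Y) * (y z.1 - y z.2)) * p) := by
      apply sum_congr rfl
      intro p _
      congr 1
      ring
    rw [hrw]
    by_cases hi1 : i ≤ 1
    · unfold ph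
      rw [if_pos hi1]
      have h5 : ‖∑ p ∈ range (2 * J), e ((1 / (4 * Y) * (y z.1 - y z.2)) * p)‖ ≤ 2 * J := by
        refine (norm_sum_le _ _).trans ?_
        simp only [norm_e]
        rw [sum_const, card_range, nsmul_eq_mul]
        push_cast
        linarith
      calc _ ≤ (2 * (J : ℝ)) ^ 2 := pow_le_pow_left₀ (norm_nonneg _) h5 2
        _ = _ := by ring
    · unfold ph
      rw [if_neg hi1]
      have hi2 : (2 : ℝ) ≤ i := by exact_mod_cast (by omega : 2 ≤ i)
      have h5 : ((i : ℝ) - 1) * ρ ≤ |y z.1 - y z.2| := by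
        rcases hi with hi | hi
        · rw [hi] at h1
          push_cast at h1
          refine le_trans ?_ (le_abs_self _)
          nlinarith
        · rw [hi] at h3
          push_cast at h3
          refine le_trans ?_ (neg_le_abs _)
          nlinarith
      have h6 : |1 / (4 * Y) * (y z.1 - y z.2)| ≤ 1 / 2 := by
        rw [abs_mul, abs_of_pos (by positivity : 0 < 1 / (4 * Y))]
        have h7 : |y z.1 - y z.2| ≤ Y := by
          have h8 := hy z.1 hz.1
          have h9 := hy z.2 hz.2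
          rw [abs_le]
          constructor <;> linarith [h8.1, h8.2, h9.1, h9.2]
        calc 1 / (4 * Y) * |y z.1 - y z.2| ≤ 1 / (4 * Y) * Y := mul_le_mul_of_nonneg_left h7 (by positivity)
          _ = 1 / 4 := by field_simp
          _ ≤ 1 / 2 := by norm_num
      have h7 := ker_bd _ h6 (2 * J)
      have h8 : ((i : ℝ) - 1) / J ≤ |1 / (4 * Y) * (y z.1 - y z.2)| := by
        rw [abs_mul, abs_of_pos (by positivity : 0 < 1 / (4 * Y))]
        calc ((i : ℝ) - 1) / J = 1 / (4 * Y) * (((i : ℝ) - 1) * ρ) := by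
              rw [hρ]
              field_simp
          _ ≤ _ := mul_le_mul_of_nonneg_left h5 (by positivity)
      set N := ‖∑ p ∈ range (2 * J), e ((1 / (4 * Y) * (y z.1 - y z.2)) * p)‖ with hN
      have hN0 : 0 ≤ N := norm_nonneg _
      have hi0 : 0 < (i : ℝ) - 1 := by linarith
      have h9 : N ≤ J / (2 * ((i : ℝ) - 1)) := by
        rw [le_div_iff₀ (by positivity)]
        have h10 : N * (2 * (((i : ℝ) - 1) / J)) ≤ 1 := by
          refine le_trans (mul_le_mul_of_nonneg_left ?_ hN0) h7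
          linarith
        have h11 : N * (2 * ((i : ℝ) - 1)) = N * (2 * (((i : ℝ) - 1) / J)) * J := by
          field_simp
        rw [h11]
        nlinarith
      calc N ^ 2 ≤ (J / (2 * ((i : ℝ) - 1))) ^ 2 := pow_le_pow_left₀ hN0 h9 2
        _ = _ := by
          rw [div_pow]
          ring
  set L : ℕ := S.sup c + 1 with hL
  have hcL : ∀ s ∈ S, c s < L := fun s hs => Nat.lt_succ_of_le (le_sup (f := c) hs)
  set D : ℕ → Finset (τ × τ) := fun i => (S ×ˢ S).filter (fun z => (v z.1, c z.1) = (fun g : γ × ℕ => (g.1, g.2 + i)) (v z.2, c z.2)) with hD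
  set D' : ℕ → Finset (τ × τ) := fun i => (S ×ˢ S).filter (fun z => (v z.2, c z.2) = (fun g : γ × ℕ => (g.1, g.2 + i)) (v z.1, c z.1)) with hD'
  have hD0 : ∀ i, ((D i).card : ℝ) ≤ (((S ×ˢ S).filter (fun z => v z.1 = v z.2 ∧ |y z.1 - y z.2| ≤ ρ)).card : ℝ) := by
    intro i
    have h1 := shift_pairs S (fun s => (v s, c s)) (fun g : γ × ℕ => (g.1, g.2 + i)) (by
      rintro ⟨a, b⟩ ⟨a', b'⟩ h
      simp only [Prod.mk.injEq] at h ⊢
      exact ⟨h.1, by omega⟩)
    refine h1.trans ?_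
    apply Nat.cast_le.2
    apply card_le_card
    intro z hz
    rw [mem_filter, mem_product] at hz ⊢
    obtain ⟨⟨h2, h3⟩, h4⟩ := hz
    simp only [Prod.mk.injEq] at h4
    refine ⟨⟨h2, h3⟩, h4.1, ?_⟩
    obtain ⟨h5, h6⟩ := hcs z.1 h2
    obtain ⟨h7, h8⟩ := hcs z.2 h3
    rw [h4.2] at h5 h6
    rw [abs_le]
    constructor <;> linarith
  have hDD : ∀ i, (D' i).card = (D i).card := by
    intro i
    apply card_bij (fun z _ => (z.2, z.1))
    · intro z hz
      rw [mem_filter, mem_product] at hz ⊢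
      exact ⟨⟨hz.1.2, hz.1.1⟩, hz.2⟩
    · rintro ⟨a, b⟩ _ ⟨a', b'⟩ _ h
      simp only [Prod.mk.injEq] at h ⊢
      exact ⟨h.2, h.1⟩
    · intro z hz
      rw [mem_filter, mem_product] at hz
      refine ⟨(z.2, z.1), ?_, rfl⟩
      rw [mem_filter, mem_product]
      exact ⟨⟨hz.1.2, hz.1.1⟩, hz.2⟩
  have hcov : (S ×ˢ S).filter (fun z => v z.1 = v z.2) ⊆ (range L).biUnion (fun i => D i ∪ D' i) := by
    intro z hz
    rw [mem_filter, mem_product] at hz
    obtain ⟨⟨h1, h2⟩, h3⟩ := hz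
    have h4 := hcL _ h1
    have h5 := hcL _ h2
    rw [mem_biUnion]
    rcases le_total (c z.2) (c z.1) with h | h
    · refine ⟨c z.1 - c z.2, ?_, ?_⟩
      · rw [mem_range]; omega
      · rw [mem_union]
        left
        rw [mem_filter, mem_product]
        refine ⟨⟨h1, h2⟩, ?_⟩
        simp only [Prod.mk.injEq]
        exact ⟨h3, by omega⟩
    · refine ⟨c z.2 - c z.1, ?_, ?_⟩
      · rw [mem_range]; omega
      · rw [mem_union]
        right
        rw [mem_filter, mem_product]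
        refine ⟨⟨h1, h2⟩, ?_⟩
        simp only [Prod.mk.injEq]
        exact ⟨h3.symm, by omega⟩
  set F : τ × τ → ℝ := fun z => ‖∑ p ∈ range (2 * J), e (1 / (4 * Y) * p * (y z.1 - y z.2))‖ ^ 2 with hF
  have hF0 : ∀ z, 0 ≤ F z := fun z => by positivity
  set Nr : ℝ := (((S ×ˢ S).filter (fun z => v z.1 = v z.2 ∧ |y z.1 - y z.2| ≤ ρ)).card : ℝ) with hNr
  have hNr0 : 0 ≤ Nr := Nat.cast_nonneg _
  calc ∑ z ∈ (S ×ˢ S).filter (fun z => v z.1 = v z.2), F z
      ≤ ∑ z ∈ (range L).biUnion (fun i => D i ∪ D' i), F z :=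
        sum_le_sum_of_subset_of_nonneg hcov fun z _ _ => hF0 z
    _ ≤ ∑ i ∈ range L, ∑ z ∈ D i ∪ D' i, F z := by
        exact sum_bU_le _ _ F hF0
    _ ≤ ∑ i ∈ range L, (J : ℝ) ^ 2 * ph i * (2 * Nr) := by
        apply sum_le_sum
        intro i _
        have h1 : ∀ z ∈ D i ∪ D' i, F z ≤ J ^ 2 * ph i := by
          intro z hz
          rw [mem_union, mem_filter, mem_filter] at hz
          rcases hz with hz | hz
          · simp only [Prod.mk.injEq] at hz
            exact hker z hz.1 i (Or.inl hz.2.2)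
          · simp only [Prod.mk.injEq] at hz
            exact hker z hz.1 i (Or.inr hz.2.2)
        have h2 : ((D i ∪ D' i).card : ℝ) ≤ 2 * Nr := by
          have h3 : ((D i ∪ D' i).card : ℝ) ≤ ((D i).card : ℝ) + ((D' i).card : ℝ) := by
            exact_mod_cast card_union_le _ _
          rw [hDD i] at h3
          linarith [hD0 i]
        calc ∑ z ∈ D i ∪ D' i, F z ≤ ∑ z ∈ D i ∪ D' i, (J : ℝ) ^ 2 * ph i := sum_le_sum h1
          _ = ((D i ∪ D' i).card : ℝ) * ((J : ℝ) ^ 2 * ph i) := by rw [sum_const, nsmul_eq_mul]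
          _ ≤ (2 * Nr) * ((J : ℝ) ^ 2 * ph i) :=
            mul_le_mul_of_nonneg_right h2 (mul_nonneg (by positivity) (ph_nonneg i))
          _ = _ := by ring
    _ = (J : ℝ) ^ 2 * (2 * Nr) * ∑ i ∈ range L, ph i := by
        rw [mul_sum]
        apply sum_congr rfl
        intro i _
        ring
    _ ≤ (J : ℝ) ^ 2 * (2 * Nr) * (17 / 2) := mul_le_mul_of_nonneg_left (ph_sum L) (by positivity)
    _ = _ := by ring

theorem conj_psi (k : ℕ) [NeZero k] (z : ZMod k) :
    (starRingEnd ℂ) (ZMod.stdAddChar z) = ZMod.stdAddChar (-z) := by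
  rw [AddChar.map_neg_eq_inv, Complex.inv_eq_conj (AddChar.norm_apply _ z)]

theorem parseval (k : ℕ) [NeZero k] (D : ZMod k → ℂ) :
    ∑ q : ZMod k, ‖∑ g : ZMod k, D g * ZMod.stdAddChar (q * g)‖ ^ 2 = k * ∑ g : ZMod k, ‖D g‖ ^ 2 := by
  have h4 : ((∑ q : ZMod k, ‖∑ g : ZMod k, D g * ZMod.stdAddChar (q * g)‖ ^ 2 : ℝ) : ℂ) =
      ((k * ∑ g : ZMod k, ‖D g‖ ^ 2 : ℝ) : ℂ) := by
    push_cast
    have h5 : ∀ q : ZMod k, ((‖∑ g : ZMod k, D g * ZMod.stdAddChar (q * g)‖ : ℂ)) ^ 2 =
        ∑ g : ZMod k, ∑ g' : ZMod k, D g * (starRingEnd ℂ) (D g') * ZMod.stdAddChar (q * (g - g')) := by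
      intro q
      have h6 : ((‖∑ g : ZMod k, D g * ZMod.stdAddChar (q * g)‖ : ℂ)) ^ 2 =
          (∑ g : ZMod k, D g * ZMod.stdAddChar (q * g)) * (starRingEnd ℂ) (∑ g : ZMod k, D g * ZMod.stdAddChar (q * g)) := by
        rw [Complex.mul_conj, Complex.normSq_eq_norm_sq]
        push_cast
        rfl
      rw [h6, map_sum, sum_mul_sum]
      apply sum_congr rfl; intro g _
      apply sum_congr rfl; intro g' _
      rw [(starRingEnd ℂ).map_mul, conj_psi]
      have h7 : (ZMod.stdAddChar (q * (g - g')) : ℂ) = ZMod.stdAddChar (q * g) * ZMod.stdAddChar (-(q * g')) := by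
        rw [← AddChar.map_add_eq_mul]
        congr 1
        ring
      rw [h7]
      ring
    rw [sum_congr rfl fun q _ => h5 q, sum_comm]
    have h8 : ∀ g : ZMod k, ∑ q : ZMod k, ∑ g' : ZMod k, D g * (starRingEnd ℂ) (D g') * (ZMod.stdAddChar (q * (g - g')) : ℂ) =
        k * (((‖D g‖ : ℝ) : ℂ)) ^ 2 := by
      intro g
      rw [sum_comm]
      have h9 : ∀ g' : ZMod k, ∑ q : ZMod k, D g * (starRingEnd ℂ) (D g') * (ZMod.stdAddChar (q * (g - g')) : ℂ) =
          if g = g' then D g * (starRingEnd ℂ) (D g') * k else 0 := by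
        intro g'
        rw [← mul_sum, AddChar.sum_mulShift (g - g') (ZMod.isPrimitive_stdAddChar k)]
        by_cases h : g = g'
        · rw [if_pos h, if_pos (by rw [h, sub_self])]
          simp [ZMod.card]
        · rw [if_neg h, if_neg (fun h' => h (sub_eq_zero.1 h'))]
          simp
      rw [sum_congr rfl fun g' _ => h9 g', sum_ite_eq]
      simp only [mem_univ, if_true]
      rw [Complex.mul_conj, Complex.normSq_eq_norm_sq]
      push_cast
      ring
    rw [sum_congr rfl fun g _ => h8 g, ← mul_sum]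
  exact_mod_cast h4

open Classical in
/-- the double large sieve on the product of the line and a residue ring -/
theorem pdls {ι τ : Type*} (k : ℕ) [NeZero k] (R : Finset ι) (S : Finset τ) (x : ι → ℝ) (y : τ → ℝ)
    (w : ι → ZMod k) (v : τ → ZMod k) (a : ι → ℂ) (b : τ → ℂ)
    (Y : ℝ) (hY : 0 < Y) (J : ℕ) (hJ : 1 ≤ J) (hx : ∀ r ∈ R, 0 ≤ x r ∧ x r * (4 * Y) < J)
    (hy : ∀ s ∈ S, 0 ≤ y s ∧ y s ≤ Y)
    (ha : ∀ r ∈ R, ‖a r‖ ≤ 1) (hb : ∀ s ∈ S, ‖b s‖ ≤ 1) (Nx Ny : ℝ)
    (hNx : (#((R ×ˢ R).filter (fun z => w z.1 = w z.2 ∧ |x z.1 - x z.2| ≤ 1 / (4 * Y))) : ℝ) ≤ Nx)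
    (hNy : (#((S ×ˢ S).filter (fun z => v z.1 = v z.2 ∧ |y z.1 - y z.2| ≤ 4 * Y / J)) : ℝ) ≤ Ny) :
    ‖∑ r ∈ R, ∑ s ∈ S, a r * b s * (e (x r * y s) * ZMod.stdAddChar (w r * v s))‖ ^ 2 ≤
      25 * (Nx * (17 * J * k * Ny)) := by
  set ψ := ZMod.stdAddChar (N := k) with hψ
  have hψn : ∀ z : ZMod k, ‖ψ z‖ = 1 := fun z => AddChar.norm_apply ψ z
  set δ : ℝ := 1 / (4 * Y) with hδ
  have hδ0 : 0 < δ := by positivity
  have hδY : δ * Y = 1 / 4 := by rw [hδ]; field_simp
  have hJ0 : (0 : ℝ) < J := by exact_mod_cast hJ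
  have hk0 : (0 : ℝ) < k := by exact_mod_cast Nat.pos_of_ne_zero (NeZero.ne k)
  have hNx0 : 0 ≤ Nx := le_trans (Nat.cast_nonneg _) hNx
  have hNy0 : 0 ≤ Ny := le_trans (Nat.cast_nonneg _) hNy
  set c : ι → ℕ := fun r => ⌊x r * (4 * Y)⌋₊ with hc
  have hcJ : ∀ r ∈ R, (c r, w r) ∈ range J ×ˢ (univ : Finset (ZMod k)) := by
    intro r hr
    rw [mem_product, mem_range]
    exact ⟨(Nat.floor_lt (mul_nonneg (hx r hr).1 (by positivity))).2 (hx r hr).2, mem_univ _⟩
  set t : ι → ℝ := fun r => x r - δ * c r with ht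
  have ht0 : ∀ r ∈ R, 0 ≤ t r ∧ t r ≤ δ := by
    intro r hr
    have h0 : 0 ≤ x r * (4 * Y) := mul_nonneg (hx r hr).1 (by positivity)
    have h1 : (c r : ℝ) ≤ x r * (4 * Y) := Nat.floor_le h0
    have h2 : x r * (4 * Y) < c r + 1 := Nat.lt_floor_add_one _
    have h3 : x r = δ * (x r * (4 * Y)) := by rw [hδ]; field_simp
    simp only [ht]
    constructor
    · rw [h3]
      have := mul_le_mul_of_nonneg_left h1 hδ0.le
      have e1 : δ * (δ * (x r * (4 * Y)) * (4 * Y)) = δ * (x r * (4 * Y)) := by rw [hδ]; field_simp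
      linarith
    · have := mul_le_mul_of_nonneg_left h2.le hδ0.le
      rw [← h3] at this
      linarith
  -- the Taylor coefficients
  set An : ℕ → ι → ℂ := fun n r => a r * ((((2 * Real.pi * t r * Y : ℝ) : ℂ) * Complex.I) ^ n / n.factorial) with hAn
  set Bn : ℕ → τ → ℂ := fun n s => b s * (((y s / Y : ℝ) : ℂ) ^ n) with hBn
  have hterm : ∀ r s, HasSum (fun n => An n r * (Bn n s * (e (δ * c r * y s) * ψ (w r * v s))))
      (a r * b s * (e (x r * y s) * ψ (w r * v s))) := by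
    intro r s
    have h1 := NormedSpace.expSeries_div_hasSum_exp (𝔸 := ℂ) ((((2 * Real.pi * (t r * y s) : ℝ) : ℂ)) * Complex.I)
    rw [← Complex.exp_eq_exp_ℂ] at h1
    have h2 := h1.mul_left (a r * b s * (e (δ * c r * y s) * ψ (w r * v s)))
    have h3 : a r * b s * (e (δ * c r * y s) * ψ (w r * v s)) *
        Complex.exp ((((2 * Real.pi * (t r * y s) : ℝ) : ℂ)) * Complex.I) =
        a r * b s * (e (x r * y s) * ψ (w r * v s)) := by
      have h4 : Complex.exp ((((2 * Real.pi * (t r * y s) : ℝ) : ℂ)) * Complex.I) = e (t r * y s) := rfl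
      have h5 : e (x r * y s) = e (δ * c r * y s) * e (t r * y s) := by
        rw [← e_add]
        congr 1
        simp only [ht]; ring
      rw [h4, h5]
      ring
    rw [h3] at h2
    suffices h6 : (fun n => An n r * (Bn n s * (e (δ * c r * y s) * ψ (w r * v s)))) =
        fun n : ℕ => a r * b s * (e (δ * c r * y s) * ψ (w r * v s)) *
          ((((2 * Real.pi * (t r * y s) : ℝ) : ℂ) * Complex.I) ^ n / (n.factorial : ℂ)) by
      rw [h6]; exact h2
    funext n
    simp only [hAn, hBn]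
    have h5 : ((((2 * Real.pi * t r * Y : ℝ) : ℂ) * Complex.I) ^ n) * (((y s / Y : ℝ) : ℂ) ^ n) =
        ((((2 * Real.pi * (t r * y s) : ℝ) : ℂ)) * Complex.I) ^ n := by
      rw [← mul_pow]
      congr 1
      have hYc : (Y : ℂ) ≠ 0 := by exact_mod_cast hY.ne'
      push_cast
      field_simp
    rw [← h5]
    ring
  have htot : HasSum (fun n => ∑ r ∈ R, ∑ s ∈ S, An n r * (Bn n s * (e (δ * c r * y s) * ψ (w r * v s))))
      (∑ r ∈ R, ∑ s ∈ S, a r * b s * (e (x r * y s) * ψ (w r * v s))) :=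
    hasSum_sum fun r _ => hasSum_sum fun s _ => hterm r s
  set Q : ℝ := Real.sqrt (Nx * (17 * J * k * Ny)) with hQ
  have hQ2 : Q ^ 2 = Nx * (17 * J * k * Ny) := Real.sq_sqrt (by positivity)
  have hQ0 : 0 ≤ Q := Real.sqrt_nonneg _
  have hbound : ∀ n, ‖∑ r ∈ R, ∑ s ∈ S, An n r * (Bn n s * (e (δ * c r * y s) * ψ (w r * v s)))‖ ≤
      (Real.pi / 2) ^ n / n.factorial * Q := by
    intro n
    set qn : ℝ := (Real.pi / 2) ^ n / n.factorial with hqn
    have hqn0 : 0 ≤ qn := by have := Real.pi_pos; positivity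
    set G : ℕ × ZMod k → ℂ := fun j => ∑ s ∈ S, Bn n s * (e (δ * j.1 * y s) * ψ (j.2 * v s)) with hG
    have h1 : ∑ r ∈ R, ∑ s ∈ S, An n r * (Bn n s * (e (δ * c r * y s) * ψ (w r * v s))) =
        ∑ j ∈ range J ×ˢ (univ : Finset (ZMod k)), (∑ r ∈ R with (c r, w r) = j, An n r) * G j := by
      calc _ = ∑ r ∈ R, An n r * G (c r, w r) := by
            apply sum_congr rfl; intro r _; rw [mul_sum]
        _ = ∑ j ∈ range J ×ˢ (univ : Finset (ZMod k)), ∑ r ∈ R with (c r, w r) = j, An n r * G (c r, w r) :=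
            (sum_fiberwise_of_maps_to hcJ _).symm
        _ = _ := by
            apply sum_congr rfl; intro j _
            rw [sum_mul]
            apply sum_congr rfl; intro r hr
            rw [(mem_filter.1 hr).2]
    rw [h1]
    have hAr : ∀ r ∈ R, ‖An n r‖ ≤ qn := by
      intro r hr
      simp only [hAn]
      rw [norm_mul, norm_div, norm_pow, norm_mul, Complex.norm_I, mul_one, Complex.norm_real, Complex.norm_natCast]
      have h2 := ht0 r hr
      have h3 : 0 ≤ 2 * Real.pi * t r * Y := by have := Real.pi_pos; have := h2.1; positivity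
      have h4 : ‖2 * Real.pi * t r * Y‖ ≤ Real.pi / 2 := by
        rw [Real.norm_of_nonneg h3]
        calc 2 * Real.pi * t r * Y = 2 * Real.pi * (t r * Y) := by ring
          _ ≤ 2 * Real.pi * (δ * Y) := by
              apply mul_le_mul_of_nonneg_left _ (by have := Real.pi_pos; positivity)
              exact mul_le_mul_of_nonneg_right h2.2 hY.le
          _ = _ := by rw [hδY]; ring
      calc ‖a r‖ * (‖2 * Real.pi * t r * Y‖ ^ n / (n.factorial : ℝ)) ≤ 1 * qn := by
            apply mul_le_mul (ha r hr) _ (by positivity) (by norm_num)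
            rw [hqn]
            apply div_le_div_of_nonneg_right _ (by positivity)
            exact pow_le_pow_left₀ (norm_nonneg _) h4 n
        _ = qn := one_mul _
    have hBs : ∀ s ∈ S, ‖Bn n s‖ ≤ 1 := by
      intro s hs
      simp only [hBn]
      rw [norm_mul, norm_pow, Complex.norm_real]
      have h2 := hy s hs
      have h3 : ‖y s / Y‖ ≤ 1 := by
        rw [Real.norm_of_nonneg (div_nonneg h2.1 hY.le), div_le_one hY]; exact h2.2
      calc ‖b s‖ * ‖y s / Y‖ ^ n ≤ 1 * 1 := mul_le_mul (hb s hs) (pow_le_one₀ (norm_nonneg _) h3) (by positivity) (by norm_num)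
        _ = 1 := mul_one 1
    have hA2 : ∑ j ∈ range J ×ˢ (univ : Finset (ZMod k)), ‖∑ r ∈ R with (c r, w r) = j, An n r‖ ^ 2 ≤ (qn ^ 2) * Nx := by
      have h2 : ∀ j, ‖∑ r ∈ R with (c r, w r) = j, An n r‖ ^ 2 ≤
          qn ^ 2 * (#((R.filter (fun r => (c r, w r) = j)) ×ˢ (R.filter (fun r => (c r, w r) = j))) : ℝ) := by
        intro j
        have h3 : ‖∑ r ∈ R with (c r, w r) = j, An n r‖ ≤ #(R.filter (fun r => (c r, w r) = j)) * qn := by
          refine (norm_sum_le _ _).trans ?_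
          calc ∑ r ∈ R with (c r, w r) = j, ‖An n r‖ ≤ ∑ _r ∈ R with (c _r, w _r) = j, qn :=
                sum_le_sum fun r hr => hAr r (mem_filter.1 hr).1
            _ = _ := by rw [sum_const, nsmul_eq_mul]
        calc _ ≤ (#(R.filter (fun r => (c r, w r) = j)) * qn) ^ 2 := pow_le_pow_left₀ (norm_nonneg _) h3 2
          _ = _ := by rw [card_product]; push_cast; ring
      have h4 : ∑ j ∈ range J ×ˢ (univ : Finset (ZMod k)), (#((R.filter (fun r => (c r, w r) = j)) ×ˢ (R.filter (fun r => (c r, w r) = j))) : ℝ) ≤ Nx := by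
        refine le_trans ?_ hNx
        have h5 : ∑ j ∈ range J ×ˢ (univ : Finset (ZMod k)), #((R.filter (fun r => (c r, w r) = j)) ×ˢ (R.filter (fun r => (c r, w r) = j))) ≤
            #((R ×ˢ R).filter (fun z => w z.1 = w z.2 ∧ |x z.1 - x z.2| ≤ δ)) := by
          rw [← card_sigma]
          apply card_le_card_of_injOn (fun z => z.2)
          · rintro ⟨j, r, r'⟩ hz
            rw [mem_coe, mem_sigma] at hz
            obtain ⟨_, hz⟩ := hz
            rw [mem_product, mem_filter, mem_filter] at hz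
            obtain ⟨⟨hr, hrj⟩, ⟨hr', hrj'⟩⟩ := hz
            simp only at hr hrj hr' hrj'
            rw [mem_coe, mem_filter, mem_product]
            have h6 : (c r, w r) = (c r', w r') := hrj.trans hrj'.symm
            simp only [Prod.mk.injEq] at h6
            refine ⟨⟨hr, hr'⟩, h6.2, ?_⟩
            have e1 := ht0 r hr
            have e2 := ht0 r' hr'
            have e3 : x r - x r' = t r - t r' := by
              simp only [ht]; rw [h6.1]; ring
            simp only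
            rw [e3, abs_le]
            constructor <;> linarith
          · rintro ⟨j, r, r'⟩ hz ⟨j', r₁, r₁'⟩ hz' heq
            rw [mem_coe, mem_sigma] at hz hz'
            obtain ⟨_, hz⟩ := hz
            obtain ⟨_, hz'⟩ := hz'
            rw [mem_product, mem_filter, mem_filter] at hz hz'
            simp only [Prod.mk.injEq] at heq
            obtain ⟨h6, h7⟩ := heq
            subst h6; subst h7
            have h8 : j = j' := (show (c r, w r) = j from hz.1.2).symm.trans (show (c r, w r) = j' from hz'.1.2)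
            subst h8
            rfl
        exact_mod_cast h5
      calc _ ≤ ∑ j ∈ range J ×ˢ (univ : Finset (ZMod k)), qn ^ 2 * (#((R.filter (fun r => (c r, w r) = j)) ×ˢ (R.filter (fun r => (c r, w r) = j))) : ℝ) :=
            sum_le_sum fun j _ => h2 j
        _ = qn ^ 2 * ∑ j ∈ range J ×ˢ (univ : Finset (ZMod k)), (#((R.filter (fun r => (c r, w r) = j)) ×ˢ (R.filter (fun r => (c r, w r) = j))) : ℝ) := by rw [mul_sum]
        _ ≤ qn ^ 2 * Nx := mul_le_mul_of_nonneg_left h4 (by positivity)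
    have hG2 : ∑ j ∈ range J ×ˢ (univ : Finset (ZMod k)), ‖G j‖ ^ 2 ≤ 17 * J * k * Ny := by
      -- orthogonality in the residue variable
      have h2 : ∀ j : ℕ, ∑ q : ZMod k, ‖G (j, q)‖ ^ 2 =
          k * ∑ g : ZMod k, ‖∑ s ∈ S.filter (fun s => v s = g), Bn n s * e (δ * j * y s)‖ ^ 2 := by
        intro j
        set D : ZMod k → ℂ := fun g => ∑ s ∈ S.filter (fun s => v s = g), Bn n s * e (δ * j * y s) with hD
        have h3 : ∀ q, G (j, q) = ∑ g : ZMod k, D g * ψ (q * g) := by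
          intro q
          simp only [hG, hD]
          rw [← sum_fiberwise_of_maps_to (s := S) (t := (univ : Finset (ZMod k))) (g := v) (fun s _ => mem_univ _)]
          apply sum_congr rfl
          intro g _
          rw [sum_mul]
          apply sum_congr rfl
          intro s hs
          rw [(mem_filter.1 hs).2]
          ring
        rw [sum_congr rfl fun q _ => by rw [h3 q]]
        exact parseval k D
      have h3 : ∀ g : ZMod k, (J : ℝ) * ∑ j ∈ range J, ‖∑ s ∈ S.filter (fun s => v s = g), Bn n s * e (δ * j * y s)‖ ^ 2 ≤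
          ∑ z ∈ (S.filter (fun s => v s = g)) ×ˢ (S.filter (fun s => v s = g)),
            ‖∑ p ∈ range (2 * J), e (δ * p * (y z.1 - y z.2))‖ ^ 2 := by
        intro g
        refine (grid_sum (S.filter (fun s => v s = g)) y (Bn n) δ J).trans ?_
        rw [sum_product]
        apply sum_le_sum
        intro s hs
        apply sum_le_sum
        intro s' hs'
        have h5 := hBs s (mem_filter.1 hs).1
        have h6 := hBs s' (mem_filter.1 hs').1
        have h7 : ‖Bn n s‖ * ‖Bn n s'‖ ≤ 1 := by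
          calc _ ≤ 1 * 1 := mul_le_mul h5 h6 (norm_nonneg _) (by norm_num)
            _ = 1 := one_mul 1
        calc _ ≤ 1 * ‖∑ p ∈ range (2 * J), e (δ * p * (y s - y s'))‖ ^ 2 :=
              mul_le_mul_of_nonneg_right h7 (by positivity)
          _ = _ := one_mul _
      have h4 : ∑ g : ZMod k, ∑ z ∈ (S.filter (fun s => v s = g)) ×ˢ (S.filter (fun s => v s = g)),
            ‖∑ p ∈ range (2 * J), e (δ * p * (y z.1 - y z.2))‖ ^ 2 =
          ∑ z ∈ (S ×ˢ S).filter (fun z => v z.1 = v z.2),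
            ‖∑ p ∈ range (2 * J), e (δ * p * (y z.1 - y z.2))‖ ^ 2 := by
        rw [← sum_fiberwise_of_maps_to (s := (S ×ˢ S).filter (fun z => v z.1 = v z.2)) (t := (univ : Finset (ZMod k)))
          (g := fun z => v z.1) (fun s _ => mem_univ _)]
        apply sum_congr rfl
        intro g _
        apply sum_congr _ (fun _ _ => rfl)
        ext z
        simp only [mem_product, mem_filter]
        constructor
        · rintro ⟨⟨h5, h6⟩, h7, h8⟩
          exact ⟨⟨⟨h5, h7⟩, h6.trans h8.symm⟩, h6⟩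
        · rintro ⟨⟨⟨h5, h7⟩, h8⟩, h6⟩
          exact ⟨⟨h5, h6⟩, h7, h8.symm.trans h6⟩
      have h5 := ker_sum S y v Y hY J hJ hy
      have h6 : (J : ℝ) * ∑ j ∈ range J ×ˢ (univ : Finset (ZMod k)), ‖G j‖ ^ 2 ≤ J * (17 * J * k * Ny) := by
        rw [sum_product]
        calc (J : ℝ) * ∑ j ∈ range J, ∑ q : ZMod k, ‖G (j, q)‖ ^ 2
            = k * ∑ g : ZMod k, ((J : ℝ) * ∑ j ∈ range J, ‖∑ s ∈ S.filter (fun s => v s = g), Bn n s * e (δ * j * y s)‖ ^ 2) := by
              rw [sum_congr rfl fun j _ => h2 j, ← mul_sum, sum_comm, ← mul_sum]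
              ring
          _ ≤ k * ∑ g : ZMod k, ∑ z ∈ (S.filter (fun s => v s = g)) ×ˢ (S.filter (fun s => v s = g)),
            ‖∑ p ∈ range (2 * J), e (δ * p * (y z.1 - y z.2))‖ ^ 2 :=
              mul_le_mul_of_nonneg_left (sum_le_sum fun g _ => h3 g) hk0.le
          _ ≤ k * (17 * J ^ 2 * Ny) := by
              rw [h4]
              apply mul_le_mul_of_nonneg_left _ hk0.le
              refine h5.trans ?_
              exact mul_le_mul_of_nonneg_left hNy (by positivity)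
          _ = _ := by ring
      exact le_of_mul_le_mul_left h6 hJ0
    have hsq : ‖∑ j ∈ range J ×ˢ (univ : Finset (ZMod k)), (∑ r ∈ R with (c r, w r) = j, An n r) * G j‖ ^ 2 ≤ (qn * Q) ^ 2 := by
      calc _ ≤ (∑ j ∈ range J ×ˢ (univ : Finset (ZMod k)), ‖∑ r ∈ R with (c r, w r) = j, An n r‖ * ‖G j‖) ^ 2 := by
            apply pow_le_pow_left₀ (norm_nonneg _)
            refine (norm_sum_le _ _).trans (le_of_eq ?_)
            apply sum_congr rfl; intro j _; rw [norm_mul]
        _ ≤ (∑ j ∈ range J ×ˢ (univ : Finset (ZMod k)), ‖∑ r ∈ R with (c r, w r) = j, An n r‖ ^ 2) *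
            ∑ j ∈ range J ×ˢ (univ : Finset (ZMod k)), ‖G j‖ ^ 2 := sum_mul_sq_le_sq_mul_sq _ _ _
        _ ≤ ((qn ^ 2) * Nx) * (17 * J * k * Ny) := mul_le_mul hA2 hG2 (sum_nonneg fun _ _ => by positivity) (by positivity)
        _ = _ := by rw [mul_pow, hQ2]; ring
    exact (pow_le_pow_iff_left₀ (norm_nonneg _) (by positivity) (by norm_num)).1 hsq
  have hexps : HasSum (fun n : ℕ => (Real.pi / 2) ^ n / n.factorial * Q) (Real.exp (Real.pi / 2) * Q) := by
    have h1 := NormedSpace.expSeries_div_hasSum_exp (𝔸 := ℝ) (Real.pi / 2)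
    rw [← Real.exp_eq_exp_ℝ] at h1
    exact h1.mul_right Q
  have hnorm := htot.norm_le_of_bounded hexps hbound
  have hexp25 : Real.exp (Real.pi / 2) ^ 2 ≤ 25 := by
    rw [← Real.exp_nat_mul, show ((2 : ℕ) : ℝ) * (Real.pi / 2) = 3 + (Real.pi - 3) by push_cast; ring, Real.exp_add]
    have h1 : Real.pi - 3 ≤ 0.15 := by have := Real.pi_lt_d2; linarith
    have h2 : Real.exp (Real.pi - 3) ≤ 20 / 17 := by
      refine (Real.exp_le_exp.2 h1).trans ?_
      have h3 : (17 / 20 : ℝ) ≤ Real.exp (-0.15) := by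
        have := Real.add_one_le_exp (-0.15 : ℝ)
        linarith
      rw [Real.exp_neg] at h3
      have h4 := Real.exp_pos 0.15
      rw [le_inv_comm₀ (by norm_num) h4] at h3
      refine h3.trans (by norm_num)
    have h3 : Real.exp 3 ≤ 20.1 := by
      have h4 := Real.exp_one_lt_d9
      have h5 : Real.exp 3 = Real.exp 1 ^ 3 := by rw [← Real.exp_nat_mul]; norm_num
      rw [h5]
      calc Real.exp 1 ^ 3 ≤ 2.7182818286 ^ 3 := pow_le_pow_left₀ (Real.exp_pos 1).le h4.le 3
        _ ≤ 20.1 := by norm_num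
    calc Real.exp 3 * Real.exp (Real.pi - 3) ≤ 20.1 * (20 / 17) := mul_le_mul h3 h2 (Real.exp_pos _).le (by norm_num)
      _ ≤ 25 := by norm_num
  calc ‖∑ r ∈ R, ∑ s ∈ S, a r * b s * (e (x r * y s) * ψ (w r * v s))‖ ^ 2 ≤
        (Real.exp (Real.pi / 2) * Q) ^ 2 := pow_le_pow_left₀ (norm_nonneg _) hnorm 2
    _ = Real.exp (Real.pi / 2) ^ 2 * (Nx * (17 * J * k * Ny)) := by rw [mul_pow, hQ2]
    _ ≤ _ := mul_le_mul_of_nonneg_right hexp25 (by positivity)

end Pool.Agent.Y844.BT
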