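import Mathlib
import Pool.Agent.Helper112.Arith

/-! The energy of reciprocals (Karatsuba): real and modular coincidences. -/

set_option autoImplicit false

namespace Pool.Agent.Y844.BT

open Finset

/-- powerful numbers -/
def Pw (q : ℕ) : Prop := ∀ p : ℕ, p.Prime → p ∣ q → p ^ 2 ∣ q

theorem Pw_rep (q : ℕ) (hq : 0 < q) (h : Pw q) : ∃ a b : ℕ, 0 < a ∧ 0 < b ∧ q = a ^ 2 * b ^ 3 := by
  obtain ⟨b, c, hbc, hb⟩ := Nat.sq_mul_squarefree q
  have hb0 : 0 < b := by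
    rcases Nat.eq_zero_or_pos b with h0 | h0
    · rw [h0] at hbc; omega
    · exact h0
  have hc0 : 0 < c := by
    rcases Nat.eq_zero_or_pos c with h0 | h0
    · rw [h0] at hbc; omega
    · exact h0
  have h1 : b ∣ c := by
    rw [← Nat.prod_primeFactors_of_squarefree hb]
    apply Finset.prod_primes_dvd
    · intro p hp
      exact (Nat.prime_of_mem_primeFactors hp).prime
    · intro p hp
      have hpp := Nat.prime_of_mem_primeFactors hp
      have hpb := Nat.dvd_of_mem_primeFactors hp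
      have h2 : p ^ 2 ∣ q := h p hpp (hbc ▸ Dvd.dvd.mul_left hpb _)
      by_contra hpc
      rw [← hbc] at h2
      have h3 : Nat.Coprime (p ^ 2) (c ^ 2) :=
        Nat.Coprime.pow 2 2 ((Nat.Prime.coprime_iff_not_dvd hpp).2 hpc)
      have h4 : p ^ 2 ∣ b := h3.dvd_of_dvd_mul_left h2
      have h5 := hb p (by rw [← sq]; exact h4)
      exact hpp.one_lt.ne' (Nat.isUnit_iff.1 h5)
  obtain ⟨a, rfl⟩ := h1
  refine ⟨a, b, Nat.pos_of_ne_zero (fun h0 => by rw [h0, mul_zero] at hc0; omega), hb0, ?_⟩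
  rw [← hbc]
  ring

open Classical in
theorem Pw_card (Y : ℕ) (hY : 1 ≤ Y) :
    (((Icc 1 Y).filter Pw).card : ℝ) ≤ Real.sqrt Y * (1 + Real.log Y) := by
  set R : ℕ := Nat.sqrt Y with hR
  have hR1 : 1 ≤ R := by
    rw [hR, Nat.le_sqrt]
    omega
  have h1 : (Icc 1 Y).filter Pw ⊆
      ((Icc 1 R).sigma (fun b => Icc 1 (R / b))).image (fun x => x.2 ^ 2 * x.1 ^ 3) := by
    intro q hq
    rw [mem_filter, mem_Icc] at hq
    obtain ⟨a, b, ha, hb, hab⟩ := Pw_rep q (by omega) hq.2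
    rw [mem_image]
    refine ⟨⟨b, a⟩, ?_, hab.symm⟩
    have h2 : (a * b) * (a * b) ≤ Y := by
      refine le_trans ?_ hq.1.2
      rw [hab]
      have : 1 ≤ b := hb
      calc a * b * (a * b) = a ^ 2 * b ^ 2 * 1 := by ring
        _ ≤ a ^ 2 * b ^ 2 * b := Nat.mul_le_mul_left _ this
        _ = a ^ 2 * b ^ 3 := by ring
    have h3 : a * b ≤ R := Nat.le_sqrt.2 h2
    rw [mem_sigma, mem_Icc, mem_Icc]
    refine ⟨⟨hb, ?_⟩, ha, ?_⟩
    · exact (Nat.le_mul_of_pos_left _ ha).trans h3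
    · exact (Nat.le_div_iff_mul_le hb).2 h3
  have h2 : (((Icc 1 Y).filter Pw).card : ℝ) ≤ ∑ b ∈ Icc 1 R, ((R / b : ℕ) : ℝ) := by
    have h3 := (card_le_card h1).trans card_image_le
    rw [card_sigma] at h3
    simp only [Nat.card_Icc, Nat.add_sub_cancel] at h3
    exact_mod_cast h3
  have h3 : ∑ b ∈ Icc 1 R, ((R / b : ℕ) : ℝ) ≤ R * ∑ b ∈ Icc 1 R, ((b : ℝ))⁻¹ := by
    rw [mul_sum]
    apply sum_le_sum
    intro b _
    exact Nat.cast_div_le.trans (le_of_eq (div_eq_mul_inv _ _))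
  have h4 : ∑ b ∈ Icc 1 R, ((b : ℝ))⁻¹ ≤ 1 + Real.log R := by
    have h5 := harmonic_le_one_add_log R
    rw [harmonic_eq_sum_Icc] at h5
    push_cast at h5
    exact h5
  have hRs : (R : ℝ) ≤ Real.sqrt Y := by
    apply Real.le_sqrt_of_sq_le
    have := Nat.sqrt_le' Y
    exact_mod_cast this
  have hY1 : (1 : ℝ) ≤ Y := by exact_mod_cast hY
  have hR1' : (1 : ℝ) ≤ R := by exact_mod_cast hR1
  have h6 : Real.log R ≤ Real.log Y := by
    apply Real.log_le_log (by linarith)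
    exact_mod_cast Nat.sqrt_le_self Y
  have h7 : 0 ≤ Real.log R := Real.log_nonneg hR1'
  calc (((Icc 1 Y).filter Pw).card : ℝ) ≤ R * ∑ b ∈ Icc 1 R, ((b : ℝ))⁻¹ := h2.trans h3
    _ ≤ R * (1 + Real.log R) := mul_le_mul_of_nonneg_left h4 (by positivity)
    _ ≤ Real.sqrt Y * (1 + Real.log Y) := by
        apply mul_le_mul hRs (by linarith) (by linarith) (Real.sqrt_nonneg _)

section

variable {ι : Type} [Fintype ι] [DecidableEq ι]

/-- a vanishing signed sum of reciprocals has a powerful product of denominators -/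
theorem Pw_of_zero (f : ι → ℕ) (σ : ι → ℤ) (hσ : ∀ i, σ i = 1 ∨ σ i = -1) (hf : ∀ i, 0 < f i)
    (h0 : ∑ i, σ i * ((∏ j, f j) / f i : ℕ) = 0) : Pw (∏ j, f j) := by
  intro p hp hpd
  by_contra hp2
  set Q := ∏ j, f j with hQ
  have hdiv : ∀ i, Q = f i * (Q / f i) := fun i => (Nat.mul_div_cancel' (dvd_prod_of_mem f (mem_univ i))).symm
  obtain ⟨i0, _, hi0⟩ := (Nat.Prime.prime hp).exists_mem_finset_dvd hpd
  have h1 : ¬ p ∣ Q / f i0 := by
    intro h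
    apply hp2
    rw [hdiv i0, sq]
    exact mul_dvd_mul hi0 h
  have h2 : ∀ i, i ≠ i0 → p ∣ Q / f i := by
    intro i hi
    have h3 : ¬ p ∣ f i := by
      intro h4
      apply h1
      have h5 : Q = f i0 * (f i * ∏ j ∈ (univ.erase i0).erase i, f j) := by
        rw [hQ, ← mul_prod_erase univ f (mem_univ i0),
          ← mul_prod_erase (univ.erase i0) f (mem_erase.2 ⟨hi, mem_univ i⟩)]
      rw [h5, Nat.mul_div_cancel_left _ (hf i0)]
      exact h4.mul_right _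
    have h6 : p ∣ f i * (Q / f i) := by rw [← hdiv i]; exact hpd
    rcases (Nat.Prime.dvd_mul hp).1 h6 with h7 | h7
    · exact absurd h7 h3
    · exact h7
  have h3 : (p : ℤ) ∣ ∑ i ∈ univ.erase i0, σ i * ((Q / f i : ℕ) : ℤ) := by
    apply dvd_sum
    intro i hi
    exact Dvd.dvd.mul_left (Int.natCast_dvd_natCast.2 (h2 i (ne_of_mem_erase hi))) _
  have h4 : σ i0 * ((Q / f i0 : ℕ) : ℤ) + ∑ i ∈ univ.erase i0, σ i * ((Q / f i : ℕ) : ℤ) = 0 := by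
    rw [add_sum_erase univ (fun i => σ i * ((Q / f i : ℕ) : ℤ)) (mem_univ i0)]
    exact h0
  have h5 : (p : ℤ) ∣ σ i0 * ((Q / f i0 : ℕ) : ℤ) := by
    have h6 : σ i0 * ((Q / f i0 : ℕ) : ℤ) = - ∑ i ∈ univ.erase i0, σ i * ((Q / f i : ℕ) : ℤ) := by
      linarith
    rw [h6]
    exact (dvd_neg).2 h3
  apply h1
  rw [← Int.natCast_dvd_natCast]
  rcases hσ i0 with h6 | h6
  · rw [h6, one_mul] at h5; exact h5
  · rw [h6, neg_one_mul, dvd_neg] at h5; exact h5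

/-- close and congruent sums of reciprocals are equal -/
theorem zero_of_close (f : ι → ℕ) (σ : ι → ℤ) (hf : ∀ i, 0 < f i)
    (k : ℕ) (hco : ∀ i, Nat.Coprime (f i) k) (hv : ∑ i, (σ i : ZMod k) * (f i : ZMod k)⁻¹ = 0)
    (ρ : ℝ) (hu : |∑ i, (σ i : ℝ) / (f i : ℝ)| ≤ ρ) (hρ : ((∏ j, f j : ℕ) : ℝ) * ρ < k) :
    ∑ i, σ i * ((∏ j, f j) / f i : ℕ) = 0 := by
  set Q := ∏ j, f j with hQ
  have hdiv : ∀ i, f i * (Q / f i) = Q := fun i => (Nat.mul_div_cancel' (dvd_prod_of_mem f (mem_univ i)))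
  have hQ0 : 0 < Q := Finset.prod_pos fun i _ => hf i
  have h1 : ((∑ i, σ i * ((Q / f i : ℕ) : ℤ) : ℤ) : ℝ) = Q * ∑ i, (σ i : ℝ) / (f i : ℝ) := by
    rw [Int.cast_sum, mul_sum]
    apply sum_congr rfl
    intro i _
    have h2 : ((f i : ℕ) : ℝ) ≠ 0 := by exact_mod_cast (hf i).ne'
    have h3 : ((f i : ℕ) : ℝ) * ((Q / f i : ℕ) : ℝ) = Q := by
      rw [← Nat.cast_mul, hdiv i]
    rw [Int.cast_mul, Int.cast_natCast, mul_div_assoc', eq_div_iff h2, ← h3]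
    ring
  have h2 : ((∑ i, σ i * ((Q / f i : ℕ) : ℤ) : ℤ) : ZMod k) = 0 := by
    have h3 : ((∑ i, σ i * ((Q / f i : ℕ) : ℤ) : ℤ) : ZMod k) =
        (Q : ZMod k) * ∑ i, (σ i : ZMod k) * (f i : ZMod k)⁻¹ := by
      rw [Int.cast_sum, mul_sum]
      apply sum_congr rfl
      intro i _
      rw [Int.cast_mul, Int.cast_natCast]
      have h4 : (f i : ZMod k) * (f i : ZMod k)⁻¹ = 1 := ZMod.coe_mul_inv_eq_one _ (hco i)
      have h5 : (Q : ZMod k) = (f i : ZMod k) * ((Q / f i : ℕ) : ZMod k) := by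
        rw [← Nat.cast_mul, hdiv i]
      calc (σ i : ZMod k) * ((Q / f i : ℕ) : ZMod k)
          = (σ i : ZMod k) * ((Q / f i : ℕ) : ZMod k) * ((f i : ZMod k) * (f i : ZMod k)⁻¹) := by
            rw [h4, mul_one]
        _ = ((f i : ZMod k) * ((Q / f i : ℕ) : ZMod k)) * ((σ i : ZMod k) * (f i : ZMod k)⁻¹) := by ring
        _ = _ := by rw [← h5]
    rw [h3, hv, mul_zero]
  have h3 : (k : ℤ) ∣ ∑ i, σ i * ((Q / f i : ℕ) : ℤ) := (ZMod.intCast_zmod_eq_zero_iff_dvd _ k).1 h2 |>.trans (dvd_refl _)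
  by_contra hne
  have h4 := Int.le_of_dvd (abs_pos.2 hne) ((dvd_abs _ _).2 h3)
  have h5 : (k : ℝ) ≤ |((∑ i, σ i * ((Q / f i : ℕ) : ℤ) : ℤ) : ℝ)| := by exact_mod_cast h4
  rw [h1, abs_mul, abs_of_nonneg (Nat.cast_nonneg Q)] at h5
  have h6 : (Q : ℝ) * |∑ i, (σ i : ℝ) / (f i : ℝ)| ≤ Q * ρ :=
    mul_le_mul_of_nonneg_left hu (Nat.cast_nonneg Q)
  linarith

open Classical in
theorem count_pw (ε : ℝ) (hε : 0 < ε) : ∃ C : ℝ, 0 < C ∧ ∀ N : ℕ, 1 ≤ N →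
    (((Fintype.piFinset (fun _ : ι => Icc 1 N)).filter (fun f => Pw (∏ i, f i))).card : ℝ) ≤
      C * (N : ℝ) ^ ((Fintype.card ι : ℝ) / 2 + ε) := by
  obtain ⟨r, hr⟩ : ∃ r : ℕ, r = Fintype.card ι := ⟨_, rfl⟩
  set ε' : ℝ := ε / (2 * ((r : ℝ) ^ 2 + 1)) with hε'
  have hε'0 : 0 < ε' := by positivity
  obtain ⟨C, hC0, hC⟩ := Pool.Agent.Helper112.divisor_bound ε' hε'0
  have hx : 0 < ε / (2 * ((r : ℝ) + 1)) := by positivity
  refine ⟨C ^ r * (1 + 2 * ((r : ℝ) + 1) / ε), by positivity, fun N hN => ?_⟩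
  have hN1 : (1 : ℝ) ≤ N := by exact_mod_cast hN
  have hN0 : (0 : ℝ) < N := by linarith
  have hY : 1 ≤ N ^ r := Nat.one_le_pow _ _ hN
  have h1 : ((Fintype.piFinset (fun _ : ι => Icc 1 N)).filter (fun f => Pw (∏ i, f i))).card ≤
      ∑ q ∈ (Icc 1 (N ^ r)).filter Pw, (q.divisors.card) ^ r := by
    have h2 : ∀ f ∈ (Fintype.piFinset (fun _ : ι => Icc 1 N)).filter (fun f => Pw (∏ i, f i)),
        ∏ i, f i ∈ (Icc 1 (N ^ r)).filter Pw := by
      intro f hf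
      rw [mem_filter, Fintype.mem_piFinset] at hf
      rw [mem_filter, mem_Icc]
      refine ⟨⟨?_, ?_⟩, hf.2⟩
      · exact Nat.one_le_iff_ne_zero.2 (Finset.prod_pos fun i _ => Nat.lt_of_lt_of_le Nat.zero_lt_one (mem_Icc.1 (hf.1 i)).1).ne'
      · rw [hr, ← Finset.card_univ, ← Finset.prod_const]
        exact Finset.prod_le_prod' fun i _ => (mem_Icc.1 (hf.1 i)).2
    rw [card_eq_sum_card_fiberwise h2]
    apply sum_le_sum
    intro q hq
    rw [mem_filter, mem_Icc] at hq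
    have h3 : ((Fintype.piFinset (fun _ : ι => Icc 1 N)).filter (fun f => Pw (∏ i, f i))).filter
        (fun f => ∏ i, f i = q) ⊆ Fintype.piFinset (fun _ : ι => q.divisors) := by
      intro f hf
      rw [mem_filter] at hf
      rw [Fintype.mem_piFinset]
      intro i
      rw [Nat.mem_divisors]
      exact ⟨hf.2 ▸ dvd_prod_of_mem f (mem_univ i), by omega⟩
    refine (card_le_card h3).trans (le_of_eq ?_)
    rw [Fintype.card_piFinset, Finset.prod_const, Finset.card_univ, ← hr]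
  have h2 : (((Fintype.piFinset (fun _ : ι => Icc 1 N)).filter (fun f => Pw (∏ i, f i))).card : ℝ) ≤
      ∑ q ∈ (Icc 1 (N ^ r)).filter Pw, ((q.divisors.card : ℕ) : ℝ) ^ r := by exact_mod_cast h1
  have h3 : ∀ q ∈ (Icc 1 (N ^ r)).filter Pw, ((q.divisors.card : ℕ) : ℝ) ^ r ≤
      C ^ r * (N : ℝ) ^ (ε / 2) := by
    intro q hq
    rw [mem_filter, mem_Icc] at hq
    have h4 := hC q hq.1.1
    have h5 : (q : ℝ) ≤ (N : ℝ) ^ (r : ℝ) := by
      rw [Real.rpow_natCast]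
      exact_mod_cast hq.1.2
    have h6 : (q : ℝ) ^ ε' ≤ (N : ℝ) ^ ((r : ℝ) * ε') := by
      rw [Real.rpow_mul hN0.le]
      exact Real.rpow_le_rpow (Nat.cast_nonneg q) h5 hε'0.le
    have h7 : ((q.divisors.card : ℕ) : ℝ) ≤ C * (N : ℝ) ^ ((r : ℝ) * ε') :=
      h4.trans (mul_le_mul_of_nonneg_left h6 hC0.le)
    calc ((q.divisors.card : ℕ) : ℝ) ^ r ≤ (C * (N : ℝ) ^ ((r : ℝ) * ε')) ^ r :=
          pow_le_pow_left₀ (Nat.cast_nonneg _) h7 r
      _ = C ^ r * (N : ℝ) ^ ((r : ℝ) * ε' * r) := by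
          rw [mul_pow, ← Real.rpow_natCast ((N : ℝ) ^ ((r : ℝ) * ε')), ← Real.rpow_mul hN0.le]
      _ ≤ C ^ r * (N : ℝ) ^ (ε / 2) := by
          apply mul_le_mul_of_nonneg_left _ (by positivity)
          apply Real.rpow_le_rpow_of_exponent_le hN1
          rw [hε', mul_comm (r : ℝ) (ε / _), mul_assoc, div_mul_eq_mul_div, div_le_div_iff₀ (by positivity) (by norm_num)]
          nlinarith [sq_nonneg (r : ℝ)]
  have h4 : (∑ q ∈ (Icc 1 (N ^ r)).filter Pw, ((q.divisors.card : ℕ) : ℝ) ^ r) ≤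
      (Real.sqrt (N ^ r : ℕ) * (1 + Real.log (N ^ r : ℕ))) * (C ^ r * (N : ℝ) ^ (ε / 2)) := by
    calc _ ≤ ∑ q ∈ (Icc 1 (N ^ r)).filter Pw, C ^ r * (N : ℝ) ^ (ε / 2) := sum_le_sum h3
      _ = (((Icc 1 (N ^ r)).filter Pw).card : ℝ) * (C ^ r * (N : ℝ) ^ (ε / 2)) := by
          rw [sum_const, nsmul_eq_mul]
      _ ≤ _ := mul_le_mul_of_nonneg_right (Pw_card _ hY) (by positivity)
  have h5 : Real.sqrt (N ^ r : ℕ) = (N : ℝ) ^ ((r : ℝ) / 2) := by
    rw [Real.sqrt_eq_rpow]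
    push_cast
    rw [← Real.rpow_natCast, ← Real.rpow_mul hN0.le]
    congr 1
    ring
  have h6 : 1 + Real.log (N ^ r : ℕ) ≤ (1 + 2 * ((r : ℝ) + 1) / ε) * (N : ℝ) ^ (ε / 2) := by
    push_cast
    rw [Real.log_pow]
    have h7 := Real.log_le_rpow_div hN0.le (show 0 < ε / 2 by positivity)
    have h8 : (1 : ℝ) ≤ (N : ℝ) ^ (ε / 2) := Real.one_le_rpow hN1 (by positivity)
    have h9 : (r : ℝ) * Real.log N ≤ r * ((N : ℝ) ^ (ε / 2) / (ε / 2)) :=
      mul_le_mul_of_nonneg_left h7 (Nat.cast_nonneg r)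
    have h10 : (r : ℝ) * ((N : ℝ) ^ (ε / 2) / (ε / 2)) ≤ 2 * ((r : ℝ) + 1) / ε * (N : ℝ) ^ (ε / 2) := by
      have : (r : ℝ) * ((N : ℝ) ^ (ε / 2) / (ε / 2)) = 2 * r / ε * (N : ℝ) ^ (ε / 2) := by
        field_simp
      rw [this]
      apply mul_le_mul_of_nonneg_right _ (by positivity)
      apply div_le_div_of_nonneg_right _ hε.le
      linarith
    rw [add_mul, one_mul]
    linarith
  refine h2.trans (h4.trans ?_)
  rw [h5, ← hr]
  calc (N : ℝ) ^ ((r : ℝ) / 2) * (1 + Real.log (N ^ r : ℕ)) * (C ^ r * (N : ℝ) ^ (ε / 2))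
      ≤ (N : ℝ) ^ ((r : ℝ) / 2) * ((1 + 2 * ((r : ℝ) + 1) / ε) * (N : ℝ) ^ (ε / 2)) *
          (C ^ r * (N : ℝ) ^ (ε / 2)) := by gcongr
    _ = C ^ r * (1 + 2 * ((r : ℝ) + 1) / ε) *
          ((N : ℝ) ^ ((r : ℝ) / 2) * ((N : ℝ) ^ (ε / 2) * (N : ℝ) ^ (ε / 2))) := by ring
    _ = C ^ r * (1 + 2 * ((r : ℝ) + 1) / ε) * (N : ℝ) ^ ((r : ℝ) / 2 + ε) := by
        rw [← Real.rpow_add hN0, ← Real.rpow_add hN0]
        congr 2
        ring

end

open Classical in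
/-- the energy of reciprocals: diagonal range -/
theorem energy (s : ℕ) (ε : ℝ) (hε : 0 < ε) : ∃ C : ℝ, 0 < C ∧ ∀ (N : ℕ) (𝓝 : Finset ℕ), 1 ≤ N →
    (∀ n ∈ 𝓝, 1 ≤ n ∧ n ≤ N) → ∀ k : ℕ, (∀ n ∈ 𝓝, Nat.Coprime n k) → ∀ ρ : ℝ,
    (N : ℝ) ^ (2 * s) * ρ < k →
    ((((Fintype.piFinset (fun _ : Fin s => 𝓝)) ×ˢ (Fintype.piFinset (fun _ : Fin s => 𝓝))).filter
      (fun v => (∑ i, (v.1 i : ZMod k)⁻¹ = ∑ i, (v.2 i : ZMod k)⁻¹) ∧
        |∑ i, 1 / (v.1 i : ℝ) - ∑ i, 1 / (v.2 i : ℝ)| ≤ ρ)).card : ℝ) ≤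
      C * (N : ℝ) ^ ((s : ℝ) + ε) := by
  obtain ⟨C, hC0, hC⟩ := count_pw (ι := Fin s ⊕ Fin s) ε hε
  refine ⟨C, hC0, fun N 𝓝 hN h𝓝 k hco ρ hρ => ?_⟩
  have h1 := hC N hN
  have hcard : (Fintype.card (Fin s ⊕ Fin s) : ℝ) / 2 = s := by
    rw [Fintype.card_sum, Fintype.card_fin]
    push_cast
    ring
  rw [hcard] at h1
  refine le_trans ?_ h1
  apply Nat.cast_le.2
  apply card_le_card_of_injOn (fun v => Sum.elim v.1 v.2)
  · intro v hv
    rw [mem_coe, mem_filter, mem_product, Fintype.mem_piFinset, Fintype.mem_piFinset] at hv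
    obtain ⟨⟨hv1, hv2⟩, hv3, hv4⟩ := hv
    have hmem : ∀ i, (Sum.elim v.1 v.2) i ∈ 𝓝 := by
      rintro (i | i)
      · exact hv1 i
      · exact hv2 i
    rw [mem_coe, mem_filter, Fintype.mem_piFinset]
    refine ⟨fun i => mem_Icc.2 (h𝓝 _ (hmem i)), ?_⟩
    set σ : Fin s ⊕ Fin s → ℤ := Sum.elim (fun _ => 1) (fun _ => -1) with hσ
    have hf : ∀ i, 0 < (Sum.elim v.1 v.2) i := fun i => (h𝓝 _ (hmem i)).1
    apply Pw_of_zero _ σ _ hf
    · apply zero_of_close _ σ hf k (fun i => hco _ (hmem i)) _ ρ _ _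
      · rw [Fintype.sum_sum_type]
        simp only [hσ, Sum.elim_inl, Sum.elim_inr, Int.cast_one, one_mul, Int.cast_neg, neg_mul]
        rw [hv3, sum_neg_distrib, add_neg_cancel]
      · rw [Fintype.sum_sum_type]
        simp only [hσ, Sum.elim_inl, Sum.elim_inr, Int.cast_one, Int.cast_neg, neg_div]
        rw [sum_neg_distrib, ← sub_eq_add_neg]
        exact hv4
      · refine lt_of_le_of_lt ?_ hρ
        have hρ0 : 0 ≤ ρ := (abs_nonneg _).trans hv4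
        apply mul_le_mul_of_nonneg_right _ hρ0
        have h2 : ∏ j, (Sum.elim v.1 v.2) j ≤ N ^ (2 * s) := by
          have h3 : N ^ (2 * s) = ∏ _j : Fin s ⊕ Fin s, N := by
            rw [prod_const, card_univ, Fintype.card_sum, Fintype.card_fin]
            congr 1
            ring
          rw [h3]
          exact Finset.prod_le_prod' fun i _ => (h𝓝 _ (hmem i)).2
        exact_mod_cast h2
    · rintro (i | i)
      · left; rfl
      · right; rfl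
  · intro v _ w _ h
    have h1 : v.1 = w.1 := by
      funext i
      exact congrFun h (Sum.inl i)
    have h2 : v.2 = w.2 := by
      funext i
      exact congrFun h (Sum.inr i)
    exact Prod.ext h1 h2

end Pool.Agent.Y844.BT
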