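import Mathlib
import Pool.Agent.Y844.BT.Dlp
import Pool.Agent.Y844.BT.Enr

/-! Bilinear sums over reciprocals: two applications of the Hoelder inequality and the double large
sieve. -/

set_option autoImplicit false

namespace Pool.Agent.Y844.BT

open Finset
open Pool.Agent.H469R2.NK (e norm_e e_add conj_e e_zero)

/-- the sum of reciprocals -/
noncomputable def xi {s : ℕ} (v : Fin s → ℕ) : ℝ := ∑ i, 1 / (v i : ℝ)

/-- the sum of inverses of residues -/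
noncomputable def xm (k : ℕ) {s : ℕ} (v : Fin s → ℕ) : ZMod k := ∑ i, (v i : ZMod k)⁻¹

/-- the phase -/
noncomputable def Ps (k : ℕ) [NeZero k] (T : ℝ) (u : ZMod k) (x y : ℝ) (w v : ZMod k) : ℂ :=
  e (T * x * y) * ZMod.stdAddChar (u * w * v)

theorem Ps_norm (k : ℕ) [NeZero k] (T : ℝ) (u : ZMod k) (x y : ℝ) (w v : ZMod k) :
    ‖Ps k T u x y w v‖ = 1 := by
  unfold Ps
  rw [norm_mul, norm_e, AddChar.norm_apply, mul_one]

theorem Ps_symm (k : ℕ) [NeZero k] (T : ℝ) (u : ZMod k) (x y : ℝ) (w v : ZMod k) :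
    Ps k T u x y w v = Ps k T u y x v w := by
  unfold Ps
  congr 2 <;> ring

theorem Ps_sum (k : ℕ) [NeZero k] (T : ℝ) (u : ZMod k) {ι : Type*} (I : Finset ι) (x : ι → ℝ) (y : ℝ)
    (w : ι → ZMod k) (v : ZMod k) :
    ∏ i ∈ I, Ps k T u (x i) y (w i) v = Ps k T u (∑ i ∈ I, x i) y (∑ i ∈ I, w i) v := by
  classical
  induction I using Finset.induction_on with
  | empty => simp [Ps, e_zero]
  | insert a I ha ih =>
    rw [prod_insert ha, sum_insert ha, sum_insert ha, ih]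
    unfold Ps
    have h1 : e (T * (x a + ∑ i ∈ I, x i) * y) = e (T * x a * y) * e (T * (∑ i ∈ I, x i) * y) := by
      rw [← e_add]
      congr 1
      ring
    have h2 : (ZMod.stdAddChar (u * (w a + ∑ i ∈ I, w i) * v) : ℂ) =
        ZMod.stdAddChar (u * w a * v) * ZMod.stdAddChar (u * (∑ i ∈ I, w i) * v) := by
      rw [← AddChar.map_add_eq_mul]
      congr 1
      ring
    rw [h1, h2]
    ring

theorem powm {ι : Type*} (I : Finset ι) (V : ι → ℂ) (s : ℕ) (hs : 1 ≤ s) :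
    ∃ c : ι → ℂ, (∀ i, ‖c i‖ ≤ 1) ∧
      (∑ i ∈ I, ‖V i‖) ^ s ≤ (I.card : ℝ) ^ (s - 1) * ‖∑ i ∈ I, c i * V i ^ s‖ := by
  classical
  refine ⟨fun i => if V i = 0 then 0 else ((‖V i‖ : ℂ) / V i) ^ s, ?_, ?_⟩
  · intro i
    simp only
    split_ifs with h
    · simp
    · rw [norm_pow, norm_div, Complex.norm_real, norm_norm, div_self (norm_ne_zero_iff.2 h), one_pow]
  · have h1 : ∀ i, (if V i = 0 then 0 else ((‖V i‖ : ℂ) / V i) ^ s) * V i ^ s = ((‖V i‖ ^ s : ℝ) : ℂ) := by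
      intro i
      split_ifs with h
      · rw [h]
        simp [show s ≠ 0 by omega]
      · rw [← mul_pow, div_mul_cancel₀ _ h]
        push_cast
        rfl
    rw [sum_congr rfl fun i _ => h1 i, ← Complex.ofReal_sum, Complex.norm_real, Real.norm_of_nonneg
      (sum_nonneg fun i _ => by positivity)]
    obtain ⟨n, rfl⟩ : ∃ n, s = n + 1 := ⟨s - 1, by omega⟩
    rw [Nat.add_sub_cancel]
    rcases I.eq_empty_or_nonempty with h2 | h2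
    · rw [h2]; simp
    · have h4 := pow_sum_div_card_le_sum_pow (f := fun i => ‖V i‖) (s := I) (fun i _ => norm_nonneg _) n
      rw [div_le_iff₀ (by have := card_pos.2 h2; positivity)] at h4
      linarith

/-- the two steps -/
theorem hold (k : ℕ) [NeZero k] (𝓜 𝓝 : Finset ℕ) (α β : ℕ → ℂ) (hα : ∀ m ∈ 𝓜, ‖α m‖ ≤ 1)
    (hβ : ∀ n ∈ 𝓝, ‖β n‖ ≤ 1) (T : ℝ) (u : ZMod k) (s t : ℕ) (hs : 1 ≤ s) (ht : 1 ≤ t) :
    ∃ (a : (Fin s → ℕ) → ℂ) (b : (Fin t → ℕ) → ℂ), (∀ v, ‖a v‖ ≤ 1) ∧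
      (∀ w ∈ Fintype.piFinset (fun _ : Fin t => 𝓜), ‖b w‖ ≤ 1) ∧
      ‖∑ m ∈ 𝓜, ∑ n ∈ 𝓝, α m * β n * Ps k T u (1 / (n : ℝ)) (1 / (m : ℝ)) (n : ZMod k)⁻¹ (m : ZMod k)⁻¹‖ ^ (s * t) ≤
        ((𝓜.card : ℝ) ^ (s - 1)) ^ t * ((((𝓝.card : ℝ) ^ s)) ^ (t - 1) *
          ‖∑ v ∈ Fintype.piFinset (fun _ : Fin s => 𝓝), ∑ w ∈ Fintype.piFinset (fun _ : Fin t => 𝓜),
            a v * b w * Ps k T u (xi v) (xi w) (xm k v) (xm k w)‖) := by
  classical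
  set V : ℕ → ℂ := fun m => ∑ n ∈ 𝓝, β n * Ps k T u (1 / (n : ℝ)) (1 / (m : ℝ)) (n : ZMod k)⁻¹ (m : ZMod k)⁻¹ with hV
  obtain ⟨c, hc1, hc2⟩ := powm 𝓜 V s hs
  set 𝓥 := Fintype.piFinset (fun _ : Fin s => 𝓝) with h𝓥
  set 𝓦 := Fintype.piFinset (fun _ : Fin t => 𝓜) with h𝓦
  set U : (Fin s → ℕ) → ℂ := fun v => ∑ m ∈ 𝓜, c m * Ps k T u (xi v) (1 / (m : ℝ)) (xm k v) (m : ZMod k)⁻¹ with hU
  have hVs : ∀ m, V m ^ s = ∑ v ∈ 𝓥, (∏ i, β (v i)) * Ps k T u (xi v) (1 / (m : ℝ)) (xm k v) (m : ZMod k)⁻¹ := by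
    intro m
    have h1 : V m ^ s = ∏ _i : Fin s, V m := by rw [prod_const, card_univ, Fintype.card_fin]
    rw [h1]
    simp only [hV]
    rw [prod_univ_sum]
    apply sum_congr rfl
    intro v _
    rw [prod_mul_distrib, Ps_sum]
    rfl
  have h1 : ∑ m ∈ 𝓜, c m * V m ^ s = ∑ v ∈ 𝓥, (∏ i, β (v i)) * U v := by
    calc _ = ∑ m ∈ 𝓜, ∑ v ∈ 𝓥, (∏ i, β (v i)) * (c m * Ps k T u (xi v) (1 / (m : ℝ)) (xm k v) (m : ZMod k)⁻¹) := by
          apply sum_congr rfl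
          intro m _
          rw [hVs m, mul_sum]
          apply sum_congr rfl
          intro v _
          ring
      _ = _ := by
          rw [sum_comm]
          apply sum_congr rfl
          intro v _
          simp only [hU]
          rw [mul_sum]
  have h2 : ‖∑ m ∈ 𝓜, c m * V m ^ s‖ ≤ ∑ v ∈ 𝓥, ‖U v‖ := by
    rw [h1]
    refine (norm_sum_le _ _).trans (sum_le_sum fun v hv => ?_)
    rw [norm_mul, norm_prod]
    have h3 : ∏ i, ‖β (v i)‖ ≤ 1 := by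
      apply prod_le_one (fun i _ => norm_nonneg _)
      intro i _
      exact hβ _ (Fintype.mem_piFinset.1 hv i)
    calc (∏ i, ‖β (v i)‖) * ‖U v‖ ≤ 1 * ‖U v‖ := mul_le_mul_of_nonneg_right h3 (norm_nonneg _)
      _ = _ := one_mul _
  obtain ⟨d, hd1, hd2⟩ := powm 𝓥 U t ht
  have hUt : ∀ v, U v ^ t = ∑ w ∈ 𝓦, (∏ j, c (w j)) * Ps k T u (xi v) (xi w) (xm k v) (xm k w) := by
    intro v
    have h3 : U v ^ t = ∏ _i : Fin t, U v := by rw [prod_const, card_univ, Fintype.card_fin]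
    rw [h3]
    simp only [hU]
    rw [prod_univ_sum]
    apply sum_congr rfl
    intro w _
    rw [prod_mul_distrib]
    congr 1
    rw [prod_congr rfl fun j _ => Ps_symm k T u (xi v) (1 / (w j : ℝ)) (xm k v) (w j : ZMod k)⁻¹, Ps_sum, Ps_symm]
    rfl
  refine ⟨d, fun w => ∏ j, c (w j), hd1, ?_, ?_⟩
  · intro w _
    rw [norm_prod]
    exact prod_le_one (fun _ _ => norm_nonneg _) fun _ _ => hc1 _
  have h3 : ‖∑ m ∈ 𝓜, ∑ n ∈ 𝓝, α m * β n * Ps k T u (1 / (n : ℝ)) (1 / (m : ℝ)) (n : ZMod k)⁻¹ (m : ZMod k)⁻¹‖ ≤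
      ∑ m ∈ 𝓜, ‖V m‖ := by
    refine (norm_sum_le _ _).trans (sum_le_sum fun m hm => ?_)
    have h4 : ∑ n ∈ 𝓝, α m * β n * Ps k T u (1 / (n : ℝ)) (1 / (m : ℝ)) (n : ZMod k)⁻¹ (m : ZMod k)⁻¹ = α m * V m := by
      simp only [hV]
      rw [mul_sum]
      apply sum_congr rfl
      intro n _
      ring
    rw [h4, norm_mul]
    calc ‖α m‖ * ‖V m‖ ≤ 1 * ‖V m‖ := mul_le_mul_of_nonneg_right (hα m hm) (norm_nonneg _)
      _ = _ := one_mul _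
  have hcard : (𝓥.card : ℝ) = (𝓝.card : ℝ) ^ s := by
    rw [h𝓥, Fintype.card_piFinset, prod_const, card_univ, Fintype.card_fin]
    push_cast
    rfl
  calc _ = (‖∑ m ∈ 𝓜, ∑ n ∈ 𝓝, α m * β n * Ps k T u (1 / (n : ℝ)) (1 / (m : ℝ)) (n : ZMod k)⁻¹ (m : ZMod k)⁻¹‖ ^ s) ^ t := by
        rw [pow_mul]
    _ ≤ ((∑ m ∈ 𝓜, ‖V m‖) ^ s) ^ t := by gcongr
    _ ≤ ((𝓜.card : ℝ) ^ (s - 1) * ‖∑ m ∈ 𝓜, c m * V m ^ s‖) ^ t := by gcongr
    _ ≤ ((𝓜.card : ℝ) ^ (s - 1) * ∑ v ∈ 𝓥, ‖U v‖) ^ t := by gcongr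
    _ = ((𝓜.card : ℝ) ^ (s - 1)) ^ t * (∑ v ∈ 𝓥, ‖U v‖) ^ t := by rw [mul_pow]
    _ ≤ ((𝓜.card : ℝ) ^ (s - 1)) ^ t * ((𝓥.card : ℝ) ^ (t - 1) * ‖∑ v ∈ 𝓥, d v * U v ^ t‖) := by gcongr
    _ = _ := by
        rw [hcard]
        congr 4
        funext v
        rw [hUt v, mul_sum]
        apply sum_congr rfl
        intro w _
        ring

open Classical in
/-- the number of near coincidences -/
noncomputable def En (k : ℕ) (𝓝 : Finset ℕ) (s : ℕ) (ρ : ℝ) : ℕ :=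
  (((Fintype.piFinset (fun _ : Fin s => 𝓝)) ×ˢ (Fintype.piFinset (fun _ : Fin s => 𝓝))).filter
      (fun v => (∑ i, (v.1 i : ZMod k)⁻¹ = ∑ i, (v.2 i : ZMod k)⁻¹) ∧
        |∑ i, 1 / (v.1 i : ℝ) - ∑ i, 1 / (v.2 i : ℝ)| ≤ ρ)).card

theorem xi_bd {s : ℕ} (𝓝 : Finset ℕ) (N1 : ℝ) (hN1 : 0 < N1) (h : ∀ n ∈ 𝓝, N1 ≤ (n : ℝ)) (v : Fin s → ℕ)
    (hv : v ∈ Fintype.piFinset (fun _ : Fin s => 𝓝)) : 0 ≤ xi v ∧ xi v ≤ s / N1 := by
  constructor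
  · exact sum_nonneg fun i _ => by positivity
  · unfold xi
    calc ∑ i, 1 / (v i : ℝ) ≤ ∑ _i : Fin s, 1 / N1 := by
          apply sum_le_sum
          intro i _
          exact one_div_le_one_div_of_le hN1 (h _ (Fintype.mem_piFinset.1 hv i))
      _ = s / N1 := by
          rw [sum_const, card_univ, Fintype.card_fin, nsmul_eq_mul]
          ring

/-- the bilinear bound in terms of energies, `T ≥ 0` -/
theorem bil0 (k : ℕ) [NeZero k] (𝓜 𝓝 : Finset ℕ) (α β : ℕ → ℂ) (hα : ∀ m ∈ 𝓜, ‖α m‖ ≤ 1)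
    (hβ : ∀ n ∈ 𝓝, ‖β n‖ ≤ 1) (T : ℝ) (hT : 0 ≤ T) (u : ZMod k) (hu : IsUnit u) (s t : ℕ) (hs : 1 ≤ s)
    (ht : 1 ≤ t) (M1 N1 : ℝ) (hM1 : 0 < M1) (hN1 : 0 < N1) (hM : ∀ m ∈ 𝓜, M1 ≤ (m : ℝ))
    (hN : ∀ n ∈ 𝓝, N1 ≤ (n : ℝ)) :
    ‖∑ m ∈ 𝓜, ∑ n ∈ 𝓝, α m * β n * Ps k T u (1 / (n : ℝ)) (1 / (m : ℝ)) (n : ZMod k)⁻¹ (m : ZMod k)⁻¹‖ ^ (2 * (s * t)) ≤
      (((𝓜.card : ℝ) ^ (s - 1)) ^ t * (((𝓝.card : ℝ) ^ s)) ^ (t - 1)) ^ 2 *
        (1700 * (s * t) * (k * (1 + T / (M1 * N1))) *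
          (En k 𝓝 s (2 * s / (N1 * (1 + T / (M1 * N1)))) * En k 𝓜 t (8 * t / (M1 * (1 + T / (M1 * N1)))))) := by
  classical
  obtain ⟨a, b, ha, hb, h⟩ := hold k 𝓜 𝓝 α β hα hβ T u s t hs ht
  set 𝓥 := Fintype.piFinset (fun _ : Fin s => 𝓝) with h𝓥
  set 𝓦 := Fintype.piFinset (fun _ : Fin t => 𝓜) with h𝓦
  set g : ℝ := 1 + T / (M1 * N1) with hg
  have hg0 : 0 < g := by positivity
  have hs0 : (0 : ℝ) < s := by exact_mod_cast hs
  have ht0 : (0 : ℝ) < t := by exact_mod_cast ht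
  have hs1 : (1 : ℝ) ≤ s := by exact_mod_cast hs
  have ht1 : (1 : ℝ) ≤ t := by exact_mod_cast ht
  set Y : ℝ := t / M1 with hY
  have hY0 : 0 < Y := by positivity
  set Xr : ℝ := T * (s / N1) * (4 * Y) with hXr
  have hXr0 : 0 ≤ Xr := by positivity
  have hXr1 : Xr = 4 * (s * t) * (T / (M1 * N1)) := by
    rw [hXr, hY]
    field_simp
  have hst1 : (1 : ℝ) ≤ s * t := by nlinarith
  set J : ℕ := ⌊Xr⌋₊ + 1 with hJ
  have hJ1 : 1 ≤ J := by omega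
  have hJr : Xr < J := by
    rw [hJ]
    push_cast
    exact Nat.lt_floor_add_one _
  have hJu : (J : ℝ) ≤ 4 * (s * t) * g := by
    rw [hJ]
    push_cast
    have h1 : (⌊Xr⌋₊ : ℝ) ≤ 4 * (s * t) * (T / (M1 * N1)) := (Nat.floor_le hXr0).trans hXr1.le
    rw [hg, mul_add]
    linarith
  have hJl : g ≤ 2 * J := by
    have h1 : T / (M1 * N1) ≤ Xr := by
      rw [hXr1]
      have h0 : 0 ≤ T / (M1 * N1) := by positivity
      have h00 := mul_le_mul_of_nonneg_right hst1 h0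
      linarith
    have h2 : (1 : ℝ) ≤ J := by exact_mod_cast hJ1
    rw [hg]
    linarith
  have hJ0 : (0 : ℝ) < J := by exact_mod_cast hJ1
  have hpd := pdls k 𝓥 𝓦 (fun v => T * xi v) (fun w => xi w) (fun v => u * xm k v) (fun w => xm k w) a b Y hY0 J hJ1
    (by
      intro v hv
      obtain ⟨h1, h2⟩ := xi_bd 𝓝 N1 hN1 hN v hv
      refine ⟨by positivity, ?_⟩
      refine lt_of_le_of_lt ?_ hJr
      rw [hXr]
      apply mul_le_mul_of_nonneg_right _ (by positivity)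
      exact mul_le_mul_of_nonneg_left h2 hT)
    (fun w hw => xi_bd 𝓜 M1 hM1 hM w hw) (fun v _ => ha v) hb
    (En k 𝓝 s (2 * s / (N1 * g))) (En k 𝓜 t (8 * t / (M1 * g)))
    (by
      unfold En
      apply Nat.cast_le.2
      apply card_le_card
      intro z hz
      rw [mem_filter, mem_product] at hz ⊢
      obtain ⟨⟨h1, h2⟩, h3, h4⟩ := hz
      refine ⟨⟨h1, h2⟩, hu.mul_left_cancel h3, ?_⟩
      show |xi z.1 - xi z.2| ≤ _
      obtain ⟨h5, h6⟩ := xi_bd 𝓝 N1 hN1 hN z.1 h1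
      obtain ⟨h7, h8⟩ := xi_bd 𝓝 N1 hN1 hN z.2 h2
      have h9 : |xi z.1 - xi z.2| ≤ s / N1 := by
        rw [abs_le]
        constructor <;> linarith
      have h10 : T * |xi z.1 - xi z.2| ≤ M1 / (4 * t) := by
        have h11 : |T * xi z.1 - T * xi z.2| = T * |xi z.1 - xi z.2| := by
          rw [← mul_sub, abs_mul, abs_of_nonneg hT]
        rw [← h11]
        refine h4.trans (le_of_eq ?_)
        rw [hY]
        field_simp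
      rw [le_div_iff₀ (by positivity)]
      have h11 : |xi z.1 - xi z.2| * (N1 * g) = N1 * |xi z.1 - xi z.2| + (T * |xi z.1 - xi z.2|) / M1 := by
        rw [hg]
        field_simp
      rw [h11]
      have h12 : N1 * |xi z.1 - xi z.2| ≤ s := by
        calc _ ≤ N1 * (s / N1) := mul_le_mul_of_nonneg_left h9 hN1.le
          _ = s := by field_simp
      have h13 : (T * |xi z.1 - xi z.2|) / M1 ≤ s := by
        calc _ ≤ (M1 / (4 * t)) / M1 := div_le_div_of_nonneg_right h10 hM1.le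
          _ = 1 / (4 * t) := by field_simp
          _ ≤ 1 := by
            rw [div_le_one (by positivity)]
            linarith
          _ ≤ s := hs1
      linarith)
    (by
      unfold En
      apply Nat.cast_le.2
      apply card_le_card
      intro z hz
      rw [mem_filter, mem_product] at hz ⊢
      obtain ⟨⟨h1, h2⟩, h3, h4⟩ := hz
      refine ⟨⟨h1, h2⟩, h3, ?_⟩
      show |xi z.1 - xi z.2| ≤ _
      refine h4.trans ?_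
      rw [hY, div_le_div_iff₀ hJ0 (by positivity)]
      have h5 : 4 * ((t : ℝ) / M1) * (M1 * g) = 4 * t * g := by field_simp
      rw [h5]
      nlinarith)
  have hB : ∀ v w, a v * b w * Ps k T u (xi v) (xi w) (xm k v) (xm k w) =
      a v * b w * (e (T * xi v * xi w) * ZMod.stdAddChar (u * xm k v * xm k w)) := fun v w => rfl
  set B := ∑ v ∈ 𝓥, ∑ w ∈ 𝓦, a v * b w * Ps k T u (xi v) (xi w) (xm k v) (xm k w) with hBd
  have hB2 : ‖B‖ ^ 2 ≤ 1700 * (s * t) * (k * g) * (En k 𝓝 s (2 * s / (N1 * g)) * En k 𝓜 t (8 * t / (M1 * g))) := by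
    refine hpd.trans ?_
    have hk0 : (0 : ℝ) ≤ k := Nat.cast_nonneg k
    calc _ = 425 * k * (En k 𝓝 s (2 * s / (N1 * g)) * En k 𝓜 t (8 * t / (M1 * g))) * (J : ℝ) := by ring
      _ ≤ 425 * k * (En k 𝓝 s (2 * s / (N1 * g)) * En k 𝓜 t (8 * t / (M1 * g))) * (4 * (s * t) * g) :=
        mul_le_mul_of_nonneg_left hJu (by positivity)
      _ = _ := by ring
  calc _ = (‖∑ m ∈ 𝓜, ∑ n ∈ 𝓝, α m * β n * Ps k T u (1 / (n : ℝ)) (1 / (m : ℝ)) (n : ZMod k)⁻¹ (m : ZMod k)⁻¹‖ ^ (s * t)) ^ 2 := by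
        rw [mul_comm 2, pow_mul]
    _ ≤ (((𝓜.card : ℝ) ^ (s - 1)) ^ t * ((((𝓝.card : ℝ) ^ s)) ^ (t - 1) * ‖B‖)) ^ 2 := by gcongr
    _ = (((𝓜.card : ℝ) ^ (s - 1)) ^ t * (((𝓝.card : ℝ) ^ s)) ^ (t - 1)) ^ 2 * ‖B‖ ^ 2 := by ring
    _ ≤ _ := mul_le_mul_of_nonneg_left hB2 (by positivity)

theorem En_one (k : ℕ) [NeZero k] (𝓜 : Finset ℕ) (M ρ : ℝ) (hρ : 0 ≤ ρ) (hM : ∀ m ∈ 𝓜, 1 ≤ m ∧ (m : ℝ) ≤ M)
    (hco : ∀ m ∈ 𝓜, Nat.Coprime m k) : (En k 𝓜 1 ρ : ℝ) ≤ 𝓜.card * (1 + 2 * (M ^ 2 * ρ) / k) := by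
  classical
  have hk0 : (0 : ℝ) < k := by exact_mod_cast Nat.pos_of_ne_zero (NeZero.ne k)
  set D : ℤ := ⌊M ^ 2 * ρ / k⌋ with hD
  have hD0 : 0 ≤ D := Int.floor_nonneg.2 (by positivity)
  have h1 : En k 𝓜 1 ρ ≤ (𝓜 ×ˢ Icc (-D) D).card := by
    unfold En
    apply card_le_card_of_injOn (fun z => (z.1 0, ((z.2 0 : ℤ) - (z.1 0 : ℤ)) / (k : ℤ)))
    · intro z hz
      rw [mem_coe, mem_filter, mem_product, Fintype.mem_piFinset, Fintype.mem_piFinset] at hz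
      obtain ⟨⟨h2, h3⟩, h4, h5⟩ := hz
      simp only [Fin.sum_univ_one] at h4 h5
      have ha := hM _ (h2 0)
      have hb := hM _ (h3 0)
      have hca := hco _ (h2 0)
      have hcb := hco _ (h3 0)
      have h6 : (z.1 0 : ZMod k) = (z.2 0 : ZMod k) := by
        have e1 := ZMod.coe_mul_inv_eq_one _ hca
        have e2 := ZMod.coe_mul_inv_eq_one _ hcb
        calc (z.1 0 : ZMod k) = (z.1 0 : ZMod k) * ((z.2 0 : ZMod k) * (z.2 0 : ZMod k)⁻¹) := by rw [e2, mul_one]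
          _ = (z.2 0 : ZMod k) * ((z.1 0 : ZMod k) * (z.2 0 : ZMod k)⁻¹) := by ring
          _ = (z.2 0 : ZMod k) := by rw [← h4, e1, mul_one]
      have h7 : ((k : ℕ) : ℤ) ∣ (z.2 0 : ℤ) - (z.1 0 : ℤ) := by
        rw [← ZMod.intCast_zmod_eq_zero_iff_dvd]
        push_cast
        rw [h6, sub_self]
      obtain ⟨j, hj⟩ := h7
      rw [mem_coe, mem_product, mem_Icc]
      refine ⟨h2 0, ?_⟩
      simp only
      rw [hj, Int.mul_ediv_cancel_left _ (by exact_mod_cast NeZero.ne k)]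
      have ha0 : (0 : ℝ) < z.1 0 := by exact_mod_cast ha.1
      have hb0 : (0 : ℝ) < z.2 0 := by exact_mod_cast hb.1
      have h8 : |(z.2 0 : ℝ) - (z.1 0 : ℝ)| ≤ M ^ 2 * ρ := by
        have h9 : 1 / (z.1 0 : ℝ) - 1 / (z.2 0 : ℝ) = ((z.2 0 : ℝ) - (z.1 0 : ℝ)) / ((z.1 0 : ℝ) * (z.2 0 : ℝ)) := by
          field_simp
        rw [h9, abs_div, abs_of_pos (mul_pos ha0 hb0), div_le_iff₀ (mul_pos ha0 hb0)] at h5
        refine h5.trans ?_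
        rw [mul_comm]
        apply mul_le_mul_of_nonneg_right _ hρ
        rw [sq]
        exact mul_le_mul ha.2 hb.2 hb0.le (ha0.le.trans ha.2)
      have h9 : |(j : ℝ)| ≤ M ^ 2 * ρ / k := by
        rw [le_div_iff₀ hk0]
        have h10 : (z.2 0 : ℝ) - (z.1 0 : ℝ) = k * j := by exact_mod_cast hj
        rw [h10, abs_mul, abs_of_pos hk0] at h8
        linarith
      have h10 : |j| ≤ D := by
        rw [hD, Int.le_floor]
        push_cast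
        exact h9
      exact abs_le.1 h10
    · intro z hz z' hz' h
      rw [mem_coe, mem_filter, mem_product, Fintype.mem_piFinset, Fintype.mem_piFinset] at hz hz'
      have key : ∀ z : (Fin 1 → ℕ) × (Fin 1 → ℕ), ((∀ a, z.1 a ∈ 𝓜) ∧ ∀ a, z.2 a ∈ 𝓜) ∧
          (∑ i, (z.1 i : ZMod k)⁻¹ = ∑ i, (z.2 i : ZMod k)⁻¹) ∧ |∑ i, 1 / (z.1 i : ℝ) - ∑ i, 1 / (z.2 i : ℝ)| ≤ ρ →
          ((k : ℕ) : ℤ) * (((z.2 0 : ℤ) - (z.1 0 : ℤ)) / (k : ℤ)) = (z.2 0 : ℤ) - (z.1 0 : ℤ) := by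
        rintro z ⟨⟨h2, h3⟩, h4, h5⟩
        simp only [Fin.sum_univ_one] at h4
        have hca := hco _ (h2 0)
        have hcb := hco _ (h3 0)
        apply Int.mul_ediv_cancel'
        rw [← ZMod.intCast_zmod_eq_zero_iff_dvd]
        push_cast
        have e1 := ZMod.coe_mul_inv_eq_one _ hca
        have e2 := ZMod.coe_mul_inv_eq_one _ hcb
        rw [sub_eq_zero]
        calc (z.2 0 : ZMod k) = (z.2 0 : ZMod k) * ((z.1 0 : ZMod k) * (z.1 0 : ZMod k)⁻¹) := by rw [e1, mul_one]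
          _ = (z.1 0 : ZMod k) * ((z.2 0 : ZMod k) * (z.1 0 : ZMod k)⁻¹) := by ring
          _ = (z.1 0 : ZMod k) := by rw [h4, e2, mul_one]
      have k1 := key z hz
      have k2 := key z' hz'
      simp only [Prod.mk.injEq] at h
      obtain ⟨h2, h3⟩ := h
      rw [h3, k2, h2] at k1
      have h4 : z.2 0 = z'.2 0 := by omega
      apply Prod.ext
      · funext i
        rw [Subsingleton.elim i 0]
        exact h2
      · funext i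
        rw [Subsingleton.elim i 0]
        exact h4
  have h2 : ((𝓜 ×ˢ Icc (-D) D).card : ℝ) = 𝓜.card * (2 * D + 1) := by
    rw [card_product, Int.card_Icc]
    push_cast
    have h3 : ((D + 1 - -D).toNat : ℝ) = 2 * D + 1 := by
      have h4 : ((D + 1 - -D).toNat : ℤ) = D + 1 - -D := Int.toNat_of_nonneg (by omega)
      have h5 : ((D + 1 - -D).toNat : ℝ) = ((D + 1 - -D : ℤ) : ℝ) := by exact_mod_cast congrArg (fun x : ℤ => (x : ℝ)) h4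
      rw [h5]
      push_cast
      ring
    rw [h3]
  calc (En k 𝓜 1 ρ : ℝ) ≤ ((𝓜 ×ˢ Icc (-D) D).card : ℝ) := by exact_mod_cast h1
    _ = 𝓜.card * (2 * D + 1) := h2
    _ ≤ _ := by
        apply mul_le_mul_of_nonneg_left _ (Nat.cast_nonneg _)
        have h3 : (D : ℝ) ≤ M ^ 2 * ρ / k := Int.floor_le _
        have h4 : 2 * (M ^ 2 * ρ) / k = 2 * (M ^ 2 * ρ / k) := by ring
        rw [h4]
        linarith

theorem card_le_of (𝓜 : Finset ℕ) (M : ℝ) (hM0 : 0 ≤ M) (hM : ∀ m ∈ 𝓜, 1 ≤ m ∧ (m : ℝ) ≤ M) : (𝓜.card : ℝ) ≤ M := by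
  have h1 : 𝓜 ⊆ Icc 1 ⌊M⌋₊ := by
    intro m hm
    rw [mem_Icc]
    exact ⟨(hM m hm).1, Nat.le_floor (hM m hm).2⟩
  have h2 := card_le_card h1
  rw [Nat.card_Icc, Nat.add_sub_cancel] at h2
  calc (𝓜.card : ℝ) ≤ (⌊M⌋₊ : ℝ) := by exact_mod_cast h2
    _ ≤ M := Nat.floor_le hM0

/-- the energy with real parameters -/
theorem energy' (s : ℕ) (ε : ℝ) (hε : 0 < ε) : ∃ C : ℝ, 0 < C ∧ ∀ (N : ℝ) (𝓝 : Finset ℕ), 1 ≤ N →
    (∀ n ∈ 𝓝, 1 ≤ n ∧ (n : ℝ) ≤ N) → ∀ k : ℕ, (∀ n ∈ 𝓝, Nat.Coprime n k) → ∀ ρ : ℝ, 0 ≤ ρ →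
    N ^ (2 * s) * ρ < k → (En k 𝓝 s ρ : ℝ) ≤ C * N ^ ((s : ℝ) + ε) := by
  obtain ⟨C, hC0, hC⟩ := energy s ε hε
  refine ⟨C, hC0, fun N 𝓝 hN h𝓝 k hco ρ hρ0 hρ => ?_⟩
  have h1 : 1 ≤ ⌊N⌋₊ := Nat.le_floor (by simpa using hN)
  have h2 : (⌊N⌋₊ : ℝ) ≤ N := Nat.floor_le (by linarith)
  have h3 := hC ⌊N⌋₊ 𝓝 h1 (fun n hn => ⟨(h𝓝 n hn).1, Nat.le_floor (h𝓝 n hn).2⟩) k hco ρ (by
    refine lt_of_le_of_lt ?_ hρ
    gcongr)
  refine le_trans ?_ (h3.trans ?_)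
  · exact le_of_eq rfl
  · gcongr

/-- the bilinear bound -/
theorem bilF (s t : ℕ) (hs : 1 ≤ s) (ht : 1 ≤ t) (ε : ℝ) (hε : 0 < ε) : ∃ C : ℝ, 0 < C ∧
    ∀ (k : ℕ) [NeZero k] (𝓜 𝓝 : Finset ℕ) (α β : ℕ → ℂ), (∀ m ∈ 𝓜, ‖α m‖ ≤ 1) → (∀ n ∈ 𝓝, ‖β n‖ ≤ 1) →
    ∀ (T : ℝ) (u : ZMod k), IsUnit u → ∀ (M N M1 N1 : ℝ), 0 < M1 → 0 < N1 → 1 ≤ M → 1 ≤ N →
    (∀ m ∈ 𝓜, 1 ≤ m ∧ M1 ≤ (m : ℝ) ∧ (m : ℝ) ≤ M) → (∀ n ∈ 𝓝, 1 ≤ n ∧ N1 ≤ (n : ℝ) ∧ (n : ℝ) ≤ N) →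
    (∀ m ∈ 𝓜, Nat.Coprime m k) → (∀ n ∈ 𝓝, Nat.Coprime n k) →
    ∀ H : ℝ, H = k * (1 + |T| / (M1 * N1)) → 2 * s * N ^ (2 * s) < H * N1 →
    (t = 1 ∨ 8 * t * M ^ (2 * t) < H * M1) →
    ‖∑ m ∈ 𝓜, ∑ n ∈ 𝓝, α m * β n * Ps k T u (1 / (n : ℝ)) (1 / (m : ℝ)) (n : ZMod k)⁻¹ (m : ZMod k)⁻¹‖ ^ (2 * (s * t)) ≤
      C * (M * N) ^ ε * (M * N) ^ (2 * (s * t)) * (H / (M ^ t * N ^ s) + M / (M1 * N ^ s)) := by
  obtain ⟨Cs, hCs0, hCs⟩ := energy' s ε hε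
  obtain ⟨Ct, hCt0, hCt⟩ := energy' t ε hε
  refine ⟨27200 * (s * t) * Cs * (1 + Ct), by positivity, ?_⟩
  intro k _ 𝓜 𝓝 α β hα hβ
  -- reduction to nonnegative T
  suffices hmain : ∀ (α β : ℕ → ℂ), (∀ m ∈ 𝓜, ‖α m‖ ≤ 1) → (∀ n ∈ 𝓝, ‖β n‖ ≤ 1) →
    ∀ (T : ℝ), 0 ≤ T → ∀ (u : ZMod k), IsUnit u → ∀ (M N M1 N1 : ℝ), 0 < M1 → 0 < N1 → 1 ≤ M → 1 ≤ N →
    (∀ m ∈ 𝓜, 1 ≤ m ∧ M1 ≤ (m : ℝ) ∧ (m : ℝ) ≤ M) → (∀ n ∈ 𝓝, 1 ≤ n ∧ N1 ≤ (n : ℝ) ∧ (n : ℝ) ≤ N) →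
    (∀ m ∈ 𝓜, Nat.Coprime m k) → (∀ n ∈ 𝓝, Nat.Coprime n k) →
    ∀ H : ℝ, H = k * (1 + |T| / (M1 * N1)) → 2 * s * N ^ (2 * s) < H * N1 →
    (t = 1 ∨ 8 * t * M ^ (2 * t) < H * M1) →
    ‖∑ m ∈ 𝓜, ∑ n ∈ 𝓝, α m * β n * Ps k T u (1 / (n : ℝ)) (1 / (m : ℝ)) (n : ZMod k)⁻¹ (m : ZMod k)⁻¹‖ ^ (2 * (s * t)) ≤
      (27200 * (s * t) * Cs * (1 + Ct)) * (M * N) ^ ε * (M * N) ^ (2 * (s * t)) * (H / (M ^ t * N ^ s) + M / (M1 * N ^ s)) by
    intro T u hu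
    rcases le_total 0 T with hT | hT
    · exact hmain α β hα hβ T hT u hu
    · intro M N M1 N1 h1 h2 h3 h4 h5 h6 h7 h8 H h9 h10 h11
      have h12 := hmain (fun m => (starRingEnd ℂ) (α m)) (fun n => (starRingEnd ℂ) (β n))
        (fun m hm => by rw [RCLike.norm_conj]; exact hα m hm) (fun n hn => by rw [RCLike.norm_conj]; exact hβ n hn)
        (-T) (by linarith) (-u) hu.neg M N M1 N1 h1 h2 h3 h4 h5 h6 h7 h8 H (by rw [abs_neg]; exact h9) h10 h11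
      refine le_trans (le_of_eq ?_) h12
      congr 1
      rw [← RCLike.norm_conj, map_sum]
      congr 1
      apply sum_congr rfl
      intro m _
      rw [map_sum]
      apply sum_congr rfl
      intro n _
      rw [(starRingEnd ℂ).map_mul, (starRingEnd ℂ).map_mul]
      congr 1
      unfold Ps
      rw [(starRingEnd ℂ).map_mul, conj_e, conj_psi]
      congr 2 <;> ring
  intro α β hα hβ T hT u hu M N M1 N1 hM1 hN1 hM hN h𝓜 h𝓝 hcM hcN H hH hc1 hc2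
  rw [abs_of_nonneg hT] at hH
  have hk0 : (0 : ℝ) < k := by exact_mod_cast Nat.pos_of_ne_zero (NeZero.ne k)
  set g : ℝ := 1 + T / (M1 * N1) with hg
  have hg0 : 0 < g := by positivity
  have hM0 : 0 < M := by linarith
  have hN0 : 0 < N := by linarith
  have hs0 : (0 : ℝ) < s := by exact_mod_cast hs
  have ht0 : (0 : ℝ) < t := by exact_mod_cast ht
  have hH0 : 0 < H := by rw [hH]; positivity
  have hb := bil0 k 𝓜 𝓝 α β hα hβ T hT u hu s t hs ht M1 N1 hM1 hN1 (fun m hm => (h𝓜 m hm).2.1)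
    (fun n hn => (h𝓝 n hn).2.1)
  rw [← hg, ← hH] at hb
  have hEs : (En k 𝓝 s (2 * s / (N1 * g)) : ℝ) ≤ Cs * N ^ ((s : ℝ) + ε) := by
    apply hCs N 𝓝 hN (fun n hn => ⟨(h𝓝 n hn).1, (h𝓝 n hn).2.2⟩) k hcN _ (by positivity)
    rw [mul_div_assoc', div_lt_iff₀ (by positivity)]
    calc N ^ (2 * s) * (2 * s) = 2 * s * N ^ (2 * s) := by ring
      _ < H * N1 := hc1
      _ = _ := by rw [hH]; ring
  have hcM' : (𝓜.card : ℝ) ≤ M := card_le_of 𝓜 M hM0.le fun m hm => ⟨(h𝓜 m hm).1, (h𝓜 m hm).2.2⟩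
  have hcN' : (𝓝.card : ℝ) ≤ N := card_le_of 𝓝 N hN0.le fun n hn => ⟨(h𝓝 n hn).1, (h𝓝 n hn).2.2⟩
  have hEt : (En k 𝓜 t (8 * t / (M1 * g)) : ℝ) * H ≤ 16 * (1 + Ct) * (M ^ t * M ^ ε * (H + M ^ (t + 1) / M1)) := by
    rcases hc2 with hc2 | hc2
    · subst hc2
      have h1 := En_one k 𝓜 M (8 * (1 : ℕ) / (M1 * g)) (by positivity) (fun m hm => ⟨(h𝓜 m hm).1, (h𝓜 m hm).2.2⟩) hcM
      have h2 : 2 * (M ^ 2 * (8 * (1 : ℕ) / (M1 * g))) / k = 16 * M ^ 2 / (M1 * H) := by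
        rw [hH]
        push_cast
        field_simp
        ring
      rw [h2] at h1
      have h3 : (En k 𝓜 1 (8 * (1 : ℕ) / (M1 * g)) : ℝ) ≤ M * (1 + 16 * M ^ 2 / (M1 * H)) :=
        h1.trans (mul_le_mul_of_nonneg_right hcM' (by positivity))
      have h4 : (1 : ℝ) ≤ M ^ ε := Real.one_le_rpow hM hε.le
      calc (En k 𝓜 1 (8 * (1 : ℕ) / (M1 * g)) : ℝ) * H ≤ M * (1 + 16 * M ^ 2 / (M1 * H)) * H :=
            mul_le_mul_of_nonneg_right h3 hH0.le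
        _ = 1 * (M * 1 * (H + 16 * (M ^ 2 / M1))) := by
            field_simp
        _ ≤ 16 * (1 + Ct) * (M ^ 1 * M ^ ε * (H + M ^ (1 + 1) / M1)) := by
            rw [pow_one]
            have h5 : M * 1 * (H + 16 * (M ^ 2 / M1)) ≤ M * M ^ ε * (16 * (H + M ^ 2 / M1)) := by
              apply mul_le_mul _ _ (by positivity) (by positivity)
              · exact mul_le_mul_of_nonneg_left h4 hM0.le
              · linarith
            calc 1 * (M * 1 * (H + 16 * (M ^ 2 / M1))) ≤ 1 * (M * M ^ ε * (16 * (H + M ^ 2 / M1))) := by linarith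
              _ ≤ (1 + Ct) * (M * M ^ ε * (16 * (H + M ^ 2 / M1))) := by
                  apply mul_le_mul_of_nonneg_right _ (by positivity)
                  linarith
              _ = _ := by ring
    · have h1 := hCt M 𝓜 hM (fun m hm => ⟨(h𝓜 m hm).1, (h𝓜 m hm).2.2⟩) k hcM (8 * t / (M1 * g)) (by positivity) (by
        rw [mul_div_assoc', div_lt_iff₀ (by positivity)]
        calc M ^ (2 * t) * (8 * t) = 8 * t * M ^ (2 * t) := by ring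
          _ < H * M1 := hc2
          _ = _ := by rw [hH]; ring)
      rw [Real.rpow_add hM0, Real.rpow_natCast] at h1
      calc (En k 𝓜 t (8 * t / (M1 * g)) : ℝ) * H ≤ Ct * (M ^ t * M ^ ε) * H := mul_le_mul_of_nonneg_right h1 hH0.le
        _ = 1 * Ct * (M ^ t * M ^ ε * H) := by ring
        _ ≤ 16 * (1 + Ct) * (M ^ t * M ^ ε * (H + M ^ (t + 1) / M1)) := by
            apply mul_le_mul _ _ (by positivity) (by positivity)
            · nlinarith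
            · apply mul_le_mul_of_nonneg_left _ (by positivity)
              have : 0 ≤ M ^ (t + 1) / M1 := by positivity
              linarith
  rw [Real.rpow_add hN0, Real.rpow_natCast] at hEs
  set Es : ℝ := (En k 𝓝 s (2 * s / (N1 * g)) : ℝ) with hEsd
  set Et : ℝ := (En k 𝓜 t (8 * t / (M1 * g)) : ℝ) with hEtd
  have hEs0 : 0 ≤ Es := Nat.cast_nonneg _
  have hEt0 : 0 ≤ Et := Nat.cast_nonneg _
  refine hb.trans ?_
  obtain ⟨s', rfl⟩ : ∃ s', s = s' + 1 := ⟨s - 1, by omega⟩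
  obtain ⟨t', rfl⟩ : ∃ t', t = t' + 1 := ⟨t - 1, by omega⟩
  rw [Nat.add_sub_cancel, Nat.add_sub_cancel]
  have h1 : (((𝓜.card : ℝ) ^ s') ^ (t' + 1) * ((𝓝.card : ℝ) ^ (s' + 1)) ^ t') ^ 2 ≤
      ((M ^ s') ^ (t' + 1) * (N ^ (s' + 1)) ^ t') ^ 2 := by gcongr
  calc _ ≤ ((M ^ s') ^ (t' + 1) * (N ^ (s' + 1)) ^ t') ^ 2 *
        (1700 * (((s' + 1 : ℕ) : ℝ) * ((t' + 1 : ℕ) : ℝ)) * H * (Es * Et)) := by
          apply mul_le_mul_of_nonneg_right h1 (by positivity)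
    _ = ((M ^ s') ^ (t' + 1) * (N ^ (s' + 1)) ^ t') ^ 2 *
        (1700 * (((s' + 1 : ℕ) : ℝ) * ((t' + 1 : ℕ) : ℝ))) * (Es * (Et * H)) := by ring
    _ ≤ ((M ^ s') ^ (t' + 1) * (N ^ (s' + 1)) ^ t') ^ 2 *
        (1700 * (((s' + 1 : ℕ) : ℝ) * ((t' + 1 : ℕ) : ℝ))) *
        ((Cs * (N ^ (s' + 1) * N ^ ε)) * (16 * (1 + Ct) * (M ^ (t' + 1) * M ^ ε * (H + M ^ (t' + 1 + 1) / M1)))) := by
          apply mul_le_mul_of_nonneg_left _ (by positivity)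
          exact mul_le_mul hEs hEt (by positivity) (by positivity)
    _ = _ := by
        rw [Real.mul_rpow hM0.le hN0.le]
        have h2 : H / (M ^ (t' + 1) * N ^ (s' + 1)) + M / (M1 * N ^ (s' + 1)) =
            (H + M ^ (t' + 1 + 1) / M1) / (M ^ (t' + 1) * N ^ (s' + 1)) := by
          field_simp
          ring
        rw [h2]
        field_simp
        ring

end Pool.Agent.Y844.BT
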