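import Mathlib
import Pool.Agent.H469R2.NK.KL

/-! The trapezoid weight in residue classes: the Bernoulli function and its Fourier series. -/

set_option autoImplicit false

namespace Pool.Agent.Y844.BT

open Finset Filter Topology
open Pool.Agent.H469R2.NK (e norm_e e_add conj_e e_zero)

/-- the second Bernoulli function, scaled -/
noncomputable def Gq (q : ℕ) (a m : ℤ) : ℝ :=
  (((m - a) % (q : ℤ) : ℤ) : ℝ) ^ 2 / (2 * q) - (((m - a) % (q : ℤ) : ℤ) : ℝ) / 2 + q / 12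

theorem Gq_diff (q : ℕ) (hq : 1 ≤ q) (a m : ℤ) :
    Gq q a (m + 1) - 2 * Gq q a m + Gq q a (m - 1) = 1 / q - (if (q : ℤ) ∣ m - a then 1 else 0) := by
  have hq0 : (0 : ℝ) < q := by exact_mod_cast hq
  have hqz : (0 : ℤ) < q := by exact_mod_cast hq
  obtain ⟨r, hr⟩ : ∃ r : ℤ, r = (m - a) % (q : ℤ) := ⟨_, rfl⟩
  obtain ⟨d, hd⟩ : ∃ d : ℤ, d = (m - a) / (q : ℤ) := ⟨_, rfl⟩
  have h1 : m - a = r + q * d := by
    rw [hr, hd]
    exact (Int.emod_add_mul_ediv (m - a) q).symm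
  have hr0 : 0 ≤ r := hr ▸ Int.emod_nonneg _ hqz.ne'
  have hr1 : r < q := hr ▸ Int.emod_lt_of_pos _ hqz
  have hdvd : (q : ℤ) ∣ m - a ↔ r = 0 := by
    rw [hr]
    exact Int.dvd_iff_emod_eq_zero
  have e0 : (m - a) % (q : ℤ) = r := hr.symm
  have e1 : (m + 1 - a) % (q : ℤ) = if r + 1 = q then 0 else r + 1 := by
    have h2 : m + 1 - a = (r + 1) + q * d := by omega
    rw [h2, Int.add_mul_emod_self_left]
    split_ifs with h3
    · rw [h3, Int.emod_self]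
    · exact Int.emod_eq_of_lt (by omega) (by omega)
  have e2 : (m - 1 - a) % (q : ℤ) = if r = 0 then (q : ℤ) - 1 else r - 1 := by
    split_ifs with h3
    · have h2 : m - 1 - a = ((q : ℤ) - 1) + q * (d - 1) := by
        rw [mul_sub, mul_one]
        omega
      rw [h2, Int.add_mul_emod_self_left]
      exact Int.emod_eq_of_lt (by omega) (by omega)
    · have h2 : m - 1 - a = (r - 1) + q * d := by omega
      rw [h2, Int.add_mul_emod_self_left]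
      exact Int.emod_eq_of_lt (by omega) (by omega)
  unfold Gq
  rw [e0, e1, e2]
  simp only [hdvd]
  by_cases h2 : r = 0
  · rw [if_pos h2, if_pos h2]
    split_ifs with h3
    · have hq1 : (q : ℝ) = 1 := by
        have : (q : ℤ) = 1 := by omega
        exact_mod_cast this
      rw [h2]
      push_cast
      rw [hq1]
      norm_num
    · rw [h2]
      push_cast
      field_simp
      ring
  · rw [if_neg h2, if_neg h2]
    split_ifs with h3
    · have h4 : (r : ℝ) = q - 1 := by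
        have : ((r + 1 : ℤ) : ℝ) = q := by rw [h3]; push_cast; rfl
        push_cast at this
        linarith
      push_cast
      rw [h4]
      field_simp
      ring
    · push_cast
      field_simp
      ring

/-- summation by parts -/
theorem Fsum (g : ℤ → ℝ) (c : ℤ) (N : ℕ) :
    ∑ n ∈ range N, ((N : ℝ) - n) * (g (c + n + 1) - 2 * g (c + n) + g (c + n - 1)) =
      g (c + N) - g c - N * (g c - g (c - 1)) := by
  have h1 : ∀ N : ℕ, ∑ n ∈ range N, (g (c + n + 1) - 2 * g (c + n) + g (c + n - 1)) =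
      g (c + N) - g (c + N - 1) - (g c - g (c - 1)) := by
    intro N
    induction N with
    | zero => simp
    | succ N ih =>
      rw [sum_range_succ, ih]
      push_cast
      have e1 : c + ((N : ℤ) + 1) = c + N + 1 := by ring
      have e2 : c + ((N : ℤ) + 1) - 1 = c + N := by ring
      rw [e2, e1]
      ring
  induction N with
  | zero => simp
  | succ N ih =>
    have h2 : ∑ n ∈ range (N + 1), (((N + 1 : ℕ) : ℝ) - n) * (g (c + n + 1) - 2 * g (c + n) + g (c + n - 1)) =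
        ∑ n ∈ range (N + 1), ((N : ℝ) - n) * (g (c + n + 1) - 2 * g (c + n) + g (c + n - 1)) +
        ∑ n ∈ range (N + 1), (g (c + n + 1) - 2 * g (c + n) + g (c + n - 1)) := by
      rw [← sum_add_distrib]
      apply sum_congr rfl
      intro n _
      push_cast
      ring
    rw [h2, h1, sum_range_succ, ih]
    push_cast
    have e1 : c + ((N : ℤ) + 1) = c + N + 1 := by ring
    have e2 : c + ((N : ℤ) + 1) - 1 = c + N := by ring
    rw [e2, e1]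
    ring

/-- the trapezoid -/
noncomputable def Wt (L Δ n : ℕ) : ℝ := (((2 * Δ + L - n : ℕ) : ℝ) - ((Δ + L - n : ℕ) : ℝ) - ((Δ - n : ℕ) : ℝ)) / Δ

theorem Wt_nonneg (L Δ n : ℕ) : 0 ≤ Wt L Δ n := by
  unfold Wt
  apply div_nonneg _ (Nat.cast_nonneg _)
  have h : (Δ + L - n) + (Δ - n) ≤ 2 * Δ + L - n := by omega
  have h' : ((Δ + L - n : ℕ) : ℝ) + ((Δ - n : ℕ) : ℝ) ≤ ((2 * Δ + L - n : ℕ) : ℝ) := by exact_mod_cast h
  linarith

theorem Wt_one (L Δ n : ℕ) (hΔ : 1 ≤ Δ) (h1 : Δ ≤ n) (h2 : n ≤ Δ + L) : Wt L Δ n = 1 := by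
  unfold Wt
  have h : (2 * Δ + L - n) = (Δ + L - n) + (Δ - n) + Δ := by omega
  rw [h]
  push_cast
  have : (Δ : ℝ) ≠ 0 := by
    have : Δ ≠ 0 := by omega
    exact_mod_cast this
  field_simp
  ring

/-- sum of a function against the trapezoid -/
theorem Wt_sum (L Δ : ℕ) (f : ℕ → ℝ) : ∑ n ∈ range (2 * Δ + L), Wt L Δ n * f n =
    (∑ n ∈ range (2 * Δ + L), (((2 * Δ + L : ℕ) : ℝ) - n) * f n - ∑ n ∈ range (Δ + L), (((Δ + L : ℕ) : ℝ) - n) * f n -
      ∑ n ∈ range Δ, ((Δ : ℝ) - n) * f n) / Δ := by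
  have key : ∀ N ≤ 2 * Δ + L, ∑ n ∈ range (2 * Δ + L), ((N - n : ℕ) : ℝ) * f n = ∑ n ∈ range N, ((N : ℝ) - n) * f n := by
    intro N hN
    have h1 : ∑ n ∈ range N, ((N : ℝ) - n) * f n = ∑ n ∈ range N, ((N - n : ℕ) : ℝ) * f n := by
      apply sum_congr rfl
      intro n hn
      rw [mem_range] at hn
      rw [Nat.cast_sub hn.le]
    rw [h1]
    symm
    apply sum_subset
    · intro n hn
      rw [mem_range] at hn ⊢
      omega
    · intro n _ hn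
      rw [mem_range] at hn
      have : N - n = 0 := by omega
      rw [this]
      simp
  rw [← key _ le_rfl, ← key (Δ + L) (by omega), ← key Δ (by omega), ← sum_sub_distrib, ← sum_sub_distrib, sum_div]
  apply sum_congr rfl
  intro n _
  unfold Wt
  ring

theorem lin_sum (N : ℕ) : ∑ n ∈ range N, ((N : ℝ) - n) = N * (N + 1) / 2 := by
  induction N with
  | zero => simp
  | succ N ih =>
    have h2 : ∑ n ∈ range (N + 1), (((N + 1 : ℕ) : ℝ) - n) = ∑ n ∈ range (N + 1), ((N : ℝ) - n) + ∑ n ∈ range (N + 1), (1 : ℝ) := by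
      rw [← sum_add_distrib]
      apply sum_congr rfl
      intro n _
      push_cast
      ring
    rw [h2, sum_range_succ, ih]
    simp
    ring

theorem Wt_tot (L Δ : ℕ) (hΔ : 1 ≤ Δ) : ∑ n ∈ range (2 * Δ + L), Wt L Δ n = Δ + L := by
  have h := Wt_sum L Δ (fun _ => 1)
  simp only [mul_one] at h
  rw [h, lin_sum, lin_sum, lin_sum]
  have : (Δ : ℝ) ≠ 0 := by
    have : Δ ≠ 0 := by omega
    exact_mod_cast this
  push_cast
  field_simp
  ring

/-- the discrepancy in a residue class -/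
theorem Wt_class (L Δ q : ℕ) (hΔ : 1 ≤ Δ) (hq : 1 ≤ q) (a c : ℤ) :
    ∑ n ∈ range (2 * Δ + L), Wt L Δ n * (if (q : ℤ) ∣ (c + n) - a then 1 else 0) = (Δ + L) / q -
      (Gq q a (c + (2 * Δ + L : ℕ)) - Gq q a (c + (Δ + L : ℕ)) - Gq q a (c + Δ) + Gq q a c) / Δ := by
  have hΔ0 : (Δ : ℝ) ≠ 0 := by
    have : Δ ≠ 0 := by omega
    exact_mod_cast this
  have h1 : ∀ n : ℕ, (if (q : ℤ) ∣ (c + n) - a then (1 : ℝ) else 0) = 1 / q -
      (Gq q a (c + n + 1) - 2 * Gq q a (c + n) + Gq q a (c + n - 1)) := by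
    intro n
    rw [Gq_diff q hq a (c + n)]
    ring
  have h2 : ∑ n ∈ range (2 * Δ + L), Wt L Δ n * (if (q : ℤ) ∣ (c + n) - a then 1 else 0) =
      (∑ n ∈ range (2 * Δ + L), Wt L Δ n) / q - ∑ n ∈ range (2 * Δ + L), Wt L Δ n *
        (Gq q a (c + n + 1) - 2 * Gq q a (c + n) + Gq q a (c + n - 1)) := by
    rw [sum_div, ← sum_sub_distrib]
    apply sum_congr rfl
    intro n _
    rw [h1 n]
    ring
  rw [h2, Wt_tot L Δ hΔ, Wt_sum, Fsum, Fsum, Fsum]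
  push_cast
  field_simp
  ring

theorem tail_bd (f : ℕ → ℝ) (hf : ∀ h, |f h| ≤ 1) (S : ℝ) (hS : HasSum (fun h : ℕ => 1 / (h : ℝ) ^ 2 * f h) S)
    (H : ℕ) (hH : 1 ≤ H) : |S - ∑ h ∈ Icc 1 H, 1 / (h : ℝ) ^ 2 * f h| ≤ (1 : ℝ) / H := by
  have hH0 : (0 : ℝ) < H := by exact_mod_cast hH
  set A : ℕ → ℝ := fun n => ∑ h ∈ Icc 1 n, 1 / (h : ℝ) ^ 2 * f h with hA
  have hAs : ∀ n, A (n + 1) = A n + 1 / (((n + 1 : ℕ) : ℝ)) ^ 2 * f (n + 1) := by
    intro n
    simp only [hA]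
    rw [sum_Icc_succ_top (by omega)]
  have h1 : ∀ n : ℕ, H ≤ n → |A n - A H| ≤ (1 : ℝ) / H - 1 / n := by
    intro n hn
    induction n, hn using Nat.le_induction with
    | base => simp
    | succ n hn ih =>
      have hn0 : (0 : ℝ) < n := lt_of_lt_of_le hH0 (by exact_mod_cast hn)
      have h2 : |1 / (((n + 1 : ℕ) : ℝ)) ^ 2 * f (n + 1)| ≤ (1 : ℝ) / n - 1 / ((n + 1 : ℕ) : ℝ) := by
        rw [abs_mul, abs_of_nonneg (by positivity)]
        calc 1 / (((n + 1 : ℕ) : ℝ)) ^ 2 * |f (n + 1)| ≤ 1 / (((n + 1 : ℕ) : ℝ)) ^ 2 * 1 :=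
              mul_le_mul_of_nonneg_left (hf _) (by positivity)
          _ ≤ _ := by
              push_cast
              rw [mul_one, div_sub_div _ _ hn0.ne' (by positivity), div_le_div_iff₀ (by positivity) (by positivity)]
              nlinarith
      have h3 : A (n + 1) - A H = (A n - A H) + 1 / (((n + 1 : ℕ) : ℝ)) ^ 2 * f (n + 1) := by
        rw [hAs]
        ring
      rw [h3]
      refine (abs_add_le _ _).trans ?_
      linarith
  have h2 : Tendsto A atTop (𝓝 S) := by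
    have h3 := hS.tendsto_sum_nat.comp (tendsto_add_atTop_nat 1)
    refine h3.congr fun n => ?_
    simp only [Function.comp_apply, hA]
    induction n with
    | zero => simp
    | succ n ih => rw [sum_range_succ, ih, sum_Icc_succ_top (by omega)]
  have h3 : Tendsto (fun n => |A n - A H|) atTop (𝓝 |S - A H|) := (h2.sub_const _).abs
  apply le_of_tendsto h3
  filter_upwards [eventually_ge_atTop H] with n hn
  refine (h1 n hn).trans ?_
  have : 0 ≤ 1 / (n : ℝ) := by positivity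
  linarith

/-- the Fourier series -/
theorem Gq_fourier (q : ℕ) (hq : 1 ≤ q) (a m : ℤ) (H : ℕ) (hH : 1 ≤ H) :
    |Gq q a m - q / (2 * Real.pi ^ 2) * ∑ h ∈ Icc 1 H, 1 / (h : ℝ) ^ 2 * Real.cos (2 * Real.pi * (h * ((m : ℝ) - a) / q))| ≤
      (q : ℝ) / H := by
  have hq0 : (0 : ℝ) < q := by exact_mod_cast hq
  have hqz : (0 : ℤ) < q := by exact_mod_cast hq
  obtain ⟨r, hr⟩ : ∃ r : ℤ, r = (m - a) % (q : ℤ) := ⟨_, rfl⟩
  obtain ⟨d, hd⟩ : ∃ d : ℤ, d = (m - a) / (q : ℤ) := ⟨_, rfl⟩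
  have h1 : m - a = r + q * d := by
    rw [hr, hd]
    exact (Int.emod_add_mul_ediv (m - a) q).symm
  have hr0 : 0 ≤ r := hr ▸ Int.emod_nonneg _ hqz.ne'
  have hr1 : r < q := hr ▸ Int.emod_lt_of_pos _ hqz
  have hr0' : (0 : ℝ) ≤ r := by exact_mod_cast hr0
  have hr1' : (r : ℝ) ≤ q := by exact_mod_cast hr1.le
  have h1' : (m : ℝ) - a = r + q * d := by exact_mod_cast h1
  have hx : (r : ℝ) / q ∈ Set.Icc (0 : ℝ) 1 := ⟨by positivity, (div_le_one hq0).2 hr1'⟩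
  have h2 := hasSum_one_div_nat_pow_mul_cos (k := 1) one_ne_zero hx
  have hB : (Polynomial.map (algebraMap ℚ ℝ) (Polynomial.bernoulli (2 * 1))).eval ((r : ℝ) / q) =
      ((r : ℝ) / q) ^ 2 - (r : ℝ) / q + 1 / 6 := by
    rw [show 2 * 1 = 2 from rfl, Polynomial.bernoulli_def]
    simp [Finset.sum_range_succ, bernoulli_one, bernoulli_two]
    ring
  have h3 : (-1 : ℝ) ^ (1 + 1) * (2 * Real.pi) ^ (2 * 1) / 2 / (2 * 1).factorial *
      (Polynomial.map (algebraMap ℚ ℝ) (Polynomial.bernoulli (2 * 1))).eval ((r : ℝ) / q) =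
      Real.pi ^ 2 * (((r : ℝ) / q) ^ 2 - (r : ℝ) / q + 1 / 6) := by
    rw [hB]
    have h00 : (((2 * 1).factorial : ℕ) : ℝ) = 2 := by norm_num [Nat.factorial]
    rw [h00]
    ring
  rw [h3] at h2
  have h4 : ∀ h : ℕ, Real.cos (2 * Real.pi * h * ((r : ℝ) / q)) = Real.cos (2 * Real.pi * (h * ((m : ℝ) - a) / q)) := by
    intro h
    rw [h1']
    have h5 : 2 * Real.pi * (h * ((r : ℝ) + q * d) / q) = 2 * Real.pi * h * ((r : ℝ) / q) + ((h * d : ℤ) : ℝ) * (2 * Real.pi) := by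
      push_cast
      field_simp
    rw [h5, Real.cos_add_int_mul_two_pi]
  have h5 := tail_bd (fun h => Real.cos (2 * Real.pi * (h * ((m : ℝ) - a) / q))) (fun h => Real.abs_cos_le_one _)
    (Real.pi ^ 2 * (((r : ℝ) / q) ^ 2 - (r : ℝ) / q + 1 / 6)) (by
      have h6 : (fun h : ℕ => 1 / (h : ℝ) ^ 2 * Real.cos (2 * Real.pi * (h * ((m : ℝ) - a) / q))) =
          fun n : ℕ => 1 / (n : ℝ) ^ (2 * 1) * Real.cos (2 * Real.pi * n * ((r : ℝ) / q)) := by
        funext h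
        rw [h4 h]
      rw [h6]
      exact h2) H hH
  have h6 : Gq q a m = q / (2 * Real.pi ^ 2) * (Real.pi ^ 2 * (((r : ℝ) / q) ^ 2 - (r : ℝ) / q + 1 / 6)) := by
    unfold Gq
    rw [← hr]
    have hpi := Real.pi_pos
    field_simp
    ring
  set A : ℝ := ∑ h ∈ Icc 1 H, 1 / (h : ℝ) ^ 2 * Real.cos (2 * Real.pi * (h * ((m : ℝ) - a) / q)) with hA
  have h7 : Gq q a m - q / (2 * Real.pi ^ 2) * A =
      q / (2 * Real.pi ^ 2) * (Real.pi ^ 2 * (((r : ℝ) / q) ^ 2 - (r : ℝ) / q + 1 / 6) - A) := by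
    rw [h6]
    ring
  rw [h7, abs_mul, abs_of_pos (by have := Real.pi_pos; positivity)]
  have hpi : 1 ≤ 2 * Real.pi ^ 2 := by
    have := Real.pi_gt_three
    nlinarith
  calc (q : ℝ) / (2 * Real.pi ^ 2) * |Real.pi ^ 2 * (((r : ℝ) / q) ^ 2 - (r : ℝ) / q + 1 / 6) - A| ≤ q / 1 * (1 / H) := by
        apply mul_le_mul _ h5 (abs_nonneg _) (by positivity)
        exact div_le_div_of_nonneg_left hq0.le (by norm_num) hpi
    _ = q / H := by
        rw [div_one, mul_one_div]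

theorem Gq_triv (q : ℕ) (hq : 1 ≤ q) (a m : ℤ) : |Gq q a m| ≤ q / 4 := by
  have hq0 : (0 : ℝ) < q := by exact_mod_cast hq
  have hqz : (0 : ℤ) < q := by exact_mod_cast hq
  unfold Gq
  have hr0 : 0 ≤ (m - a) % (q : ℤ) := Int.emod_nonneg _ hqz.ne'
  have hr1 : (m - a) % (q : ℤ) < q := Int.emod_lt_of_pos _ hqz
  set r : ℤ := (m - a) % (q : ℤ) with hr
  have hr0' : (0 : ℝ) ≤ r := by exact_mod_cast hr0
  have hr1' : (r : ℝ) ≤ q := by exact_mod_cast hr1.le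
  have h1 : (r : ℝ) ^ 2 / (2 * q) - (r : ℝ) / 2 = - (r * (q - r)) / (2 * q) := by
    field_simp
    ring
  have h2 : (r : ℝ) * (q - r) / (2 * q) ≤ q / 4 := by
    rw [div_le_div_iff₀ (by positivity) (by norm_num)]
    nlinarith [sq_nonneg ((q : ℝ) - 2 * r)]
  have h3 : 0 ≤ (r : ℝ) * (q - r) / (2 * q) := by
    apply div_nonneg _ (by positivity)
    exact mul_nonneg hr0' (by linarith)
  have h4 : - ((r : ℝ) * (q - r)) / (2 * q) = - (r * (q - r) / (2 * q)) := by ring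
  rw [h1, h4, abs_le]
  have h5 : (r : ℝ) * (q - r) / (2 * q) ≤ q / 8 := by
    rw [div_le_div_iff₀ (by positivity) (by norm_num)]
    nlinarith [sq_nonneg ((q : ℝ) - 2 * r)]
  constructor <;> linarith

/-- the inverse residue -/
noncomputable def bq (k : ℕ) (l : ℤ) (q : ℕ) : ℤ := (((l : ZMod k) * (q : ZMod k)⁻¹).val : ℤ)

/-- the root -/
noncomputable def aq (k : ℕ) (l : ℤ) (q : ℕ) : ℤ := (q * bq k l q - l) / k

theorem bq_spec (k : ℕ) [NeZero k] (l : ℤ) (q : ℕ) (hq : Nat.Coprime q k) : (k : ℤ) ∣ q * bq k l q - l := by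
  rw [← ZMod.intCast_zmod_eq_zero_iff_dvd]
  unfold bq
  push_cast
  rw [ZMod.natCast_zmod_val]
  have e1 := ZMod.coe_mul_inv_eq_one _ hq
  calc (q : ZMod k) * ((l : ZMod k) * (q : ZMod k)⁻¹) - l = (l : ZMod k) * ((q : ZMod k) * (q : ZMod k)⁻¹) - l := by ring
    _ = 0 := by rw [e1]; ring

theorem aq_spec (k : ℕ) [NeZero k] (l : ℤ) (q : ℕ) (hq : Nat.Coprime q k) :
    (k : ℤ) * aq k l q + l = q * bq k l q := by
  unfold aq
  rw [Int.mul_ediv_cancel' (bq_spec k l q hq)]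
  ring

theorem aq_dvd (k : ℕ) [NeZero k] (l : ℤ) (q : ℕ) (hq : Nat.Coprime q k) (m : ℤ) :
    (q : ℤ) ∣ k * m + l ↔ (q : ℤ) ∣ m - aq k l q := by
  have h1 := aq_spec k l q hq
  have h2 : (k : ℤ) * m + l = k * (m - aq k l q) + q * bq k l q := by
    rw [← h1]
    ring
  rw [h2, dvd_add_left (Dvd.intro _ rfl)]
  constructor
  · intro h
    exact (Int.isCoprime_iff_gcd_eq_one.2 (by simpa using hq)).dvd_of_dvd_mul_left h
  · intro h
    exact h.mul_left _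

theorem phase (k k' g' h h' : ℕ) [NeZero k] [NeZero k'] (hg : 1 ≤ g') (hk : k = k' * g') (hh : h = h' * g') (l : ℤ) (q : ℕ)
    (hq1 : 1 ≤ q) (hq : Nat.Coprime q k) (m : ℤ) :
    e (h * ((m : ℝ) - aq k l q) / q) = e ((h * (k * m + l) / k : ℝ) / q) *
      ZMod.stdAddChar (-(h' : ZMod k') * (l : ZMod k') * (q : ZMod k')⁻¹) := by
  have hk0 : (k : ℝ) ≠ 0 := by exact_mod_cast NeZero.ne k
  have hk0' : (k' : ℝ) ≠ 0 := by exact_mod_cast NeZero.ne k'
  have hg0 : (g' : ℝ) ≠ 0 := by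
    have : g' ≠ 0 := by omega
    exact_mod_cast this
  have hq0 : (q : ℝ) ≠ 0 := by
    have : q ≠ 0 := by omega
    exact_mod_cast this
  have h1 := aq_spec k l q hq
  have h1' : (k : ℝ) * aq k l q + l = q * bq k l q := by exact_mod_cast h1
  have h2 : (h : ℝ) * ((m : ℝ) - aq k l q) / q = (h * (k * m + l) / k : ℝ) / q + (-(h' * bq k l q) / k' : ℝ) := by
    have h3 : (aq k l q : ℝ) = (q * bq k l q - l) / k := by
      rw [eq_div_iff hk0]
      linarith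
    rw [h3, hh, hk]
    push_cast
    field_simp
    ring
  rw [h2, e_add]
  congr 1
  have hqk' : Nat.Coprime q k' := Nat.Coprime.coprime_dvd_right (hk ▸ Dvd.intro _ rfl) hq
  have h4 : (-(h' : ZMod k') * (l : ZMod k') * (q : ZMod k')⁻¹) = ((-(h' * bq k l q) : ℤ) : ZMod k') := by
    have h5 : (k' : ℤ) ∣ q * bq k l q - l := (hk ▸ (by push_cast; exact Dvd.intro _ rfl : (k' : ℤ) ∣ ((k' * g' : ℕ) : ℤ))).trans (bq_spec k l q hq)
    have h6 : (l : ZMod k') = (q : ZMod k') * (bq k l q : ZMod k') := by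
      have h7 := (ZMod.intCast_zmod_eq_zero_iff_dvd _ k').2 h5
      push_cast at h7
      exact (sub_eq_zero.1 h7).symm
    have e1 := ZMod.coe_mul_inv_eq_one _ hqk'
    push_cast
    rw [h6]
    calc -(h' : ZMod k') * ((q : ZMod k') * (bq k l q : ZMod k')) * (q : ZMod k')⁻¹ =
        -(h' : ZMod k') * (bq k l q : ZMod k') * ((q : ZMod k') * (q : ZMod k')⁻¹) := by ring
      _ = _ := by rw [e1]; ring
  rw [h4, ZMod.stdAddChar_coe]
  unfold e
  congr 1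
  push_cast
  ring

/-- the discrepancy -/
noncomputable def RR (k : ℕ) (l c : ℤ) (L Δ q : ℕ) : ℝ :=
  ∑ n ∈ range (2 * Δ + L), Wt L Δ n * (if (q : ℤ) ∣ k * (c + n) + l then 1 else 0) - (Δ + L) / q

theorem RR_eq (k : ℕ) [NeZero k] (l c : ℤ) (L Δ q : ℕ) (hΔ : 1 ≤ Δ) (hq1 : 1 ≤ q) (hq : Nat.Coprime q k) :
    RR k l c L Δ q = - (Gq q (aq k l q) (c + (2 * Δ + L : ℕ)) - Gq q (aq k l q) (c + (Δ + L : ℕ)) -
      Gq q (aq k l q) (c + Δ) + Gq q (aq k l q) c) / Δ := by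
  unfold RR
  have h1 : ∑ n ∈ range (2 * Δ + L), Wt L Δ n * (if (q : ℤ) ∣ k * (c + n) + l then 1 else 0) =
      ∑ n ∈ range (2 * Δ + L), Wt L Δ n * (if (q : ℤ) ∣ (c + n) - aq k l q then 1 else 0) := by
    apply sum_congr rfl
    intro n _
    simp only [aq_dvd k l q hq]
  rw [h1, Wt_class L Δ q hΔ hq1]
  ring

theorem RR_triv (k : ℕ) [NeZero k] (l c : ℤ) (L Δ q : ℕ) (hΔ : 1 ≤ Δ) (hq1 : 1 ≤ q) (hq : Nat.Coprime q k) :
    |RR k l c L Δ q| ≤ q / Δ := by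
  rw [RR_eq k l c L Δ q hΔ hq1 hq, abs_div, abs_of_nonneg (Nat.cast_nonneg (α := ℝ) Δ)]
  apply div_le_div_of_nonneg_right _ (Nat.cast_nonneg _)
  have h1 := abs_le.1 (Gq_triv q hq1 (aq k l q) (c + (2 * Δ + L : ℕ)))
  have h2 := abs_le.1 (Gq_triv q hq1 (aq k l q) (c + (Δ + L : ℕ)))
  have h3 := abs_le.1 (Gq_triv q hq1 (aq k l q) (c + Δ))
  have h4 := abs_le.1 (Gq_triv q hq1 (aq k l q) c)
  rw [abs_le]
  constructor <;> linarith [h1.1, h1.2, h2.1, h2.2, h3.1, h3.2, h4.1, h4.2]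

/-- the exponential sums at one point -/
noncomputable def BB {ι : Type*} (k : ℕ) (l : ℤ) (I : Finset ι) (q : ι → ℕ) (w : ι → ℝ) (H : ℕ) (t : ℤ) : ℝ :=
  ∑ h ∈ Icc 1 H, 1 / (h : ℝ) ^ 2 * ‖∑ i ∈ I, ((w i * q i : ℝ) : ℂ) * e (h * ((t : ℝ) - aq k l (q i)) / q i)‖ +
    (∑ i ∈ I, |w i| * q i) / H

theorem Gq_sum {ι : Type*} (k : ℕ) (l : ℤ) (I : Finset ι) (q : ι → ℕ) (w : ι → ℝ) (H : ℕ) (hH : 1 ≤ H)
    (hq1 : ∀ i ∈ I, 1 ≤ q i) (t : ℤ) : |∑ i ∈ I, w i * Gq (q i) (aq k l (q i)) t| ≤ BB k l I q w H t := by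
  set A : ι → ℝ := fun i => q i / (2 * Real.pi ^ 2) * ∑ h ∈ Icc 1 H, 1 / (h : ℝ) ^ 2 *
    Real.cos (2 * Real.pi * (h * ((t : ℝ) - aq k l (q i)) / q i)) with hA
  have h1 : |∑ i ∈ I, w i * Gq (q i) (aq k l (q i)) t - ∑ i ∈ I, w i * A i| ≤ (∑ i ∈ I, |w i| * q i) / H := by
    rw [← sum_sub_distrib, sum_div]
    refine (abs_sum_le_sum_abs _ _).trans (sum_le_sum fun i hi => ?_)
    rw [← mul_sub, abs_mul, mul_div_assoc]
    exact mul_le_mul_of_nonneg_left (Gq_fourier (q i) (hq1 i hi) _ _ H hH) (abs_nonneg _)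
  have hpi : 1 ≤ 2 * Real.pi ^ 2 := by
    have := Real.pi_gt_three
    nlinarith
  have h2 : ∑ i ∈ I, w i * A i = 1 / (2 * Real.pi ^ 2) * ∑ h ∈ Icc 1 H, 1 / (h : ℝ) ^ 2 *
      (∑ i ∈ I, ((w i * q i : ℝ) : ℂ) * e (h * ((t : ℝ) - aq k l (q i)) / q i)).re := by
    have h3 : ∀ h : ℕ, (∑ i ∈ I, ((w i * q i : ℝ) : ℂ) * e (h * ((t : ℝ) - aq k l (q i)) / q i)).re =
        ∑ i ∈ I, w i * q i * Real.cos (2 * Real.pi * (h * ((t : ℝ) - aq k l (q i)) / q i)) := by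
      intro h
      rw [Complex.re_sum]
      apply sum_congr rfl
      intro i _
      rw [Complex.re_ofReal_mul]
      unfold e
      rw [Complex.exp_ofReal_mul_I_re]
    simp only [h3, hA]
    simp only [mul_sum]
    rw [sum_comm]
    apply sum_congr rfl
    intro h _
    apply sum_congr rfl
    intro i _
    ring
  have h3 : |∑ i ∈ I, w i * A i| ≤ ∑ h ∈ Icc 1 H, 1 / (h : ℝ) ^ 2 *
      ‖∑ i ∈ I, ((w i * q i : ℝ) : ℂ) * e (h * ((t : ℝ) - aq k l (q i)) / q i)‖ := by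
    rw [h2, abs_mul, abs_of_pos (by positivity)]
    have h4 : |∑ h ∈ Icc 1 H, 1 / (h : ℝ) ^ 2 *
      (∑ i ∈ I, ((w i * q i : ℝ) : ℂ) * e (h * ((t : ℝ) - aq k l (q i)) / q i)).re| ≤
      ∑ h ∈ Icc 1 H, 1 / (h : ℝ) ^ 2 * ‖∑ i ∈ I, ((w i * q i : ℝ) : ℂ) * e (h * ((t : ℝ) - aq k l (q i)) / q i)‖ := by
      refine (abs_sum_le_sum_abs _ _).trans (sum_le_sum fun h _ => ?_)
      rw [abs_mul, abs_of_nonneg (by positivity)]
      exact mul_le_mul_of_nonneg_left (Complex.abs_re_le_norm _) (by positivity)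
    have h5 : 1 / (2 * Real.pi ^ 2) ≤ 1 := by
      rw [div_le_one (by positivity)]
      exact hpi
    calc _ ≤ 1 * ∑ h ∈ Icc 1 H, 1 / (h : ℝ) ^ 2 * ‖∑ i ∈ I, ((w i * q i : ℝ) : ℂ) * e (h * ((t : ℝ) - aq k l (q i)) / q i)‖ := by
          apply mul_le_mul h5 h4 (abs_nonneg _) (by norm_num)
      _ = _ := one_mul _
  unfold BB
  have h4 : ∑ i ∈ I, w i * Gq (q i) (aq k l (q i)) t = (∑ i ∈ I, w i * Gq (q i) (aq k l (q i)) t - ∑ i ∈ I, w i * A i) +
      ∑ i ∈ I, w i * A i := by ring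
  rw [h4]
  refine (abs_add_le _ _).trans ?_
  linarith

theorem ber {ι : Type*} (k : ℕ) [NeZero k] (l c : ℤ) (L Δ : ℕ) (hΔ : 1 ≤ Δ) (I : Finset ι) (q : ι → ℕ) (w : ι → ℝ)
    (H : ℕ) (hH : 1 ≤ H) (hq1 : ∀ i ∈ I, 1 ≤ q i) (hq : ∀ i ∈ I, Nat.Coprime (q i) k) :
    |∑ i ∈ I, w i * RR k l c L Δ (q i)| ≤ (BB k l I q w H (c + (2 * Δ + L : ℕ)) + BB k l I q w H (c + (Δ + L : ℕ)) +
      BB k l I q w H (c + Δ) + BB k l I q w H c) / Δ := by
  have hΔ0 : (0 : ℝ) < Δ := by exact_mod_cast hΔ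
  have h1 : ∑ i ∈ I, w i * RR k l c L Δ (q i) = - (∑ i ∈ I, w i * Gq (q i) (aq k l (q i)) (c + (2 * Δ + L : ℕ)) -
      ∑ i ∈ I, w i * Gq (q i) (aq k l (q i)) (c + (Δ + L : ℕ)) - ∑ i ∈ I, w i * Gq (q i) (aq k l (q i)) (c + Δ) +
      ∑ i ∈ I, w i * Gq (q i) (aq k l (q i)) c) / Δ := by
    rw [← sum_sub_distrib, ← sum_sub_distrib, ← sum_add_distrib, ← sum_neg_distrib, sum_div]
    apply sum_congr rfl
    intro i hi
    rw [RR_eq k l c L Δ (q i) hΔ (hq1 i hi) (hq i hi)]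
    ring
  rw [h1, abs_div, abs_of_pos hΔ0]
  apply div_le_div_of_nonneg_right _ hΔ0.le
  have k1 := abs_le.1 (Gq_sum k l I q w H hH hq1 (c + (2 * Δ + L : ℕ)))
  have k2 := abs_le.1 (Gq_sum k l I q w H hH hq1 (c + (Δ + L : ℕ)))
  have k3 := abs_le.1 (Gq_sum k l I q w H hH hq1 (c + Δ))
  have k4 := abs_le.1 (Gq_sum k l I q w H hH hq1 c)
  rw [abs_le]
  constructor <;> linarith [k1.1, k1.2, k2.1, k2.2, k3.1, k3.2, k4.1, k4.2]

end Pool.Agent.Y844.BT
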