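import Mathlib
import Pool.Agent.Y844.BT.Ber

/-! From the primes to the weighted sum. -/

set_option autoImplicit false

namespace Pool.Agent.Y844.BT

open Finset

/-- the primes in the progression and the interval -/
noncomputable def Pr (k : ℕ) (l : ℤ) (x y : ℝ) : Finset ℕ := by
  classical
  exact (Icc 1 ⌊x⌋₊).filter (fun p => p.Prime ∧ x - y < (p : ℝ) ∧ (p : ℤ) ≡ l [ZMOD (k : ℤ)])

theorem mem_Pr (k : ℕ) (l : ℤ) (x y : ℝ) (hx : 0 ≤ x) (p : ℕ) : p ∈ Pr k l x y ↔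
    p.Prime ∧ x - y < (p : ℝ) ∧ (p : ℝ) ≤ x ∧ (p : ℤ) ≡ l [ZMOD (k : ℤ)] := by
  classical
  unfold Pr
  rw [mem_filter, mem_Icc]
  constructor
  · rintro ⟨⟨h1, h2⟩, h3, h4, h5⟩
    exact ⟨h3, h4, (Nat.le_floor_iff hx).1 h2, h5⟩
  · rintro ⟨h3, h4, h2, h5⟩
    exact ⟨⟨h3.one_lt.le, (Nat.le_floor_iff hx).2 h2⟩, h3, h4, h5⟩

theorem Pr_card (k : ℕ) (l : ℤ) (x y : ℝ) (hx : 0 ≤ x) :
    {p : ℕ | p.Prime ∧ x - y < (p : ℝ) ∧ (p : ℝ) ≤ x ∧ (p : ℤ) ≡ l [ZMOD (k : ℤ)]}.ncard = (Pr k l x y).card := by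
  rw [← Set.ncard_coe_finset]
  congr 1
  ext p
  rw [Set.mem_setOf_eq, mem_coe, mem_Pr k l x y hx]

theorem cnt (k : ℕ) (hk : 1 ≤ k) (l : ℤ) (x y : ℝ) (hx : 0 ≤ x) (hy : 0 ≤ y) (u0 u1 : ℤ)
    (hu0 : u0 = ⌊(x - y - l) / k⌋) (hu1 : u1 = ⌊(x - l) / k⌋) (L Δ : ℕ) (hL : (L : ℤ) = u1 - u0) (hΔ : 1 ≤ Δ)
    (w : ℤ → ℝ) (hw : ∀ v, 0 ≤ w v) (D : ℝ) (hw1 : ∀ p : ℕ, p.Prime → D < (p : ℝ) → 1 ≤ w p) :
    (((Pr k l x y).filter (fun p : ℕ => D < (p : ℝ))).card : ℝ) ≤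
      ∑ n ∈ range (2 * Δ + L), Wt L Δ n * w (k * ((u0 - Δ) + n) + l) := by
  classical
  have hk0 : (0 : ℝ) < k := by exact_mod_cast hk
  have hkz : (0 : ℤ) < k := by exact_mod_cast hk
  set f : ℕ → ℕ := fun p => (((p : ℤ) - l) / k - (u0 - Δ)).toNat with hf
  have key : ∀ p ∈ (Pr k l x y).filter (fun p : ℕ => D < (p : ℝ)), f p ∈ range (2 * Δ + L) ∧ Wt L Δ (f p) = 1 ∧
      (k : ℤ) * ((u0 - Δ) + f p) + l = p := by
    intro p hp
    rw [mem_filter, mem_Pr k l x y hx] at hp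
    obtain ⟨⟨h1, h2, h3, h4⟩, h5⟩ := hp
    have h6 : (k : ℤ) ∣ (p : ℤ) - l := (Int.modEq_iff_dvd.1 h4.symm)
    obtain ⟨m, hm⟩ := h6
    have h7 : ((p : ℤ) - l) / k = m := by rw [hm, Int.mul_ediv_cancel_left _ hkz.ne']
    have hmr : (p : ℝ) - l = k * m := by exact_mod_cast hm
    have h8 : u0 < m := by
      rw [hu0, Int.floor_lt, div_lt_iff₀ hk0]
      linarith
    have h9 : m ≤ u1 := by
      rw [hu1, Int.le_floor, le_div_iff₀ hk0]
      linarith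
    have h10 : ((f p : ℕ) : ℤ) = m - (u0 - Δ) := by
      simp only [hf]
      rw [h7]
      exact Int.toNat_of_nonneg (by omega)
    refine ⟨?_, ?_, ?_⟩
    · rw [mem_range]; omega
    · apply Wt_one L Δ _ hΔ <;> omega
    · rw [h10]
      have : (k : ℤ) * (u0 - Δ + (m - (u0 - Δ))) = k * m := by ring
      rw [this, ← hm]
      ring
  have hinj : Set.InjOn f ((Pr k l x y).filter (fun p : ℕ => D < (p : ℝ)) : Set ℕ) := by
    intro p hp q hq hpq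
    have h1 := (key p hp).2.2
    have h2 := (key q hq).2.2
    rw [hpq, h2] at h1
    exact_mod_cast h1.symm
  calc (((Pr k l x y).filter (fun p : ℕ => D < (p : ℝ))).card : ℝ) = ∑ p ∈ (Pr k l x y).filter (fun p : ℕ => D < (p : ℝ)), (1 : ℝ) := by simp
    _ ≤ ∑ p ∈ (Pr k l x y).filter (fun p : ℕ => D < (p : ℝ)), Wt L Δ (f p) * w (k * ((u0 - Δ) + f p) + l) := by
        apply sum_le_sum
        intro p hp
        obtain ⟨h1, h2, h3⟩ := key p hp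
        rw [h2, h3, one_mul]
        rw [mem_filter, mem_Pr k l x y hx] at hp
        exact hw1 p hp.1.1 hp.2
    _ = ∑ n ∈ ((Pr k l x y).filter (fun p : ℕ => D < (p : ℝ))).image f, Wt L Δ n * w (k * ((u0 - Δ) + n) + l) := by
        rw [sum_image hinj]
    _ ≤ _ := by
        apply sum_le_sum_of_subset_of_nonneg
        · intro n hn
          rw [mem_image] at hn
          obtain ⟨p, hp, rfl⟩ := hn
          exact (key p hp).1
        · intro n _ _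
          exact mul_nonneg (Wt_nonneg L Δ n) (hw _)

theorem cnt_small (k : ℕ) (hk : 1 ≤ k) (l : ℤ) (x y : ℝ) (hx : 0 ≤ x) (D : ℝ) (hD : 0 ≤ D) :
    (((Pr k l x y).filter (fun p : ℕ => ¬ D < (p : ℝ))).card : ℝ) ≤ D / k + 1 := by
  classical
  have hk0 : (0 : ℝ) < k := by exact_mod_cast hk
  have h1 : ((Pr k l x y).filter (fun p : ℕ => ¬ D < (p : ℝ))).card ≤ (range (⌊D / k⌋₊ + 1)).card := by
    apply card_le_card_of_injOn (fun p => p / k)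
    · intro p hp
      rw [mem_coe, mem_filter, mem_Pr k l x y hx] at hp
      rw [mem_coe, mem_range]
      apply Nat.lt_succ_of_le
      apply Nat.le_floor
      have h2 : ((p / k : ℕ) : ℝ) ≤ (p : ℝ) / k := Nat.cast_div_le
      refine h2.trans ?_
      exact div_le_div_of_nonneg_right (not_lt.1 hp.2) hk0.le
    · intro p hp q hq hpq
      rw [mem_coe, mem_filter, mem_Pr k l x y hx] at hp hq
      have h2 : (p : ℤ) ≡ q [ZMOD (k : ℤ)] := hp.1.2.2.2.trans hq.1.2.2.2.symm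
      have h3 : p ≡ q [MOD k] := (Int.natCast_modEq_iff).1 h2
      simp only at hpq
      rw [← Nat.div_add_mod p k, ← Nat.div_add_mod q k, hpq, h3]
  rw [card_range] at h1
  calc _ ≤ ((⌊D / k⌋₊ + 1 : ℕ) : ℝ) := by exact_mod_cast h1
    _ = (⌊D / k⌋₊ : ℝ) + 1 := by push_cast; rfl
    _ ≤ _ := by
      have := Nat.floor_le (div_nonneg hD hk0.le)
      linarith

/-- the sieve sum -/
theorem sieve_sum (k : ℕ) (l c : ℤ) (L Δ : ℕ) (Q P : Finset ℕ) (cs cb : Finset ℕ → ℝ)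
    (hco : ∀ T ⊆ Q, ∀ s ⊆ P, Nat.Coprime (∏ p ∈ T, p) (∏ q ∈ s, q)) :
    ∑ n ∈ range (2 * Δ + L), Wt L Δ n *
      ((∑ T ∈ Q.powerset, cs T * (if (∏ p ∈ T, p) ∣ ((k : ℤ) * (c + n) + l).natAbs then 1 else 0)) *
        (∑ s ∈ P.powerset, cb s * (if (∏ q ∈ s, q) ∣ ((k : ℤ) * (c + n) + l).natAbs then 1 else 0))) =
    (Δ + L) * ((∑ T ∈ Q.powerset, cs T * (1 / ((∏ p ∈ T, p : ℕ) : ℝ))) *
      (∑ s ∈ P.powerset, cb s * (1 / ((∏ q ∈ s, q : ℕ) : ℝ)))) +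
      ∑ T ∈ Q.powerset, cs T * ∑ s ∈ P.powerset, cb s * RR k l c L Δ ((∏ p ∈ T, p) * ∏ q ∈ s, q) := by
  classical
  have h1 : ∀ n : ℕ, ∀ T ∈ Q.powerset, ∀ s ∈ P.powerset,
      (if (∏ p ∈ T, p) ∣ ((k : ℤ) * (c + n) + l).natAbs then (1 : ℝ) else 0) *
        (if (∏ q ∈ s, q) ∣ ((k : ℤ) * (c + n) + l).natAbs then 1 else 0) =
      (if (((∏ p ∈ T, p) * ∏ q ∈ s, q : ℕ) : ℤ) ∣ k * (c + n) + l then 1 else 0) := by
    intro n T hT s hs
    have h2 := hco T (mem_powerset.1 hT) s (mem_powerset.1 hs)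
    have h3 : (((∏ p ∈ T, p) * ∏ q ∈ s, q : ℕ) : ℤ) ∣ k * (c + n) + l ↔
        (∏ p ∈ T, p) ∣ ((k : ℤ) * (c + n) + l).natAbs ∧ (∏ q ∈ s, q) ∣ ((k : ℤ) * (c + n) + l).natAbs := by
      rw [Int.natCast_dvd]
      constructor
      · intro h
        exact ⟨(Dvd.intro _ rfl).trans h, (Dvd.intro_left _ rfl).trans h⟩
      · rintro ⟨h4, h5⟩
        exact h2.mul_dvd_of_dvd_of_dvd h4 h5
    by_cases h4 : (∏ p ∈ T, p) ∣ ((k : ℤ) * (c + n) + l).natAbs <;>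
    by_cases h5 : (∏ q ∈ s, q) ∣ ((k : ℤ) * (c + n) + l).natAbs
    · rw [if_pos h4, if_pos h5, if_pos (h3.2 ⟨h4, h5⟩), one_mul]
    · rw [if_pos h4, if_neg h5, if_neg (fun h => h5 (h3.1 h).2), mul_zero]
    · rw [if_neg h4, if_neg (fun h => h4 (h3.1 h).1), zero_mul]
    · rw [if_neg h4, if_neg (fun h => h4 (h3.1 h).1), zero_mul]
  calc _ = ∑ n ∈ range (2 * Δ + L), ∑ T ∈ Q.powerset, ∑ s ∈ P.powerset, cs T * (cb s * (Wt L Δ n *
        (if (((∏ p ∈ T, p) * ∏ q ∈ s, q : ℕ) : ℤ) ∣ k * (c + n) + l then 1 else 0))) := by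
        apply sum_congr rfl
        intro n _
        rw [sum_mul_sum, mul_sum]
        apply sum_congr rfl
        intro T hT
        rw [mul_sum]
        apply sum_congr rfl
        intro s hs
        rw [← h1 n T hT s hs]
        ring
    _ = ∑ T ∈ Q.powerset, ∑ s ∈ P.powerset, cs T * (cb s * ∑ n ∈ range (2 * Δ + L), (Wt L Δ n *
        (if (((∏ p ∈ T, p) * ∏ q ∈ s, q : ℕ) : ℤ) ∣ k * (c + n) + l then 1 else 0))) := by
        rw [sum_comm]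
        apply sum_congr rfl
        intro T _
        rw [sum_comm]
        apply sum_congr rfl
        intro s _
        rw [mul_sum, mul_sum]
    _ = ∑ T ∈ Q.powerset, ∑ s ∈ P.powerset, ((Δ + L) * ((cs T * (1 / ((∏ p ∈ T, p : ℕ) : ℝ))) * (cb s * (1 / ((∏ q ∈ s, q : ℕ) : ℝ)))) +
        cs T * (cb s * RR k l c L Δ ((∏ p ∈ T, p) * ∏ q ∈ s, q))) := by
        apply sum_congr rfl
        intro T _
        apply sum_congr rfl
        intro s _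
        unfold RR
        have h00 : ((((∏ p ∈ T, p) * ∏ q ∈ s, q : ℕ)) : ℝ) = ((∏ p ∈ T, p : ℕ) : ℝ) * ((∏ q ∈ s, q : ℕ) : ℝ) := Nat.cast_mul _ _
        rw [h00]
        have h2 : ((Δ : ℝ) + L) / (((∏ p ∈ T, p : ℕ) : ℝ) * ((∏ q ∈ s, q : ℕ) : ℝ)) =
            (Δ + L) * ((1 / ((∏ p ∈ T, p : ℕ) : ℝ)) * (1 / ((∏ q ∈ s, q : ℕ) : ℝ))) := by
          rw [one_div_mul_one_div, mul_one_div]
        rw [h2]
        ring
    _ = _ := by
        rw [sum_mul_sum, mul_sum, ← sum_add_distrib]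
        apply sum_congr rfl
        intro T _
        rw [mul_sum, mul_sum, ← sum_add_distrib]

end Pool.Agent.Y844.BT
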