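import Mathlib

/-! The numerical end of the argument. -/

set_option autoImplicit false

namespace Pool.Agent.Y844.BT

theorem poly_ineq (η : ℝ) (h0 : 0 < η) (h1 : η ≤ 1 / 1000) :
    2 * (1 + η / 50) * ((1 + η / 100) * (1 + η / 100)) < (2 - η / 2 - η / 32) * ((1 + η) * (1 - η / 100)) := by
  have h2 : η ^ 2 ≤ η / 1000 := by nlinarith
  have h3 : 0 ≤ η ^ 2 := sq_nonneg _
  have h4 : η ^ 3 ≤ η / 1000 := by nlinarith
  have h5 : 0 ≤ η ^ 3 := by positivity
  nlinarith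

theorem fin_num (η z Lz LX φr Vs Vl DL R1 E N g ε₁ : ℝ) (h0 : 0 < η) (h1 : η ≤ 1 / 1000) (hz : 0 < z)
    (hLz : 0 < Lz) (hLX : 0 < LX) (hφ : 1 ≤ φr) (hg : 0 < g) (hε : 0 < ε₁) (hVs0 : 0 ≤ Vs)
    (hVs : Vs ≤ (1 + η / 100) * (g⁻¹ / (ε₁ * LX)) * φr) (hVl : Vl ≤ (1 + η / 100) * (2 * g * ε₁ / (3 / 4)))
    (hDL0 : 0 ≤ DL) (hDL : DL ≤ z * (1 + η / 50)) (hR1 : R1 ≤ η / 64 * (z / Lz)) (hE : E ≤ η / 64 * (z / Lz))
    (hlog : (1 + η) * (1 - η / 100) * Lz ≤ 3 / 4 * LX) (hN : N ≤ R1 + (DL * (Vs * Vl) + E)) :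
    N < (2 - η / 2) * (z / Lz) * φr := by
  have hφ0 : 0 < φr := by linarith
  set A : ℝ := (1 + η / 100) * (g⁻¹ / (ε₁ * LX)) * φr with hA
  set B : ℝ := (1 + η / 100) * (2 * g * ε₁ / (3 / 4)) with hB
  have hA0 : 0 < A := by positivity
  have hB0 : 0 < B := by positivity
  have h2 : Vs * Vl ≤ A * B := by
    calc Vs * Vl ≤ Vs * B := mul_le_mul_of_nonneg_left hVl hVs0
      _ ≤ A * B := mul_le_mul_of_nonneg_right hVs hB0.le
  have h3 : A * B = (1 + η / 100) * (1 + η / 100) * φr * 2 / (3 / 4 * LX) := by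
    rw [hA, hB]
    field_simp
  have hc : 0 < (1 + η) * (1 - η / 100) := by
    apply mul_pos (by linarith)
    linarith
  have h4 : A * B ≤ (1 + η / 100) * (1 + η / 100) * φr * 2 / ((1 + η) * (1 - η / 100) * Lz) := by
    rw [h3]
    exact div_le_div_of_nonneg_left (by positivity) (by positivity) hlog
  have h5 : DL * (Vs * Vl) ≤ z * (1 + η / 50) * ((1 + η / 100) * (1 + η / 100) * φr * 2 / ((1 + η) * (1 - η / 100) * Lz)) := by
    calc DL * (Vs * Vl) ≤ DL * (A * B) := mul_le_mul_of_nonneg_left h2 hDL0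
      _ ≤ z * (1 + η / 50) * (A * B) := mul_le_mul_of_nonneg_right hDL (by positivity)
      _ ≤ _ := mul_le_mul_of_nonneg_left h4 (by positivity)
  have h6 : z * (1 + η / 50) * ((1 + η / 100) * (1 + η / 100) * φr * 2 / ((1 + η) * (1 - η / 100) * Lz)) =
      (2 * (1 + η / 50) * ((1 + η / 100) * (1 + η / 100))) / ((1 + η) * (1 - η / 100)) * (z / Lz * φr) := by
    field_simp
  have h7 : (2 * (1 + η / 50) * ((1 + η / 100) * (1 + η / 100))) / ((1 + η) * (1 - η / 100)) < 2 - η / 2 - η / 32 := by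
    rw [div_lt_iff₀ hc]
    exact poly_ineq η h0 h1
  have h8 : 0 < z / Lz * φr := by positivity
  have h9 : DL * (Vs * Vl) < (2 - η / 2 - η / 32) * (z / Lz * φr) := by
    refine lt_of_le_of_lt h5 ?_
    rw [h6]
    exact mul_lt_mul_of_pos_right h7 h8
  have h10 : η / 64 * (z / Lz) ≤ η / 64 * (z / Lz * φr) := by
    apply mul_le_mul_of_nonneg_left _ (by positivity)
    have : 0 < z / Lz := by positivity
    nlinarith
  have h11 : (2 - η / 2) * (z / Lz) * φr = (2 - η / 2 - η / 32) * (z / Lz * φr) + 2 * (η / 64 * (z / Lz * φr)) := by ring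
  rw [h11]
  linarith

theorem card_pf (k : ℕ) (hk : 1 ≤ k) : (k.primeFactors.card : ℝ) ≤ 2 * Real.log k := by
  have h1 : 2 ^ k.primeFactors.card ≤ k := by
    calc 2 ^ k.primeFactors.card ≤ ∏ p ∈ k.primeFactors, p := by
          apply Finset.pow_card_le_prod
          intro p hp
          exact (Nat.prime_of_mem_primeFactors hp).two_le
      _ ≤ k := Nat.le_of_dvd (by omega) (Nat.prod_primeFactors_dvd k)
  have h2 : ((2 : ℝ)) ^ k.primeFactors.card ≤ k := by exact_mod_cast h1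
  have h3 := Real.log_le_log (by positivity) h2
  rw [Real.log_pow] at h3
  have h4 := Real.log_two_gt_d9
  have h5 : (0 : ℝ) ≤ k.primeFactors.card := Nat.cast_nonneg _
  nlinarith

end Pool.Agent.Y844.BT
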