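import Mathlib
import Pool.Agent.Y844.BT.Bil
import Pool.Agent.Y844.BT.Cnt
import Pool.Agent.Y844.BT.Num

/-! The error term and the small primes of the progression. -/

set_option autoImplicit false

namespace Pool.Agent.Y844.BT

open Finset

theorem esum (X : ℕ) (hX1 : 1 ≤ (X : ℝ)) (ω B : ℝ) (hB : 0 ≤ B) (Q : Finset ℕ) (cs F : Finset ℕ → ℝ)
    (hQ1 : ∀ p ∈ Q, p.Prime) (hQ2 : ∀ T, |cs T| ≤ 1)
    (hQ3 : ∀ T ⊆ Q, cs T ≠ 0 → ((∏ p ∈ T, p : ℕ) : ℝ) ≤ (X : ℝ) ^ (2 * ω))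
    (hF : ∀ T ⊆ Q, cs T ≠ 0 → |F T| ≤ B) :
    ∑ T ∈ Q.powerset, cs T * F T ≤ (X : ℝ) ^ (2 * ω) * B := by
  classical
  have hXpos : (0 : ℝ) < X := by linarith
  have hpos : ∀ z : ℝ, 0 < (X : ℝ) ^ z := fun z => Real.rpow_pos_of_pos hXpos z
  have h1 : ∑ T ∈ Q.powerset, cs T * F T = ∑ T ∈ Q.powerset.filter (fun T => cs T ≠ 0), cs T * F T := by
    symm
    apply sum_filter_of_ne
    intro T _ hne h0
    apply hne
    rw [h0, zero_mul]
  have h2 : ∀ T ∈ Q.powerset.filter (fun T => cs T ≠ 0), cs T * F T ≤ B := by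
    intro T hT
    rw [mem_filter, mem_powerset] at hT
    refine (le_abs_self _).trans ?_
    rw [abs_mul]
    calc |cs T| * |F T| ≤ 1 * |F T| := mul_le_mul_of_nonneg_right (hQ2 T) (abs_nonneg _)
      _ = |F T| := one_mul _
      _ ≤ _ := hF T hT.1 hT.2
  have h3 : ((Q.powerset.filter (fun T => cs T ≠ 0)).card : ℝ) ≤ (X : ℝ) ^ (2 * ω) := by
    have h4 : (Q.powerset.filter (fun T => cs T ≠ 0)).card ≤ ((Q.powerset.filter (fun T => cs T ≠ 0)).image (fun T => ∏ p ∈ T, p)).card := by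
      rw [card_image_of_injOn]
      intro T hT T' hT' h
      rw [mem_coe, mem_filter, mem_powerset] at hT hT'
      simp only at h
      rw [← Nat.primeFactors_prod (s := T) (fun q hq => hQ1 q (hT.1 hq)),
        ← Nat.primeFactors_prod (s := T') (fun q hq => hQ1 q (hT'.1 hq)), h]
    refine le_trans (Nat.cast_le.2 h4) ?_
    apply card_le_of _ _ (hpos _).le
    intro m hm
    rw [mem_image] at hm
    obtain ⟨T, hT, rfl⟩ := hm
    rw [mem_filter, mem_powerset] at hT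
    exact ⟨Nat.one_le_iff_ne_zero.2 (prod_pos fun p hp => (hQ1 p (hT.1 hp)).pos).ne', hQ3 T hT.1 hT.2⟩
  rw [h1]
  calc _ ≤ ∑ T ∈ Q.powerset.filter (fun T => cs T ≠ 0), B := sum_le_sum h2
    _ = ((Q.powerset.filter (fun T => cs T ≠ 0)).card : ℝ) * B := by
        rw [sum_const, nsmul_eq_mul]
    _ ≤ _ := mul_le_mul_of_nonneg_right h3 hB

theorem etail (X : ℕ) (hX1 : 1 ≤ (X : ℝ)) (ω C z Lz Δ : ℝ) (hω0 : 0 < ω) (hC0 : 0 < C) (hz0 : 0 < z) (hLz0 : 0 < Lz)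
    (hΔl : ω / 100 * z ≤ Δ) (hzlow : (X : ℝ) ^ (3 / 4 - ω) ≤ z) (hLzX : Lz ≤ Real.log X)
    (hX₄ : 6400 * C / ω ^ 2 * Real.log X ≤ (X : ℝ) ^ (4 * ω)) :
    (X : ℝ) ^ (2 * ω) * (C * (X : ℝ) ^ (3 / 2 - 8 * ω) / Δ) ≤ ω / 64 * (z / Lz) := by
  have hXpos : (0 : ℝ) < X := by linarith
  have hpos : ∀ z : ℝ, 0 < (X : ℝ) ^ z := fun z => Real.rpow_pos_of_pos hXpos z
  have h0 : (X : ℝ) ^ (2 * ω) * (C * (X : ℝ) ^ (3 / 2 - 8 * ω) / Δ) = C * (X : ℝ) ^ (3 / 2 - 6 * ω) / Δ := by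
    have : (X : ℝ) ^ (2 * ω) * (C * (X : ℝ) ^ (3 / 2 - 8 * ω) / Δ) = C * ((X : ℝ) ^ (2 * ω) * (X : ℝ) ^ (3 / 2 - 8 * ω)) / Δ := by ring
    rw [this, ← Real.rpow_add hXpos]
    congr 3
    ring
  have hp0 := hpos (3 / 2 - 6 * ω)
  have h1 : C * (X : ℝ) ^ (3 / 2 - 6 * ω) / Δ ≤ C * (X : ℝ) ^ (3 / 2 - 6 * ω) / (ω / 100 * z) :=
    div_le_div_of_nonneg_left (by positivity) (by positivity) hΔl
  have h2 : (X : ℝ) ^ (3 / 2 - 6 * ω) ≤ z * z * ((X : ℝ) ^ (4 * ω))⁻¹ := by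
    have h3 : (X : ℝ) ^ (3 / 2 - 6 * ω) = (X : ℝ) ^ (3 / 4 - ω) * (X : ℝ) ^ (3 / 4 - ω) * ((X : ℝ) ^ (4 * ω))⁻¹ := by
      rw [← Real.rpow_neg hXpos.le, ← Real.rpow_add hXpos, ← Real.rpow_add hXpos]
      congr 1
      ring
    rw [h3]
    apply mul_le_mul_of_nonneg_right _ (inv_nonneg.2 (hpos _).le)
    exact mul_le_mul hzlow hzlow (hpos _).le hz0.le
  rw [h0]
  calc C * (X : ℝ) ^ (3 / 2 - 6 * ω) / Δ ≤ C * (X : ℝ) ^ (3 / 2 - 6 * ω) / (ω / 100 * z) := h1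
    _ ≤ C * (z * z * ((X : ℝ) ^ (4 * ω))⁻¹) / (ω / 100 * z) := by
        apply div_le_div_of_nonneg_right _ (by positivity)
        exact mul_le_mul_of_nonneg_left h2 hC0.le
    _ = 100 * C / ω * z * ((X : ℝ) ^ (4 * ω))⁻¹ := by field_simp
    _ ≤ ω / 64 * (z / Lz) := by
        rw [mul_inv_le_iff₀ (hpos _)]
        have h5 : ω / 64 * (z / Lz) * (X : ℝ) ^ (4 * ω) = (ω / 64 * (X : ℝ) ^ (4 * ω)) * z / Lz := by ring
        rw [h5, le_div_iff₀ hLz0]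
        have h6 : 100 * C / ω * Lz ≤ ω / 64 * (X : ℝ) ^ (4 * ω) := by
          calc 100 * C / ω * Lz ≤ 100 * C / ω * Real.log X := mul_le_mul_of_nonneg_left hLzX (by positivity)
            _ = ω / 64 * (6400 * C / ω ^ 2 * Real.log X) := by field_simp; ring
            _ ≤ _ := mul_le_mul_of_nonneg_left hX₄ (by positivity)
        calc 100 * C / ω * z * Lz = (100 * C / ω * Lz) * z := by ring
          _ ≤ (ω / 64 * (X : ℝ) ^ (4 * ω)) * z := mul_le_mul_of_nonneg_right h6 hz0.le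

theorem smallp (ep ω : ℝ) (hω0 : 0 < ω) (he : 0 < ep) (he1 : ep ≤ 1 / 4) (hωe : ω ≤ ep / 8) (k : ℕ) (hk : 1 ≤ k) (l : ℤ) (x y z : ℝ) (D : ℝ)
    (hx1 : 1 ≤ x) (hyz : y = k * z) (hz0 : 0 < z) (hz1 : x ^ ep ≤ z) (hz2 : z ≤ x ^ (1 - ep))
    (hD0 : 0 ≤ D) (hD : D ≤ z ^ (1 + ω)) (hb6 : 2 ≤ x ^ (ep / 2)) (hlz : 0 < Real.log z) (hLzx : Real.log z ≤ Real.log x)
    (hb4 : 192 / ω * Real.log x ≤ x ^ (ep / 2)) :
    (((Pr k l x y).filter (fun p : ℕ => ¬ D < (p : ℝ))).card : ℝ) ≤ ω / 64 * (z / Real.log z) := by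
  classical
  have hx0 : 0 < x := by linarith
  have hk0 : (0 : ℝ) < k := by exact_mod_cast hk
  rcases ((Pr k l x y).filter (fun p : ℕ => ¬ D < (p : ℝ))).eq_empty_or_nonempty with hem | hne
  · rw [hem, card_empty]
    push_cast
    positivity
  · obtain ⟨p, hp⟩ := hne
    rw [mem_filter, mem_Pr k l x y hx0.le] at hp
    have h1 : x - y < z ^ (1 + ω) := by linarith [hp.1.2.1, not_lt.1 hp.2]
    have h2 : z ^ (1 + ω) ≤ x ^ (1 - ep / 2) := by
      calc z ^ (1 + ω) ≤ (x ^ (1 - ep)) ^ (1 + ω) := Real.rpow_le_rpow hz0.le hz2 (by linarith)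
        _ = x ^ ((1 - ep) * (1 + ω)) := by rw [← Real.rpow_mul hx0.le]
        _ ≤ x ^ (1 - ep / 2) := by
            apply Real.rpow_le_rpow_of_exponent_le hx1
            have h0 : (1 - ep) * (1 + ω) = 1 - ep + ω - ep * ω := by ring
            have h00 : 0 ≤ ep * ω := by positivity
            rw [h0]
            linarith
    have h3 : x ^ (1 - ep / 2) = x / x ^ (ep / 2) := by
      rw [Real.rpow_sub hx0, Real.rpow_one]
    have hxe0 : 0 < x ^ (ep / 2) := Real.rpow_pos_of_pos hx0 _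
    have h4 : x ^ (1 - ep / 2) ≤ x / 2 := by
      rw [h3]
      exact div_le_div_of_nonneg_left hx0.le (by norm_num) hb6
    have h5 : x / 2 < y := by linarith
    have h6 := cnt_small k hk l x y hx0.le D hD0
    have h7 : D / k ≤ 2 * z / x ^ (ep / 2) := by
      rw [div_le_iff₀ hk0]
      calc D ≤ x / x ^ (ep / 2) := by rw [← h3]; exact hD.trans h2
        _ ≤ (2 * y) / x ^ (ep / 2) := div_le_div_of_nonneg_right (by linarith) hxe0.le
        _ = 2 * z / x ^ (ep / 2) * k := by rw [hyz]; ring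
    have h8 : (1 : ℝ) ≤ z / x ^ (ep / 2) := by
      rw [le_div_iff₀ hxe0, one_mul]
      refine le_trans ?_ hz1
      apply Real.rpow_le_rpow_of_exponent_le hx1
      linarith
    have h9 : (((Pr k l x y).filter (fun p : ℕ => ¬ D < (p : ℝ))).card : ℝ) ≤ 3 * (z / x ^ (ep / 2)) := by
      have : 2 * z / x ^ (ep / 2) = 2 * (z / x ^ (ep / 2)) := by ring
      linarith
    refine h9.trans ?_
    rw [mul_div_assoc', mul_div_assoc', div_le_div_iff₀ hxe0 hlz]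
    have h10 : 192 / ω * Real.log z ≤ x ^ (ep / 2) := (mul_le_mul_of_nonneg_left hLzx (by positivity)).trans hb4
    have h11 : 3 * Real.log z ≤ ω / 64 * x ^ (ep / 2) := by
      calc 3 * Real.log z = ω / 64 * (192 / ω * Real.log z) := by field_simp; norm_num
        _ ≤ _ := mul_le_mul_of_nonneg_left h10 (by positivity)
    calc 3 * z * Real.log z = (3 * Real.log z) * z := by ring
      _ ≤ (ω / 64 * x ^ (ep / 2)) * z := mul_le_mul_of_nonneg_right h11 hz0.le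
      _ = _ := by ring

theorem cardlog (ep : ℝ) (he : 0 < ep) (k : ℕ) (hk : 1 ≤ k) (x LX : ℝ) (hx0 : 0 < x) (hkx : (k : ℝ) ≤ x) (h3 : ep * Real.log x ≤ LX)
    (hb5 : 2 / ep ^ 2 ≤ Real.log x) : (k.primeFactors.card : ℝ) ≤ LX ^ 2 := by
  have hk0 : (0 : ℝ) < k := by exact_mod_cast hk
  have h1 := card_pf k hk
  have h2 : Real.log k ≤ Real.log x := Real.log_le_log hk0 hkx
  have hl0 : 0 < Real.log x := lt_of_lt_of_le (by positivity) hb5
  have h4 : (ep * Real.log x) ^ 2 ≤ LX ^ 2 := pow_le_pow_left₀ (by positivity) h3 2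
  have h5 : 2 ≤ ep ^ 2 * Real.log x := by
    rw [div_le_iff₀ (by positivity)] at hb5
    linarith
  have h6 : 2 * Real.log x ≤ (ep * Real.log x) ^ 2 := by
    have : (ep * Real.log x) ^ 2 = ep ^ 2 * Real.log x * Real.log x := by ring
    rw [this]
    exact mul_le_mul_of_nonneg_right h5 hl0.le
  linarith

end Pool.Agent.Y844.BT
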