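import Mathlib
import Pool.Agent.Y844.BT.Bil
import Pool.Agent.Y844.BT.Ber

/-! The discrepancy over the products `m n`, `m` and `n` coprime. -/

set_option autoImplicit false

namespace Pool.Agent.Y844.BT

open Finset
open Pool.Agent.H469R2.NK (e norm_e e_add conj_e e_zero)

theorem moeb (m n Y : ℕ) (hm : 1 ≤ m) (hmY : m ≤ Y) :
    (if Nat.Coprime m n then (1 : ℝ) else 0) =
      ∑ g ∈ Icc 1 Y, (ArithmeticFunction.moebius g : ℝ) * (if g ∣ m ∧ g ∣ n then 1 else 0) := by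
  have h1 : ∑ i ∈ (Nat.gcd m n).divisors, ArithmeticFunction.moebius i = if Nat.gcd m n = 1 then 1 else 0 := by
    have h2 := ArithmeticFunction.coe_mul_zeta_apply (f := ArithmeticFunction.moebius) (x := Nat.gcd m n)
    rw [ArithmeticFunction.moebius_mul_coe_zeta] at h2
    rw [← h2, ArithmeticFunction.one_apply]
  have h3 : ∑ g ∈ Icc 1 Y, (ArithmeticFunction.moebius g : ℝ) * (if g ∣ m ∧ g ∣ n then 1 else 0) =
      ∑ g ∈ (Nat.gcd m n).divisors, (ArithmeticFunction.moebius g : ℝ) := by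
    simp only [mul_ite, mul_one, mul_zero]
    rw [← sum_filter]
    apply sum_congr _ (fun _ _ => rfl)
    ext g
    rw [mem_filter, mem_Icc, Nat.mem_divisors]
    constructor
    · rintro ⟨⟨h4, h5⟩, h6, h7⟩
      exact ⟨Nat.dvd_gcd h6 h7, (Nat.gcd_pos_of_pos_left n hm).ne'⟩
    · rintro ⟨h4, h5⟩
      have h6 := h4.trans (Nat.gcd_dvd_left m n)
      exact ⟨⟨Nat.pos_of_dvd_of_pos h6 hm, (Nat.le_of_dvd hm h6).trans hmY⟩, h6, h4.trans (Nat.gcd_dvd_right m n)⟩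
  rw [h3]
  have h4 : ((∑ i ∈ (Nat.gcd m n).divisors, ArithmeticFunction.moebius i : ℤ) : ℝ) = ((if Nat.gcd m n = 1 then 1 else 0 : ℤ) : ℝ) := by
    rw [h1]
  push_cast at h4
  rw [h4]

theorem inv_sq_sum (n : ℕ) : ∑ g ∈ Icc 1 n, 1 / (g : ℝ) ^ 2 ≤ 2 := by
  have h1 : ∀ n : ℕ, ∑ g ∈ Icc 1 (n + 1), 1 / (g : ℝ) ^ 2 ≤ 2 - 1 / ((n : ℝ) + 1) := by
    intro n
    induction n with
    | zero => simp; norm_num
    | succ n ih =>
      rw [sum_Icc_succ_top (by omega)]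
      have h2 : 1 / (((n + 1 + 1 : ℕ) : ℝ)) ^ 2 ≤ 1 / ((n : ℝ) + 1) - 1 / (((n + 1 : ℕ) : ℝ) + 1) := by
        push_cast
        rw [div_sub_div _ _ (by positivity) (by positivity), div_le_div_iff₀ (by positivity) (by positivity)]
        nlinarith [Nat.cast_nonneg (α := ℝ) n]
      linarith
  rcases Nat.eq_zero_or_pos n with rfl | hn
  · simp
  · obtain ⟨m, rfl⟩ : ∃ m, n = m + 1 := ⟨n - 1, by omega⟩
    have h2 := h1 m
    have : 0 ≤ 1 / ((m : ℝ) + 1) := by positivity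
    linarith

theorem inv_sq_tail (a n : ℕ) (ha : 1 ≤ a) : ∑ g ∈ Ioc a n, 1 / (g : ℝ) ^ 2 ≤ (1 : ℝ) / a := by
  have ha0 : (0 : ℝ) < a := by exact_mod_cast ha
  rcases le_total n a with h | h
  · rw [Ioc_eq_empty (by omega), sum_empty]
    positivity
  · have h1 : ∑ g ∈ Ioc a n, 1 / (g : ℝ) ^ 2 ≤ (1 : ℝ) / (a : ℝ) - (1 : ℝ) / (n : ℝ) := by
      induction n, h using Nat.le_induction with
      | base => simp
      | succ n hn ih =>
        have hn0 : (0 : ℝ) < n := lt_of_lt_of_le ha0 (by exact_mod_cast hn)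
        rw [sum_Ioc_succ_top (by omega)]
        have h2 : 1 / (((n + 1 : ℕ) : ℝ)) ^ 2 ≤ (1 : ℝ) / n - 1 / ((n + 1 : ℕ) : ℝ) := by
          push_cast
          rw [div_sub_div _ _ hn0.ne' (by positivity), div_le_div_iff₀ (by positivity) (by positivity)]
          nlinarith
        linarith
    have : 0 ≤ 1 / (n : ℝ) := by positivity
    linarith

/-- the quotients -/
def dg (𝓜 : Finset ℕ) (g : ℕ) : Finset ℕ := (𝓜.filter (fun m => g ∣ m)).image (fun m => m / g)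

theorem mem_dg (𝓜 : Finset ℕ) (g m : ℕ) (hg : 1 ≤ g) : m ∈ dg 𝓜 g ↔ g * m ∈ 𝓜 := by
  unfold dg
  rw [mem_image]
  constructor
  · rintro ⟨x, hx, rfl⟩
    rw [mem_filter] at hx
    rw [Nat.mul_div_cancel' hx.2]
    exact hx.1
  · intro h
    exact ⟨g * m, mem_filter.2 ⟨h, Dvd.intro _ rfl⟩, Nat.mul_div_cancel_left _ hg⟩

theorem sum_dg (𝓜 : Finset ℕ) (g : ℕ) (hg : 1 ≤ g) (f : ℕ → ℝ) :
    ∑ m ∈ 𝓜.filter (fun m => g ∣ m), f m = ∑ m ∈ dg 𝓜 g, f (g * m) := by
  unfold dg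
  rw [sum_image]
  · apply sum_congr rfl
    intro m hm
    rw [Nat.mul_div_cancel' (mem_filter.1 hm).2]
  · intro a ha b hb h
    rw [mem_coe, mem_filter] at ha hb
    simp only at h
    rw [← Nat.mul_div_cancel' ha.2, ← Nat.mul_div_cancel' hb.2, h]

theorem dg_card (𝓜 : Finset ℕ) (g : ℕ) (hg : 1 ≤ g) (M : ℝ) (hM0 : 0 ≤ M) (hM : ∀ m ∈ 𝓜, 1 ≤ m ∧ (m : ℝ) ≤ M) :
    ((dg 𝓜 g).card : ℝ) ≤ M / g := by
  have hg0 : (0 : ℝ) < g := by exact_mod_cast hg
  apply card_le_of _ _ (by positivity)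
  intro m hm
  rw [mem_dg _ _ _ hg] at hm
  obtain ⟨h1, h2⟩ := hM _ hm
  refine ⟨Nat.pos_of_mul_pos_left h1 |> fun h => ?_, ?_⟩
  · rcases Nat.eq_zero_or_pos m with h0 | h0
    · rw [h0, mul_zero] at h1; omega
    · exact h0
  · rw [le_div_iff₀ hg0]
    push_cast at h2
    linarith

/-- the discrepancy of a class -/
theorem cls (k : ℕ) [NeZero k] (l c : ℤ) (L Δ : ℕ) (hΔ : 1 ≤ Δ) (𝓜 𝓝 : Finset ℕ) (α β : ℕ → ℝ) (A : ℝ) (hA : 0 < A)
    (hα : ∀ m, |α m| ≤ A) (hβ : ∀ n, |β n| ≤ A) (e₀ : ℕ) (he₀ : 1 ≤ e₀) (hek : Nat.Coprime e₀ k) (hlk : IsCoprime l (k : ℤ))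
    (M N B : ℝ) (hM1 : 1 ≤ M) (hN1 : 1 ≤ N) (hB : 0 ≤ B)
    (h𝓜 : ∀ m ∈ 𝓜, (1 ≤ m ∧ (m : ℝ) ≤ M) ∧ Nat.Coprime m k) (h𝓝 : ∀ n ∈ 𝓝, (1 ≤ n ∧ (n : ℝ) ≤ N) ∧ Nat.Coprime n k)
    (Gm Hh : ℕ) (hGm : 1 ≤ Gm) (hHh : 1 ≤ Hh)
    (hbil : ∀ g ∈ Icc 1 Gm, ∀ h ∈ Icc 1 Hh, ∀ t : ℤ, (t = c ∨ t = c + Δ ∨ t = c + (Δ + L : ℕ) ∨ t = c + (2 * Δ + L : ℕ)) →
      ∀ (a b : ℕ → ℂ), (∀ m ∈ dg 𝓜 g, ‖a m‖ ≤ 1) → (∀ n ∈ dg 𝓝 g, ‖b n‖ ≤ 1) →
      ∀ (k' : ℕ) [NeZero k'] (_ : k' ∣ k) (_ : k ≤ k' * h) (u : ZMod k'), IsUnit u →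
      ‖∑ m ∈ dg 𝓜 g, ∑ n ∈ dg 𝓝 g, a m * b n *
        Ps k' ((h * (k * t + l) / k : ℝ) / (e₀ * g ^ 2)) u (1 / (n : ℝ)) (1 / (m : ℝ)) (n : ZMod k')⁻¹ (m : ZMod k')⁻¹‖ ≤
        M / g * (N / g) * B) :
    |∑ m ∈ 𝓜, ∑ n ∈ 𝓝, (if Nat.Coprime m n then 1 else 0) * (α m * β n * RR k l c L Δ (e₀ * (m * n)))| ≤
      A ^ 2 * e₀ * (M * N) ^ 2 / Δ * (16 * B + 8 / Hh + 1 / Gm) := by
  classical
  have hΔ0 : (0 : ℝ) < Δ := by exact_mod_cast hΔ
  have hM0 : 0 < M := by linarith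
  have hN0 : 0 < N := by linarith
  have he0 : (0 : ℝ) < e₀ := by exact_mod_cast he₀
  have hHh0 : (0 : ℝ) < Hh := by exact_mod_cast hHh
  have hGm0 : (0 : ℝ) < Gm := by exact_mod_cast hGm
  set F : ℕ → ℕ → ℝ := fun m n => α m * β n * RR k l c L Δ (e₀ * (m * n)) with hF
  set Y : ℕ := ⌊M⌋₊ + Gm with hY
  set S : ℕ → ℝ := fun g => ∑ m ∈ dg 𝓜 g, ∑ n ∈ dg 𝓝 g, F (g * m) (g * n) with hS
  have h1 : ∑ m ∈ 𝓜, ∑ n ∈ 𝓝, (if Nat.Coprime m n then 1 else 0) * F m n =
      ∑ g ∈ Icc 1 Y, (ArithmeticFunction.moebius g : ℝ) * S g := by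
    calc _ = ∑ m ∈ 𝓜, ∑ n ∈ 𝓝, ∑ g ∈ Icc 1 Y, (ArithmeticFunction.moebius g : ℝ) * ((if g ∣ m then 1 else 0) * ((if g ∣ n then 1 else 0) * F m n)) := by
          apply sum_congr rfl
          intro m hm
          apply sum_congr rfl
          intro n _
          have h2 := (h𝓜 m hm).1
          rw [moeb m n Y h2.1 (by
            have := Nat.le_floor h2.2
            omega), sum_mul]
          apply sum_congr rfl
          intro g _
          by_cases h3 : g ∣ m <;> by_cases h4 : g ∣ n <;> simp [h3, h4]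
      _ = ∑ g ∈ Icc 1 Y, (ArithmeticFunction.moebius g : ℝ) * ∑ m ∈ 𝓜, ∑ n ∈ 𝓝, ((if g ∣ m then 1 else 0) * ((if g ∣ n then 1 else 0) * F m n)) := by
          rw [sum_congr rfl fun m _ => sum_comm, sum_comm]
          apply sum_congr rfl
          intro g _
          rw [mul_sum]
          apply sum_congr rfl
          intro m _
          rw [mul_sum]
      _ = _ := by
          apply sum_congr rfl
          intro g hg
          rw [mem_Icc] at hg
          congr 1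
          have h2 : ∑ m ∈ 𝓜, ∑ n ∈ 𝓝, ((if g ∣ m then (1 : ℝ) else 0) * ((if g ∣ n then 1 else 0) * F m n)) =
              ∑ m ∈ 𝓜.filter (fun m => g ∣ m), ∑ n ∈ 𝓝.filter (fun n => g ∣ n), F m n := by
            rw [sum_filter]
            apply sum_congr rfl
            intro m _
            by_cases h3 : g ∣ m
            · simp only [if_pos h3, one_mul, ite_mul, zero_mul]
              rw [sum_filter]
            · simp [h3]
          rw [h2, sum_dg 𝓜 g hg.1]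
          apply sum_congr rfl
          intro m _
          rw [sum_dg 𝓝 g hg.1]
  rw [h1]
  have hSb : ∀ g, 1 ≤ g → ∀ m ∈ dg 𝓜 g, ∀ n ∈ dg 𝓝 g, (1 ≤ m ∧ 1 ≤ n ∧ (g : ℝ) * m ≤ M ∧ (g : ℝ) * n ≤ N ∧
      Nat.Coprime m k ∧ Nat.Coprime n k ∧ Nat.Coprime g k) := by
    intro g hg m hm n hn
    rw [mem_dg _ _ _ hg] at hm hn
    obtain ⟨⟨h2, h3⟩, h4⟩ := h𝓜 _ hm
    obtain ⟨⟨h5, h6⟩, h7⟩ := h𝓝 _ hn
    push_cast at h3 h6
    refine ⟨?_, ?_, h3, h6, Nat.Coprime.coprime_mul_left h4, Nat.Coprime.coprime_mul_left h7, Nat.Coprime.coprime_mul_right h4⟩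
    · rcases Nat.eq_zero_or_pos m with h0 | h0
      · rw [h0, mul_zero] at h2; omega
      · exact h0
    · rcases Nat.eq_zero_or_pos n with h0 | h0
      · rw [h0, mul_zero] at h5; omega
      · exact h0
  have hqb : ∀ g, 1 ≤ g → ∀ m ∈ dg 𝓜 g, ∀ n ∈ dg 𝓝 g, 1 ≤ e₀ * (g * m * (g * n)) ∧
      Nat.Coprime (e₀ * (g * m * (g * n))) k ∧ ((e₀ * (g * m * (g * n)) : ℕ) : ℝ) ≤ e₀ * (M * N) := by
    intro g hg m hm n hn
    obtain ⟨h2, h3, h4, h5, h6, h7, h8⟩ := hSb g hg m hm n hn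
    refine ⟨?_, ?_, ?_⟩
    · have : 0 < e₀ * (g * m * (g * n)) := by positivity
      exact this
    · exact Nat.Coprime.mul_left hek (Nat.Coprime.mul_left (Nat.Coprime.mul_left h8 h6) (Nat.Coprime.mul_left h8 h7))
    · push_cast
      apply mul_le_mul_of_nonneg_left _ he0.le
      exact mul_le_mul h4 h5 (by positivity) hM0.le
  -- large g
  have hlarge : ∀ g, 1 ≤ g → |S g| ≤ A ^ 2 * e₀ * (M * N) ^ 2 / Δ * (1 / (g : ℝ) ^ 2) := by
    intro g hg
    have hg0 : (0 : ℝ) < g := by exact_mod_cast hg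
    have h2 : ∀ m ∈ dg 𝓜 g, ∀ n ∈ dg 𝓝 g, |F (g * m) (g * n)| ≤ A ^ 2 * (e₀ * (M * N) / Δ) := by
      intro m hm n hn
      obtain ⟨h3, h4, h5⟩ := hqb g hg m hm n hn
      simp only [hF]
      rw [abs_mul, abs_mul, sq]
      apply mul_le_mul (mul_le_mul (hα _) (hβ _) (abs_nonneg _) hA.le) _ (abs_nonneg _) (by positivity)
      refine (RR_triv k l c L Δ _ hΔ h3 h4).trans ?_
      exact div_le_div_of_nonneg_right h5 hΔ0.le
    have h3 := dg_card 𝓜 g hg M hM0.le (fun m hm => (h𝓜 m hm).1)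
    have h4 := dg_card 𝓝 g hg N hN0.le (fun m hm => (h𝓝 m hm).1)
    calc |S g| ≤ ∑ m ∈ dg 𝓜 g, ∑ n ∈ dg 𝓝 g, A ^ 2 * (e₀ * (M * N) / Δ) := by
          refine (abs_sum_le_sum_abs _ _).trans (sum_le_sum fun m hm => ?_)
          exact (abs_sum_le_sum_abs _ _).trans (sum_le_sum fun n hn => h2 m hm n hn)
      _ = ((dg 𝓜 g).card : ℝ) * ((dg 𝓝 g).card : ℝ) * (A ^ 2 * (e₀ * (M * N) / Δ)) := by
          rw [sum_const, sum_const, nsmul_eq_mul, nsmul_eq_mul]
          ring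
      _ ≤ (M / g) * (N / g) * (A ^ 2 * (e₀ * (M * N) / Δ)) := by
          apply mul_le_mul_of_nonneg_right _ (by positivity)
          exact mul_le_mul h3 h4 (Nat.cast_nonneg _) (by positivity)
      _ = _ := by
          field_simp
  -- small g
  have hsmall : ∀ g ∈ Icc 1 Gm, |S g| ≤ A ^ 2 * e₀ * (M * N) ^ 2 / Δ * (1 / (g : ℝ) ^ 2) * (8 * B + 4 / Hh) := by
    intro g hgG
    have hg : 1 ≤ g := (mem_Icc.1 hgG).1
    have hg0 : (0 : ℝ) < g := by exact_mod_cast hg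
    have h3 := dg_card 𝓜 g hg M hM0.le (fun m hm => (h𝓜 m hm).1)
    have h4 := dg_card 𝓝 g hg N hN0.le (fun m hm => (h𝓝 m hm).1)
    have h2 : S g = ∑ i ∈ dg 𝓜 g ×ˢ dg 𝓝 g, (α (g * i.1) * β (g * i.2)) * RR k l c L Δ (e₀ * (g * i.1 * (g * i.2))) := by
      rw [sum_product]
    rw [h2]
    have hb := ber k l c L Δ hΔ (dg 𝓜 g ×ˢ dg 𝓝 g) (fun i => e₀ * (g * i.1 * (g * i.2)))
      (fun i => α (g * i.1) * β (g * i.2)) Hh hHh (by
        intro i hi
        rw [mem_product] at hi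
        exact (hqb g hg i.1 hi.1 i.2 hi.2).1) (by
        intro i hi
        rw [mem_product] at hi
        exact (hqb g hg i.1 hi.1 i.2 hi.2).2.1)
    refine hb.trans ?_
    have hBB : ∀ t : ℤ, (t = c ∨ t = c + Δ ∨ t = c + (Δ + L : ℕ) ∨ t = c + (2 * Δ + L : ℕ)) →
        BB k l (dg 𝓜 g ×ˢ dg 𝓝 g) (fun i => e₀ * (g * i.1 * (g * i.2)))
          (fun i => α (g * i.1) * β (g * i.2)) Hh t ≤ A ^ 2 * e₀ * (M * N) ^ 2 * (1 / (g : ℝ) ^ 2) * (2 * B + 1 / Hh) := by
      intro t ht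
      unfold BB
      have h5 : (∑ i ∈ dg 𝓜 g ×ˢ dg 𝓝 g, |α (g * i.1) * β (g * i.2)| * ((e₀ * (g * i.1 * (g * i.2)) : ℕ) : ℝ)) ≤
          A ^ 2 * e₀ * (M * N) ^ 2 * (1 / (g : ℝ) ^ 2) := by
        calc _ ≤ ∑ i ∈ dg 𝓜 g ×ˢ dg 𝓝 g, A ^ 2 * (e₀ * (M * N)) := by
              apply sum_le_sum
              intro i hi
              rw [mem_product] at hi
              rw [abs_mul, sq]
              apply mul_le_mul (mul_le_mul (hα _) (hβ _) (abs_nonneg _) hA.le) _ (Nat.cast_nonneg _) (by positivity)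
              exact (hqb g hg i.1 hi.1 i.2 hi.2).2.2
          _ = ((dg 𝓜 g).card : ℝ) * ((dg 𝓝 g).card : ℝ) * (A ^ 2 * (e₀ * (M * N))) := by
              rw [sum_const, nsmul_eq_mul, card_product]
              push_cast
              ring
          _ ≤ (M / g) * (N / g) * (A ^ 2 * (e₀ * (M * N))) := by
              apply mul_le_mul_of_nonneg_right _ (by positivity)
              exact mul_le_mul h3 h4 (Nat.cast_nonneg _) (by positivity)
          _ = _ := by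
              field_simp
      have h6 : ∀ h ∈ Icc 1 Hh, ‖∑ i ∈ dg 𝓜 g ×ˢ dg 𝓝 g, ((α (g * i.1) * β (g * i.2) * ((e₀ * (g * i.1 * (g * i.2)) : ℕ) : ℝ) : ℝ) : ℂ) *
          e (h * ((t : ℝ) - aq k l (e₀ * (g * i.1 * (g * i.2)))) / ((e₀ * (g * i.1 * (g * i.2)) : ℕ) : ℝ))‖ ≤
          A ^ 2 * e₀ * (M * N) ^ 2 * (1 / (g : ℝ) ^ 2) * B := by
        intro h hh
        have hh1 : 1 ≤ h := (mem_Icc.1 hh).1
        set g' : ℕ := Nat.gcd h k with hg'
        have hg'1 : 1 ≤ g' := Nat.gcd_pos_of_pos_left k hh1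
        obtain ⟨h', hh'⟩ : g' ∣ h := Nat.gcd_dvd_left h k
        obtain ⟨k', hk'⟩ : g' ∣ k := Nat.gcd_dvd_right h k
        have hk'0 : k' ≠ 0 := by
          intro h0
          rw [h0, mul_zero] at hk'
          exact NeZero.ne k hk'
        haveI : NeZero k' := ⟨hk'0⟩
        have hk'k : k' ∣ k := hk' ▸ Dvd.intro_left _ rfl
        have hcop : Nat.Coprime h' k' := by
          have h7 : Nat.gcd (g' * h') (g' * k') = g' := by rw [← hh', ← hk']
          rw [Nat.gcd_mul_left] at h7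
          exact Nat.eq_of_mul_eq_mul_left hg'1 (by rw [h7, mul_one])
        have hkk : k ≤ k' * h := by
          have h7 : g' ≤ h := Nat.le_of_dvd hh1 (Nat.gcd_dvd_left h k)
          calc k = k' * g' := by rw [mul_comm]; exact hk'
            _ ≤ k' * h := Nat.mul_le_mul_left _ h7
        set u : ZMod k' := -(h' : ZMod k') * (l : ZMod k') * ((e₀ * g ^ 2 : ℕ) : ZMod k')⁻¹ with hu
        set a : ℕ → ℂ := fun m => ((α (g * m) / A * (m / (M / g)) : ℝ) : ℂ) with ha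
        set b : ℕ → ℂ := fun n => ((β (g * n) / A * (n / (N / g)) : ℝ) : ℂ) with hbd
        -- the empty case
        rcases (dg 𝓜 g ×ˢ dg 𝓝 g).eq_empty_or_nonempty with hemp | hne
        · rw [hemp, sum_empty, norm_zero]
          positivity
        obtain ⟨i0, hi0⟩ := hne
        rw [mem_product] at hi0
        have hgk : Nat.Coprime g k := (hSb g hg _ hi0.1 _ hi0.2).2.2.2.2.2.2
        have hegk : Nat.Coprime (e₀ * g ^ 2) k' :=
          Nat.Coprime.coprime_dvd_right hk'k (Nat.Coprime.mul_left hek (Nat.Coprime.pow_left 2 hgk))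
        have huu : IsUnit u := by
          rw [hu]
          apply IsUnit.mul
          · apply IsUnit.mul
            · apply IsUnit.neg
              exact (ZMod.isUnit_iff_coprime h' k').2 hcop
            · have h7 : IsCoprime l (k' : ℤ) := by
                have h8 : ((k' : ℕ) : ℤ) ∣ (k : ℤ) := by exact_mod_cast hk'k
                exact hlk.of_isCoprime_of_dvd_right h8
              obtain ⟨x, y, hxy⟩ := h7
              have h9 : ((x * l + y * k' : ℤ) : ZMod k') = 1 := by rw [hxy]; simp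
              push_cast at h9
              rw [ZMod.natCast_self, mul_zero, add_zero] at h9
              exact IsUnit.of_mul_eq_one _ (by rw [mul_comm]; exact h9)
          · have e1 := ZMod.coe_mul_inv_eq_one _ hegk
            exact IsUnit.of_mul_eq_one _ (by rw [mul_comm]; exact e1)
        have h7 := hbil g hgG h hh t ht a b (by
            intro m hm
            obtain ⟨h8, h9, h10, h11, -⟩ := hSb g hg m hm _ hi0.2
            simp only [ha]
            rw [Complex.norm_real, Real.norm_eq_abs, abs_mul, abs_div, abs_of_pos hA]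
            have h12 : |α (g * m)| / A ≤ 1 := (div_le_one hA).2 (hα _)
            have h13 : |(m : ℝ) / (M / g)| ≤ 1 := by
              rw [abs_of_nonneg (by positivity), div_le_one (by positivity), le_div_iff₀ hg0]
              linarith
            calc _ ≤ (1 : ℝ) * 1 := mul_le_mul h12 h13 (abs_nonneg _) (by norm_num)
              _ = 1 := one_mul 1) (by
            intro n hn
            obtain ⟨h8, h9, h10, h11, -⟩ := hSb g hg _ hi0.1 n hn
            simp only [hbd]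
            rw [Complex.norm_real, Real.norm_eq_abs, abs_mul, abs_div, abs_of_pos hA]
            have h12 : |β (g * n)| / A ≤ 1 := (div_le_one hA).2 (hβ _)
            have h13 : |(n : ℝ) / (N / g)| ≤ 1 := by
              rw [abs_of_nonneg (by positivity), div_le_one (by positivity), le_div_iff₀ hg0]
              linarith
            calc _ ≤ (1 : ℝ) * 1 := mul_le_mul h12 h13 (abs_nonneg _) (by norm_num)
              _ = 1 := one_mul 1) k' hk'k hkk u huu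
        have h8 : ∑ i ∈ dg 𝓜 g ×ˢ dg 𝓝 g, ((α (g * i.1) * β (g * i.2) * ((e₀ * (g * i.1 * (g * i.2)) : ℕ) : ℝ) : ℝ) : ℂ) *
          e (h * ((t : ℝ) - aq k l (e₀ * (g * i.1 * (g * i.2)))) / ((e₀ * (g * i.1 * (g * i.2)) : ℕ) : ℝ)) =
          ((A ^ 2 * (e₀ * g ^ 2 * (M / g * (N / g))) : ℝ) : ℂ) * ∑ m ∈ dg 𝓜 g, ∑ n ∈ dg 𝓝 g, a m * b n *
        Ps k' ((h * (k * t + l) / k : ℝ) / (e₀ * g ^ 2)) u (1 / (n : ℝ)) (1 / (m : ℝ)) (n : ZMod k')⁻¹ (m : ZMod k')⁻¹ := by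
          rw [sum_product, mul_sum]
          apply sum_congr rfl
          intro m hm
          rw [mul_sum]
          apply sum_congr rfl
          intro n hn
          obtain ⟨h9, h10, h11, h12, h13, h14, h15⟩ := hSb g hg m hm n hn
          have h16 := hqb g hg m hm n hn
          have hm0 : (m : ℝ) ≠ 0 := by
            have : m ≠ 0 := by omega
            exact_mod_cast this
          have hn0 : (n : ℝ) ≠ 0 := by
            have : n ≠ 0 := by omega
            exact_mod_cast this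
          rw [phase k k' g' h h' hg'1 (by rw [mul_comm]; exact hk') (by rw [mul_comm]; exact hh') l _ h16.1 h16.2.1 t]
          have hmk : Nat.Coprime m k' := Nat.Coprime.coprime_dvd_right hk'k h13
          have hnk : Nat.Coprime n k' := Nat.Coprime.coprime_dvd_right hk'k h14
          have hinv : ((e₀ * (g * m * (g * n)) : ℕ) : ZMod k')⁻¹ = ((e₀ * g ^ 2 : ℕ) : ZMod k')⁻¹ * ((n : ZMod k')⁻¹ * (m : ZMod k')⁻¹) := by
            have e1 := ZMod.coe_mul_inv_eq_one _ hegk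
            have e2 := ZMod.coe_mul_inv_eq_one _ hmk
            have e3 := ZMod.coe_mul_inv_eq_one _ hnk
            have e4 := ZMod.coe_mul_inv_eq_one _ (Nat.Coprime.coprime_dvd_right hk'k h16.2.1)
            have e5 : ((e₀ * (g * m * (g * n)) : ℕ) : ZMod k') = ((e₀ * g ^ 2 : ℕ) : ZMod k') * ((n : ZMod k') * (m : ZMod k')) := by
              push_cast
              ring
            set Q : ZMod k' := ((e₀ * (g * m * (g * n)) : ℕ) : ZMod k') with hQ
            set R : ZMod k' := ((e₀ * g ^ 2 : ℕ) : ZMod k')⁻¹ * ((n : ZMod k')⁻¹ * (m : ZMod k')⁻¹) with hR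
            have e6 : Q * R = 1 := by
              rw [e5, hR]
              calc _ = (((e₀ * g ^ 2 : ℕ) : ZMod k') * ((e₀ * g ^ 2 : ℕ) : ZMod k')⁻¹) * ((m : ZMod k') * (m : ZMod k')⁻¹) *
                  ((n : ZMod k') * (n : ZMod k')⁻¹) := by ring
                _ = 1 := by rw [e1, e2, e3]; ring
            calc Q⁻¹ = Q⁻¹ * (Q * R) := by rw [e6, mul_one]
              _ = (Q * Q⁻¹) * R := by ring
              _ = R := by rw [e4, one_mul]
          rw [hinv]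
          unfold Ps
          have h17 : (h * (k * t + l) / k : ℝ) / ((e₀ * (g * m * (g * n)) : ℕ) : ℝ) =
              (h * (k * t + l) / k : ℝ) / (e₀ * g ^ 2) * (1 / (n : ℝ)) * (1 / (m : ℝ)) := by
            push_cast
            field_simp
          rw [h17]
          have h18 : (-(h' : ZMod k') * (l : ZMod k') * (((e₀ * g ^ 2 : ℕ) : ZMod k')⁻¹ * ((n : ZMod k')⁻¹ * (m : ZMod k')⁻¹))) =
              u * (n : ZMod k')⁻¹ * (m : ZMod k')⁻¹ := by
            rw [hu]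
            ring
          rw [h18]
          have h19 : ((α (g * m) * β (g * n) * ((e₀ * (g * m * (g * n)) : ℕ) : ℝ) : ℝ) : ℂ) =
              ((A ^ 2 * (e₀ * g ^ 2 * (M / g * (N / g))) : ℝ) : ℂ) * (a m * b n) := by
            simp only [ha, hbd]
            rw [← Complex.ofReal_mul, ← Complex.ofReal_mul]
            congr 1
            push_cast
            field_simp
          rw [h19]
          ring
        rw [h8, norm_mul, Complex.norm_real, Real.norm_of_nonneg (by positivity)]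
        calc A ^ 2 * (e₀ * g ^ 2 * (M / g * (N / g))) * ‖_‖ ≤ A ^ 2 * (e₀ * g ^ 2 * (M / g * (N / g))) * (M / g * (N / g) * B) :=
              mul_le_mul_of_nonneg_left h7 (by positivity)
          _ = _ := by
              field_simp
      have h7 : ∑ h ∈ Icc 1 Hh, 1 / (h : ℝ) ^ 2 * ‖∑ i ∈ dg 𝓜 g ×ˢ dg 𝓝 g, ((α (g * i.1) * β (g * i.2) * ((e₀ * (g * i.1 * (g * i.2)) : ℕ) : ℝ) : ℝ) : ℂ) *
          e (h * ((t : ℝ) - aq k l (e₀ * (g * i.1 * (g * i.2)))) / ((e₀ * (g * i.1 * (g * i.2)) : ℕ) : ℝ))‖ ≤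
          A ^ 2 * e₀ * (M * N) ^ 2 * (1 / (g : ℝ) ^ 2) * B * 2 := by
        calc _ ≤ ∑ h ∈ Icc 1 Hh, 1 / (h : ℝ) ^ 2 * (A ^ 2 * e₀ * (M * N) ^ 2 * (1 / (g : ℝ) ^ 2) * B) := by
              apply sum_le_sum
              intro h hh
              exact mul_le_mul_of_nonneg_left (h6 h hh) (by positivity)
          _ = (A ^ 2 * e₀ * (M * N) ^ 2 * (1 / (g : ℝ) ^ 2) * B) * ∑ h ∈ Icc 1 Hh, 1 / (h : ℝ) ^ 2 := by
              rw [← sum_mul]
              ring
          _ ≤ _ := mul_le_mul_of_nonneg_left (inv_sq_sum Hh) (by positivity)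
      calc _ ≤ A ^ 2 * e₀ * (M * N) ^ 2 * (1 / (g : ℝ) ^ 2) * B * 2 + (A ^ 2 * e₀ * (M * N) ^ 2 * (1 / (g : ℝ) ^ 2)) / Hh := by
            apply add_le_add h7
            exact div_le_div_of_nonneg_right h5 hHh0.le
        _ = _ := by ring
    have k1 := hBB (c + (2 * Δ + L : ℕ)) (Or.inr (Or.inr (Or.inr rfl)))
    have k2 := hBB (c + (Δ + L : ℕ)) (Or.inr (Or.inr (Or.inl rfl)))
    have k3 := hBB (c + Δ) (Or.inr (Or.inl rfl))
    have k4 := hBB c (Or.inl rfl)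
    rw [div_le_iff₀ hΔ0]
    have h5 : A ^ 2 * e₀ * (M * N) ^ 2 / Δ * (1 / (g : ℝ) ^ 2) * (8 * B + 4 / Hh) * Δ =
        4 * (A ^ 2 * e₀ * (M * N) ^ 2 * (1 / (g : ℝ) ^ 2) * (2 * B + 1 / Hh)) := by
      field_simp
      ring
    rw [h5]
    linarith
  set C0 : ℝ := A ^ 2 * e₀ * (M * N) ^ 2 / Δ with hC0
  have hC00 : 0 ≤ C0 := by positivity
  have hsplit : Icc 1 Y = Icc 1 Gm ∪ Ioc Gm Y := by
    ext g
    simp only [mem_Icc, mem_union, mem_Ioc]
    omega
  have hdisj : Disjoint (Icc 1 Gm) (Ioc Gm Y) := by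
    rw [disjoint_left]
    intro g h2 h3
    rw [mem_Icc] at h2
    rw [mem_Ioc] at h3
    omega
  have hmu : ∀ g : ℕ, |(ArithmeticFunction.moebius g : ℝ)| ≤ 1 := by
    intro g
    have := ArithmeticFunction.abs_moebius_le_one (n := g)
    exact_mod_cast this
  rw [hsplit, sum_union hdisj]
  calc |∑ g ∈ Icc 1 Gm, (ArithmeticFunction.moebius g : ℝ) * S g + ∑ g ∈ Ioc Gm Y, (ArithmeticFunction.moebius g : ℝ) * S g|
      ≤ ∑ g ∈ Icc 1 Gm, |S g| + ∑ g ∈ Ioc Gm Y, |S g| := by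
        refine (abs_add_le _ _).trans (add_le_add ?_ ?_)
        · refine (abs_sum_le_sum_abs _ _).trans (sum_le_sum fun g _ => ?_)
          rw [abs_mul]
          calc _ ≤ 1 * |S g| := mul_le_mul_of_nonneg_right (hmu g) (abs_nonneg _)
            _ = _ := one_mul _
        · refine (abs_sum_le_sum_abs _ _).trans (sum_le_sum fun g _ => ?_)
          rw [abs_mul]
          calc _ ≤ 1 * |S g| := mul_le_mul_of_nonneg_right (hmu g) (abs_nonneg _)
            _ = _ := one_mul _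
    _ ≤ ∑ g ∈ Icc 1 Gm, C0 * (8 * B + 4 / Hh) * (1 / (g : ℝ) ^ 2) + ∑ g ∈ Ioc Gm Y, C0 * (1 / (g : ℝ) ^ 2) := by
        apply add_le_add
        · apply sum_le_sum
          intro g hg
          refine (hsmall g hg).trans (le_of_eq ?_)
          ring
        · apply sum_le_sum
          intro g hg
          exact hlarge g (by
            rw [mem_Ioc] at hg
            omega)
    _ = C0 * (8 * B + 4 / Hh) * (∑ g ∈ Icc 1 Gm, (1 / (g : ℝ) ^ 2)) + C0 * ∑ g ∈ Ioc Gm Y, (1 / (g : ℝ) ^ 2) := by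
        rw [mul_sum, mul_sum]
    _ ≤ C0 * (8 * B + 4 / Hh) * 2 + C0 * (1 / Gm) := by
        apply add_le_add
        · exact mul_le_mul_of_nonneg_left (inv_sq_sum Gm) (by positivity)
        · exact mul_le_mul_of_nonneg_left (inv_sq_tail Gm Y hGm) hC00
    _ = _ := by ring

end Pool.Agent.Y844.BT
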