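import Mathlib
import Pool.Agent.W23.DC.Defs
import Pool.Agent.W586.DC.ER

/-! The coefficients of the linear sieve depend on the cells of the prime factors only. -/

set_option autoImplicit false

namespace Pool.Agent.Y844.BT

open Finset
open Pool.Agent.W23.DC

/-- the coefficients of the truncated linear sieve in terms of the cells of the primes -/
noncomputable def Cc (n0 : ℕ) : ℕ → Bool → ℕ → List ℕ → ℝ
  | 0, true, _, [] => 1
  | 0, true, _, _ :: _ => 0
  | 0, false, _, _ => 0
  | _ + 1, _, _, [] => 1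
  | k + 1, true, u, c :: L => if 3 * (c + 1) + u ≤ n0 then - Cc n0 k false (u + (c + 1)) L else 0
  | k + 1, false, u, c :: L => - Cc n0 k true (u + (c + 1)) L

theorem Cc_nil (n0 k : ℕ) (b : Bool) (u : ℕ) : Cc n0 (k + 1) b u [] = 1 := by
  cases b <;> rfl

theorem Cc_bd (n0 : ℕ) : ∀ (k : ℕ) (b : Bool) (u : ℕ) (L : List ℕ), |Cc n0 k b u L| ≤ 1 := by
  intro k
  induction k with
  | zero =>
    intro b u L
    cases b <;> cases L <;> simp [Cc]
  | succ k ih =>
    intro b u L
    cases L with
    | nil => rw [Cc_nil]; simp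
    | cons c L =>
      cases b with
      | true =>
        show |if 3 * (c + 1) + u ≤ n0 then - Cc n0 k false (u + (c + 1)) L else 0| ≤ 1
        split_ifs
        · rw [abs_neg]; exact ih _ _ _
        · simp
      | false =>
        show |- Cc n0 k true (u + (c + 1)) L| ≤ 1
        rw [abs_neg]; exact ih _ _ _

/-- the cells of the elements of `s` in decreasing order -/
def srt {ι : Type} (c : ι → ℕ) (s : Finset ι) : List ℕ := (s.val.map c).sort (· ≥ ·)

theorem srt_empty {ι : Type} (c : ι → ℕ) : srt c (∅ : Finset ι) = [] := by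
  unfold srt
  simp

theorem srt_insert {ι : Type} [DecidableEq ι] (c : ι → ℕ) (s : Finset ι) (p : ι) (hp : p ∉ s)
    (h : ∀ q ∈ s, c q ≤ c p) : srt c (insert p s) = c p :: srt c s := by
  unfold srt
  rw [insert_val_of_notMem hp, Multiset.map_cons, Multiset.sort_cons]
  intro b hb
  rw [Multiset.mem_map] at hb
  obtain ⟨q, hq, rfl⟩ := hb
  exact h q hq

theorem prod_pos_of {P : Finset ℕ} {t : ℕ → ℝ} (hS : Siz P t) {s : Finset ℕ} (hs : s ⊆ P) :
    0 < ∏ q ∈ s, q := Finset.prod_pos fun q hq => (hS.pr q (hs hq)).pos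

/-- only the largest prime of `s` matters -/
theorem LL_vanish {P : Finset ℕ} {t : ℕ → ℝ} (hS : Siz P t) (k : ℕ) (b : Bool) (τ : ℝ)
    (s : Finset ℕ) (hs : s ⊆ P) (d : ℕ) (hd : 0 < d) (p : ℕ) (hp : p ∈ P) (h0 : 0 ≤ τ - t p)
    (hb : b = false → 2 * t p ≤ τ - t p) (hns : ¬ (p ∈ s ∧ ∀ q ∈ s, q ≠ p → q < p)) :
    LL P t (fun x => if x = d * ∏ q ∈ s, q then 1 else 0) k b (τ - t p) (t p) (d * p) = 0 := by
  classical
  have h := Pool.Agent.W586.DC.ER P t hS (fun x => if x = d * ∏ q ∈ s, q then 1 else 0) k b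
    (τ - t p) (t p) (d * p) h0 hb
  have h2 : ∑ e ∈ EE P t (τ - t p) (t p),
      |(if d * p * e = d * ∏ q ∈ s, q then (1 : ℝ) else 0)| = 0 := by
    apply Finset.sum_eq_zero
    intro e he
    rw [if_neg, abs_zero]
    intro heq
    apply hns
    rw [mul_assoc] at heq
    have heq' : p * e = ∏ q ∈ s, q := Nat.eq_of_mul_eq_mul_left hd heq
    rw [Pool.Agent.W586.DC.mem_EE] at he
    obtain ⟨⟨s1, hs1, hse⟩, -⟩ := he
    have hpr := hS.pr p hp
    have hps : p ∈ s := Pool.Agent.W586.DC.prime_dvd_prod_mem (fun q hq => hS.pr q (hs hq)) hpr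
      (heq' ▸ Dvd.intro e rfl)
    refine ⟨hps, fun q hq hqp => ?_⟩
    have hqpr := hS.pr q (hs hq)
    have h3 : q ∣ p * e := by
      rw [heq']
      exact Finset.dvd_prod_of_mem _ hq
    rcases (Nat.Prime.dvd_mul hqpr).1 h3 with h4 | h4
    · exact absurd ((Nat.prime_dvd_prime_iff_eq hqpr hpr).1 h4) hqp
    · rw [← hse] at h4
      have h5 := Pool.Agent.W586.DC.prime_dvd_prod_mem (fun q hq => hS.pr q (hs1 q hq).1) hqpr h4
      exact (hS.mono q (hs hq) p hp).1 (hs1 q h5).2
  have h3 : |LL P t (fun x => if x = d * ∏ q ∈ s, q then 1 else 0) k b (τ - t p) (t p) (d * p)| ≤ 0 := by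
    refine h.trans (le_of_eq ?_)
    exact h2
  exact abs_eq_zero.1 (le_antisymm h3 (abs_nonneg _))

theorem LL_cell {P : Finset ℕ} {t : ℕ → ℝ} (hS : Siz P t) (c : ℕ → ℕ) (ϖ δ0 : ℝ) (n0 K : ℕ)
    (hϖ : 0 < ϖ) (hδ0 : 0 ≤ δ0) (hδ : ((K : ℝ) + 3) * δ0 < ϖ / 2)
    (ht : ∀ p ∈ P, ϖ * (c p + 1) ≤ t p ∧ t p ≤ ϖ * (c p + 1) + δ0) :
    ∀ k ≤ K, ∀ (b : Bool) (τ ζ : ℝ) (u : ℕ) (s : Finset ℕ) (d : ℕ), 0 < d → s ⊆ P →
      (∀ q ∈ s, t q < ζ) → 0 ≤ τ → (b = false → 2 * ζ ≤ τ) →
      ϖ * (n0 + 1 / 2 - u) - (K - k) * δ0 ≤ τ → τ ≤ ϖ * (n0 + 1 / 2 - u) →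
      LL P t (fun x => if x = d * ∏ q ∈ s, q then 1 else 0) k b τ ζ d = Cc n0 k b u (srt c s) := by
  classical
  have hcm : ∀ p ∈ P, ∀ q ∈ P, q < p → c q ≤ c p := by
    intro p hp q hq hqp
    have h1 := (hS.mono q hq p hp).2 hqp
    have h2 := (ht q hq).1
    have h3 := (ht p hp).2
    by_contra hcon
    push Not at hcon
    have h4 : (c p : ℝ) + 1 ≤ c q := by exact_mod_cast hcon
    have h5 : ϖ * (c p + 1 + 1) ≤ ϖ * (c q + 1) := by
      apply mul_le_mul_of_nonneg_left _ hϖ.le
      linarith
    have hK0 : (0 : ℝ) ≤ K := Nat.cast_nonneg K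
    have h6 : δ0 ≤ ((K : ℝ) + 3) * δ0 := by nlinarith
    nlinarith
  intro k
  induction k with
  | zero =>
    intro _ b τ ζ u s d hd hs _ _ _ _ _
    cases b with
    | false => rfl
    | true =>
      show (if d = d * ∏ q ∈ s, q then (1 : ℝ) else 0) = _
      rcases s.eq_empty_or_nonempty with rfl | hne
      · rw [srt_empty]
        simp [Cc]
      · obtain ⟨p, hp⟩ := hne
        have h1 : d ≠ d * ∏ q ∈ s, q := by
          intro h2
          have h3 : ∏ q ∈ s, q = 1 := by
            have := Nat.eq_of_mul_eq_mul_left hd (show d * 1 = d * ∏ q ∈ s, q by omega)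
            exact this.symm
          have h4 : p ∣ 1 := by
            rw [← h3]
            exact Finset.dvd_prod_of_mem _ hp
          exact (hS.pr p (hs hp)).one_lt.ne' (Nat.dvd_one.1 h4)
        rw [if_neg h1]
        have h5 : srt c s ≠ [] := by
          intro h6
          have h7 : ((srt c s : List ℕ) : Multiset ℕ) = s.val.map c := by
            unfold srt
            exact Multiset.sort_eq _ _
          rw [h6] at h7
          have h8 : s.val.map c = 0 := h7.symm
          rw [Multiset.map_eq_zero] at h8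
          rw [Finset.val_eq_zero] at h8
          rw [h8] at hp
          exact absurd hp (Finset.notMem_empty _)
        cases hL : srt c s with
        | nil => exact absurd hL h5
        | cons a L => rfl
  | succ k ih =>
    intro hkK b τ ζ u s d hd hs hζ hτ hbζ hlo hhi
    have hkK' : k ≤ K := by omega
    -- the summands vanish except for the maximum
    have hstep : ∀ p ∈ P, t p < ζ → (b = true → 3 * t p < τ) → 0 ≤ τ - t p ∧ ((!b) = false → 2 * t p ≤ τ - t p) := by
      intro p hp h1 h2
      have hp0 := hS.pos p hp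
      cases b with
      | true =>
        have := h2 rfl
        exact ⟨by linarith, fun _ => by linarith⟩
      | false =>
        have := hbζ rfl
        exact ⟨by linarith, fun h => by simp at h⟩
    have hvan : ∀ p ∈ P, t p < ζ → (b = true → 3 * t p < τ) →
        ¬ (p ∈ s ∧ ∀ q ∈ s, q ≠ p → q < p) →
        LL P t (fun x => if x = d * ∏ q ∈ s, q then 1 else 0) k (!b) (τ - t p) (t p) (d * p) = 0 := by
      intro p hp h1 h2 h3
      obtain ⟨h4, h5⟩ := hstep p hp h1 h2
      exact LL_vanish hS k (!b) τ s hs d hd p hp h4 h5 h3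
    have hunf : LL P t (fun x => if x = d * ∏ q ∈ s, q then 1 else 0) (k + 1) b τ ζ d =
        (if d = d * ∏ q ∈ s, q then 1 else 0) -
          ∑ p ∈ P.filter (fun p => t p < ζ ∧ (b = true → 3 * t p < τ)),
            LL P t (fun x => if x = d * ∏ q ∈ s, q then 1 else 0) k (!b) (τ - t p) (t p) (d * p) := by
      cases b with
      | true =>
        rw [LL]
        congr 1
        apply Finset.sum_congr _ (fun _ _ => rfl)
        ext p
        simp
      | false =>
        rw [LL]
        congr 1
        apply Finset.sum_congr _ (fun _ _ => rfl)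
        ext p
        simp
    rw [hunf]
    rcases s.eq_empty_or_nonempty with rfl | hne
    · rw [srt_empty, Cc_nil, Finset.sum_eq_zero, sub_zero]
      · simp
      · intro p hp
        rw [mem_filter] at hp
        exact hvan p hp.1 hp.2.1 hp.2.2 (by simp)
    · obtain ⟨p0, hp0s, hmax⟩ := Finset.exists_max_image s id hne
      have hmax' : ∀ q ∈ s, q ≠ p0 → q < p0 := fun q hq hne => lt_of_le_of_ne (hmax q hq) hne
      have hp0 : p0 ∈ P := hs hp0s
      have hsi : s = insert p0 (s.erase p0) := (Finset.insert_erase hp0s).symm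
      have hne1 : p0 ∉ s.erase p0 := Finset.notMem_erase _ _
      have hsrt : srt c s = c p0 :: srt c (s.erase p0) := by
        conv_lhs => rw [hsi]
        apply srt_insert c _ _ hne1
        intro q hq
        rw [mem_erase] at hq
        exact hcm p0 hp0 q (hs hq.2) (hmax' q hq.2 hq.1)
      have hprod : ∏ q ∈ s, q = p0 * ∏ q ∈ s.erase p0, q := (Finset.mul_prod_erase s (fun q => q) hp0s).symm
      have h1 : d ≠ d * ∏ q ∈ s, q := by
        intro h2
        have h3 : 1 = ∏ q ∈ s, q := Nat.eq_of_mul_eq_mul_left hd (by omega)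
        have h4 : p0 ∣ 1 := by
          rw [h3]
          exact Finset.dvd_prod_of_mem _ hp0s
        exact (hS.pr p0 hp0).one_lt.ne' (Nat.dvd_one.1 h4)
      rw [if_neg h1, hsrt, zero_sub]
      have hsum : ∑ p ∈ P.filter (fun p => t p < ζ ∧ (b = true → 3 * t p < τ)),
            LL P t (fun x => if x = d * ∏ q ∈ s, q then 1 else 0) k (!b) (τ - t p) (t p) (d * p) =
          if (b = true → 3 * t p0 < τ) then
            LL P t (fun x => if x = d * ∏ q ∈ s, q then 1 else 0) k (!b) (τ - t p0) (t p0) (d * p0)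
          else 0 := by
        split_ifs with hc
        · apply Finset.sum_eq_single_of_mem p0
          · rw [mem_filter]
            exact ⟨hp0, hζ p0 hp0s, hc⟩
          · intro p hp hpp
            rw [mem_filter] at hp
            apply hvan p hp.1 hp.2.1 hp.2.2
            rintro ⟨h2, h3⟩
            exact absurd (h3 p0 hp0s (Ne.symm hpp)) (not_lt.2 (hmax p h2))
        · apply Finset.sum_eq_zero
          intro p hp
          rw [mem_filter] at hp
          apply hvan p hp.1 hp.2.1 hp.2.2
          rintro ⟨h2, h3⟩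
          have h4 : p ≠ p0 := by
            rintro rfl
            exact hc hp.2.2
          exact absurd (h3 p0 hp0s (Ne.symm h4)) (not_lt.2 (hmax p h2))
      rw [hsum]
      obtain ⟨t1, t2⟩ := ht p0 hp0
      have hKk : (0 : ℝ) ≤ (K : ℝ) - (k + 1 : ℕ) := by
        have : ((k + 1 : ℕ) : ℝ) ≤ K := by exact_mod_cast hkK
        linarith
      have hcond : (b = true → 3 * t p0 < τ) ↔ (b = true → 3 * (c p0 + 1) + u ≤ n0) := by
        constructor
        · intro h hb
          have h2 := h hb
          by_contra hcon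
          push Not at hcon
          have h3 : (n0 : ℝ) + 1 ≤ 3 * (c p0 + 1) + u := by exact_mod_cast hcon
          have h4 : ϖ * (n0 + 1 / 2 - u) ≤ ϖ * (3 * (c p0 + 1)) := by
            apply mul_le_mul_of_nonneg_left _ hϖ.le
            linarith
          nlinarith
        · intro h hb
          have h2 := h hb
          have h3 : 3 * ((c p0 : ℝ) + 1) + u ≤ n0 := by exact_mod_cast h2
          have h4 : ϖ * (3 * (c p0 + 1)) ≤ ϖ * (n0 - u) := by
            apply mul_le_mul_of_nonneg_left _ hϖ.le
            linarith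
          have h5 : ((K : ℝ) - ((k + 1 : ℕ) : ℝ)) * δ0 + 3 * δ0 ≤ ((K : ℝ) + 3) * δ0 := by
            have : (0 : ℝ) ≤ ((k + 1 : ℕ) : ℝ) := Nat.cast_nonneg _
            nlinarith
          have h6 : ϖ * ((n0 : ℝ) + 1 / 2 - u) = ϖ * (n0 - u) + ϖ / 2 := by ring
          nlinarith
      have hrec : (b = true → 3 * t p0 < τ) →
          LL P t (fun x => if x = d * ∏ q ∈ s, q then 1 else 0) k (!b) (τ - t p0) (t p0) (d * p0) =
            Cc n0 k (!b) (u + (c p0 + 1)) (srt c (s.erase p0)) := by
        intro hc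
        obtain ⟨h4, h5⟩ := hstep p0 hp0 (hζ p0 hp0s) hc
        have h6 := ih hkK' (!b) (τ - t p0) (t p0) (u + (c p0 + 1)) (s.erase p0) (d * p0)
          (Nat.mul_pos hd (hS.pr p0 hp0).pos) ((Finset.erase_subset _ _).trans hs)
          (fun q hq => by
            rw [mem_erase] at hq
            exact (hS.mono q (hs hq.2) p0 hp0).2 (hmax' q hq.2 hq.1)) h4 h5
          (by
            push_cast at hlo ⊢
            nlinarith)
          (by
            push_cast at hhi ⊢
            nlinarith)
        rw [← h6]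
        congr 1
        funext x
        rw [hprod, mul_assoc]
      by_cases hb : b = true
      · subst hb
        by_cases hc : 3 * (c p0 + 1) + u ≤ n0
        · have h7 : (true = true → 3 * t p0 < τ) := hcond.2 fun _ => hc
          rw [if_pos h7, hrec h7]
          show _ = (if 3 * (c p0 + 1) + u ≤ n0 then - Cc n0 k false (u + (c p0 + 1)) _ else 0)
          rw [if_pos hc]
          rfl
        · have h7 : ¬ (true = true → 3 * t p0 < τ) := fun h => hc (hcond.1 h rfl)
          rw [if_neg h7]
          show _ = (if 3 * (c p0 + 1) + u ≤ n0 then - Cc n0 k false (u + (c p0 + 1)) _ else 0)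
          rw [if_neg hc, neg_zero]
      · have hb' : b = false := by simpa using hb
        subst hb'
        have h7 : (false = true → 3 * t p0 < τ) := fun h => by simp at h
        rw [if_pos h7, hrec h7]
        rfl

/-- well-factorability in terms of cells -/
theorem Cc_wf {ι : Type} [DecidableEq ι] (c : ι → ℕ) (n0 : ℕ) :
    ∀ (k : ℕ) (b : Bool) (u : ℕ) (s : Finset ι), Cc n0 k b u (srt c s) ≠ 0 → u ≤ n0 →
      (b = false → ∀ q ∈ s, 2 * (c q + 1) + u ≤ n0) → ∀ x y : ℕ, x + y + u = n0 →
      ∃ s1 ⊆ s, (∑ q ∈ s1, (c q + 1)) ≤ x ∧ (∑ q ∈ s \ s1, (c q + 1)) ≤ y := by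
  intro k
  induction k with
  | zero =>
    intro b u s hne hu _ x y _
    rcases s.eq_empty_or_nonempty with rfl | hs
    · exact ⟨∅, subset_rfl, by simp, by simp⟩
    · exfalso
      cases b with
      | false => exact hne rfl
      | true =>
        apply hne
        obtain ⟨p0, hp0s, hmax⟩ := Finset.exists_max_image s c hs
        have hsi : s = insert p0 (s.erase p0) := (Finset.insert_erase hp0s).symm
        rw [hsi, srt_insert c _ _ (Finset.notMem_erase _ _) (fun q hq => hmax q (mem_of_mem_erase hq))]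
        rfl
  | succ k ih =>
    intro b u s hne hu hb x y hxy
    rcases s.eq_empty_or_nonempty with rfl | hs
    · exact ⟨∅, subset_rfl, by simp, by simp⟩
    obtain ⟨p0, hp0s, hmax⟩ := Finset.exists_max_image s c hs
    have hsi : s = insert p0 (s.erase p0) := (Finset.insert_erase hp0s).symm
    have hsrt : srt c s = c p0 :: srt c (s.erase p0) := by
      conv_lhs => rw [hsi]
      exact srt_insert c _ _ (Finset.notMem_erase _ _) (fun q hq => hmax q (mem_of_mem_erase hq))
    rw [hsrt] at hne
    have hkey : Cc n0 k (!b) (u + (c p0 + 1)) (srt c (s.erase p0)) ≠ 0 ∧ 2 * (c p0 + 1) + u ≤ n0 ∧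
        (b = true → 3 * (c p0 + 1) + u ≤ n0) := by
      cases b with
      | true =>
        have h1 : (if 3 * (c p0 + 1) + u ≤ n0 then
          - Cc n0 k false (u + (c p0 + 1)) (srt c (s.erase p0)) else 0) ≠ 0 := hne
        split_ifs at h1 with h2
        · exact ⟨by simpa using h1, by omega, fun _ => h2⟩
        · exact absurd rfl h1
      | false =>
        have h1 : - Cc n0 k true (u + (c p0 + 1)) (srt c (s.erase p0)) ≠ 0 := hne
        exact ⟨by simpa using h1, hb rfl p0 hp0s, fun h => by simp at h⟩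
    obtain ⟨k1, k2, k3⟩ := hkey
    have hb' : (!b) = false → ∀ q ∈ s.erase p0, 2 * (c q + 1) + (u + (c p0 + 1)) ≤ n0 := by
      intro h q hq
      have hbt : b = true := by simpa using h
      have h4 := k3 hbt
      have h5 := hmax q (mem_of_mem_erase hq)
      omega
    rcases le_total x y with hxy' | hxy'
    · obtain ⟨s1, hs1, h6, h7⟩ := ih (!b) (u + (c p0 + 1)) (s.erase p0) k1 (by omega) hb' x
        (y - (c p0 + 1)) (by omega)
      have hp1 : p0 ∉ s1 := fun h => Finset.notMem_erase _ _ (hs1 h)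
      refine ⟨s1, hs1.trans (Finset.erase_subset _ _), h6, ?_⟩
      have h8 : s \ s1 = insert p0 (s.erase p0 \ s1) := by
        ext q
        simp only [mem_sdiff, mem_insert, mem_erase]
        constructor
        · rintro ⟨h9, h10⟩
          by_cases h11 : q = p0
          · exact Or.inl h11
          · exact Or.inr ⟨⟨h11, h9⟩, h10⟩
        · rintro (h9 | ⟨⟨_, h10⟩, h11⟩)
          · rw [h9]; exact ⟨hp0s, hp1⟩
          · exact ⟨h10, h11⟩
      rw [h8, Finset.sum_insert (by simp)]
      omega
    · obtain ⟨s1, hs1, h6, h7⟩ := ih (!b) (u + (c p0 + 1)) (s.erase p0) k1 (by omega) hb'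
        (x - (c p0 + 1)) y (by omega)
      have hp1 : p0 ∉ s1 := fun h => Finset.notMem_erase _ _ (hs1 h)
      refine ⟨insert p0 s1, ?_, ?_, ?_⟩
      · intro q hq
        rw [mem_insert] at hq
        rcases hq with rfl | hq
        · exact hp0s
        · exact (Finset.erase_subset _ _) (hs1 hq)
      · rw [Finset.sum_insert hp1]
        omega
      · have h8 : s \ insert p0 s1 = s.erase p0 \ s1 := by
          ext q
          simp only [mem_sdiff, mem_insert, mem_erase]
          tauto
        rw [h8]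
        exact h7

end Pool.Agent.Y844.BT
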