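import Mathlib
import Pool.Agent.Y844.BT.Cel

/-! Sums over sets of primes as sums over tuples of primes in cells. -/

set_option autoImplicit false

namespace Pool.Agent.Y844.BT

open Finset
open Pool.Agent.W23.DC

theorem Cc_long (n0 : ℕ) : ∀ (k : ℕ) (b : Bool) (u : ℕ) (L : List ℕ), k < L.length → Cc n0 k b u L = 0 := by
  intro k
  induction k with
  | zero =>
    intro b u L hL
    cases L with
    | nil => simp at hL
    | cons c L => cases b <;> rfl
  | succ k ih =>
    intro b u L hL
    cases L with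
    | nil => simp at hL
    | cons c L =>
      simp only [List.length_cons] at hL
      cases b with
      | true =>
        show (if 3 * (c + 1) + u ≤ n0 then - Cc n0 k false (u + (c + 1)) L else 0) = 0
        rw [ih _ _ _ (by omega)]
        simp
      | false =>
        show - Cc n0 k true (u + (c + 1)) L = 0
        rw [ih _ _ _ (by omega)]
        simp

theorem srt_length {ι : Type} (c : ι → ℕ) (s : Finset ι) : (srt c s).length = s.card := by
  unfold srt
  rw [Multiset.length_sort, Multiset.card_map]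
  rfl

theorem srt_image {r : ℕ} (c : ℕ → ℕ) (p : Fin r → ℕ) (hp : Function.Injective p) (cc : Fin r → ℕ)
    (hc : ∀ i, c (p i) = cc i) : srt c (univ.image p) = srt cc (univ : Finset (Fin r)) := by
  unfold srt
  congr 1
  have h1 : (univ.image p).val = (univ : Finset (Fin r)).val.map p := by
    rw [Finset.image_val_of_injOn hp.injOn]
  rw [h1, Multiset.map_map]
  apply Multiset.map_congr rfl
  intro i _
  exact hc i

open Classical in
/-- tuples and sets -/
theorem perm_sum (P : Finset ℕ) (r : ℕ) (g : Finset ℕ → ℝ) :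
    ∑ p ∈ (Fintype.piFinset (fun _ : Fin r => P)).filter (fun p => Function.Injective p), g (univ.image p) =
      (r.factorial : ℝ) * ∑ s ∈ powersetCard r P, g s := by
  have hmap : ∀ p ∈ (Fintype.piFinset (fun _ : Fin r => P)).filter (fun p => Function.Injective p),
      univ.image p ∈ powersetCard r P := by
    intro p hp
    rw [mem_filter, Fintype.mem_piFinset] at hp
    rw [mem_powersetCard]
    refine ⟨?_, ?_⟩
    · intro x hx
      rw [mem_image] at hx
      obtain ⟨i, _, rfl⟩ := hx
      exact hp.1 i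
    · rw [card_image_of_injective _ hp.2, card_univ, Fintype.card_fin]
  rw [← sum_fiberwise_of_maps_to hmap, mul_sum]
  apply sum_congr rfl
  intro s hs
  rw [mem_powersetCard] at hs
  have h1 : ∑ p ∈ ((Fintype.piFinset (fun _ : Fin r => P)).filter (fun p => Function.Injective p)).filter
      (fun p => univ.image p = s), g (univ.image p) =
      ∑ _p ∈ ((Fintype.piFinset (fun _ : Fin r => P)).filter (fun p => Function.Injective p)).filter
      (fun p => univ.image p = s), g s := by
    apply sum_congr rfl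
    intro p hp
    rw [(mem_filter.1 hp).2]
  rw [h1, sum_const, nsmul_eq_mul]
  congr 1
  have h2 : (((Fintype.piFinset (fun _ : Fin r => P)).filter (fun p => Function.Injective p)).filter
      (fun p => univ.image p = s)).card = (univ : Finset (Equiv.Perm (Fin r))).card := by
    symm
    apply card_bij (fun (σ : Equiv.Perm (Fin r)) _ => fun i => s.orderEmbOfFin hs.2 (σ i))
    · intro σ _
      rw [mem_filter, mem_filter, Fintype.mem_piFinset]
      have hmem : ∀ i, s.orderEmbOfFin hs.2 (σ i) ∈ s := fun i => orderEmbOfFin_mem _ _ _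
      refine ⟨⟨fun i => hs.1 (hmem i), ?_⟩, ?_⟩
      · intro i j hij
        exact σ.injective ((s.orderEmbOfFin hs.2).injective hij)
      · apply eq_of_subset_of_card_le
        · intro x hx
          rw [mem_image] at hx
          obtain ⟨i, _, rfl⟩ := hx
          exact hmem i
        · rw [card_image_of_injective, card_univ, Fintype.card_fin, hs.2]
          intro i j hij
          exact σ.injective ((s.orderEmbOfFin hs.2).injective hij)
    · intro σ _ τ _ h
      ext i
      have := congrFun h i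
      rw [(s.orderEmbOfFin hs.2).injective this]
    · intro p hp
      rw [mem_filter, mem_filter, Fintype.mem_piFinset] at hp
      obtain ⟨⟨h3, h4⟩, h5⟩ := hp
      have h6 : ∀ i, ∃ j, s.orderEmbOfFin hs.2 j = p i := by
        intro i
        have h7 : p i ∈ s := by
          rw [← h5]
          exact mem_image_of_mem _ (mem_univ _)
        have h8 : (p i) ∈ Set.range (s.orderEmbOfFin hs.2) := by
          rw [Finset.range_orderEmbOfFin]
          exact h7
        exact h8
      choose τ hτ using h6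
      have hτi : Function.Injective τ := by
        intro i j hij
        apply h4
        rw [← hτ i, ← hτ j, hij]
      refine ⟨Equiv.ofBijective τ (Finite.injective_iff_bijective.1 hτi), mem_univ _, ?_⟩
      funext i
      exact hτ i
  rw [h2, card_univ, Fintype.card_perm, Fintype.card_fin]

open Classical in
/-- injective tuples in given cells -/
noncomputable def Inj (P : Finset ℕ) (c : ℕ → ℕ) {r : ℕ} (cc : Fin r → ℕ) : Finset (Fin r → ℕ) :=
  (Fintype.piFinset (fun i : Fin r => P.filter (fun p => c p = cc i))).filter (fun p => Function.Injective p)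

open Classical in
theorem cell_sum (P : Finset ℕ) (c : ℕ → ℕ) (n0 K Nc : ℕ) (hNc : ∀ p ∈ P, c p < Nc) (F : ℕ → ℝ) :
    |∑ s ∈ P.powerset, Cc n0 K true 0 (srt c s) * F (∏ q ∈ s, q)| ≤
      ∑ r ∈ range (K + 1), ∑ cc ∈ (Fintype.piFinset (fun _ : Fin r => range Nc)).filter
        (fun cc => Cc n0 K true 0 (srt cc univ) ≠ 0), |∑ p ∈ Inj P c cc, F (∏ i, p i)| := by
  set g : Finset ℕ → ℝ := fun s => Cc n0 K true 0 (srt c s) * F (∏ q ∈ s, q) with hg
  have h1 : ∑ s ∈ P.powerset, g s = ∑ r ∈ range (K + 1), ∑ s ∈ powersetCard r P, g s := by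
    have h2 : ∀ s ∈ P.powerset, g s ≠ 0 → s.card ∈ range (K + 1) := by
      intro s _ hne
      rw [mem_range]
      by_contra hcon
      apply hne
      simp only [hg]
      rw [Cc_long n0 K true 0 (srt c s) (by rw [srt_length]; omega), zero_mul]
    have h3 : ∑ s ∈ P.powerset, g s = ∑ s ∈ P.powerset.filter (fun s => s.card ∈ range (K + 1)), g s := by
      rw [sum_filter_of_ne]
      intro s hs hne
      exact h2 s hs hne
    rw [h3, ← sum_fiberwise_of_maps_to (s := P.powerset.filter (fun s => s.card ∈ range (K + 1)))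
      (t := range (K + 1)) (g := fun s => s.card) (fun s hs => (mem_filter.1 hs).2)]
    apply sum_congr rfl
    intro r hr
    apply sum_congr _ (fun _ _ => rfl)
    ext s
    simp only [mem_filter, mem_powerset, mem_powersetCard]
    constructor
    · rintro ⟨⟨h4, _⟩, h5⟩
      exact ⟨h4, h5⟩
    · rintro ⟨h4, h5⟩
      exact ⟨⟨h4, h5 ▸ hr⟩, h5⟩
  rw [h1]
  refine (abs_sum_le_sum_abs _ _).trans (sum_le_sum fun r _ => ?_)
  have hfac : (1 : ℝ) ≤ r.factorial := by exact_mod_cast Nat.one_le_iff_ne_zero.2 (Nat.factorial_ne_zero r)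
  have h2 := perm_sum P r g
  have h3 : |∑ s ∈ powersetCard r P, g s| ≤
      |∑ p ∈ (Fintype.piFinset (fun _ : Fin r => P)).filter (fun p => Function.Injective p), g (univ.image p)| := by
    rw [h2, abs_mul, abs_of_nonneg (by positivity : (0 : ℝ) ≤ r.factorial)]
    nlinarith [abs_nonneg (∑ s ∈ powersetCard r P, g s)]
  refine h3.trans ?_
  have hmap : ∀ p ∈ (Fintype.piFinset (fun _ : Fin r => P)).filter (fun p => Function.Injective p),
      (fun i => c (p i)) ∈ Fintype.piFinset (fun _ : Fin r => range Nc) := by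
    intro p hp
    rw [mem_filter, Fintype.mem_piFinset] at hp
    rw [Fintype.mem_piFinset]
    intro i
    rw [mem_range]
    exact hNc _ (hp.1 i)
  rw [← sum_fiberwise_of_maps_to hmap]
  refine (abs_sum_le_sum_abs _ _).trans ?_
  have h4 : ∀ cc ∈ Fintype.piFinset (fun _ : Fin r => range Nc),
      ∑ p ∈ ((Fintype.piFinset (fun _ : Fin r => P)).filter (fun p => Function.Injective p)).filter
        (fun p => (fun i => c (p i)) = cc), g (univ.image p) =
      Cc n0 K true 0 (srt cc univ) * ∑ p ∈ Inj P c cc, F (∏ i, p i) := by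
    intro cc _
    rw [mul_sum]
    apply sum_congr
    · ext p
      unfold Inj
      simp only [mem_filter, Fintype.mem_piFinset]
      constructor
      · rintro ⟨⟨h5, h6⟩, h7⟩
        exact ⟨fun i => ⟨h5 i, congrFun h7 i⟩, h6⟩
      · rintro ⟨h5, h6⟩
        exact ⟨⟨fun i => (h5 i).1, h6⟩, funext fun i => (h5 i).2⟩
    · intro p hp
      unfold Inj at hp
      rw [mem_filter, Fintype.mem_piFinset] at hp
      have h5 : ∀ i, c (p i) = cc i := fun i => (mem_filter.1 (hp.1 i)).2
      simp only [hg]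
      rw [srt_image c p hp.2 cc h5, prod_image (fun i _ j _ h => hp.2 h)]
  rw [sum_filter]
  apply sum_le_sum
  intro cc hcc
  rw [h4 cc hcc]
  split_ifs with h5
  · rw [abs_mul]
    calc _ ≤ 1 * |∑ p ∈ Inj P c cc, F (∏ i, p i)| := mul_le_mul_of_nonneg_right (Cc_bd n0 K true 0 _) (abs_nonneg _)
      _ = _ := one_mul _
  · push Not at h5
    rw [h5, zero_mul, abs_zero]

open Classical in
/-- partial tuples, extended by `1` -/
noncomputable def TA (P : Finset ℕ) (c : ℕ → ℕ) {r : ℕ} (cc : Fin r → ℕ) (A : Finset (Fin r)) : Finset (Fin r → ℕ) :=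
  (Fintype.piFinset (fun i : Fin r => if i ∈ A then P.filter (fun p => c p = cc i) else {1})).filter
    (fun p => ∀ i ∈ A, ∀ j ∈ A, p i = p j → i = j)

theorem mem_TA (P : Finset ℕ) (c : ℕ → ℕ) {r : ℕ} (cc : Fin r → ℕ) (A : Finset (Fin r)) (p : Fin r → ℕ) :
    p ∈ TA P c cc A ↔ ((∀ i ∈ A, p i ∈ P ∧ c (p i) = cc i) ∧ (∀ i, i ∉ A → p i = 1)) ∧
      ∀ i ∈ A, ∀ j ∈ A, p i = p j → i = j := by
  classical
  unfold TA
  rw [mem_filter, Fintype.mem_piFinset]
  constructor
  · rintro ⟨h1, h2⟩
    refine ⟨⟨fun i hi => ?_, fun i hi => ?_⟩, h2⟩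
    · have h3 := h1 i
      rw [if_pos hi, mem_filter] at h3
      exact h3
    · have h3 := h1 i
      rw [if_neg hi, mem_singleton] at h3
      exact h3
  · rintro ⟨⟨h1, h2⟩, h3⟩
    refine ⟨fun i => ?_, h3⟩
    by_cases hi : i ∈ A
    · rw [if_pos hi, mem_filter]
      exact h1 i hi
    · rw [if_neg hi, mem_singleton]
      exact h2 i hi

theorem prod_TA {r : ℕ} (A : Finset (Fin r)) (p : Fin r → ℕ) (h : ∀ i, i ∉ A → p i = 1) : ∏ i, p i = ∏ i ∈ A, p i := by
  symm
  apply prod_subset (subset_univ A)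
  intro i _ hi
  exact h i hi

open Classical in
/-- splitting of tuples -/
theorem Inj_split (P : Finset ℕ) (hP : ∀ p ∈ P, p.Prime) (c : ℕ → ℕ) {r : ℕ} (cc : Fin r → ℕ) (A : Finset (Fin r))
    (F : ℕ → ℝ) :
    ∑ p ∈ Inj P c cc, F (∏ i, p i) = ∑ p ∈ TA P c cc Aᶜ, ∑ p' ∈ TA P c cc A,
      (if Nat.Coprime (∏ i, p i) (∏ i, p' i) then 1 else 0) * F ((∏ i, p i) * ∏ i, p' i) := by
  have h1 : ∑ p ∈ TA P c cc Aᶜ, ∑ p' ∈ TA P c cc A,
      (if Nat.Coprime (∏ i, p i) (∏ i, p' i) then 1 else 0) * F ((∏ i, p i) * ∏ i, p' i) =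
      ∑ z ∈ (TA P c cc Aᶜ ×ˢ TA P c cc A).filter (fun z => Nat.Coprime (∏ i, z.1 i) (∏ i, z.2 i)),
        F ((∏ i, z.1 i) * ∏ i, z.2 i) := by
    rw [sum_filter, sum_product]
    apply sum_congr rfl
    intro p _
    apply sum_congr rfl
    intro p' _
    split_ifs <;> simp
  rw [h1]
  symm
  apply sum_bij (fun z _ => fun i => z.1 i * z.2 i)
  · intro z hz
    rw [mem_filter, mem_product, mem_TA, mem_TA] at hz
    obtain ⟨⟨⟨⟨h2, h3⟩, h4⟩, ⟨h5, h6⟩, h7⟩, h8⟩ := hz
    unfold Inj
    rw [mem_filter, Fintype.mem_piFinset]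
    have hcase : ∀ i, (i ∈ A ∧ z.1 i * z.2 i = z.2 i) ∨ (i ∉ A ∧ z.1 i * z.2 i = z.1 i) := by
      intro i
      by_cases hi : i ∈ A
      · left
        exact ⟨hi, by rw [h3 i (by simpa using hi), one_mul]⟩
      · right
        exact ⟨hi, by rw [h6 i hi, mul_one]⟩
    have hne : ∀ i j, i ∈ A → j ∉ A → z.2 i ≠ z.1 j := by
      intro i j hi hj heq
      have h9 := (h5 i hi).1
      have hpr := hP _ h9
      have h10 : z.2 i ∣ ∏ i, z.2 i := dvd_prod_of_mem _ (mem_univ i)
      have h11 : z.2 i ∣ ∏ i, z.1 i := heq ▸ dvd_prod_of_mem _ (mem_univ j)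
      have h12 := Nat.dvd_gcd h11 h10
      rw [h8] at h12
      exact hpr.one_lt.ne' (Nat.dvd_one.1 h12)
    refine ⟨fun i => ?_, ?_⟩
    · rw [mem_filter]
      rcases hcase i with ⟨hi, he⟩ | ⟨hi, he⟩
      · rw [he]; exact h5 i hi
      · rw [he]; exact h2 i (by simpa using hi)
    · intro i j hij
      simp only at hij
      rcases hcase i with ⟨hi, he⟩ | ⟨hi, he⟩ <;> rcases hcase j with ⟨hj, he'⟩ | ⟨hj, he'⟩
      · rw [he, he'] at hij
        exact h7 i hi j hj hij
      · rw [he, he'] at hij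
        exact absurd hij (hne i j hi hj)
      · rw [he, he'] at hij
        exact absurd hij.symm (hne j i hj hi)
      · rw [he, he'] at hij
        exact h4 i (by simpa using hi) j (by simpa using hj) hij
  · intro z hz w hw heq
    rw [mem_filter, mem_product, mem_TA, mem_TA] at hz hw
    obtain ⟨⟨⟨⟨h2, h3⟩, h4⟩, ⟨h5, h6⟩, h7⟩, h8⟩ := hz
    obtain ⟨⟨⟨⟨g2, g3⟩, g4⟩, ⟨g5, g6⟩, g7⟩, g8⟩ := hw
    apply Prod.ext
    · funext i
      have h9 := congrFun heq i
      by_cases hi : i ∈ A
      · rw [h3 i (by simpa using hi), g3 i (by simpa using hi)]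
      · rw [h6 i hi, g6 i hi, mul_one, mul_one] at h9
        exact h9
    · funext i
      have h9 := congrFun heq i
      by_cases hi : i ∈ A
      · rw [h3 i (by simpa using hi), g3 i (by simpa using hi), one_mul, one_mul] at h9
        exact h9
      · rw [h6 i hi, g6 i hi]
  · intro p hp
    unfold Inj at hp
    rw [mem_filter, Fintype.mem_piFinset] at hp
    obtain ⟨h2, h3⟩ := hp
    have h2' : ∀ i, p i ∈ P ∧ c (p i) = cc i := fun i => mem_filter.1 (h2 i)
    refine ⟨(fun i => if i ∈ A then 1 else p i, fun i => if i ∈ A then p i else 1), ?_, ?_⟩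
    · rw [mem_filter, mem_product, mem_TA, mem_TA]
      refine ⟨⟨⟨⟨fun i hi => ?_, fun i hi => ?_⟩, fun i hi j hj hij => ?_⟩, ⟨fun i hi => ?_, fun i hi => ?_⟩, fun i hi j hj hij => ?_⟩, ?_⟩
      · rw [mem_compl] at hi
        simp only [if_neg hi]
        exact h2' i
      · rw [mem_compl, not_not] at hi
        simp only [if_pos hi]
      · rw [mem_compl] at hi hj
        simp only [if_neg hi, if_neg hj] at hij
        exact h3 hij
      · simp only [if_pos hi]
        exact h2' i
      · simp only [if_neg hi]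
      · simp only [if_pos hi, if_pos hj] at hij
        exact h3 hij
      · simp only
        apply Nat.Coprime.prod_left
        intro i _
        apply Nat.Coprime.prod_right
        intro j _
        by_cases hi : i ∈ A
        · rw [if_pos hi]
          exact Nat.coprime_one_left _
        · rw [if_neg hi]
          by_cases hj : j ∈ A
          · rw [if_pos hj]
            rw [Nat.coprime_primes (hP _ (h2' i).1) (hP _ (h2' j).1)]
            intro h
            have := h3 h
            rw [this] at hi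
            exact hi hj
          · rw [if_neg hj]
            exact Nat.coprime_one_right _
    · funext i
      simp only
      by_cases hi : i ∈ A
      · rw [if_pos hi, if_pos hi, one_mul]
      · rw [if_neg hi, if_neg hi, mul_one]
  · intro z hz
    rw [prod_mul_distrib]

open Classical in
/-- the multiplicity of a product -/
noncomputable def mu (P : Finset ℕ) (c : ℕ → ℕ) {r : ℕ} (cc : Fin r → ℕ) (A : Finset (Fin r)) (n : ℕ) : ℝ :=
  (((TA P c cc A).filter (fun p => ∏ i, p i = n)).card : ℝ)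

open Classical in
theorem mu_bd (P : Finset ℕ) (hP : ∀ p ∈ P, p.Prime) (c : ℕ → ℕ) {r : ℕ} (cc : Fin r → ℕ) (A : Finset (Fin r)) (n : ℕ) :
    |mu P c cc A n| ≤ ((r : ℝ) + 1) ^ r := by
  unfold mu
  rw [abs_of_nonneg (Nat.cast_nonneg _)]
  rcases ((TA P c cc A).filter (fun p => ∏ i, p i = n)).eq_empty_or_nonempty with h | h
  · rw [h, card_empty]
    push_cast
    positivity
  obtain ⟨p0, hp0⟩ := h
  rw [mem_filter, mem_TA] at hp0
  obtain ⟨⟨⟨h1, h2⟩, h3⟩, h4⟩ := hp0
  -- the prime factors of n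
  have h5 : ∀ q : ℕ, q.Prime → q ∣ n → q ∈ univ.image p0 := by
    intro q hq hqn
    rw [← h4, Prime.dvd_finsetProd_iff hq.prime] at hqn
    obtain ⟨i, _, hi⟩ := hqn
    rw [mem_image]
    refine ⟨i, mem_univ _, ?_⟩
    by_cases hiA : i ∈ A
    · exact ((Nat.prime_dvd_prime_iff_eq hq (hP _ (h1 i hiA).1)).1 hi).symm
    · rw [h2 i hiA] at hi
      exact absurd (Nat.dvd_one.1 hi) hq.one_lt.ne'
  have h6 : (TA P c cc A).filter (fun p => ∏ i, p i = n) ⊆ Fintype.piFinset (fun _ : Fin r => univ.image p0 ∪ {1}) := by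
    intro p hp
    rw [mem_filter, mem_TA] at hp
    obtain ⟨⟨⟨g1, g2⟩, g3⟩, g4⟩ := hp
    rw [Fintype.mem_piFinset]
    intro i
    rw [mem_union, mem_singleton]
    by_cases hiA : i ∈ A
    · left
      apply h5 _ (hP _ (g1 i hiA).1)
      rw [← g4]
      exact dvd_prod_of_mem _ (mem_univ i)
    · right
      exact g2 i hiA
  have h7 := card_le_card h6
  rw [Fintype.card_piFinset, prod_const, card_univ, Fintype.card_fin] at h7
  have h8 : (univ.image p0 ∪ {1}).card ≤ r + 1 := by
    refine (card_union_le _ _).trans ?_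
    rw [card_singleton]
    have := card_image_le (s := (univ : Finset (Fin r))) (f := p0)
    rw [card_univ, Fintype.card_fin] at this
    omega
  have h9 := h7.trans (Nat.pow_le_pow_left h8 r)
  exact_mod_cast h9

open Classical in
theorem Inj_mn (P : Finset ℕ) (hP : ∀ p ∈ P, p.Prime) (c : ℕ → ℕ) {r : ℕ} (cc : Fin r → ℕ) (A : Finset (Fin r))
    (F : ℕ → ℝ) :
    ∑ p ∈ Inj P c cc, F (∏ i, p i) =
      ∑ m ∈ (TA P c cc Aᶜ).image (fun p => ∏ i, p i), ∑ n ∈ (TA P c cc A).image (fun p => ∏ i, p i),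
        (if Nat.Coprime m n then 1 else 0) * (mu P c cc Aᶜ m * mu P c cc A n * F (m * n)) := by
  rw [Inj_split P hP c cc A F]
  have key : ∀ (T : Finset (Fin r → ℕ)) (f : ℕ → ℝ), ∑ p ∈ T, f (∏ i, p i) =
      ∑ m ∈ T.image (fun p => ∏ i, p i), ((T.filter (fun p => ∏ i, p i = m)).card : ℝ) * f m := by
    intro T f
    rw [← sum_fiberwise_of_maps_to (s := T) (t := T.image (fun p => ∏ i, p i)) (g := fun p => ∏ i, p i)
      (fun p hp => mem_image_of_mem _ hp)]
    apply sum_congr rfl
    intro m _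
    rw [← nsmul_eq_mul, ← sum_const]
    apply sum_congr rfl
    intro p hp
    rw [(mem_filter.1 hp).2]
  have h1 : ∀ p : Fin r → ℕ, ∑ p' ∈ TA P c cc A,
      (if Nat.Coprime (∏ i, p i) (∏ i, p' i) then (1 : ℝ) else 0) * F ((∏ i, p i) * ∏ i, p' i) =
      ∑ n ∈ (TA P c cc A).image (fun p => ∏ i, p i), mu P c cc A n *
        ((if Nat.Coprime (∏ i, p i) n then (1 : ℝ) else 0) * F ((∏ i, p i) * n)) := by
    intro p
    exact key (TA P c cc A) (fun n => (if Nat.Coprime (∏ i, p i) n then (1 : ℝ) else 0) * F ((∏ i, p i) * n))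
  rw [sum_congr rfl fun p _ => h1 p]
  rw [key (TA P c cc Aᶜ) (fun m => ∑ n ∈ (TA P c cc A).image (fun p => ∏ i, p i), mu P c cc A n *
        ((if Nat.Coprime m n then (1 : ℝ) else 0) * F (m * n)))]
  apply sum_congr rfl
  intro m _
  rw [mul_sum]
  apply sum_congr rfl
  intro n _
  show mu P c cc Aᶜ m * _ = _
  ring

end Pool.Agent.Y844.BT
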