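import Mathlib
import Pool.Agent.Y827.LS.Lsm
import Pool.Agent.Y844.BT.Tup

/-! The upper bound linear sieve with coefficients that depend on the cells of the primes only
(after `Pool/Agent/Y827/LS/Lsm.lean`). -/

set_option autoImplicit false

namespace Pool.Agent.Y844.BT

open Finset Filter Topology
open Pool.Agent.W23.DC
open Pool.Agent.W586.DC (mem_EE prime_dvd_prod_mem)
open Pool.Agent.Y827.LS.Lsm (bL bL_bd LL_eq sqf_prod)

/-- the cell of a prime -/
noncomputable def cel (X : ℕ) (ϖ : ℝ) (p : ℕ) : ℕ := ⌊tt X p / ϖ⌋₊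

/-- the representation of the sieve by cells -/
theorem LL_rep {P : Finset ℕ} {t : ℕ → ℝ} (hS : Siz P t) (c : ℕ → ℕ) (ϖ δ0 : ℝ) (n0 K : ℕ)
    (hϖ : 0 < ϖ) (hδ0 : 0 ≤ δ0) (hδ : ((K : ℝ) + 3) * δ0 < ϖ / 2)
    (ht : ∀ p ∈ P, ϖ * (c p + 1) ≤ t p ∧ t p ≤ ϖ * (c p + 1) + δ0)
    (hlt : ∀ p ∈ P, t p < ϖ * (n0 + 1 / 2)) (r : ℕ → ℝ) :
    LL P t r K true (ϖ * (n0 + 1 / 2)) (ϖ * (n0 + 1 / 2)) 1 =
      ∑ s ∈ P.powerset, Cc n0 K true 0 (srt c s) * r (∏ q ∈ s, q) := by
  classical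
  set θ : ℝ := ϖ * (n0 + 1 / 2) with hθ
  have hθ0 : 0 ≤ θ := by positivity
  set Z : ℕ := ∏ p ∈ P, p with hZ
  have hZ0 : 0 < Z := prod_pos fun p hp => (hS.pr p hp).pos
  have hdv : ∀ s ⊆ P, (∏ q ∈ s, q) ∈ Icc 1 Z := by
    intro s hs
    rw [mem_Icc]
    have h1 : 0 < ∏ q ∈ s, q := prod_pos fun p hp => (hS.pr p (hs hp)).pos
    exact ⟨h1, Nat.le_of_dvd hZ0 (prod_dvd_prod_of_subset _ _ _ hs)⟩
  have hEE : ∀ e ∈ EE P t θ θ, e ∈ Icc 1 Z := by
    intro e he
    rw [mem_EE] at he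
    obtain ⟨⟨s, hs, hse⟩, -⟩ := he
    rw [← hse]
    exact hdv s fun q hq => (hs q hq).1
  rw [LL_eq hS hθ0 Z hEE]
  have hinj : ∀ s ∈ P.powerset, ∀ s' ∈ P.powerset, ∏ q ∈ s, q = ∏ q ∈ s', q → s = s' := by
    intro s hs s' hs' h
    rw [mem_powerset] at hs hs'
    rw [← Nat.primeFactors_prod (s := s) (fun q hq => hS.pr q (hs hq)),
      ← Nat.primeFactors_prod (s := s') (fun q hq => hS.pr q (hs' hq)), h]
  have h1 : ∑ e ∈ Icc 1 Z, bL P t K θ e * r e = ∑ e ∈ P.powerset.image (fun s => ∏ q ∈ s, q), bL P t K θ e * r e := by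
    symm
    apply sum_subset
    · intro e he
      rw [mem_image] at he
      obtain ⟨s, hs, rfl⟩ := he
      exact hdv s (mem_powerset.1 hs)
    · intro e _ he
      have h2 := bL_bd (k := K) hS hθ0 e
      have h3 : e ∉ EE P t θ θ := by
        intro h4
        rw [mem_EE] at h4
        obtain ⟨⟨s, hs, hse⟩, -⟩ := h4
        apply he
        rw [mem_image]
        exact ⟨s, mem_powerset.2 fun q hq => (hs q hq).1, hse⟩
      rw [if_neg h3] at h2
      rw [abs_eq_zero.1 (le_antisymm h2 (abs_nonneg _)), zero_mul]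
  rw [h1, sum_image hinj]
  apply sum_congr rfl
  intro s hs
  rw [mem_powerset] at hs
  congr 1
  have h2 := LL_cell hS c ϖ δ0 n0 K hϖ hδ0 hδ ht K le_rfl true θ θ 0 s 1 one_pos hs
    (fun q hq => hlt q (hs hq)) hθ0 (fun h => by cases h) (by
      rw [hθ]
      push_cast
      linarith) (by
      rw [hθ]
      push_cast
      linarith)
  rw [← h2]
  unfold bL
  congr 1
  funext x
  rw [one_mul]

theorem cel_spec (X : ℕ) (hX : 2 ≤ X) (ϖ : ℝ) (hϖ : 0 < ϖ) (p : ℕ) (hp : 1 ≤ p) :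
    (X : ℝ) ^ (ϖ * cel X ϖ p) ≤ p ∧ (p : ℝ) < (X : ℝ) ^ (ϖ * (cel X ϖ p + 1)) ∧ ϖ * cel X ϖ p ≤ tt X p ∧
      tt X p < ϖ * (cel X ϖ p + 1) := by
  have hX1 : (1 : ℝ) < X := by exact_mod_cast (by omega : 1 < X)
  have hX0 : (0 : ℝ) < X := by linarith
  have hL : 0 < Real.log X := Real.log_pos hX1
  have hp0 : (0 : ℝ) < p := by exact_mod_cast hp
  have htt : 0 ≤ tt X p := div_nonneg (Real.log_nonneg (by exact_mod_cast hp)) hL.le
  have h1 : ϖ * cel X ϖ p ≤ tt X p := by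
    have := Nat.floor_le (div_nonneg htt hϖ.le)
    rw [le_div_iff₀ hϖ] at this
    unfold cel
    linarith
  have h2 : tt X p < ϖ * (cel X ϖ p + 1) := by
    have := Nat.lt_floor_add_one (tt X p / ϖ)
    rw [div_lt_iff₀ hϖ] at this
    unfold cel
    linarith
  have h3 : (p : ℝ) = (X : ℝ) ^ (tt X p) := by
    rw [Real.rpow_def_of_pos hX0]
    unfold tt
    rw [mul_div_cancel₀ _ hL.ne', Real.exp_log hp0]
  refine ⟨?_, ?_, h1, h2⟩
  · conv_rhs => rw [h3]
    exact Real.rpow_le_rpow_of_exponent_le hX1.le h1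
  · conv_lhs => rw [h3]
    exact Real.rpow_lt_rpow_of_exponent_lt hX1 h2

/-- the linear sieve with cells -/
theorem lsc (θ η' ε₁ : ℝ) (hθ : 1 / 2 ≤ θ) (hθ1 : θ < 1) (hη' : 0 < η') (hε₁ : 0 < ε₁) (hε₁1 : ε₁ ≤ 1 / 4) :
    ∃ n1 : ℕ, ∀ n0 : ℕ, n1 ≤ n0 → ∀ ϖ : ℝ, ϖ * (n0 + 1 / 2) = θ → ∃ X₀ : ℕ, ∀ X : ℕ, X₀ ≤ X →
      ∀ Cl : Finset ℕ, (Cl.card : ℝ) ≤ (Real.log X) ^ 2 →
      ∃ P : Finset ℕ, (∀ p ∈ P, p.Prime ∧ (X : ℝ) ^ ε₁ < (p : ℝ) ∧ (p : ℝ) ≤ (X : ℝ) ^ θ ∧ p ∉ Cl) ∧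
        (∀ m : ℕ, 0 ≤ ∑ s ∈ P.powerset, Cc n0 ⌈1 / ε₁⌉₊ true 0 (srt (cel X ϖ) s) * (if (∏ q ∈ s, q) ∣ m then 1 else 0)) ∧
        (∀ m : ℕ, (∀ p ∈ P, ¬ p ∣ m) →
          1 ≤ ∑ s ∈ P.powerset, Cc n0 ⌈1 / ε₁⌉₊ true 0 (srt (cel X ϖ) s) * (if (∏ q ∈ s, q) ∣ m then 1 else 0)) ∧
        ∑ s ∈ P.powerset, Cc n0 ⌈1 / ε₁⌉₊ true 0 (srt (cel X ϖ) s) * (1 / ((∏ q ∈ s, q : ℕ) : ℝ)) ≤
          (1 + η') * (2 * Real.exp Real.eulerMascheroniConstant * ε₁ / θ) := by
  classical
  obtain ⟨A0, F, f, hSF⟩ := Pool.Agent.W366.DC.SFX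
  have hA := Pool.Agent.Y827.LS.Sfc.sfc hSF
  set K : ℕ := ⌈1 / ε₁⌉₊ with hK
  have hKε : 1 ≤ (K : ℝ) * ε₁ := by
    have h1 : 1 / ε₁ ≤ (K : ℝ) := Nat.le_ceil _
    rwa [div_le_iff₀ hε₁] at h1
  set β : ℝ := 2 * Real.exp Real.eulerMascheroniConstant * ε₁ / θ with hβ
  have hβ0 : 0 < β := by positivity
  obtain ⟨η₁, hη₁, hMT⟩ := Pool.Agent.W505.DC.MT Pool.Agent.W505.DC.MI A0 F f hSF ε₁ (η' * β) K
    hε₁ (by linarith) (by positivity)
  obtain ⟨N₁, hN₁⟩ := Pool.Agent.W378.DC.MP (ε₁ / 2) (η₁ / 8) (by positivity) (by positivity)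
  -- the size of the cells
  obtain ⟨n1, hn1⟩ := exists_nat_ge (2 / (min (η₁ / 16) 1 * (ε₁ / 4)))
  refine ⟨n1 + 1, fun n0 hn0 ϖ hϖθ => ?_⟩
  have hn0r : (n1 : ℝ) + 1 ≤ n0 := by exact_mod_cast hn0
  have hθ00 : 0 < θ := by linarith
  have hϖ : 0 < ϖ := by
    by_contra hcon
    push Not at hcon
    have h1 : ϖ * ((n0 : ℝ) + 1 / 2) ≤ 0 := mul_nonpos_of_nonpos_of_nonneg hcon (by positivity)
    linarith
  have hϖs : 2 * ϖ ≤ min (η₁ / 16) 1 * (ε₁ / 4) := by
    have h0 : 0 < min (η₁ / 16) 1 * (ε₁ / 4) := by positivity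
    rw [div_le_iff₀ h0] at hn1
    have h1 : ϖ * n0 ≤ 1 := by
      have : ϖ * ((n0 : ℝ) + 1 / 2) = ϖ * n0 + ϖ / 2 := by ring
      linarith
    have h2 : 2 ≤ (n0 : ℝ) * (min (η₁ / 16) 1 * (ε₁ / 4)) := by nlinarith
    have hn00 : (0 : ℝ) < n0 := by
      have : (0 : ℝ) ≤ n1 := Nat.cast_nonneg _
      linarith
    by_contra hcon
    push Not at hcon
    have h3 : (n0 : ℝ) * (min (η₁ / 16) 1 * (ε₁ / 4)) < n0 * (2 * ϖ) := mul_lt_mul_of_pos_left hcon hn00
    linarith
  set δ0 : ℝ := ϖ / (4 * ((K : ℝ) + 3)) with hδ0d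
  have hδ0 : 0 < δ0 := by positivity
  have hδK : ((K : ℝ) + 3) * δ0 < ϖ / 2 := by
    have : ((K : ℝ) + 3) * δ0 = ϖ / 4 := by rw [hδ0d]; field_simp
    rw [this]; linarith
  have hδϖ : δ0 ≤ ϖ := by
    rw [hδ0d]
    apply div_le_self hϖ.le
    have : (0 : ℝ) ≤ K := Nat.cast_nonneg _
    linarith
  set μ : ℝ := ϖ + δ0 with hμ
  have hμ0 : 0 < μ := by positivity
  have hμ1 : μ ≤ η₁ / 16 * (ε₁ / 4) := by
    have h1 : min (η₁ / 16) 1 * (ε₁ / 4) ≤ η₁ / 16 * (ε₁ / 4) := mul_le_mul_of_nonneg_right (min_le_left _ _) (by positivity)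
    linarith
  have hμ2 : μ ≤ ε₁ / 4 := by
    have h1 : min (η₁ / 16) 1 * (ε₁ / 4) ≤ 1 * (ε₁ / 4) := mul_le_mul_of_nonneg_right (min_le_right _ _) (by positivity)
    linarith
  -- growth conditions
  set C₀ : ℝ := 4 / η₁ * (Real.log (2 / ε₁) + η₁) + 2 with hC₀
  have hbig : ∃ N₂ : ℕ, ∀ N : ℕ, N₂ ≤ N →
      4 / η₁ * ((Real.log N) ^ 2 + 1) ≤ (N : ℝ) ^ ε₁ ∧ C₀ ≤ (N : ℝ) ^ ε₁ := by
    have h1 : Tendsto (fun x : ℝ => (Real.log x) ^ 2 / x ^ ε₁) atTop (𝓝 0) := by
      have h0 := isLittleO_log_rpow_rpow_atTop (s := ε₁) 2 hε₁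
      have h2 := h0.tendsto_div_nhds_zero
      refine h2.congr fun x => ?_
      norm_num
    have h2 : Tendsto (fun x : ℝ => 1 / x ^ ε₁) atTop (𝓝 0) :=
      Tendsto.const_div_atTop (tendsto_rpow_atTop hε₁) 1
    have h3 := (h1.add h2).const_mul (4 / η₁)
    rw [add_zero, mul_zero] at h3
    have h4 := (h3.comp tendsto_natCast_atTop_atTop).eventually (gt_mem_nhds one_pos)
    have h5 := ((tendsto_rpow_atTop hε₁).comp tendsto_natCast_atTop_atTop).eventually
      (eventually_ge_atTop C₀)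
    obtain ⟨N₂, h6⟩ := Filter.eventually_atTop.1 (h4.and h5)
    refine ⟨max N₂ 1, fun N hN => ?_⟩
    obtain ⟨h7, h8⟩ := h6 N ((le_max_left _ _).trans hN)
    simp only [Function.comp_apply] at h7 h8
    have hN0 : (0 : ℝ) < N := by
      have : 1 ≤ N := (le_max_right _ _).trans hN
      exact_mod_cast this
    have h9 : 0 < (N : ℝ) ^ ε₁ := Real.rpow_pos_of_pos hN0 _
    rw [← add_div, mul_div_assoc', div_lt_one h9] at h7
    exact ⟨h7.le, h8⟩
  obtain ⟨N₂, hN₂⟩ := hbig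
  refine ⟨max N₁ (max N₂ 2), ?_⟩
  intro X hX Cl hCl
  have hX1 : N₁ ≤ X := (le_max_left _ _).trans hX
  have hX2 : N₂ ≤ X := ((le_max_left _ _).trans (le_max_right _ _)).trans hX
  have hX3 : 2 ≤ X := ((le_max_right _ _).trans (le_max_right _ _)).trans hX
  have hXr1 : (1 : ℝ) < X := by exact_mod_cast (by omega : 1 < X)
  have hXr0 : (0 : ℝ) < X := by linarith
  have hlog : 0 < Real.log X := Real.log_pos hXr1
  obtain ⟨hg1, hg2⟩ := hN₂ X hX2
  set y : ℝ := (X : ℝ) ^ ε₁ with hy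
  have hle1 : 0 ≤ Real.log (2 / ε₁) := by
    apply Real.log_nonneg
    rw [le_div_iff₀ hε₁]
    linarith
  have hy2 : 2 ≤ y := by
    refine le_trans ?_ hg2
    rw [hC₀]
    have : 0 ≤ 4 / η₁ * (Real.log (2 / ε₁) + η₁) := by positivity
    linarith
  have hy0 : 0 < y := by linarith
  set c : ℕ → ℕ := cel X ϖ with hc
  set t : ℕ → ℝ := fun p => ϖ * (c p + 1) + δ0 * (p / (X + 1)) with ht
  have htlo : ∀ p : ℕ, 1 ≤ p → ϖ * (c p + 1) ≤ t p := by
    intro p _
    simp only [ht]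
    have : 0 ≤ δ0 * ((p : ℝ) / (X + 1)) := by positivity
    linarith
  have hthi : ∀ p : ℕ, p ≤ X → t p ≤ ϖ * (c p + 1) + δ0 := by
    intro p hp
    simp only [ht]
    have h1 : (p : ℝ) ≤ X := by exact_mod_cast hp
    have h2 : (p : ℝ) / (X + 1) ≤ 1 := by
      rw [div_le_one (by positivity)]
      linarith
    nlinarith
  have httlo : ∀ p : ℕ, 1 ≤ p → tt X p < t p := by
    intro p hp
    exact lt_of_lt_of_le (cel_spec X hX3 ϖ hϖ p hp).2.2.2 (htlo p hp)
  have htthi : ∀ p : ℕ, 1 ≤ p → p ≤ X → t p ≤ tt X p + μ := by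
    intro p hp hpX
    have h1 := (cel_spec X hX3 ϖ hϖ p hp).2.2.1
    have h2 := hthi p hpX
    rw [hμ]
    have : ϖ * ((c p : ℝ) + 1) = ϖ * c p + ϖ := by ring
    linarith
  have hcmono : ∀ p q : ℕ, 1 ≤ p → p < q → c p ≤ c q := by
    intro p q hp hpq
    rw [hc]
    unfold cel
    apply Nat.floor_le_floor
    apply div_le_div_of_nonneg_right _ hϖ.le
    unfold tt
    apply div_le_div_of_nonneg_right _ hlog.le
    apply Real.log_le_log (by exact_mod_cast hp)
    exact_mod_cast hpq.le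
  have htmono : ∀ p q : ℕ, 1 ≤ p → p < q → t p < t q := by
    intro p q hp hpq
    have h1 : (c p : ℝ) ≤ c q := by exact_mod_cast hcmono p q hp hpq
    have h2 : (p : ℝ) / (X + 1) < q / (X + 1) := by
      apply div_lt_div_of_pos_right _ (by positivity)
      exact_mod_cast hpq
    simp only [ht]
    nlinarith
  set P : Finset ℕ := (Icc 1 X).filter (fun p => p.Prime ∧ y < (p : ℝ) ∧ p ∉ Cl ∧ t p < θ) with hP
  have hPm : ∀ p, p ∈ P ↔ (1 ≤ p ∧ p ≤ X) ∧ p.Prime ∧ y < (p : ℝ) ∧ p ∉ Cl ∧ t p < θ := by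
    intro p
    rw [hP, Finset.mem_filter, Finset.mem_Icc]
  have htpos : ∀ p : ℕ, 1 ≤ p → 0 < t p := by
    intro p hp
    have := htlo p hp
    have h2 : 0 < ϖ * ((c p : ℝ) + 1) := by positivity
    linarith
  have hS : Siz P t := by
    refine ⟨fun p hp => ((hPm p).1 hp).2.1, fun p hp => htpos p ((hPm p).1 hp).1.1, ?_⟩
    intro p hp q hq
    have hp1 := ((hPm p).1 hp).1.1
    have hq1 := ((hPm q).1 hq).1.1
    constructor
    · intro h
      by_contra hcon
      push Not at hcon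
      rcases hcon.lt_or_eq with h2 | h2
      · have := htmono q p hq1 h2
        linarith
      · rw [h2] at h
        exact lt_irrefl _ h
    · exact htmono p q hp1
  have hrep := fun r => LL_rep hS c ϖ δ0 n0 K hϖ hδ0.le hδK
    (fun p hp => ⟨htlo p ((hPm p).1 hp).1.1, hthi p ((hPm p).1 hp).1.2⟩)
    (fun p hp => by rw [hϖθ]; exact ((hPm p).1 hp).2.2.2.2) r
  rw [hϖθ] at hrep
  have hPT : ∀ m : ℕ, (if 1 ∣ m ∧ ∀ p ∈ P, t p < θ → ¬ p ∣ m then (1 : ℝ) else 0) ≤
      ∑ s ∈ P.powerset, Cc n0 K true 0 (srt c s) * (if (∏ q ∈ s, q) ∣ m then 1 else 0) := by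
    intro m
    rw [← hrep (fun e => if e ∣ m then 1 else 0)]
    exact (Pool.Agent.W52.DC.PT P t hS m K θ θ 1 (fun p hp _ h1 =>
      (hS.pr p hp).one_lt.ne' (Nat.dvd_one.1 h1))).1
  refine ⟨P, ?_, ?_, ?_, ?_⟩
  · intro p hp
    have h1 := (hPm p).1 hp
    refine ⟨h1.2.1, h1.2.2.1, ?_, h1.2.2.2.1⟩
    have h2 := (cel_spec X hX3 ϖ hϖ p h1.1.1).2.1
    refine h2.le.trans ?_
    apply Real.rpow_le_rpow_of_exponent_le hXr1.le
    have h3 := htlo p h1.1.1
    exact h3.trans h1.2.2.2.2.le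
  · intro m
    refine le_trans ?_ (hPT m)
    split_ifs <;> norm_num
  · intro m hm
    refine le_trans (le_of_eq ?_) (hPT m)
    rw [if_pos ⟨one_dvd _, fun p hp _ => hm p hp⟩]
  -- the main term
  have hMer : Mer P t (fun p => 1 / (p : ℝ)) ε₁ θ η₁ := by
    intro a d hεa had hdθ
    have ha0 : 0 < a := by linarith
    have hd0 : 0 < d := by linarith
    set Q := P.filter (fun p => a ≤ t p ∧ t p < d) with hQd
    have hSm : ∀ a b : ℝ, ∀ p, p ∈ pr X a b ↔ (1 ≤ p ∧ p ≤ X) ∧ p.Prime ∧ a ≤ tt X p ∧ tt X p < b := by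
      intro a b p
      unfold pr
      rw [Finset.mem_filter, Finset.mem_Icc]
    -- upper bound
    set a' : ℝ := a - μ with ha'
    have ha'1 : ε₁ / 2 ≤ a' := by rw [ha']; linarith
    have hup : ∑ p ∈ Q, 1 / (p : ℝ) ≤ Real.log (d / a) + η₁ := by
      have h1 : ∑ p ∈ Q, 1 / (p : ℝ) ≤ ∑ p ∈ pr X a' d, 1 / ((p : ℝ) - 1) := by
        calc ∑ p ∈ Q, 1 / (p : ℝ) ≤ ∑ p ∈ Q, 1 / ((p : ℝ) - 1) := by
              apply sum_le_sum
              intro p hp
              rw [hQd, mem_filter] at hp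
              have h2 : (2 : ℝ) ≤ p := by exact_mod_cast (hS.pr p hp.1).two_le
              exact one_div_le_one_div_of_le (by linarith) (by linarith)
          _ ≤ _ := by
              apply sum_le_sum_of_subset_of_nonneg
              · intro p hp
                rw [hQd, mem_filter] at hp
                have h2 := (hPm p).1 hp.1
                rw [hSm]
                refine ⟨h2.1, h2.2.1, ?_, ?_⟩
                · have := htthi p h2.1.1 h2.1.2
                  rw [ha']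
                  linarith [hp.2.1]
                · exact (httlo p h2.1.1).trans hp.2.2
              · intro p hp _
                rw [hSm] at hp
                have h2 : (2 : ℝ) ≤ p := by exact_mod_cast hp.2.1.two_le
                apply one_div_nonneg.2
                linarith
      have h2 := (abs_le.1 (hN₁ X hX1 a' d ha'1 (by rw [ha']; linarith) (by linarith))).2
      have h3 : Real.log (d / a') ≤ Real.log (d / a) + η₁ / 8 := by
        have ha'0 : 0 < a' := by linarith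
        have h4 : d / a' = d / a * (a / a') := by field_simp
        rw [h4, Real.log_mul (by positivity) (by positivity)]
        have h5 : Real.log (a / a') ≤ a / a' - 1 := Real.log_le_sub_one_of_pos (by positivity)
        have h6 : a / a' - 1 = μ / a' := by
          have h66 : a - a' = μ := by rw [ha']; ring
          rw [div_sub_one ha'0.ne', h66]
        have h7 : μ / a' ≤ η₁ / 8 := by
          rw [div_le_iff₀ ha'0]
          nlinarith
        linarith
      linarith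
    -- lower bound
    have hlow : Real.log (d / a) - η₁ ≤ ∑ p ∈ Q, 1 / (p : ℝ) := by
      set b' : ℝ := max a (d - μ) with hb'
      have hb'a : a ≤ b' := le_max_left _ _
      have hb'd : b' ≤ d := max_le had (by linarith)
      have hb'0 : 0 < b' := by linarith
      set S := pr X a b' with hSd
      have hSy : ∀ p ∈ S, y ≤ (p : ℝ) ∧ 2 ≤ (p : ℝ) := by
        intro p hp
        obtain ⟨-, hpr, h1, -⟩ := (hSm a b' p).1 hp
        have hp0 : (0 : ℝ) < p := by exact_mod_cast hpr.pos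
        refine ⟨?_, by exact_mod_cast hpr.two_le⟩
        unfold tt at h1
        rw [le_div_iff₀ hlog] at h1
        have h2 : ε₁ * Real.log X ≤ Real.log p :=
          (mul_le_mul_of_nonneg_right hεa hlog.le).trans h1
        rw [hy, ← Real.log_le_log_iff (Real.rpow_pos_of_pos hXr0 _) hp0, Real.log_rpow hXr0]
        exact h2
      have hMP := hN₁ X hX1 a b' (by linarith) hb'a (by linarith)
      have e3 : ∑ p ∈ S, (1 / ((p : ℝ) - 1) - 1 / (p : ℝ)) ≤ η₁ / 4 := by
        have h1 : ∑ p ∈ S, (1 / ((p : ℝ) - 1) - 1 / (p : ℝ)) ≤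
            ∑ p ∈ S, 1 / y * (1 / ((p : ℝ) - 1)) := by
          apply Finset.sum_le_sum
          intro p hp
          obtain ⟨h2, h3⟩ := hSy p hp
          have h4 : 1 / ((p : ℝ) - 1) - 1 / (p : ℝ) = 1 / (p : ℝ) * (1 / ((p : ℝ) - 1)) := by
            have : (p : ℝ) - 1 ≠ 0 := by linarith
            have : (p : ℝ) ≠ 0 := by linarith
            field_simp
            ring
          rw [h4]
          apply mul_le_mul_of_nonneg_right _ (by
            apply one_div_nonneg.2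
            linarith)
          exact one_div_le_one_div_of_le hy0 h2
        rw [← Finset.mul_sum] at h1
        have h2 : ∑ p ∈ S, 1 / ((p : ℝ) - 1) ≤ Real.log (2 / ε₁) + η₁ := by
          have h3 := (abs_le.1 hMP).2
          have h4 : Real.log (b' / a) ≤ Real.log (2 / ε₁) := by
            apply Real.log_le_log (by positivity)
            rw [div_le_div_iff₀ ha0 hε₁]
            nlinarith
          linarith
        refine h1.trans ?_
        have h5 : 4 / η₁ * (Real.log (2 / ε₁) + η₁) ≤ y := by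
          refine le_trans ?_ hg2
          rw [hC₀]
          linarith
        have h6 : Real.log (2 / ε₁) + η₁ ≤ η₁ / 4 * y := by
          have h7 := mul_le_mul_of_nonneg_left h5 (by positivity : 0 ≤ η₁ / 4)
          have h8 : η₁ / 4 * (4 / η₁ * (Real.log (2 / ε₁) + η₁)) = Real.log (2 / ε₁) + η₁ := by
            field_simp
          rw [h8] at h7
          exact h7
        calc 1 / y * ∑ p ∈ S, 1 / ((p : ℝ) - 1) ≤ 1 / y * (η₁ / 4 * y) := by
              apply mul_le_mul_of_nonneg_left (h2.trans h6) (by positivity)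
          _ = η₁ / 4 := by field_simp
      have hSQ : ∀ p ∈ S, p ∉ Cl ∪ {⌊y⌋₊} → p ∈ Q := by
        intro p hp hpn
        rw [mem_union, mem_singleton, not_or] at hpn
        have h1 := (hSm a b' p).1 hp
        have h2 := (hSy p hp).1
        have h3 : y < (p : ℝ) := by
          rcases h2.lt_or_eq with h4 | h4
          · exact h4
          · exfalso
            apply hpn.2
            rw [h4, Nat.floor_natCast]
        have h4 : t p < d := by
          have h5 := htthi p h1.1.1 h1.1.2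
          have h6 := h1.2.2.2
          rcases le_total a (d - μ) with h7 | h7
          · rw [hb', max_eq_right h7] at h6
            linarith
          · rw [hb', max_eq_left h7] at h6
            linarith [h1.2.2.1]
        rw [hQd, mem_filter, hPm]
        exact ⟨⟨h1.1, h1.2.1, h3, hpn.1, by linarith⟩, h1.2.2.1.trans (httlo p h1.1.1).le, h4⟩
      have e4 : ∑ p ∈ S \ Q, 1 / (p : ℝ) ≤ η₁ / 4 := by
        have hsub : S \ Q ⊆ Cl ∪ {⌊y⌋₊} := by
          intro p hp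
          rw [Finset.mem_sdiff] at hp
          by_contra hcon
          exact hp.2 (hSQ p hp.1 hcon)
        have h1 : ∑ p ∈ S \ Q, 1 / (p : ℝ) ≤ ∑ _p ∈ S \ Q, 1 / y := by
          apply Finset.sum_le_sum
          intro p hp
          exact one_div_le_one_div_of_le hy0 (hSy p (Finset.mem_sdiff.1 hp).1).1
        rw [Finset.sum_const, nsmul_eq_mul] at h1
        have h2 : (((S \ Q).card : ℕ) : ℝ) ≤ (Real.log X) ^ 2 + 1 := by
          have h3 : (S \ Q).card ≤ Cl.card + 1 := by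
            refine (Finset.card_le_card hsub).trans ?_
            refine (Finset.card_union_le _ _).trans ?_
            rw [Finset.card_singleton]
          have h4 : (((S \ Q).card : ℕ) : ℝ) ≤ (Cl.card : ℝ) + 1 := by exact_mod_cast h3
          linarith
        refine h1.trans ?_
        have h6 : (Real.log X) ^ 2 + 1 ≤ η₁ / 4 * y := by
          have h7 := mul_le_mul_of_nonneg_left hg1 (by positivity : 0 ≤ η₁ / 4)
          have h8 : η₁ / 4 * (4 / η₁ * ((Real.log X) ^ 2 + 1)) = (Real.log X) ^ 2 + 1 := by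
            field_simp
          rw [h8] at h7
          exact h7
        calc (((S \ Q).card : ℕ) : ℝ) * (1 / y) ≤ (η₁ / 4 * y) * (1 / y) := by
              apply mul_le_mul_of_nonneg_right (h2.trans h6) (by positivity)
          _ = η₁ / 4 := by field_simp
      have e5 : ∑ p ∈ S, 1 / (p : ℝ) ≤ ∑ p ∈ Q, 1 / (p : ℝ) + ∑ p ∈ S \ Q, 1 / (p : ℝ) := by
        have h1 : ∑ p ∈ S, 1 / (p : ℝ) = ∑ p ∈ S ∩ Q, 1 / (p : ℝ) + ∑ p ∈ S \ Q, 1 / (p : ℝ) := by
          rw [← sum_inter_add_sum_sdiff S Q]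
        rw [h1]
        apply add_le_add_left
        apply sum_le_sum_of_subset_of_nonneg inter_subset_right
        intro p _ _
        positivity
      have e6 : ∑ p ∈ S, 1 / ((p : ℝ) - 1) = ∑ p ∈ S, 1 / (p : ℝ) + ∑ p ∈ S, (1 / ((p : ℝ) - 1) - 1 / (p : ℝ)) := by
        rw [← sum_add_distrib]
        apply sum_congr rfl
        intro p _
        ring
      have e7 := (abs_le.1 hMP).1
      have e8 : Real.log (d / a) - η₁ / 8 ≤ Real.log (b' / a) := by
        have h4 : d / a = b' / a * (d / b') := by field_simp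
        rw [h4, Real.log_mul (by positivity) (by positivity)]
        have h5 : Real.log (d / b') ≤ d / b' - 1 := Real.log_le_sub_one_of_pos (by positivity)
        have h6 : d / b' - 1 ≤ μ / b' := by
          rw [div_sub_one hb'0.ne']
          apply div_le_div_of_nonneg_right _ hb'0.le
          have := le_max_right a (d - μ)
          rw [← hb'] at this
          linarith
        have h7 : μ / b' ≤ η₁ / 8 := by
          rw [div_le_iff₀ hb'0]
          nlinarith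
        linarith
      linarith
    show |∑ p ∈ Q, 1 / (p : ℝ) - Real.log (d / a)| ≤ η₁
    rw [abs_le]
    constructor <;> linarith
  have hMM := (hMT P t (fun p => 1 / (p : ℝ)) θ hθ1.le (fun p _ => by positivity)
    (fun p hp => by
      have h1 := (hPm p).1 hp
      have hp0 : (0 : ℝ) < p := by exact_mod_cast h1.2.1.pos
      refine le_trans ?_ (httlo p h1.1.1).le
      unfold tt
      rw [le_div_iff₀ hlog, ← Real.log_rpow hXr0]
      exact Real.log_le_log hy0 h1.2.2.1.le) hMer K le_rfl θ θ (by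
        have : (K : ℝ) * ε₁ + 2 * ε₁ = (K + 2) * ε₁ := by ring
        linarith) (by linarith) le_rfl le_rfl hθ1.le).1
  have h1 := hrep (fun e => 1 / (e : ℝ))
  have h2 := Pool.Agent.W120.DC.LN.2.2 P t hS (fun p => 1 / (p : ℝ)) (fun e => 1 / (e : ℝ))
    (fun d p _ _ => by push_cast; rw [one_div_mul_one_div]) K true θ θ 1
    (fun p hp _ hd => (hS.pr p hp).one_lt.ne' (Nat.dvd_one.1 hd))
  rw [Nat.cast_one, div_one, one_mul] at h2
  have h3 : ∑ s ∈ P.powerset, Cc n0 K true 0 (srt c s) * (1 / ((∏ q ∈ s, q : ℕ) : ℝ)) =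
      MM P t (fun p => 1 / (p : ℝ)) K true θ θ := by
    rw [← h2, h1]
  rw [h3]
  refine hMM.trans ?_
  have hF1 : F (θ / θ) = A0 := by
    rw [div_self (by linarith), hSF.F3 1 le_rfl (by norm_num), div_one]
  rw [hF1]
  have h4 : ε₁ / θ * A0 ≤ β := by
    rw [hβ]
    calc ε₁ / θ * A0 ≤ ε₁ / θ * (2 * Real.exp Real.eulerMascheroniConstant) :=
          mul_le_mul_of_nonneg_left hA (by positivity)
      _ = _ := by ring
  rw [add_mul, one_mul]
  linarith

end Pool.Agent.Y844.BT
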