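import Mathlib
import Pool.Agent.Y844.BT.Bil

/-! The choice of the parameters. -/

set_option autoImplicit false

namespace Pool.Agent.Y844.BT

open Finset

theorem par (κ γ Γ : ℝ) (hκ : 0 < κ) (hκ1 : κ ≤ 1 / 100) (h1 : 4 * κ ≤ γ) (h2 : γ ≤ Γ) (S : ℕ)
    (hS : 10 * Γ + 21 ≤ S) : ∃ s t : ℕ, 1 ≤ s ∧ 1 ≤ t ∧ s ≤ S ∧ t ≤ S ∧ ∃ α β : ℝ, 1 / 20 ≤ α ∧ 0 < β ∧
      α + β = 3 / 4 ∧ (2 * s - 1) * β ≤ γ - κ ∧ (t = 1 ∨ (2 * t - 1) * α ≤ γ - κ) ∧ γ + κ ≤ t * α + s * β ∧ κ ≤ s * β := by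
  have hγ0 : 0 < γ := by linarith
  rcases le_or_gt γ (5 / 4) with hγ | hγ
  · have hS20 : 20 ≤ S := by
      have : (20 : ℝ) ≤ S := by linarith
      exact_mod_cast this
    refine ⟨20, 1, by norm_num, le_rfl, hS20, by omega, 3 / 4 - (γ - κ) / 39, (γ - κ) / 39, ?_, ?_, ?_, ?_, Or.inl rfl, ?_, ?_⟩
    · linarith
    · linarith
    · ring
    · push_cast; linarith
    · push_cast; linarith
    · push_cast; linarith
  · set v : ℝ := (γ - κ) / (7 / 10) with hv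
    have hv1 : 17 / 10 ≤ v := by
      rw [hv, le_div_iff₀ (by norm_num)]
      linarith
    have hvγ : 7 / 10 * v = γ - κ := by rw [hv]; field_simp
    set s : ℕ := ⌈(v + 1) / 2⌉₊ with hs
    have hs1 : (v + 1) / 2 ≤ s := Nat.le_ceil _
    have hs2 : (s : ℝ) < (v + 1) / 2 + 1 := Nat.ceil_lt_add_one (by linarith)
    have hs3 : 2 ≤ s := by
      have : (1 : ℝ) < s := by linarith
      exact_mod_cast this
    have hs3' : (2 : ℝ) ≤ s := by exact_mod_cast hs3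
    have hs0 : (0 : ℝ) < 2 * s - 1 := by linarith
    set β : ℝ := (γ - κ) / (2 * s - 1) with hβ
    have hβs : (2 * s - 1) * β = γ - κ := by rw [hβ]; field_simp
    have hβ1 : β ≤ 7 / 10 := by
      rw [hβ, div_le_iff₀ hs0]
      linarith
    have hβ2 : 395 / 1000 ≤ β := by
      rw [hβ, le_div_iff₀ hs0]
      rcases hs3.eq_or_lt with h3 | h3
      · rw [← h3]
        push_cast
        linarith
      · have h4 : (3 : ℝ) ≤ s := by exact_mod_cast h3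
        linarith
    set α : ℝ := 3 / 4 - β with hα
    have hα0 : 0 < α := by linarith
    set t : ℕ := ⌊(γ - κ) / (2 * α) + 1 / 2⌋₊ with ht
    have ht0 : 0 ≤ (γ - κ) / (2 * α) + 1 / 2 := by
      have : 0 ≤ (γ - κ) / (2 * α) := div_nonneg (by linarith) (by linarith)
      linarith
    have ht1 : (t : ℝ) ≤ (γ - κ) / (2 * α) + 1 / 2 := Nat.floor_le ht0
    have ht2 : (γ - κ) / (2 * α) + 1 / 2 < t + 1 := Nat.lt_floor_add_one _
    have ht3 : 1 ≤ t := by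
      apply Nat.le_floor
      push_cast
      have : 1 / 2 ≤ (γ - κ) / (2 * α) := by
        rw [le_div_iff₀ (by linarith)]
        linarith
      linarith
    have hta : (2 * t - 1) * α ≤ γ - κ := by
      have h3 : ((t : ℝ) - 1 / 2) ≤ (γ - κ) / (2 * α) := by linarith
      rw [le_div_iff₀ (by linarith)] at h3
      linarith
    have htb : γ - κ - α < 2 * t * α := by
      have h3 : (γ - κ) / (2 * α) < (t : ℝ) + 1 / 2 := by linarith
      rw [div_lt_iff₀ (by linarith)] at h3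
      linarith
    refine ⟨s, t, by omega, ht3, ?_, ?_, α, β, by linarith, by linarith, by linarith, hβs.le, Or.inr hta, ?_, ?_⟩
    · have : (s : ℝ) ≤ S := by
        have h3 : v ≤ 2 * γ := by
          rw [hv, div_le_iff₀ (by norm_num)]
          linarith
        linarith
      exact_mod_cast this
    · have : (t : ℝ) ≤ S := by
        have h3 : (γ - κ) / (2 * α) ≤ 10 * γ := by
          rw [div_le_iff₀ (by linarith)]
          nlinarith
        linarith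
      exact_mod_cast this
    · have h3 : s * β = (γ - κ + β) / 2 := by
        rw [← hβs]
        ring
      rw [h3]
      linarith
    · nlinarith

/-- the bilinear bound in the needed range -/
theorem cbil (κ Γ : ℝ) (hκ : 0 < κ) (hκ1 : κ ≤ 1 / 100) (S : ℕ) (hS : 10 * Γ + 21 ≤ S) (hS21 : 21 ≤ S) (ω : ℝ)
    (hω : ω = κ / (200 * S ^ 2)) :
    ∃ X₀ : ℕ, ∀ X : ℕ, X₀ ≤ X → ∀ γ : ℝ, 4 * κ ≤ γ → γ ≤ Γ → ∀ (n0 K : ℕ) (ϖ : ℝ), ϖ * (n0 + 1 / 2) = 3 / 4 → 0 < ϖ →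
      ϖ ≤ ω → K * ϖ ≤ ω → ∃ x y : ℕ, x + y = n0 ∧
      ∀ (r σA σB : ℕ), r ≤ K → σA ≤ y → σB ≤ x → 3 / 4 - 10 * ω ≤ ϖ * (σA + σB) →
      ∀ (k' : ℕ) [NeZero k'] (𝓜 𝓝 : Finset ℕ) (a b : ℕ → ℂ), (∀ m ∈ 𝓜, ‖a m‖ ≤ 1) → (∀ n ∈ 𝓝, ‖b n‖ ≤ 1) →
      ∀ (T : ℝ) (u : ZMod k'), IsUnit u → ∀ g : ℕ, 1 ≤ g → (g : ℝ) ≤ (X : ℝ) ^ (10 * ω) →
      (∀ m ∈ 𝓜, 1 ≤ m ∧ (X : ℝ) ^ (ϖ * (σB - r)) / g ≤ m ∧ (m : ℝ) ≤ (X : ℝ) ^ (ϖ * σB) / g) →
      (∀ n ∈ 𝓝, 1 ≤ n ∧ (X : ℝ) ^ (ϖ * (σA - r)) / g ≤ n ∧ (n : ℝ) ≤ (X : ℝ) ^ (ϖ * σA) / g) →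
      (∀ m ∈ 𝓜, Nat.Coprime m k') → (∀ n ∈ 𝓝, Nat.Coprime n k') →
      (X : ℝ) ^ (γ - 30 * ω) ≤ k' * (1 + |T| / ((X : ℝ) ^ (ϖ * (σB - r)) / g * ((X : ℝ) ^ (ϖ * (σA - r)) / g))) →
      k' * (1 + |T| / ((X : ℝ) ^ (ϖ * (σB - r)) / g * ((X : ℝ) ^ (ϖ * (σA - r)) / g))) ≤ (X : ℝ) ^ (γ + 30 * ω) →
      ‖∑ m ∈ 𝓜, ∑ n ∈ 𝓝, a m * b n * Ps k' T u (1 / (n : ℝ)) (1 / (m : ℝ)) (n : ZMod k')⁻¹ (m : ZMod k')⁻¹‖ ≤
        (X : ℝ) ^ (ϖ * σB) / g * ((X : ℝ) ^ (ϖ * σA) / g) * (X : ℝ) ^ (-(10 * ω)) := by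
  classical
  have hS0 : (0 : ℝ) < S := by exact_mod_cast (by omega : 0 < S)
  have hS21r : (21 : ℝ) ≤ S := by exact_mod_cast hS21
  have hω0 : 0 < ω := by rw [hω]; positivity
  have hωS : ω * (200 * S ^ 2) = κ := by rw [hω]; field_simp
  have hωS1 : 4200 * S * ω ≤ κ := by
    rw [← hωS]
    have : 4200 * (S : ℝ) * ω = ω * (200 * S * 21) := by ring
    rw [this]
    apply mul_le_mul_of_nonneg_left _ hω0.le
    nlinarith
  have hε' : 0 < κ / 8 := by positivity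
  choose C hC0 hC using fun s t : ℕ => bilF (s + 1) (t + 1) (by omega) (by omega) (κ / 8) hε'
  set CC : ℝ := ∑ s ∈ range S, ∑ t ∈ range S, C s t with hCC
  have hCle : ∀ s < S, ∀ t < S, C s t ≤ CC := by
    intro s hs t ht
    calc C s t ≤ ∑ t ∈ range S, C s t := single_le_sum (f := fun t => C s t) (fun i _ => (hC0 s i).le) (mem_range.2 ht)
      _ ≤ CC := single_le_sum (f := fun s => ∑ t ∈ range S, C s t) (fun i _ => sum_nonneg fun j _ => (hC0 i j).le) (mem_range.2 hs)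
  have hbig : ∃ X₀ : ℕ, ∀ X : ℕ, X₀ ≤ X → 2 * CC ≤ (X : ℝ) ^ (κ / 8) ∧ 8 * S < (X : ℝ) ^ (κ / 2) ∧ 2 ≤ X := by
    have h1 := ((tendsto_rpow_atTop hε').comp tendsto_natCast_atTop_atTop).eventually
      (Filter.eventually_ge_atTop (2 * CC))
    have h2 := ((tendsto_rpow_atTop (by positivity : 0 < κ / 2)).comp tendsto_natCast_atTop_atTop).eventually
      (Filter.eventually_gt_atTop (8 * (S : ℝ)))
    obtain ⟨X₀, h3⟩ := Filter.eventually_atTop.1 (h1.and (h2.and (Filter.eventually_ge_atTop 2)))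
    exact ⟨X₀, fun X hX => ⟨(h3 X hX).1, (h3 X hX).2.1, (h3 X hX).2.2⟩⟩
  obtain ⟨X₀, hX₀⟩ := hbig
  refine ⟨X₀, fun X hX γ hγ1 hγ2 n0 K ϖ hϖ hϖ0 hϖω hKϖ => ?_⟩
  obtain ⟨hXC, hXS, hX2⟩ := hX₀ X hX
  obtain ⟨s, t, hs1, ht1, hsS, htS, α, β, hα1, hβ0, hαβ, hsβ, htα, hsum, hsκ⟩ := par κ γ Γ hκ hκ1 hγ1 hγ2 S hS
  have hX1 : (1 : ℝ) < X := by exact_mod_cast (by omega : 1 < X)
  have hX1' : (1 : ℝ) ≤ X := hX1.le
  have hX0 : (0 : ℝ) < X := by linarith
  set y : ℕ := ⌊β / ϖ⌋₊ with hy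
  have hy1 : ϖ * y ≤ β := by
    have := Nat.floor_le (div_nonneg hβ0.le hϖ0.le)
    rw [le_div_iff₀ hϖ0] at this
    linarith
  have hy2 : β < ϖ * y + ϖ := by
    have := Nat.lt_floor_add_one (β / ϖ)
    rw [div_lt_iff₀ hϖ0] at this
    rw [← hy] at this
    linarith
  have hϖn : ϖ * n0 = 3 / 4 - ϖ / 2 := by
    have : ϖ * ((n0 : ℝ) + 1 / 2) = ϖ * n0 + ϖ / 2 := by ring
    linarith
  have hω1 : ω ≤ 1 / 1000 := by
    have h3 : 4200 * 21 * ω ≤ 4200 * S * ω := by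
      apply mul_le_mul_of_nonneg_right _ hω0.le
      linarith
    linarith
  have hyn : y ≤ n0 := by
    have : (y : ℝ) ≤ n0 := by
      by_contra hcon
      push Not at hcon
      have h3 : ϖ * n0 < ϖ * y := mul_lt_mul_of_pos_left hcon hϖ0
      linarith
    exact_mod_cast this
  refine ⟨n0 - y, y, by omega, ?_⟩
  intro r σA σB hrK hσA hσB hσ k' _ 𝓜 𝓝 a b ha hb T u hu g hg1 hgX h𝓜 h𝓝 hcM hcN hHl hHu
  have hs1r : (1 : ℝ) ≤ s := by exact_mod_cast hs1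
  have ht1r : (1 : ℝ) ≤ t := by exact_mod_cast ht1
  have hsSr : (s : ℝ) ≤ S := by exact_mod_cast hsS
  have htSr : (t : ℝ) ≤ S := by exact_mod_cast htS
  have hg0 : (0 : ℝ) < g := by exact_mod_cast hg1
  have hg1r : (1 : ℝ) ≤ g := by exact_mod_cast hg1
  set bA : ℝ := ϖ * σA with hbA
  set aB : ℝ := ϖ * σB with haB
  have hbA1 : bA ≤ β := by
    have : (σA : ℝ) ≤ y := by exact_mod_cast hσA
    have : ϖ * (σA : ℝ) ≤ ϖ * y := mul_le_mul_of_nonneg_left this hϖ0.le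
    linarith
  have haB1 : aB ≤ α + ω := by
    have h3 : (σB : ℝ) ≤ n0 - y := by
      have : σB + y ≤ n0 := by omega
      have : (σB : ℝ) + y ≤ n0 := by exact_mod_cast this
      linarith
    have : ϖ * (σB : ℝ) ≤ ϖ * (n0 - y) := mul_le_mul_of_nonneg_left h3 hϖ0.le
    rw [mul_sub] at this
    linarith
  have hab : 3 / 4 - 10 * ω ≤ bA + aB := by
    have : ϖ * ((σA : ℝ) + σB) = bA + aB := by rw [hbA, haB]; ring
    linarith
  have hbA2 : β - 11 * ω ≤ bA := by linarith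
  have haB2 : α - 10 * ω ≤ aB := by linarith
  have hrϖ : r * ϖ ≤ ω := by
    have : (r : ℝ) ≤ K := by exact_mod_cast hrK
    exact (mul_le_mul_of_nonneg_right this hϖ0.le).trans hKϖ
  have hb1 : ϖ * ((σA : ℝ) - r) = bA - r * ϖ := by rw [hbA]; ring
  have ha1 : ϖ * ((σB : ℝ) - r) = aB - r * ϖ := by rw [haB]; ring
  have hrϖ0 : 0 ≤ r * ϖ := by positivity
  rw [hb1, ha1] at hHl hHu
  rw [hb1] at h𝓝
  rw [ha1] at h𝓜
  set M : ℝ := (X : ℝ) ^ aB / g with hM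
  set N : ℝ := (X : ℝ) ^ bA / g with hN
  set M1 : ℝ := (X : ℝ) ^ (aB - r * ϖ) / g with hM1
  set N1 : ℝ := (X : ℝ) ^ (bA - r * ϖ) / g with hN1
  have hpos : ∀ z : ℝ, 0 < (X : ℝ) ^ z := fun z => Real.rpow_pos_of_pos hX0 z
  have hmono : ∀ z w : ℝ, z ≤ w → (X : ℝ) ^ z ≤ (X : ℝ) ^ w := fun z w h => Real.rpow_le_rpow_of_exponent_le hX1' h
  have hM10 : 0 < M1 := div_pos (hpos _) hg0
  have hN10 : 0 < N1 := div_pos (hpos _) hg0
  have hM0 : 0 < M := div_pos (hpos _) hg0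
  have hN0 : 0 < N := div_pos (hpos _) hg0
  have hβS : 21 * ω ≤ β := by
    have h3 : κ ≤ S * β := hsκ.trans (mul_le_mul_of_nonneg_right hsSr hβ0.le)
    have h4 : 4200 * S * ω ≤ S * β := hωS1.trans h3
    have h5 : S * (4200 * ω) ≤ S * β := by
      have : (S : ℝ) * (4200 * ω) = 4200 * S * ω := by ring
      linarith
    have h6 := le_of_mul_le_mul_left h5 hS0
    linarith
  have hMge : 1 ≤ M := by
    rw [hM, le_div_iff₀ hg0, one_mul]
    exact hgX.trans (hmono _ _ (by linarith))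
  have hNge : 1 ≤ N := by
    rw [hN, le_div_iff₀ hg0, one_mul]
    exact hgX.trans (hmono _ _ (by linarith))
  obtain ⟨s', rfl⟩ : ∃ s', s = s' + 1 := ⟨s - 1, by omega⟩
  obtain ⟨t', rfl⟩ : ∃ t', t = t' + 1 := ⟨t - 1, by omega⟩
  set s : ℕ := s' + 1 with hs
  set t : ℕ := t' + 1 with ht
  set H : ℝ := k' * (1 + |T| / (M1 * N1)) with hH
  have hgpow : ∀ n : ℕ, 1 ≤ n → (g : ℝ) ≤ (g : ℝ) ^ n := by
    intro n hn
    calc (g : ℝ) = (g : ℝ) ^ 1 := (pow_one _).symm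
      _ ≤ (g : ℝ) ^ n := pow_le_pow_right₀ hg1r hn
  have hpown : ∀ (z : ℝ) (n : ℕ), ((X : ℝ) ^ z) ^ n = (X : ℝ) ^ (n * z) := by
    intro z n
    rw [← Real.rpow_natCast, ← Real.rpow_mul hX0.le, mul_comm]
  have hcond1 : 2 * (s : ℝ) * N ^ (2 * s) < H * N1 := by
    have h3 : N ^ (2 * s) ≤ (X : ℝ) ^ (2 * s * bA) / g := by
      rw [hN, div_pow, hpown]
      push_cast
      apply div_le_div_of_nonneg_left (hpos _).le hg0
      exact hgpow _ (by omega)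
    have h4 : (X : ℝ) ^ (γ - 30 * ω) * N1 ≤ H * N1 := mul_le_mul_of_nonneg_right hHl hN10.le
    have h5 : 2 * (s : ℝ) < (X : ℝ) ^ (κ / 2) := by linarith
    calc 2 * (s : ℝ) * N ^ (2 * s) ≤ 2 * (s : ℝ) * ((X : ℝ) ^ (2 * s * bA) / g) := mul_le_mul_of_nonneg_left h3 (by positivity)
      _ < (X : ℝ) ^ (κ / 2) * ((X : ℝ) ^ (2 * s * bA) / g) := mul_lt_mul_of_pos_right h5 (div_pos (hpos _) hg0)
      _ = (X : ℝ) ^ (κ / 2 + 2 * s * bA) / g := by rw [Real.rpow_add hX0]; ring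
      _ ≤ (X : ℝ) ^ (γ - 30 * ω + (bA - r * ϖ)) / g := by
          apply div_le_div_of_nonneg_right _ hg0.le
          apply hmono
          have h6 : (2 * (s : ℝ) - 1) * bA ≤ γ - κ := by
            refine le_trans ?_ hsβ
            apply mul_le_mul_of_nonneg_left hbA1
            linarith
          have h7 : (2 * (s : ℝ) - 1) * bA = 2 * s * bA - bA := by ring
          have h8 : 31 * ω ≤ κ / 2 := by
            have h9 : 4200 * 21 * ω ≤ 4200 * S * ω := by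
              apply mul_le_mul_of_nonneg_right _ hω0.le
              linarith
            linarith
          linarith
      _ = (X : ℝ) ^ (γ - 30 * ω) * N1 := by rw [hN1, Real.rpow_add hX0]; ring
      _ ≤ _ := h4
  have hcond2 : t = 1 ∨ 8 * (t : ℝ) * M ^ (2 * t) < H * M1 := by
    rcases htα with htα | htα
    · exact Or.inl htα
    right
    have h3 : M ^ (2 * t) ≤ (X : ℝ) ^ (2 * t * aB) / g := by
      rw [hM, div_pow, hpown]
      push_cast
      apply div_le_div_of_nonneg_left (hpos _).le hg0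
      exact hgpow _ (by omega)
    have h4 : (X : ℝ) ^ (γ - 30 * ω) * M1 ≤ H * M1 := mul_le_mul_of_nonneg_right hHl hM10.le
    have h5 : 8 * (t : ℝ) < (X : ℝ) ^ (κ / 2) := by linarith
    calc 8 * (t : ℝ) * M ^ (2 * t) ≤ 8 * (t : ℝ) * ((X : ℝ) ^ (2 * t * aB) / g) := mul_le_mul_of_nonneg_left h3 (by positivity)
      _ < (X : ℝ) ^ (κ / 2) * ((X : ℝ) ^ (2 * t * aB) / g) := mul_lt_mul_of_pos_right h5 (div_pos (hpos _) hg0)
      _ = (X : ℝ) ^ (κ / 2 + 2 * t * aB) / g := by rw [Real.rpow_add hX0]; ring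
      _ ≤ (X : ℝ) ^ (γ - 30 * ω + (aB - r * ϖ)) / g := by
          apply div_le_div_of_nonneg_right _ hg0.le
          apply hmono
          have h6 : (2 * (t : ℝ) - 1) * aB ≤ γ - κ + 2 * S * ω := by
            have h7 : (2 * (t : ℝ) - 1) * aB ≤ (2 * t - 1) * (α + ω) := by
              apply mul_le_mul_of_nonneg_left haB1
              linarith
            have h8 : (2 * (t : ℝ) - 1) * ω ≤ 2 * S * ω := by
              apply mul_le_mul_of_nonneg_right _ hω0.le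
              linarith
            have h9 : (2 * (t : ℝ) - 1) * (α + ω) = (2 * t - 1) * α + (2 * t - 1) * ω := by ring
            linarith
          have h7 : (2 * (t : ℝ) - 1) * aB = 2 * t * aB - aB := by ring
          have h8 : (2 * S + 31) * ω ≤ κ / 2 := by
            have h9 : (2 * (S : ℝ) + 31) * ω ≤ 2100 * S * ω := by
              apply mul_le_mul_of_nonneg_right _ hω0.le
              linarith
            linarith
          linarith
      _ = (X : ℝ) ^ (γ - 30 * ω) * M1 := by rw [hM1, Real.rpow_add hX0]; ring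
      _ ≤ _ := h4
  have hbil := hC s' t' k' 𝓜 𝓝 a b ha hb T u hu M N M1 N1 hM10 hN10 hMge hNge h𝓜 h𝓝 hcM hcN H hH hcond1 hcond2
  rw [← hs, ← ht] at hbil
  -- the size of the bound
  have hMN1 : (M * N) ^ (κ / 8) ≤ (X : ℝ) ^ (κ / 8) := by
    apply Real.rpow_le_rpow (by positivity) _ hε'.le
    calc M * N ≤ (X : ℝ) ^ aB * (X : ℝ) ^ bA := by
          apply mul_le_mul _ _ hN0.le (hpos _).le
          · exact div_le_self (hpos _).le hg1r
          · exact div_le_self (hpos _).le hg1r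
      _ = (X : ℝ) ^ (aB + bA) := by rw [Real.rpow_add hX0]
      _ ≤ (X : ℝ) ^ (1 : ℝ) := by
          apply hmono
          linarith
      _ = X := Real.rpow_one _
  have hgp : ∀ n : ℕ, (g : ℝ) ^ n ≤ (X : ℝ) ^ (n * (10 * ω)) := by
    intro n
    rw [← hpown]
    exact pow_le_pow_left₀ hg0.le hgX n
  have hT1 : H / (M ^ t * N ^ s) ≤ (X : ℝ) ^ (-(κ / 2)) := by
    rw [div_le_iff₀ (by positivity)]
    have h3 : M ^ t * N ^ s = (X : ℝ) ^ (t * aB + s * bA) / (g : ℝ) ^ (t + s) := by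
      rw [hM, hN, div_pow, div_pow, hpown, hpown, Real.rpow_add hX0, pow_add (g : ℝ) t s, div_mul_div_comm]
    rw [h3]
    have h4 : (X : ℝ) ^ (t * aB + s * bA - (t + s) * (10 * ω)) ≤ (X : ℝ) ^ (t * aB + s * bA) / (g : ℝ) ^ (t + s) := by
      rw [le_div_iff₀ (by positivity)]
      calc _ ≤ (X : ℝ) ^ (t * aB + s * bA - (t + s) * (10 * ω)) * (X : ℝ) ^ (((t + s : ℕ) : ℝ) * (10 * ω)) :=
            mul_le_mul_of_nonneg_left (hgp _) (hpos _).le
        _ = (X : ℝ) ^ (t * aB + s * bA) := by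
            rw [← Real.rpow_add hX0]
            congr 1
            push_cast
            ring
    calc H ≤ (X : ℝ) ^ (γ + 30 * ω) := hHu
      _ ≤ (X : ℝ) ^ (-(κ / 2) + (t * aB + s * bA - (t + s) * (10 * ω))) := by
          apply hmono
          have h5 : (t : ℝ) * (α - 10 * ω) ≤ t * aB := mul_le_mul_of_nonneg_left haB2 (by linarith)
          have h6 : (s : ℝ) * (β - 11 * ω) ≤ s * bA := mul_le_mul_of_nonneg_left hbA2 (by linarith)
          have h7 : (t : ℝ) * ω ≤ S * ω := mul_le_mul_of_nonneg_right htSr hω0.le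
          have h8 : (s : ℝ) * ω ≤ S * ω := mul_le_mul_of_nonneg_right hsSr hω0.le
          have h9 : 1 * ω ≤ S * ω := by
            apply mul_le_mul_of_nonneg_right _ hω0.le
            linarith
          linarith
      _ = (X : ℝ) ^ (-(κ / 2)) * (X : ℝ) ^ (t * aB + s * bA - (t + s) * (10 * ω)) := by rw [← Real.rpow_add hX0]
      _ ≤ _ := mul_le_mul_of_nonneg_left h4 (hpos _).le
  have hT2 : M / (M1 * N ^ s) ≤ (X : ℝ) ^ (-(κ / 2)) := by
    rw [div_le_iff₀ (by positivity)]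
    have h3 : M1 * N ^ s = (X : ℝ) ^ (aB - r * ϖ + s * bA) / (g : ℝ) ^ (s + 1) := by
      rw [hM1, hN, div_pow, hpown, Real.rpow_add hX0, pow_succ (g : ℝ) s, div_mul_div_comm, mul_comm (g : ℝ) ((g : ℝ) ^ s)]
    have h4 : M = (X : ℝ) ^ aB / g := rfl
    rw [h3, h4, ← mul_div_assoc, div_le_div_iff₀ hg0 (by positivity)]
    have h5 : (g : ℝ) ^ (s + 1) = (g : ℝ) ^ s * g := pow_succ _ _
    rw [h5, ← mul_assoc]
    apply mul_le_mul_of_nonneg_right _ hg0.le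
    calc (X : ℝ) ^ aB * (g : ℝ) ^ s ≤ (X : ℝ) ^ aB * (X : ℝ) ^ (s * (10 * ω)) := mul_le_mul_of_nonneg_left (hgp _) (hpos _).le
      _ = (X : ℝ) ^ (aB + s * (10 * ω)) := by rw [← Real.rpow_add hX0]
      _ ≤ (X : ℝ) ^ (-(κ / 2) + (aB - r * ϖ + s * bA)) := by
          apply hmono
          have h6 : (s : ℝ) * (β - 11 * ω) ≤ s * bA := mul_le_mul_of_nonneg_left hbA2 (by linarith)
          have h8 : (s : ℝ) * ω ≤ S * ω := mul_le_mul_of_nonneg_right hsSr hω0.le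
          have h9 : 1 * ω ≤ S * ω := by
            apply mul_le_mul_of_nonneg_right _ hω0.le
            linarith
          linarith
      _ = _ := by rw [← Real.rpow_add hX0]
  have hst : 2 * (s * t) ≠ 0 := by
    simp only [hs, ht]
    positivity
  have hfin : ‖∑ m ∈ 𝓜, ∑ n ∈ 𝓝, a m * b n * Ps k' T u (1 / (n : ℝ)) (1 / (m : ℝ)) (n : ZMod k')⁻¹ (m : ZMod k')⁻¹‖ ^ (2 * (s * t)) ≤
      (M * N * (X : ℝ) ^ (-(10 * ω))) ^ (2 * (s * t)) := by
    refine hbil.trans ?_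
    have h3 : C s' t' * (M * N) ^ (κ / 8) * (H / (M ^ t * N ^ s) + M / (M1 * N ^ s)) ≤ (X : ℝ) ^ (-(κ / 4)) := by
      calc C s' t' * (M * N) ^ (κ / 8) * (H / (M ^ t * N ^ s) + M / (M1 * N ^ s)) ≤
            CC * (X : ℝ) ^ (κ / 8) * ((X : ℝ) ^ (-(κ / 2)) + (X : ℝ) ^ (-(κ / 2))) := by
            apply mul_le_mul _ (add_le_add hT1 hT2) (by positivity) _
            · apply mul_le_mul (hCle s' (by omega) t' (by omega)) hMN1 (by positivity)
              exact sum_nonneg fun i _ => sum_nonneg fun j _ => (hC0 i j).le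
            · exact mul_nonneg (sum_nonneg fun i _ => sum_nonneg fun j _ => (hC0 i j).le) (hpos _).le
        _ = (2 * CC) * ((X : ℝ) ^ (κ / 8) * (X : ℝ) ^ (-(κ / 2))) := by ring
        _ ≤ (X : ℝ) ^ (κ / 8) * ((X : ℝ) ^ (κ / 8) * (X : ℝ) ^ (-(κ / 2))) :=
            mul_le_mul_of_nonneg_right hXC (mul_pos (hpos _) (hpos _)).le
        _ = (X : ℝ) ^ (-(κ / 4)) := by
            rw [← Real.rpow_add hX0, ← Real.rpow_add hX0]
            congr 1
            ring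
    have h4 : (X : ℝ) ^ (-(κ / 4)) ≤ ((X : ℝ) ^ (-(10 * ω))) ^ (2 * (s * t)) := by
      rw [hpown]
      apply hmono
      push_cast
      have h5 : (s : ℝ) * t ≤ S * S := mul_le_mul hsSr htSr (by linarith) hS0.le
      have h6 : (s : ℝ) * t * ω ≤ S * S * ω := mul_le_mul_of_nonneg_right h5 hω0.le
      have h7 : 200 * (S * S * ω) = κ := by rw [← hωS]; ring
      have h8 : (2 : ℝ) * (s * t) * (-(10 * ω)) = -(20 * (s * t * ω)) := by ring
      rw [h8]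
      linarith
    calc C s' t' * (M * N) ^ (κ / 8) * (M * N) ^ (2 * (s * t)) * (H / (M ^ t * N ^ s) + M / (M1 * N ^ s)) =
          (C s' t' * (M * N) ^ (κ / 8) * (H / (M ^ t * N ^ s) + M / (M1 * N ^ s))) * (M * N) ^ (2 * (s * t)) := by ring
      _ ≤ (X : ℝ) ^ (-(κ / 4)) * (M * N) ^ (2 * (s * t)) := mul_le_mul_of_nonneg_right h3 (by positivity)
      _ ≤ ((X : ℝ) ^ (-(10 * ω))) ^ (2 * (s * t)) * (M * N) ^ (2 * (s * t)) := mul_le_mul_of_nonneg_right h4 (by positivity)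
      _ = _ := by rw [← mul_pow]; ring
  exact (pow_le_pow_iff_left₀ (norm_nonneg _) (by positivity) hst).1 hfin

end Pool.Agent.Y844.BT
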