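import Mathlib
import Pool.Agent.Y844.BT.Par
import Pool.Agent.Y844.BT.Cls
import Pool.Agent.Y844.BT.Lsc

/-! The error term of the sieve for one small modulus. -/

set_option autoImplicit false

namespace Pool.Agent.Y844.BT

open Finset
open Pool.Agent.W23.DC

theorem TA_bounds (X : ℕ) (hX : 2 ≤ X) (ϖ : ℝ) (hϖ : 0 < ϖ) (P : Finset ℕ) (k : ℕ)
    (hP : ∀ p ∈ P, p.Prime ∧ Nat.Coprime p k) {r : ℕ} (cc : Fin r → ℕ) (A : Finset (Fin r)) (p : Fin r → ℕ)
    (hp : p ∈ TA P (cel X ϖ) cc A) :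
    1 ≤ ∏ i, p i ∧ Nat.Coprime (∏ i, p i) k ∧
      (X : ℝ) ^ (ϖ * ((∑ i ∈ A, (cc i + 1) : ℕ) - r)) ≤ ((∏ i, p i : ℕ) : ℝ) ∧
      ((∏ i, p i : ℕ) : ℝ) ≤ (X : ℝ) ^ (ϖ * (∑ i ∈ A, (cc i + 1) : ℕ)) := by
  rw [mem_TA] at hp
  obtain ⟨⟨h1, h2⟩, h3⟩ := hp
  have hX1 : (1 : ℝ) < X := by exact_mod_cast (by omega : 1 < X)
  have hX0 : (0 : ℝ) < X := by linarith
  rw [prod_TA A p h2]
  refine ⟨?_, ?_, ?_, ?_⟩
  · exact Nat.one_le_iff_ne_zero.2 (prod_pos fun i hi => (hP _ (h1 i hi).1).1.pos).ne'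
  · exact Nat.Coprime.prod_left fun i hi => (hP _ (h1 i hi).1).2
  · push_cast
    calc (X : ℝ) ^ (ϖ * ((∑ i ∈ A, ((cc i : ℝ) + 1)) - r)) ≤ (X : ℝ) ^ (∑ i ∈ A, ϖ * (cc i : ℝ)) := by
          apply Real.rpow_le_rpow_of_exponent_le hX1.le
          rw [← mul_sum]
          apply mul_le_mul_of_nonneg_left _ hϖ.le
          rw [sum_add_distrib]
          have h4 : (A.card : ℝ) ≤ r := by
            have := card_le_univ A
            rw [Fintype.card_fin] at this
            exact_mod_cast this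
          simp only [sum_const, nsmul_eq_mul, mul_one]
          linarith
      _ = ∏ i ∈ A, (X : ℝ) ^ (ϖ * (cc i : ℝ)) := by
          rw [Real.rpow_sum_of_pos hX0]
      _ ≤ ∏ i ∈ A, (p i : ℝ) := by
          apply prod_le_prod (fun i _ => (Real.rpow_pos_of_pos hX0 _).le)
          intro i hi
          have h4 := (cel_spec X hX ϖ hϖ (p i) (hP _ (h1 i hi).1).1.one_lt.le).1
          rw [(h1 i hi).2] at h4
          exact h4
  · push_cast
    calc ∏ i ∈ A, (p i : ℝ) ≤ ∏ i ∈ A, (X : ℝ) ^ (ϖ * ((cc i : ℝ) + 1)) := by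
          apply prod_le_prod (fun i _ => Nat.cast_nonneg _)
          intro i hi
          have h4 := (cel_spec X hX ϖ hϖ (p i) (hP _ (h1 i hi).1).1.one_lt.le).2.1
          rw [(h1 i hi).2] at h4
          exact h4.le
      _ = (X : ℝ) ^ (∑ i ∈ A, ϖ * ((cc i : ℝ) + 1)) := by
          rw [Real.rpow_sum_of_pos hX0]
      _ = _ := by rw [← mul_sum]

theorem err (κ Γ : ℝ) (hκ : 0 < κ) (hκ1 : κ ≤ 1 / 100) (S : ℕ) (hS : 10 * Γ + 21 ≤ S) (hS21 : 21 ≤ S) (ω : ℝ)
    (hω : ω = κ / (200 * S ^ 2)) (n0 K : ℕ) (ϖ : ℝ) (hϖ : ϖ * (n0 + 1 / 2) = 3 / 4) (hϖ0 : 0 < ϖ)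
    (hϖω : ϖ ≤ ω) (hKϖ : K * ϖ ≤ ω) :
    ∃ (C : ℝ) (X₀ : ℕ), 0 < C ∧ ∀ X : ℕ, X₀ ≤ X → ∀ γ : ℝ, 4 * κ ≤ γ → γ ≤ Γ →
      ∀ (k : ℕ) [NeZero k] (l c : ℤ) (L Δ : ℕ), 1 ≤ Δ → IsCoprime l (k : ℤ) → (k : ℝ) ≤ (X : ℝ) ^ γ →
      ∀ z : ℝ, (X : ℝ) ^ (3 / 4 - ω) ≤ z → z ≤ 2 * (X : ℝ) ^ (3 / 4 : ℝ) →
      (∀ t : ℤ, (t = c ∨ t = c + Δ ∨ t = c + (Δ + L : ℕ) ∨ t = c + (2 * Δ + L : ℕ)) →
        |(k : ℝ) * t + l| ≤ 3 * (z * (X : ℝ) ^ γ) ∧ (z * (X : ℝ) ^ γ / 8 ≤ |(k : ℝ) * t + l| ∨ (X : ℝ) ^ γ ≤ 16 * k)) →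
      ∀ P : Finset ℕ, (∀ p ∈ P, p.Prime ∧ Nat.Coprime p k ∧ p ≤ X) → ∀ e₀ : ℕ, 1 ≤ e₀ → (e₀ : ℝ) ≤ (X : ℝ) ^ (2 * ω) →
      Nat.Coprime e₀ k →
      |∑ s ∈ P.powerset, Cc n0 K true 0 (srt (cel X ϖ) s) * RR k l c L Δ (e₀ * ∏ q ∈ s, q)| ≤
        C * (X : ℝ) ^ (3 / 2 - 8 * ω) / Δ := by
  classical
  obtain ⟨X₁, hX₁⟩ := cbil κ Γ hκ hκ1 S hS hS21 ω hω
  have hS0 : (0 : ℝ) < S := by exact_mod_cast (by omega : 0 < S)
  have hω0 : 0 < ω := by rw [hω]; positivity
  set Nc : ℕ := ⌈1 / ϖ⌉₊ + 1 with hNc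
  set Ac : ℝ := ((K : ℝ) + 1) ^ K with hAc
  have hAc1 : 1 ≤ Ac := one_le_pow₀ (by
    have : (0 : ℝ) ≤ K := Nat.cast_nonneg _
    linarith)
  have hAc0 : 0 < Ac := by linarith
  set C0 : ℝ := 34 * Ac ^ 2 with hC0
  have hC00 : 1 ≤ C0 := by
    rw [hC0]
    nlinarith
  have hbig : ∃ X₀ : ℕ, ∀ X : ℕ, X₀ ≤ X → 16 ≤ (X : ℝ) ^ (8 * ω) ∧ 2 ≤ X := by
    have h1 := ((tendsto_rpow_atTop (by positivity : 0 < 8 * ω)).comp tendsto_natCast_atTop_atTop).eventually
      (Filter.eventually_ge_atTop (16 : ℝ))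
    obtain ⟨X₀, h3⟩ := Filter.eventually_atTop.1 (h1.and (Filter.eventually_ge_atTop 2))
    exact ⟨X₀, fun X hX => h3 X hX⟩
  obtain ⟨X₂, hX₂⟩ := hbig
  have hNc1 : (1 : ℝ) ≤ Nc := by
    rw [hNc]
    push_cast
    have : (0 : ℝ) ≤ (⌈1 / ϖ⌉₊ : ℝ) := Nat.cast_nonneg _
    linarith
  refine ⟨((K : ℝ) + 1) * (Nc : ℝ) ^ K * C0, max X₁ X₂, by positivity, ?_⟩
  intro X hX γ hγ1 hγ2 k _ l c L Δ hΔ hlk hkγ z hz1 hz2 hpts P hP e₀ he₀ he₀X hek
  obtain ⟨hX16, hX2⟩ := hX₂ X ((le_max_right _ _).trans hX)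
  obtain ⟨x, y, hxy, hbil⟩ := hX₁ X ((le_max_left _ _).trans hX) γ hγ1 hγ2 n0 K ϖ hϖ hϖ0 hϖω hKϖ
  have hX1 : (1 : ℝ) < X := by exact_mod_cast (by omega : 1 < X)
  have hX1' : (1 : ℝ) ≤ X := hX1.le
  have hX0 : (0 : ℝ) < X := by linarith
  have hpos : ∀ z : ℝ, 0 < (X : ℝ) ^ z := fun z => Real.rpow_pos_of_pos hX0 z
  have hmono : ∀ z w : ℝ, z ≤ w → (X : ℝ) ^ z ≤ (X : ℝ) ^ w := fun z w h => Real.rpow_le_rpow_of_exponent_le hX1' h
  have hΔ0 : (0 : ℝ) < Δ := by exact_mod_cast hΔ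
  have hk0 : (0 : ℝ) < k := by exact_mod_cast Nat.pos_of_ne_zero (NeZero.ne k)
  have he0 : (0 : ℝ) < e₀ := by exact_mod_cast he₀
  have hz0 : 0 < z := lt_of_lt_of_le (hpos _) hz1
  have hcell : ∀ p ∈ P, cel X ϖ p < Nc := by
    intro p hp
    obtain ⟨h1, h2, h3⟩ := hP p hp
    rw [hNc]
    apply Nat.lt_succ_of_le
    unfold cel
    refine (Nat.floor_le_floor ?_).trans (Nat.floor_le_ceil _)
    apply div_le_div_of_nonneg_right _ hϖ0.le
    unfold tt
    rw [div_le_one (Real.log_pos hX1)]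
    apply Real.log_le_log (by exact_mod_cast h1.pos)
    exact_mod_cast h3
  have hPpr : ∀ p ∈ P, p.Prime := fun p hp => (hP p hp).1
  have hPpk : ∀ p ∈ P, p.Prime ∧ Nat.Coprime p k := fun p hp => ⟨(hP p hp).1, (hP p hp).2.1⟩
  refine (cell_sum P (cel X ϖ) n0 K Nc hcell (fun d => RR k l c L Δ (e₀ * d))).trans ?_
  -- one class
  have hclass : ∀ r ∈ range (K + 1), ∀ cc ∈ (Fintype.piFinset (fun _ : Fin r => range Nc)).filter
      (fun cc => Cc n0 K true 0 (srt cc univ) ≠ 0), |∑ p ∈ Inj P (cel X ϖ) cc, RR k l c L Δ (e₀ * ∏ i, p i)| ≤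
      C0 * (X : ℝ) ^ (3 / 2 - 8 * ω) / Δ := by
    intro r hr cc hcc
    rw [mem_range] at hr
    rw [mem_filter] at hcc
    have hrK : r ≤ K := by omega
    have hrKr : (r : ℝ) ≤ K := by exact_mod_cast hrK
    set σ : ℕ := ∑ i, (cc i + 1) with hσ
    rcases lt_or_ge (ϖ * (σ : ℝ)) (3 / 4 - 10 * ω) with htriv | hmain
    · -- trivial
      have hcard : ((Inj P (cel X ϖ) cc).card : ℝ) ≤ (X : ℝ) ^ (3 / 4 - 10 * ω) := by
        have h1 : (Inj P (cel X ϖ) cc).card ≤ ∏ i, (P.filter (fun p => cel X ϖ p = cc i)).card := by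
          unfold Inj
          refine (card_le_card (filter_subset _ _)).trans ?_
          rw [Fintype.card_piFinset]
        have h2 : ∀ i, ((P.filter (fun p => cel X ϖ p = cc i)).card : ℝ) ≤ (X : ℝ) ^ (ϖ * ((cc i : ℝ) + 1)) := by
          intro i
          apply card_le_of _ _ (hpos _).le
          intro p hp
          rw [mem_filter] at hp
          have h3 := (hP p hp.1).1
          have h4 := (cel_spec X hX2 ϖ hϖ0 p h3.one_lt.le).2.1
          rw [hp.2] at h4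
          exact ⟨h3.one_lt.le, h4.le⟩
        calc ((Inj P (cel X ϖ) cc).card : ℝ) ≤ ((∏ i, (P.filter (fun p => cel X ϖ p = cc i)).card : ℕ) : ℝ) := by
              exact_mod_cast h1
          _ = ∏ i, ((P.filter (fun p => cel X ϖ p = cc i)).card : ℝ) := by push_cast; rfl
          _ ≤ ∏ i, (X : ℝ) ^ (ϖ * ((cc i : ℝ) + 1)) := prod_le_prod (fun i _ => Nat.cast_nonneg _) fun i _ => h2 i
          _ = (X : ℝ) ^ (∑ i, ϖ * ((cc i : ℝ) + 1)) := by rw [Real.rpow_sum_of_pos hX0]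
          _ = (X : ℝ) ^ (ϖ * (σ : ℝ)) := by
              rw [← mul_sum, hσ]
              push_cast
              rfl
          _ ≤ _ := hmono _ _ htriv.le
      have hterm : ∀ p ∈ Inj P (cel X ϖ) cc, |RR k l c L Δ (e₀ * ∏ i, p i)| ≤ (X : ℝ) ^ (3 / 4 - 8 * ω) / Δ := by
        intro p hp
        have hpT : p ∈ TA P (cel X ϖ) cc univ := by
          unfold Inj at hp
          rw [mem_filter, Fintype.mem_piFinset] at hp
          rw [mem_TA]
          refine ⟨⟨fun i _ => mem_filter.1 (hp.1 i), fun i hi => absurd (mem_univ i) hi⟩, fun i _ j _ hij => hp.2 hij⟩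
        obtain ⟨h1, h2, h3, h4⟩ := TA_bounds X hX2 ϖ hϖ0 P k hPpk cc univ p hpT
        refine (RR_triv k l c L Δ _ hΔ (Nat.mul_pos he₀ h1) (Nat.Coprime.mul_left hek h2)).trans ?_
        apply div_le_div_of_nonneg_right _ hΔ0.le
        rw [Nat.cast_mul]
        calc (e₀ : ℝ) * ((∏ i, p i : ℕ) : ℝ) ≤ (X : ℝ) ^ (2 * ω) * (X : ℝ) ^ (3 / 4 - 10 * ω) := by
              apply mul_le_mul he₀X _ (Nat.cast_nonneg _) (hpos _).le
              exact h4.trans (hmono _ _ htriv.le)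
          _ = (X : ℝ) ^ (3 / 4 - 8 * ω) := by
              rw [← Real.rpow_add hX0]
              congr 1
              ring
      calc |∑ p ∈ Inj P (cel X ϖ) cc, RR k l c L Δ (e₀ * ∏ i, p i)| ≤
            ∑ p ∈ Inj P (cel X ϖ) cc, (X : ℝ) ^ (3 / 4 - 8 * ω) / Δ :=
            (abs_sum_le_sum_abs _ _).trans (sum_le_sum hterm)
        _ = ((Inj P (cel X ϖ) cc).card : ℝ) * ((X : ℝ) ^ (3 / 4 - 8 * ω) / Δ) := by rw [sum_const, nsmul_eq_mul]
        _ ≤ (X : ℝ) ^ (3 / 4 - 10 * ω) * ((X : ℝ) ^ (3 / 4 - 8 * ω) / Δ) :=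
            mul_le_mul_of_nonneg_right hcard (div_nonneg (hpos _).le hΔ0.le)
        _ = (X : ℝ) ^ (3 / 2 - 18 * ω) / Δ := by
            rw [← mul_div_assoc, ← Real.rpow_add hX0]
            congr 2
            ring
        _ ≤ C0 * (X : ℝ) ^ (3 / 2 - 8 * ω) / Δ := by
            apply div_le_div_of_nonneg_right _ hΔ0.le
            calc (X : ℝ) ^ (3 / 2 - 18 * ω) ≤ (X : ℝ) ^ (3 / 2 - 8 * ω) := hmono _ _ (by linarith)
              _ = 1 * (X : ℝ) ^ (3 / 2 - 8 * ω) := (one_mul _).symm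
              _ ≤ _ := mul_le_mul_of_nonneg_right hC00 (hpos _).le
    · -- the main classes
      obtain ⟨A, -, hA1, hA2⟩ := Cc_wf cc n0 K true 0 univ hcc.2 (Nat.zero_le _) (fun h => by cases h) y x (by omega)
      have hAcc : univ \ A = Aᶜ := (compl_eq_univ_sdiff A).symm
      rw [hAcc] at hA2
      set σA : ℕ := ∑ i ∈ A, (cc i + 1) with hσA
      set σB : ℕ := ∑ i ∈ Aᶜ, (cc i + 1) with hσB
      have hσs : σA + σB = σ := sum_add_sum_compl A _
      have hσr : ϖ * ((σA : ℝ) + σB) = ϖ * σ := by rw [← hσs]; push_cast; ring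
      have hσle : ϖ * (σ : ℝ) ≤ 3 / 4 := by
        have h1 : (σ : ℝ) ≤ n0 := by
          have : σ ≤ n0 := by omega
          exact_mod_cast this
        have h2 : ϖ * (σ : ℝ) ≤ ϖ * (n0 + 1 / 2) := mul_le_mul_of_nonneg_left (by linarith) hϖ0.le
        linarith
      rw [Inj_mn P hPpr (cel X ϖ) cc A (fun d => RR k l c L Δ (e₀ * d))]
      set 𝓜 : Finset ℕ := (TA P (cel X ϖ) cc Aᶜ).image (fun p => ∏ i, p i) with h𝓜
      set 𝓝 : Finset ℕ := (TA P (cel X ϖ) cc A).image (fun p => ∏ i, p i) with h𝓝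
      have h𝓜b : ∀ m ∈ 𝓜, 1 ≤ m ∧ Nat.Coprime m k ∧ (X : ℝ) ^ (ϖ * ((σB : ℝ) - r)) ≤ m ∧ (m : ℝ) ≤ (X : ℝ) ^ (ϖ * (σB : ℝ)) := by
        intro m hm
        rw [h𝓜, mem_image] at hm
        obtain ⟨p, hp, rfl⟩ := hm
        exact TA_bounds X hX2 ϖ hϖ0 P k hPpk cc Aᶜ p hp
      have h𝓝b : ∀ m ∈ 𝓝, 1 ≤ m ∧ Nat.Coprime m k ∧ (X : ℝ) ^ (ϖ * ((σA : ℝ) - r)) ≤ m ∧ (m : ℝ) ≤ (X : ℝ) ^ (ϖ * (σA : ℝ)) := by
        intro m hm
        rw [h𝓝, mem_image] at hm
        obtain ⟨p, hp, rfl⟩ := hm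
        exact TA_bounds X hX2 ϖ hϖ0 P k hPpk cc A p hp
      set Gm : ℕ := ⌊(X : ℝ) ^ (10 * ω)⌋₊ with hGm
      have hX10 : 1 ≤ (X : ℝ) ^ (10 * ω) := Real.one_le_rpow hX1' (by positivity)
      have hGm1 : 1 ≤ Gm := Nat.le_floor (by simpa using hX10)
      have hGm2 : (X : ℝ) ^ (10 * ω) / 2 ≤ Gm := by
        have h1 : (X : ℝ) ^ (10 * ω) < Gm + 1 := Nat.lt_floor_add_one _
        have h2 : (1 : ℝ) ≤ Gm := by exact_mod_cast hGm1
        linarith
      have hGm3 : (Gm : ℝ) ≤ (X : ℝ) ^ (10 * ω) := Nat.floor_le (hpos _).le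
      have hGm0 : (0 : ℝ) < Gm := by exact_mod_cast hGm1
      have hmu : ∀ (B : Finset (Fin r)) (n : ℕ), |mu P (cel X ϖ) cc B n| ≤ Ac := by
        intro B n
        refine (mu_bd P hPpr (cel X ϖ) cc B n).trans ?_
        rw [hAc]
        have h0 : (0 : ℝ) ≤ r := Nat.cast_nonneg _
        calc ((r : ℝ) + 1) ^ r ≤ ((K : ℝ) + 1) ^ r := pow_le_pow_left₀ (by linarith) (by linarith) r
          _ ≤ ((K : ℝ) + 1) ^ K := pow_le_pow_right₀ (by linarith) hrK
      have hcls := cls k l c L Δ hΔ 𝓜 𝓝 (mu P (cel X ϖ) cc Aᶜ) (mu P (cel X ϖ) cc A) Ac hAc0 (hmu _) (hmu _) e₀ he₀ hek hlk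
        ((X : ℝ) ^ (ϖ * (σB : ℝ))) ((X : ℝ) ^ (ϖ * (σA : ℝ))) ((X : ℝ) ^ (-(10 * ω)))
        (Real.one_le_rpow hX1' (by positivity)) (Real.one_le_rpow hX1' (by positivity)) (hpos _).le
        (fun m hm => ⟨⟨(h𝓜b m hm).1, (h𝓜b m hm).2.2.2⟩, (h𝓜b m hm).2.1⟩)
        (fun m hm => ⟨⟨(h𝓝b m hm).1, (h𝓝b m hm).2.2.2⟩, (h𝓝b m hm).2.1⟩) Gm Gm hGm1 hGm1 (by
          intro g hg h hh t ht a b ha hb k' _ hk'k hkk' u hu
          rw [mem_Icc] at hg hh
          have hg0 : (0 : ℝ) < g := by exact_mod_cast hg.1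
          have hh0 : (0 : ℝ) < h := by exact_mod_cast hh.1
          have hgX : (g : ℝ) ≤ (X : ℝ) ^ (10 * ω) := le_trans (by exact_mod_cast hg.2) hGm3
          have hhX : (h : ℝ) ≤ (X : ℝ) ^ (10 * ω) := le_trans (by exact_mod_cast hh.2) hGm3
          have hk'0 : (0 : ℝ) < k' := by exact_mod_cast Nat.pos_of_ne_zero (NeZero.ne k')
          have hk'le : (k' : ℝ) ≤ k := by
            exact_mod_cast Nat.le_of_dvd (Nat.pos_of_ne_zero (NeZero.ne k)) hk'k
          have hkk'r : (k : ℝ) ≤ k' * h := by exact_mod_cast hkk'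
          obtain ⟨ht1, ht2⟩ := hpts t ht
          set Q : ℝ := |(k : ℝ) * t + l| with hQ
          have hQ0 : 0 ≤ Q := abs_nonneg _
          set E : ℝ := (X : ℝ) ^ (ϖ * ((σB : ℝ) - r)) * (X : ℝ) ^ (ϖ * ((σA : ℝ) - r)) with hE
          have hEe : E = (X : ℝ) ^ (ϖ * σ - 2 * (r * ϖ)) := by
            rw [hE, ← Real.rpow_add hX0]
            congr 1
            rw [← hσr]
            ring
          have hE0 : 0 < E := by rw [hEe]; exact hpos _
          have hrϖ : r * ϖ ≤ ω := (mul_le_mul_of_nonneg_right hrKr hϖ0.le).trans hKϖ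
          have hrϖ0 : 0 ≤ r * ϖ := by positivity
          have hEl : (X : ℝ) ^ (3 / 4 - 12 * ω) ≤ E := by
            rw [hEe]
            exact hmono _ _ (by linarith)
          have hEu : E ≤ (X : ℝ) ^ (3 / 4 : ℝ) := by
            rw [hEe]
            exact hmono _ _ (by linarith)
          have hTe : |(h * (k * t + l) / k : ℝ) / (e₀ * g ^ 2)| /
              ((X : ℝ) ^ (ϖ * ((σB : ℝ) - r)) / g * ((X : ℝ) ^ (ϖ * ((σA : ℝ) - r)) / g)) = h * Q / (k * e₀ * E) := by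
            rw [abs_div, abs_div, abs_mul, abs_of_pos hh0, abs_of_pos hk0, abs_of_pos (by positivity : (0 : ℝ) < e₀ * g ^ 2),
              div_mul_div_comm, ← hE]
            field_simp
            exact hQ.symm
          have h3 : 1 ≤ k' * h / (k : ℝ) := by
            rw [le_div_iff₀ hk0]
            linarith
          have h4 : (k' : ℝ) * h / k ≤ h := by
            rw [div_le_iff₀ hk0]
            nlinarith
          have he1 : (1 : ℝ) ≤ e₀ := by exact_mod_cast he₀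
          have h5 : (k' : ℝ) * (1 + h * Q / (k * e₀ * E)) = k' + (k' * h / k) * (Q / (e₀ * E)) := by
            field_simp
          refine hbil r σA σB hrK hA1 hA2 (by rw [hσr]; linarith) k' (dg 𝓜 g) (dg 𝓝 g) a b ha hb _ u hu g hg.1 hgX ?_ ?_ ?_ ?_ ?_ ?_
          · intro m hm
            rw [mem_dg _ _ _ hg.1] at hm
            obtain ⟨g1, g2, g3, g4⟩ := h𝓜b _ hm
            refine ⟨?_, ?_, ?_⟩
            · rcases Nat.eq_zero_or_pos m with h0 | h0
              · rw [h0, mul_zero] at g1; omega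
              · exact h0
            · rw [div_le_iff₀ hg0]
              push_cast at g3
              linarith
            · rw [le_div_iff₀ hg0]
              push_cast at g4
              linarith
          · intro m hm
            rw [mem_dg _ _ _ hg.1] at hm
            obtain ⟨g1, g2, g3, g4⟩ := h𝓝b _ hm
            refine ⟨?_, ?_, ?_⟩
            · rcases Nat.eq_zero_or_pos m with h0 | h0
              · rw [h0, mul_zero] at g1; omega
              · exact h0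
            · rw [div_le_iff₀ hg0]
              push_cast at g3
              linarith
            · rw [le_div_iff₀ hg0]
              push_cast at g4
              linarith
          · intro m hm
            rw [mem_dg _ _ _ hg.1] at hm
            exact Nat.Coprime.coprime_dvd_right hk'k (Nat.Coprime.coprime_mul_left (h𝓜b _ hm).2.1)
          · intro m hm
            rw [mem_dg _ _ _ hg.1] at hm
            exact Nat.Coprime.coprime_dvd_right hk'k (Nat.Coprime.coprime_mul_left (h𝓝b _ hm).2.1)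
          · rw [hTe, h5]
            rcases ht2 with ht2 | ht2
            · have h6 : (X : ℝ) ^ (γ - 30 * ω) ≤ Q / (e₀ * E) := by
                rw [le_div_iff₀ (by positivity)]
                calc (X : ℝ) ^ (γ - 30 * ω) * (e₀ * E) ≤ (X : ℝ) ^ (γ - 30 * ω) * ((X : ℝ) ^ (2 * ω) * (X : ℝ) ^ (3 / 4 : ℝ)) := by
                      apply mul_le_mul_of_nonneg_left _ (hpos _).le
                      exact mul_le_mul he₀X hEu hE0.le (hpos _).le
                  _ = (X : ℝ) ^ (3 / 4 - ω + γ - 27 * ω) := by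
                      rw [← Real.rpow_add hX0, ← Real.rpow_add hX0]
                      congr 1
                      ring
                  _ ≤ (X : ℝ) ^ (3 / 4 - ω + γ - 8 * ω) := hmono _ _ (by linarith)
                  _ = (X : ℝ) ^ (3 / 4 - ω) * (X : ℝ) ^ γ / (X : ℝ) ^ (8 * ω) := by
                      rw [Real.rpow_sub hX0 (3 / 4 - ω + γ), Real.rpow_add hX0]
                  _ ≤ z * (X : ℝ) ^ γ / 16 := by
                      apply div_le_div₀ (by positivity) _ (by norm_num) hX16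
                      exact mul_le_mul_of_nonneg_right hz1 (hpos _).le
                  _ ≤ z * (X : ℝ) ^ γ / 8 := by
                      have : 0 ≤ z * (X : ℝ) ^ γ := by positivity
                      linarith
                  _ ≤ Q := ht2
              have h7 : 0 ≤ Q / (e₀ * E) := by positivity
              have h8 : 1 * (Q / (e₀ * E)) ≤ (k' * h / k) * (Q / (e₀ * E)) := mul_le_mul_of_nonneg_right h3 h7
              linarith
            · have h7 : 0 ≤ (k' * h / k : ℝ) * (Q / (e₀ * E)) := by positivity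
              have h6 : (X : ℝ) ^ (γ - 30 * ω) ≤ k' := by
                have h8 : (X : ℝ) ^ γ ≤ 16 * (k' * (X : ℝ) ^ (10 * ω)) := by
                  calc (X : ℝ) ^ γ ≤ 16 * k := ht2
                    _ ≤ 16 * (k' * h) := by linarith
                    _ ≤ 16 * (k' * (X : ℝ) ^ (10 * ω)) := by
                        apply mul_le_mul_of_nonneg_left _ (by norm_num)
                        exact mul_le_mul_of_nonneg_left hhX hk'0.le
                have h9 : (X : ℝ) ^ γ ≤ (X : ℝ) ^ (8 * ω) * (k' * (X : ℝ) ^ (10 * ω)) :=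
                  h8.trans (mul_le_mul_of_nonneg_right hX16 (by positivity))
                have h10 : (X : ℝ) ^ (γ - 18 * ω) ≤ k' := by
                  have h11 : (X : ℝ) ^ γ = (X : ℝ) ^ (γ - 18 * ω) * (X : ℝ) ^ (18 * ω) := by
                    rw [← Real.rpow_add hX0]
                    congr 1
                    ring
                  have h12 : (X : ℝ) ^ (8 * ω) * (k' * (X : ℝ) ^ (10 * ω)) = k' * (X : ℝ) ^ (18 * ω) := by
                    have : (X : ℝ) ^ (18 * ω) = (X : ℝ) ^ (8 * ω) * (X : ℝ) ^ (10 * ω) := by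
                      rw [← Real.rpow_add hX0]
                      congr 1
                      ring
                    rw [this]
                    ring
                  rw [h11, h12] at h9
                  exact le_of_mul_le_mul_right h9 (hpos _)
                exact (hmono _ _ (by linarith)).trans h10
              linarith
          · rw [hTe, h5]
            have h6 : Q / (e₀ * E) ≤ 6 * (X : ℝ) ^ (γ + 12 * ω) := by
              rw [div_le_iff₀ (by positivity)]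
              calc Q ≤ 3 * (z * (X : ℝ) ^ γ) := ht1
                _ ≤ 3 * ((2 * (X : ℝ) ^ (3 / 4 : ℝ)) * (X : ℝ) ^ γ) := by
                    apply mul_le_mul_of_nonneg_left _ (by norm_num)
                    exact mul_le_mul_of_nonneg_right hz2 (hpos _).le
                _ = 6 * (X : ℝ) ^ (γ + 12 * ω) * (X : ℝ) ^ (3 / 4 - 12 * ω) := by
                    have : (X : ℝ) ^ (3 / 4 : ℝ) * (X : ℝ) ^ γ = (X : ℝ) ^ (γ + 12 * ω) * (X : ℝ) ^ (3 / 4 - 12 * ω) := by
                      rw [← Real.rpow_add hX0, ← Real.rpow_add hX0]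
                      congr 1
                      ring
                    calc _ = 6 * ((X : ℝ) ^ (3 / 4 : ℝ) * (X : ℝ) ^ γ) := by ring
                      _ = _ := by rw [this]; ring
                _ ≤ 6 * (X : ℝ) ^ (γ + 12 * ω) * (e₀ * E) := by
                    apply mul_le_mul_of_nonneg_left _ (by positivity)
                    calc (X : ℝ) ^ (3 / 4 - 12 * ω) ≤ E := hEl
                      _ = 1 * E := (one_mul E).symm
                      _ ≤ e₀ * E := mul_le_mul_of_nonneg_right he1 hE0.le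
            calc (k' : ℝ) + (k' * h / k) * (Q / (e₀ * E)) ≤ (X : ℝ) ^ γ + (X : ℝ) ^ (10 * ω) * (6 * (X : ℝ) ^ (γ + 12 * ω)) := by
                  apply add_le_add (hk'le.trans hkγ)
                  exact mul_le_mul (h4.trans hhX) h6 (by positivity) (hpos _).le
              _ = (X : ℝ) ^ γ + 6 * (X : ℝ) ^ (γ + 22 * ω) := by
                  have : (X : ℝ) ^ (γ + 22 * ω) = (X : ℝ) ^ (10 * ω) * (X : ℝ) ^ (γ + 12 * ω) := by
                    rw [← Real.rpow_add hX0]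
                    congr 1
                    ring
                  rw [this]
                  ring
              _ ≤ (X : ℝ) ^ (γ + 22 * ω) + 6 * (X : ℝ) ^ (γ + 22 * ω) := by
                  have := hmono γ (γ + 22 * ω) (by linarith)
                  linarith
              _ = 7 * (X : ℝ) ^ (γ + 22 * ω) := by ring
              _ ≤ (X : ℝ) ^ (8 * ω) * (X : ℝ) ^ (γ + 22 * ω) := by
                  apply mul_le_mul_of_nonneg_right _ (hpos _).le
                  linarith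
              _ = (X : ℝ) ^ (γ + 30 * ω) := by
                  rw [← Real.rpow_add hX0]
                  congr 1
                  ring)
      refine hcls.trans ?_
      have h1 : ((X : ℝ) ^ (ϖ * (σB : ℝ)) * (X : ℝ) ^ (ϖ * (σA : ℝ))) ^ 2 ≤ (X : ℝ) ^ (3 / 2 : ℝ) := by
        rw [← Real.rpow_add hX0, ← Real.rpow_natCast, ← Real.rpow_mul hX0.le]
        apply hmono
        have : ϖ * (σB : ℝ) + ϖ * σA = ϖ * σ := by rw [← hσr]; ring
        rw [this]
        push_cast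
        linarith
      have h2 : 16 * (X : ℝ) ^ (-(10 * ω)) + 8 / Gm + 1 / Gm ≤ 34 * (X : ℝ) ^ (-(10 * ω)) := by
        have h3 : 1 / (Gm : ℝ) ≤ 2 * (X : ℝ) ^ (-(10 * ω)) := by
          rw [div_le_iff₀ hGm0, Real.rpow_neg hX0.le]
          have h4 : 1 = 2 * ((X : ℝ) ^ (10 * ω))⁻¹ * ((X : ℝ) ^ (10 * ω) / 2) := by
            have := (hpos (10 * ω)).ne'
            field_simp
          calc (1 : ℝ) = 2 * ((X : ℝ) ^ (10 * ω))⁻¹ * ((X : ℝ) ^ (10 * ω) / 2) := h4
            _ ≤ _ := mul_le_mul_of_nonneg_left hGm2 (by positivity)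
        have h4 : 8 / (Gm : ℝ) = 8 * (1 / (Gm : ℝ)) := by ring
        rw [h4]
        linarith
      calc Ac ^ 2 * e₀ * ((X : ℝ) ^ (ϖ * (σB : ℝ)) * (X : ℝ) ^ (ϖ * (σA : ℝ))) ^ 2 / Δ *
            (16 * (X : ℝ) ^ (-(10 * ω)) + 8 / Gm + 1 / Gm) ≤
            Ac ^ 2 * (X : ℝ) ^ (2 * ω) * (X : ℝ) ^ (3 / 2 : ℝ) / Δ * (34 * (X : ℝ) ^ (-(10 * ω))) := by
            apply mul_le_mul _ h2 (by positivity) (by positivity)
            apply div_le_div_of_nonneg_right _ hΔ0.le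
            apply mul_le_mul _ h1 (by positivity) (by positivity)
            exact mul_le_mul_of_nonneg_left he₀X (by positivity)
        _ = C0 * ((X : ℝ) ^ (2 * ω) * (X : ℝ) ^ (3 / 2 : ℝ) * (X : ℝ) ^ (-(10 * ω))) / Δ := by
            rw [hC0]
            ring
        _ = C0 * (X : ℝ) ^ (3 / 2 - 8 * ω) / Δ := by
            rw [← Real.rpow_add hX0, ← Real.rpow_add hX0]
            congr 3
            ring
  set R : ℝ := C0 * (X : ℝ) ^ (3 / 2 - 8 * ω) / Δ with hR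
  have hR0 : 0 ≤ R := by
    have : 0 < C0 := by linarith
    positivity
  calc _ ≤ ∑ r ∈ range (K + 1), ∑ cc ∈ (Fintype.piFinset (fun _ : Fin r => range Nc)).filter
        (fun cc => Cc n0 K true 0 (srt cc univ) ≠ 0), R := sum_le_sum fun r hr => sum_le_sum fun cc hcc => hclass r hr cc hcc
    _ ≤ ∑ r ∈ range (K + 1), (Nc : ℝ) ^ K * R := by
        apply sum_le_sum
        intro r hr
        rw [mem_range] at hr
        rw [sum_const, nsmul_eq_mul]
        apply mul_le_mul_of_nonneg_right _ hR0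
        have h1 : ((Fintype.piFinset (fun _ : Fin r => range Nc)).filter
          (fun cc => Cc n0 K true 0 (srt cc univ) ≠ 0)).card ≤ Nc ^ r := by
          refine (card_le_card (filter_subset _ _)).trans ?_
          rw [Fintype.card_piFinset, prod_const, card_univ, Fintype.card_fin, card_range]
        calc _ ≤ (Nc : ℝ) ^ r := by exact_mod_cast h1
          _ ≤ (Nc : ℝ) ^ K := pow_le_pow_right₀ hNc1 (by omega)
    _ = _ := by
        rw [sum_const, card_range, nsmul_eq_mul, hR]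
        push_cast
        ring

end Pool.Agent.Y844.BT
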