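import Mathlib
import Pool.Agent.Y882.FLW
import Pool.Agent.H510R2.Maier.MA4

/-! The sieve by the small primes. -/

set_option autoImplicit false

namespace Pool.Agent.Y844.BT

open Finset Filter Topology
open Pool.Agent.Y882 (VV VV_union VV_mu prod_ind)
open Pool.Agent.H510R2.Maier (QQ QQ_pos QQ_real)

theorem ind_prod (T : Finset ℕ) (hT : ∀ p ∈ T, p.Prime) (N : ℕ) :
    ∏ p ∈ T, (if p ∣ N then (1 : ℝ) else 0) = if (∏ p ∈ T, p) ∣ N then 1 else 0 := by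
  rw [prod_ind]
  have h : (∀ p ∈ T, p ∣ N) ↔ (∏ p ∈ T, p) ∣ N := by
    constructor
    · intro h
      exact Finset.prod_primes_dvd N (fun p hp => (hT p hp).prime) h
    · intro h p hp
      exact (dvd_prod_of_mem _ hp).trans h
  simp only [h]

theorem recip_prod (T : Finset ℕ) : ∏ p ∈ T, (1 / (p : ℝ)) = 1 / ((∏ p ∈ T, p : ℕ) : ℝ) := by
  push_cast
  rw [prod_div_distrib, prod_const_one]

/-- Mertens on the primes that do not divide `k` -/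
theorem mert (ε₁ η : ℝ) (hε₁ : 0 < ε₁) (hη : 0 < η) : ∃ X₀ : ℕ, ∀ X : ℕ, X₀ ≤ X → ∀ k : ℕ, 1 ≤ k →
    ∏ p ∈ ((Icc 1 ⌊(X : ℝ) ^ ε₁⌋₊).filter Nat.Prime).filter (fun p => ¬ p ∣ k), (1 - 1 / (p : ℝ)) ≤
      (1 + η) * (Real.exp (-Real.eulerMascheroniConstant) / (ε₁ * Real.log X)) * (k / Nat.totient k) := by
  have h1 := QQ_real.comp ((tendsto_rpow_atTop hε₁).comp tendsto_natCast_atTop_atTop)
  set G : ℝ := Real.exp Real.eulerMascheroniConstant with hG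
  have hG0 : 0 < G := Real.exp_pos _
  have h2 : G / (1 + η) < G := by
    rw [div_lt_iff₀ (by linarith)]
    nlinarith
  have h3 := h1.eventually (lt_mem_nhds h2)
  obtain ⟨X₀, h4⟩ := Filter.eventually_atTop.1 (h3.and (eventually_ge_atTop 2))
  refine ⟨X₀, fun X hX k hk => ?_⟩
  obtain ⟨h5, h6⟩ := h4 X hX
  simp only [Function.comp_apply] at h5
  have hX1 : (1 : ℝ) < X := by exact_mod_cast (by omega : 1 < X)
  have hX0 : (0 : ℝ) < X := by linarith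
  have hlog : 0 < Real.log X := Real.log_pos hX1
  rw [Real.log_rpow hX0, lt_div_iff₀ (by positivity)] at h5
  set Y : ℕ := ⌊(X : ℝ) ^ ε₁⌋₊ with hY
  have hQ0 := QQ_pos Y
  have hQ : QQ Y ≤ (1 + η) * (Real.exp (-Real.eulerMascheroniConstant) / (ε₁ * Real.log X)) := by
    have h7 : G / (1 + η) * (ε₁ * Real.log X) * QQ Y ≤ 1 := by
      calc _ ≤ (QQ Y)⁻¹ * QQ Y := mul_le_mul_of_nonneg_right h5.le hQ0.le
        _ = 1 := inv_mul_cancel₀ hQ0.ne'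
    rw [Real.exp_neg, ← hG]
    have h8 : (1 + η) * (G⁻¹ / (ε₁ * Real.log X)) = 1 / (G / (1 + η) * (ε₁ * Real.log X)) := by
      field_simp
    rw [h8, le_div_iff₀ (by positivity)]
    linarith
  have hk0 : (0 : ℝ) < k := by exact_mod_cast hk
  have hφ0 : (0 : ℝ) < Nat.totient k := by exact_mod_cast Nat.totient_pos.2 hk
  have hφ : (Nat.totient k : ℝ) / k = ∏ p ∈ k.primeFactors, (1 - 1 / (p : ℝ)) := by
    have h7 := Nat.totient_eq_mul_prod_factors k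
    have h8 : ((Nat.totient k : ℚ) : ℝ) = ((k * ∏ p ∈ k.primeFactors, (1 - (p : ℚ)⁻¹) : ℚ) : ℝ) := by rw [h7]
    push_cast at h8
    rw [h8, mul_div_cancel_left₀ _ hk0.ne']
    apply prod_congr rfl
    intro p _
    rw [one_div]
  set PY := (Icc 1 Y).filter Nat.Prime with hPY
  set V := ∏ p ∈ PY.filter (fun p => ¬ p ∣ k), (1 - 1 / (p : ℝ)) with hV
  have hfac : ∀ p : ℕ, p.Prime → 0 < 1 - 1 / (p : ℝ) ∧ 1 - 1 / (p : ℝ) ≤ 1 := by
    intro p hp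
    have h7 : (2 : ℝ) ≤ p := by exact_mod_cast hp.two_le
    have h8 : 1 / (p : ℝ) ≤ 1 / 2 := one_div_le_one_div_of_le (by norm_num) h7
    have h9 : 0 < 1 / (p : ℝ) := by positivity
    constructor <;> linarith
  have hV0 : 0 ≤ V := prod_nonneg fun p hp => (hfac p (by
    rw [mem_filter, hPY, mem_filter] at hp
    exact hp.1.2)).1.le
  have hsplit : QQ Y = (∏ p ∈ PY.filter (fun p => p ∣ k), (1 - 1 / (p : ℝ))) * V := by
    unfold QQ
    rw [hV, prod_filter_mul_prod_filter_not]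
  have hle : (Nat.totient k : ℝ) / k ≤ ∏ p ∈ PY.filter (fun p => p ∣ k), (1 - 1 / (p : ℝ)) := by
    rw [hφ]
    have hsub : PY.filter (fun p => p ∣ k) ⊆ k.primeFactors := by
      intro p hp
      rw [mem_filter, hPY, mem_filter] at hp
      rw [Nat.mem_primeFactors]
      exact ⟨hp.1.2, hp.2, by omega⟩
    rw [← prod_sdiff hsub]
    have h7 : ∏ p ∈ k.primeFactors \ PY.filter (fun p => p ∣ k), (1 - 1 / (p : ℝ)) ≤ 1 := by
      apply prod_le_one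
      · intro p hp
        exact (hfac p (Nat.prime_of_mem_primeFactors (mem_sdiff.1 hp).1)).1.le
      · intro p hp
        exact (hfac p (Nat.prime_of_mem_primeFactors (mem_sdiff.1 hp).1)).2
    have h8 : 0 ≤ ∏ p ∈ PY.filter (fun p => p ∣ k), (1 - 1 / (p : ℝ)) := prod_nonneg fun p hp => (hfac p (by
      rw [mem_filter, hPY, mem_filter] at hp
      exact hp.1.2)).1.le
    calc _ ≤ 1 * ∏ p ∈ PY.filter (fun p => p ∣ k), (1 - 1 / (p : ℝ)) := mul_le_mul_of_nonneg_right h7 h8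
      _ = _ := one_mul _
  have h9 : (Nat.totient k : ℝ) / k * V ≤ QQ Y := by
    rw [hsplit]
    exact mul_le_mul_of_nonneg_right hle hV0
  have h10 : V ≤ QQ Y * (k / Nat.totient k) := by
    have h11 : V = ((Nat.totient k : ℝ) / k * V) * (k / Nat.totient k) := by
      field_simp
    rw [h11]
    exact mul_le_mul_of_nonneg_right h9 (by positivity)
  exact h10.trans (mul_le_mul_of_nonneg_right hQ (by positivity))

/-- the small primes -/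
theorem sml (η ω : ℝ) (hη : 0 < η) (hω : 0 < ω) : ∃ ε₁ : ℝ, 0 < ε₁ ∧ ε₁ ≤ 1 / 4 ∧ ∃ X₀ : ℕ, ∀ X : ℕ, X₀ ≤ X →
    ∀ k : ℕ, 1 ≤ k → ∃ (Q : Finset ℕ) (cs : Finset ℕ → ℝ),
      (∀ p ∈ Q, p.Prime ∧ (p : ℝ) ≤ (X : ℝ) ^ ε₁ ∧ Nat.Coprime p k) ∧ (∀ T, |cs T| ≤ 1) ∧
      (∀ T ⊆ Q, cs T ≠ 0 → ((∏ p ∈ T, p : ℕ) : ℝ) ≤ (X : ℝ) ^ (2 * ω)) ∧
      (∀ N : ℕ, 0 ≤ ∑ T ∈ Q.powerset, cs T * (if (∏ p ∈ T, p) ∣ N then 1 else 0)) ∧
      (∀ N : ℕ, (∀ p ∈ Q, ¬ p ∣ N) → 1 ≤ ∑ T ∈ Q.powerset, cs T * (if (∏ p ∈ T, p) ∣ N then 1 else 0)) ∧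
      0 ≤ ∑ T ∈ Q.powerset, cs T * (1 / ((∏ p ∈ T, p : ℕ) : ℝ)) ∧
      ∑ T ∈ Q.powerset, cs T * (1 / ((∏ p ∈ T, p : ℕ) : ℝ)) ≤
        (1 + η) * (Real.exp (-Real.eulerMascheroniConstant) / (ε₁ * Real.log X)) * (k / Nat.totient k) := by
  classical
  obtain ⟨C, hC1, hC⟩ := Pool.Agent.Y882.flw
  obtain ⟨b1, hb1⟩ : ∃ b1 : ℕ, (1 / 2 : ℝ) ^ b1 ≤ min (η / 3) 1 := by
    obtain ⟨n, hn⟩ := exists_pow_lt_of_lt_one (show 0 < min (η / 3) 1 by positivity) (by norm_num : (1 / 2 : ℝ) < 1)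
    exact ⟨n, hn.le⟩
  set b : ℕ := max (C * 2) b1 with hb
  have hbC : C * (1 + 1) ≤ b := le_max_left _ _
  have hb2 : (1 / 2 : ℝ) ^ b ≤ min (η / 3) 1 := by
    refine le_trans ?_ hb1
    exact pow_le_pow_of_le_one (by norm_num) (by norm_num) (le_max_right _ _)
  set ε₁ : ℝ := min (1 / 4) (ω / (2 * C * b + 2)) with hε₁
  have hε₁0 : 0 < ε₁ := by positivity
  have hε₁1 : ε₁ ≤ 1 / 4 := min_le_left _ _
  have hε₁2 : 2 * ε₁ * (C * b) ≤ ω := by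
    have h1 : ε₁ ≤ ω / (2 * C * b + 2) := min_le_right _ _
    rw [le_div_iff₀ (by positivity)] at h1
    have : 0 ≤ ε₁ * 2 := by positivity
    nlinarith
  refine ⟨ε₁, hε₁0, hε₁1, ?_⟩
  obtain ⟨X₁, hX₁⟩ := mert ε₁ (min (η / 3) 1) hε₁0 (by positivity)
  set z0 : ℕ := C * 2 with hz0
  have hbig : ∃ X₀ : ℕ, ∀ X : ℕ, X₀ ≤ X → ((z0.factorial : ℕ) : ℝ) ≤ (X : ℝ) ^ ω ∧ 2 < (X : ℝ) ^ ε₁ ∧ 2 ≤ X := by
    have h1 := ((tendsto_rpow_atTop hω).comp tendsto_natCast_atTop_atTop).eventually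
      (Filter.eventually_ge_atTop ((z0.factorial : ℕ) : ℝ))
    have h2 := ((tendsto_rpow_atTop hε₁0).comp tendsto_natCast_atTop_atTop).eventually
      (Filter.eventually_gt_atTop (2 : ℝ))
    obtain ⟨X₀, h3⟩ := Filter.eventually_atTop.1 (h1.and (h2.and (Filter.eventually_ge_atTop 2)))
    exact ⟨X₀, fun X hX => ⟨(h3 X hX).1, (h3 X hX).2.1, (h3 X hX).2.2⟩⟩
  obtain ⟨X₂, hX₂⟩ := hbig
  refine ⟨max X₁ X₂, fun X hX k hk => ?_⟩
  obtain ⟨hXz, hXe, hX2⟩ := hX₂ X ((le_max_right _ _).trans hX)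
  have hmer := hX₁ X ((le_max_left _ _).trans hX) k hk
  have hX1 : (1 : ℝ) < X := by exact_mod_cast (by omega : 1 < X)
  have hX0 : (0 : ℝ) < X := by linarith
  have hlog : 0 < Real.log X := Real.log_pos hX1
  -- the choice of J
  have hexJ : ∃ J : ℕ, (X : ℝ) ^ ε₁ ≤ (2 : ℝ) ^ 2 ^ J := by
    obtain ⟨n, hn⟩ := pow_unbounded_of_one_lt ((X : ℝ) ^ ε₁) (by norm_num : (1 : ℝ) < 2)
    refine ⟨n, hn.le.trans ?_⟩
    exact pow_le_pow_right₀ (by norm_num) (Nat.lt_two_pow_self).le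
  set J := Nat.find hexJ with hJ
  have hJ1 : (X : ℝ) ^ ε₁ ≤ (2 : ℝ) ^ 2 ^ J := Nat.find_spec hexJ
  have hJ2 : (2 : ℝ) ^ 2 ^ J ≤ (X : ℝ) ^ (2 * ε₁) := by
    have hJpos : J ≠ 0 := by
      intro h0
      rw [h0] at hJ1
      norm_num at hJ1
      linarith
    obtain ⟨j, hj⟩ := Nat.exists_eq_succ_of_ne_zero hJpos
    have h1 : ¬ (X : ℝ) ^ ε₁ ≤ (2 : ℝ) ^ 2 ^ j := Nat.find_min hexJ (by rw [← hJ, hj]; exact Nat.lt_succ_self j)
    push Not at h1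
    rw [hj]
    calc (2 : ℝ) ^ 2 ^ (j + 1) = ((2 : ℝ) ^ 2 ^ j) ^ 2 := by rw [← pow_mul, pow_succ]
      _ ≤ ((X : ℝ) ^ ε₁) ^ 2 := pow_le_pow_left₀ (by positivity) h1.le 2
      _ = (X : ℝ) ^ (2 * ε₁) := by rw [← Real.rpow_natCast, ← Real.rpow_mul hX0.le]; congr 1; push_cast; ring
  set Y : ℕ := ⌊(X : ℝ) ^ ε₁⌋₊ with hY
  have hYr : (Y : ℝ) ≤ (X : ℝ) ^ ε₁ := Nat.floor_le (Real.rpow_pos_of_pos hX0 _).le
  set Q : Finset ℕ := ((Icc 1 Y).filter Nat.Prime).filter (fun p => ¬ p ∣ k) with hQ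
  have hQm : ∀ p, p ∈ Q ↔ ((1 ≤ p ∧ p ≤ Y) ∧ p.Prime) ∧ ¬ p ∣ k := by
    intro p
    rw [hQ, mem_filter, mem_filter, mem_Icc]
  set Q0 : Finset ℕ := Q.filter (fun p => p ≤ z0) with hQ0
  set Q1 : Finset ℕ := Q.filter (fun p => ¬ p ≤ z0) with hQ1
  have hQQ : Q0 ∪ Q1 = Q := filter_union_filter_not_eq _ _
  have hdis : Disjoint Q0 Q1 := disjoint_filter_filter_not _ _ _
  obtain ⟨cU, cL, hc1, hc2, hc3, hc4⟩ := hC 1 b J z0 Q1 hbC le_rfl (by
    intro p hp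
    rw [hQ1, mem_filter, hQm] at hp
    refine ⟨hp.1.1.2, by omega, ?_⟩
    have h1 : (p : ℝ) ≤ (2 : ℝ) ^ 2 ^ J := by
      refine le_trans ?_ hJ1
      refine le_trans ?_ hYr
      exact_mod_cast hp.1.1.1.2
    exact_mod_cast h1)
  set cs : Finset ℕ → ℝ := fun T => (-1) ^ (T ∩ Q0).card * cU (T ∩ Q1) with hcs
  have hVV : ∀ h : ℕ → ℝ, VV Q cs h = (∏ p ∈ Q0, (1 - h p)) * VV Q1 cU h := by
    intro h
    have h1 := VV_union Q0 Q1 hdis (fun T => (-1) ^ T.card) cU h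
    rw [hQQ, VV_mu] at h1
    exact h1
  have hprime : ∀ T ∈ Q.powerset, ∀ p ∈ T, p.Prime := by
    intro T hT p hp
    exact ((hQm p).1 (mem_powerset.1 hT hp)).1.2
  have hind : ∀ N : ℕ, ∑ T ∈ Q.powerset, cs T * (if (∏ p ∈ T, p) ∣ N then 1 else 0) =
      VV Q cs (fun p => if p ∣ N then 1 else 0) := by
    intro N
    unfold VV
    apply sum_congr rfl
    intro T hT
    rw [ind_prod T (hprime T hT)]
  have hrec : ∑ T ∈ Q.powerset, cs T * (1 / ((∏ p ∈ T, p : ℕ) : ℝ)) = VV Q cs (fun p => 1 / (p : ℝ)) := by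
    unfold VV
    apply sum_congr rfl
    intro T _
    rw [recip_prod]
  have hfac : ∀ p : ℕ, p.Prime → 0 < 1 - 1 / (p : ℝ) := by
    intro p hp
    have h7 : (2 : ℝ) ≤ p := by exact_mod_cast hp.two_le
    have h8 : 1 / (p : ℝ) ≤ 1 / 2 := one_div_le_one_div_of_le (by norm_num) h7
    linarith
  have hmain := hc4 (fun p => 1 / (p : ℝ)) (by
    intro p hp
    rw [hQ1, mem_filter, hQm] at hp
    have h7 : (2 : ℝ) ≤ p := by exact_mod_cast hp.1.1.2.two_le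
    refine ⟨by positivity, ?_⟩
    push_cast
    exact one_div_le_one_div_of_le (by linarith) (by linarith))
  obtain ⟨-, -, hm3, hm4⟩ := hmain
  have hP0 : 0 ≤ ∏ p ∈ Q0, (1 - 1 / (p : ℝ)) := prod_nonneg fun p hp => (hfac p (by
    rw [hQ0, mem_filter, hQm] at hp
    exact hp.1.1.2)).le
  have hP1 : 0 ≤ ∏ p ∈ Q1, (1 - 1 / (p : ℝ)) := prod_nonneg fun p hp => (hfac p (by
    rw [hQ1, mem_filter, hQm] at hp
    exact hp.1.1.2)).le
  refine ⟨Q, cs, ?_, ?_, ?_, ?_, ?_, ?_, ?_⟩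
  · intro p hp
    rw [hQm] at hp
    refine ⟨hp.1.2, ?_, ?_⟩
    · refine le_trans ?_ hYr
      exact_mod_cast hp.1.1.2
    · exact (Nat.Prime.coprime_iff_not_dvd hp.1.2).2 hp.2
  · intro T
    simp only [hcs]
    rw [abs_mul, abs_pow, abs_neg, abs_one, one_pow, one_mul]
    exact (hc1 _).1
  · intro T hT hne
    have h1 : cU (T ∩ Q1) ≠ 0 := by
      intro h0
      apply hne
      simp only [hcs]
      rw [h0, mul_zero]
    have h2 := hc2 (T ∩ Q1) inter_subset_right (Or.inl h1)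
    have h3 : T = (T ∩ Q0) ∪ (T ∩ Q1) := by
      rw [← inter_union_distrib_left, hQQ]
      exact (inter_eq_left.2 hT).symm
    have h4 : ∏ p ∈ T, p = (∏ p ∈ T ∩ Q0, p) * ∏ p ∈ T ∩ Q1, p := by
      conv_lhs => rw [h3]
      exact prod_union (disjoint_of_subset_left inter_subset_right (disjoint_of_subset_right inter_subset_right hdis))
    have h5 : ∏ p ∈ T ∩ Q0, p ≤ z0.factorial := by
      apply Nat.le_of_dvd (Nat.factorial_pos _)
      have h6 : ∏ p ∈ T ∩ Q0, p ∣ ∏ p ∈ Ico 1 (z0 + 1), p := by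
        apply prod_dvd_prod_of_subset
        intro p hp
        rw [mem_inter, hQ0, mem_filter, hQm] at hp
        rw [mem_Ico]
        exact ⟨hp.2.1.1.1.1, by omega⟩
      rwa [prod_Ico_id_eq_factorial] at h6
    rw [h4]
    push_cast
    have h6 : ((∏ p ∈ T ∩ Q0, p : ℕ) : ℝ) ≤ (X : ℝ) ^ ω := le_trans (by exact_mod_cast h5) hXz
    have h7 : ((∏ p ∈ T ∩ Q1, p : ℕ) : ℝ) ≤ (X : ℝ) ^ ω := by
      calc ((∏ p ∈ T ∩ Q1, p : ℕ) : ℝ) ≤ (((2 ^ 2 ^ J) ^ (C * b) : ℕ) : ℝ) := by exact_mod_cast h2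
        _ = ((2 : ℝ) ^ 2 ^ J) ^ (C * b) := by push_cast; rfl
        _ ≤ ((X : ℝ) ^ (2 * ε₁)) ^ (C * b) := pow_le_pow_left₀ (by positivity) hJ2 _
        _ = (X : ℝ) ^ (2 * ε₁ * (C * b)) := by
            rw [← Real.rpow_natCast, ← Real.rpow_mul hX0.le]
            push_cast
            rfl
        _ ≤ (X : ℝ) ^ ω := Real.rpow_le_rpow_of_exponent_le hX1.le hε₁2
    push_cast at h6 h7
    calc _ ≤ (X : ℝ) ^ ω * (X : ℝ) ^ ω := mul_le_mul h6 h7 (by positivity) (Real.rpow_pos_of_pos hX0 _).le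
      _ = (X : ℝ) ^ (2 * ω) := by rw [← Real.rpow_add hX0]; congr 1; ring
  · intro N
    rw [hind, hVV]
    apply mul_nonneg
    · apply prod_nonneg
      intro p _
      split_ifs <;> norm_num
    · refine le_trans ?_ (hc3 N).2
      split_ifs <;> norm_num
  · intro N hN
    rw [hind, hVV]
    have h1 : ∏ p ∈ Q0, (1 - (if p ∣ N then (1 : ℝ) else 0)) = 1 := by
      apply prod_eq_one
      intro p hp
      rw [if_neg (hN p (mem_of_mem_filter p hp)), sub_zero]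
    rw [h1, one_mul]
    refine le_trans (le_of_eq ?_) (hc3 N).2
    rw [if_pos fun p hp => hN p (mem_of_mem_filter p hp)]
  · rw [hrec, hVV]
    exact mul_nonneg hP0 (hP1.trans hm3)
  · rw [hrec, hVV]
    have h1 : (∏ p ∈ Q0, (1 - 1 / (p : ℝ))) * ∏ p ∈ Q1, (1 - 1 / (p : ℝ)) = ∏ p ∈ Q, (1 - 1 / (p : ℝ)) := by
      rw [← prod_union hdis, hQQ]
    set m : ℝ := min (η / 3) 1 with hm
    have hm0 : 0 < m := by positivity
    have hm1 : m ≤ 1 := min_le_right _ _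
    have hmη : 3 * m ≤ η := by
      have := min_le_left (η / 3) 1
      linarith
    set R : ℝ := Real.exp (-Real.eulerMascheroniConstant) / (ε₁ * Real.log X) * (k / Nat.totient k) with hR
    have hR0 : 0 ≤ R := by
      have := Real.exp_pos (-Real.eulerMascheroniConstant)
      positivity
    have hmer' : ∏ p ∈ Q, (1 - 1 / (p : ℝ)) ≤ (1 + m) * R := by
      refine hmer.trans (le_of_eq ?_)
      rw [hR]
      ring
    calc (∏ p ∈ Q0, (1 - 1 / (p : ℝ))) * VV Q1 cU (fun p => 1 / (p : ℝ)) ≤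
          (∏ p ∈ Q0, (1 - 1 / (p : ℝ))) * ((1 + (1 / 2) ^ b) * ∏ p ∈ Q1, (1 - 1 / (p : ℝ))) :=
          mul_le_mul_of_nonneg_left hm4 hP0
      _ = (1 + (1 / 2) ^ b) * ∏ p ∈ Q, (1 - 1 / (p : ℝ)) := by rw [← h1]; ring
      _ ≤ (1 + m) * ((1 + m) * R) := by
          apply mul_le_mul _ hmer' _ (by positivity)
          · linarith
          · rw [← h1]
            exact mul_nonneg hP0 hP1
      _ = ((1 + m) * (1 + m)) * R := by ring
      _ ≤ (1 + η) * R := by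
          apply mul_le_mul_of_nonneg_right _ hR0
          nlinarith
      _ = _ := by rw [hR]; ring

end Pool.Agent.Y844.BT
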