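import Mathlib
import Pool.Agent.Y844.BT.Err
import Pool.Agent.Y844.BT.Sml
import Pool.Agent.Y844.BT.Cnt

/-! The constants. -/

set_option autoImplicit false

namespace Pool.Agent.Y844.BT

open Finset Filter Topology
open Pool.Agent.W23.DC

/-- what the sieve by small primes gives at the level `X` -/
def SmlP (η ω ε₁ : ℝ) (X : ℕ) : Prop :=
    ∀ k : ℕ, 1 ≤ k → ∃ (Q : Finset ℕ) (cs : Finset ℕ → ℝ),
      (∀ p ∈ Q, p.Prime ∧ (p : ℝ) ≤ (X : ℝ) ^ ε₁ ∧ Nat.Coprime p k) ∧ (∀ T, |cs T| ≤ 1) ∧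
      (∀ T ⊆ Q, cs T ≠ 0 → ((∏ p ∈ T, p : ℕ) : ℝ) ≤ (X : ℝ) ^ (2 * ω)) ∧
      (∀ N : ℕ, 0 ≤ ∑ T ∈ Q.powerset, cs T * (if (∏ p ∈ T, p) ∣ N then 1 else 0)) ∧
      (∀ N : ℕ, (∀ p ∈ Q, ¬ p ∣ N) → 1 ≤ ∑ T ∈ Q.powerset, cs T * (if (∏ p ∈ T, p) ∣ N then 1 else 0)) ∧
      0 ≤ ∑ T ∈ Q.powerset, cs T * (1 / ((∏ p ∈ T, p : ℕ) : ℝ)) ∧
      ∑ T ∈ Q.powerset, cs T * (1 / ((∏ p ∈ T, p : ℕ) : ℝ)) ≤
        (1 + η) * (Real.exp (-Real.eulerMascheroniConstant) / (ε₁ * Real.log X)) * (k / Nat.totient k)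

/-- what the linear sieve gives at the level `X` -/
def LscP (η' θ ε₁ ϖ : ℝ) (n0 K : ℕ) (X : ℕ) : Prop :=
    ∀ Cl : Finset ℕ, (Cl.card : ℝ) ≤ (Real.log X) ^ 2 →
      ∃ P : Finset ℕ, (∀ p ∈ P, p.Prime ∧ (X : ℝ) ^ ε₁ < (p : ℝ) ∧ (p : ℝ) ≤ (X : ℝ) ^ θ ∧ p ∉ Cl) ∧
        (∀ m : ℕ, 0 ≤ ∑ s ∈ P.powerset, Cc n0 K true 0 (srt (cel X ϖ) s) * (if (∏ q ∈ s, q) ∣ m then 1 else 0)) ∧
        (∀ m : ℕ, (∀ p ∈ P, ¬ p ∣ m) →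
          1 ≤ ∑ s ∈ P.powerset, Cc n0 K true 0 (srt (cel X ϖ) s) * (if (∏ q ∈ s, q) ∣ m then 1 else 0)) ∧
        ∑ s ∈ P.powerset, Cc n0 K true 0 (srt (cel X ϖ) s) * (1 / ((∏ q ∈ s, q : ℕ) : ℝ)) ≤
          (1 + η') * (2 * Real.exp Real.eulerMascheroniConstant * ε₁ / θ)

/-- what the bilinear bound gives at the level `X` -/
def ErrP (κ Γ ω ϖ C : ℝ) (n0 K : ℕ) (X : ℕ) : Prop :=
    ∀ γ : ℝ, 4 * κ ≤ γ → γ ≤ Γ →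
      ∀ (k : ℕ) [NeZero k] (l c : ℤ) (L Δ : ℕ), 1 ≤ Δ → IsCoprime l (k : ℤ) → (k : ℝ) ≤ (X : ℝ) ^ γ →
      ∀ z : ℝ, (X : ℝ) ^ (3 / 4 - ω) ≤ z → z ≤ 2 * (X : ℝ) ^ (3 / 4 : ℝ) →
      (∀ t : ℤ, (t = c ∨ t = c + Δ ∨ t = c + (Δ + L : ℕ) ∨ t = c + (2 * Δ + L : ℕ)) →
        |(k : ℝ) * t + l| ≤ 3 * (z * (X : ℝ) ^ γ) ∧ (z * (X : ℝ) ^ γ / 8 ≤ |(k : ℝ) * t + l| ∨ (X : ℝ) ^ γ ≤ 16 * k)) →
      ∀ P : Finset ℕ, (∀ p ∈ P, p.Prime ∧ Nat.Coprime p k ∧ p ≤ X) → ∀ e₀ : ℕ, 1 ≤ e₀ → (e₀ : ℝ) ≤ (X : ℝ) ^ (2 * ω) →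
      Nat.Coprime e₀ k →
      |∑ s ∈ P.powerset, Cc n0 K true 0 (srt (cel X ϖ) s) * RR k l c L Δ (e₀ * ∏ q ∈ s, q)| ≤
        C * (X : ℝ) ^ (3 / 2 - 8 * ω) / Δ

theorem consts (ep : ℝ) (he : 0 < ep) (he1 : ep ≤ 1 / 4) : ∃ (κ ω ε₁ ϖ C : ℝ) (n0 K X₀ : ℕ),
    0 < κ ∧ κ ≤ ep / 8 ∧ 0 < ω ∧ ep ^ 3 / 10 ^ 7 ≤ ω / 2 ∧ ω ≤ 1 / 1000 ∧ ω ≤ ep / 8 ∧ 0 < ε₁ ∧ ε₁ ≤ 1 / 4 ∧ 0 < C ∧
    (∀ X : ℕ, X₀ ≤ X → SmlP (ω / 100) ω ε₁ X ∧ LscP (ω / 100) (3 / 4) ε₁ ϖ n0 K X ∧ ErrP κ (2 / ep) ω ϖ C n0 K X ∧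
      6400 * C / ω ^ 2 * Real.log X ≤ (X : ℝ) ^ (4 * ω)) := by
  classical
  have hκ0 : 0 < min (1 / 100) (ep / 8) := by positivity
  have hκ1 : min (1 / 100) (ep / 8) ≤ 1 / 100 := min_le_left _ _
  have hκ2 : min (1 / 100) (ep / 8) ≤ ep / 8 := min_le_right _ _
  have hκ3 : ep / 25 ≤ min (1 / 100) (ep / 8) := le_min (by linarith) (by linarith)
  generalize min (1 / 100) (ep / 8) = κ at hκ0 hκ1 hκ2 hκ3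
  have hΓ0 : 0 < 2 / ep := by positivity
  have hΓ1 : (2 / ep) * ep = 2 := div_mul_cancel₀ _ he.ne'
  generalize 2 / ep = Γ at hΓ0 hΓ1
  have hS : 10 * Γ + 21 ≤ (⌈10 * Γ + 21⌉₊ : ℝ) := Nat.le_ceil _
  have hSu : (⌈10 * Γ + 21⌉₊ : ℝ) < 10 * Γ + 21 + 1 := Nat.ceil_lt_add_one (by positivity)
  generalize ⌈10 * Γ + 21⌉₊ = S at hS hSu
  have hS21 : 21 ≤ S := by
    have : (21 : ℝ) ≤ S := by linarith
    exact_mod_cast this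
  have hS0 : (0 : ℝ) < S := by exact_mod_cast (by omega : 0 < S)
  obtain ⟨ω, hω⟩ : ∃ ω : ℝ, ω = κ / (200 * S ^ 2) := ⟨_, rfl⟩
  have hω0 : 0 < ω := by rw [hω]; positivity
  have hS1 : (1 : ℝ) ≤ S := by exact_mod_cast (by omega : 1 ≤ S)
  have hωκ : ω ≤ κ / 200 := by
    rw [hω]
    apply div_le_div_of_nonneg_left hκ0.le (by norm_num)
    have : (1 : ℝ) ≤ (S : ℝ) ^ 2 := one_le_pow₀ hS1
    linarith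
  have hω1 : ω ≤ 1 / 1000 := by linarith
  have hωl : ep ^ 3 / 10 ^ 7 ≤ ω / 2 := by
    have h1 : (S : ℝ) * ep ≤ 51 / 2 := by
      calc (S : ℝ) * ep ≤ (10 * Γ + 21 + 1) * ep := mul_le_mul_of_nonneg_right hSu.le he.le
        _ = 10 * (Γ * ep) + 22 * ep := by ring
        _ ≤ 51 / 2 := by rw [hΓ1]; linarith
    have h2 : ((S : ℝ) * ep) ^ 2 ≤ (51 / 2) ^ 2 := pow_le_pow_left₀ (by positivity) h1 2
    rw [hω, div_div, div_le_div_iff₀ (by norm_num) (by positivity)]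
    calc ep ^ 3 * (200 * (S : ℝ) ^ 2 * 2) = (ep / 25) * 10000 * ((S : ℝ) * ep) ^ 2 := by ring
      _ ≤ κ * 10000 * (51 / 2) ^ 2 := by
          apply mul_le_mul _ h2 (by positivity) (by positivity)
          linarith
      _ ≤ κ * 10 ^ 7 := by
          rw [mul_assoc]
          apply mul_le_mul_of_nonneg_left _ hκ0.le
          norm_num
  obtain ⟨ε₁, hε₁, hε₁1, X₁, hX₁⟩ := sml (ω / 100) ω (by positivity) hω0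
  obtain ⟨n1, hn1⟩ := lsc (3 / 4) (ω / 100) ε₁ (by norm_num) (by norm_num) (by positivity) hε₁ hε₁1
  generalize ⌈1 / ε₁⌉₊ = K at hn1
  obtain ⟨n0, hn01, hn02⟩ : ∃ n0 : ℕ, n1 ≤ n0 ∧ ((K : ℝ) + 1) / ω ≤ n0 := by
    refine ⟨max n1 ⌈((K : ℝ) + 1) / ω⌉₊, le_max_left _ _, ?_⟩
    exact (Nat.le_ceil _).trans (Nat.cast_le.2 (le_max_right _ _))
  obtain ⟨ϖ, hϖ⟩ : ∃ ϖ : ℝ, ϖ = (3 / 4) / ((n0 : ℝ) + 1 / 2) := ⟨_, rfl⟩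
  have hϖ0 : 0 < ϖ := by rw [hϖ]; positivity
  have hϖn : ϖ * ((n0 : ℝ) + 1 / 2) = 3 / 4 := by
    rw [hϖ]
    exact div_mul_cancel₀ _ (by positivity)
  have hϖs : ((K : ℝ) + 1) * ϖ ≤ ω := by
    rw [div_le_iff₀ hω0] at hn02
    rw [hϖ, mul_div_assoc', div_le_iff₀ (by positivity)]
    have h1 : (0 : ℝ) ≤ K := Nat.cast_nonneg _
    have h2 : ω * ((n0 : ℝ) + 1 / 2) = n0 * ω + ω / 2 := by ring
    rw [h2]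
    linarith
  have hϖω : ϖ ≤ ω := by
    have h1 : (0 : ℝ) ≤ K * ϖ := by positivity
    linarith
  have hKϖ : (K : ℝ) * ϖ ≤ ω := by linarith
  obtain ⟨X₂, hX₂⟩ := hn1 n0 hn01 ϖ hϖn
  obtain ⟨C, X₃, hC0, hX₃⟩ := err κ Γ hκ0 hκ1 S hS hS21 ω hω n0 K ϖ hϖn hϖ0 hϖω hKϖ
  have hX₄ : ∃ X₄ : ℕ, ∀ X : ℕ, X₄ ≤ X → 6400 * C / ω ^ 2 * Real.log X ≤ (X : ℝ) ^ (4 * ω) := by
    have h1 : Tendsto (fun x : ℝ => Real.log x / x ^ (4 * ω)) atTop (𝓝 0) :=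
      (isLittleO_log_rpow_atTop (by positivity : 0 < 4 * ω)).tendsto_div_nhds_zero
    have h2 := h1.const_mul (6400 * C / ω ^ 2)
    rw [mul_zero] at h2
    have h3 := (h2.comp tendsto_natCast_atTop_atTop).eventually (gt_mem_nhds one_pos)
    obtain ⟨X₄, h4⟩ := Filter.eventually_atTop.1 (h3.and (eventually_ge_atTop 1))
    refine ⟨X₄, fun X hX => ?_⟩
    obtain ⟨h5, h6⟩ := h4 X hX
    simp only [Function.comp_apply] at h5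
    have hX0 : (0 : ℝ) < X := by exact_mod_cast h6
    rw [mul_div_assoc', div_lt_one (Real.rpow_pos_of_pos hX0 _)] at h5
    exact h5.le
  obtain ⟨X₄, hX₄⟩ := hX₄
  refine ⟨κ, ω, ε₁, ϖ, C, n0, K, max (max X₁ X₂) (max X₃ X₄), hκ0, hκ2, hω0, hωl, hω1, by linarith, hε₁, hε₁1, hC0, ?_⟩
  intro X hX
  refine ⟨?_, ?_, ?_, ?_⟩
  · exact hX₁ X (((le_max_left _ _).trans (le_max_left _ _)).trans hX)
  · exact hX₂ X (((le_max_right _ _).trans (le_max_left _ _)).trans hX)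
  · exact hX₃ X (((le_max_left _ _).trans (le_max_right _ _)).trans hX)
  · exact hX₄ X (((le_max_right _ _).trans (le_max_right _ _)).trans hX)

theorem bigx (ep ω T : ℝ) (he : 0 < ep) : ∃ x₀ : ℝ, ∀ x : ℝ, x₀ ≤ x → 1 ≤ x ∧ 200 / ω ≤ x ^ ep ∧ Real.exp (100 / ω) ≤ x ^ ep ∧
      T + 200 ≤ x ^ ep ∧ 192 / ω * Real.log x ≤ x ^ (ep / 2) ∧ 2 / ep ^ 2 ≤ Real.log x ∧ 2 ≤ x ^ (ep / 2) := by
  have e1 := tendsto_rpow_atTop he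
  have e2 := tendsto_rpow_atTop (by positivity : 0 < ep / 2)
  have h1 : Tendsto (fun x : ℝ => Real.log x / x ^ (ep / 2)) atTop (𝓝 0) :=
    (isLittleO_log_rpow_atTop (by positivity : 0 < ep / 2)).tendsto_div_nhds_zero
  have h2 := h1.const_mul (192 / ω)
  rw [mul_zero] at h2
  have h3 := h2.eventually (gt_mem_nhds one_pos)
  obtain ⟨x₀, h4⟩ := Filter.eventually_atTop.1 ((eventually_ge_atTop (1 : ℝ)).and ((e1.eventually_ge_atTop (200 / ω)).and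
    ((e1.eventually_ge_atTop (Real.exp (100 / ω))).and ((e1.eventually_ge_atTop (T + 200)).and
    (h3.and ((Real.tendsto_log_atTop.eventually_ge_atTop (2 / ep ^ 2)).and (e2.eventually_ge_atTop (2 : ℝ))))))))
  refine ⟨x₀, fun x hx => ?_⟩
  obtain ⟨h5, h6, h7, h8, h9, h10, h11⟩ := h4 x hx
  refine ⟨h5, h6, h7, h8, ?_, h10, h11⟩
  rw [mul_div_assoc', div_lt_one (Real.rpow_pos_of_pos (by linarith) _)] at h9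
  exact h9.le

end Pool.Agent.Y844.BT
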