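import Mathlib
import Pool.Agent.Y844.BT.Asb
import Pool.Agent.Y844.BT.Asc

/-! The core inequality. -/

set_option autoImplicit false

namespace Pool.Agent.Y844.BT

open Finset

theorem cntA (X : ℕ) (hX1 : 1 ≤ (X : ℝ)) (ε₁ : ℝ) (hε₁1 : ε₁ ≤ 1 / 4) (k : ℕ) (hk : 1 ≤ k) (l : ℤ) (x y : ℝ) (hx : 0 ≤ x)
    (hy : 0 ≤ y) (u0 u1 : ℤ) (hu0 : u0 = ⌊(x - y - l) / k⌋) (hu1 : u1 = ⌊(x - l) / k⌋) (L Δ : ℕ)
    (hL : (L : ℤ) = u1 - u0) (hΔ : 1 ≤ Δ) (Q P : Finset ℕ) (cs cb : Finset ℕ → ℝ)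
    (hQ1 : ∀ p ∈ Q, p.Prime ∧ (p : ℝ) ≤ (X : ℝ) ^ ε₁)
    (hP1 : ∀ p ∈ P, p.Prime ∧ (X : ℝ) ^ ε₁ < (p : ℝ) ∧ (p : ℝ) ≤ (X : ℝ) ^ (3 / 4 : ℝ))
    (hQ4 : ∀ N : ℕ, 0 ≤ ∑ T ∈ Q.powerset, cs T * (if (∏ p ∈ T, p) ∣ N then 1 else 0))
    (hQ5 : ∀ N : ℕ, (∀ p ∈ Q, ¬ p ∣ N) → 1 ≤ ∑ T ∈ Q.powerset, cs T * (if (∏ p ∈ T, p) ∣ N then 1 else 0))
    (hP2 : ∀ N : ℕ, 0 ≤ ∑ T ∈ P.powerset, cb T * (if (∏ p ∈ T, p) ∣ N then 1 else 0))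
    (hP3 : ∀ N : ℕ, (∀ p ∈ P, ¬ p ∣ N) → 1 ≤ ∑ T ∈ P.powerset, cb T * (if (∏ p ∈ T, p) ∣ N then 1 else 0)) :
    (((Pr k l x y).filter (fun p : ℕ => (X : ℝ) ^ (3 / 4 : ℝ) < (p : ℝ))).card : ℝ) ≤
      (Δ + L) * ((∑ T ∈ Q.powerset, cs T * (1 / ((∏ p ∈ T, p : ℕ) : ℝ))) *
      (∑ s ∈ P.powerset, cb s * (1 / ((∏ q ∈ s, q : ℕ) : ℝ)))) +
      ∑ T ∈ Q.powerset, cs T * ∑ s ∈ P.powerset, cb s * RR k l (u0 - Δ) L Δ ((∏ p ∈ T, p) * ∏ q ∈ s, q) := by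
  classical
  have hco : ∀ T ⊆ Q, ∀ s ⊆ P, Nat.Coprime (∏ p ∈ T, p) (∏ q ∈ s, q) := by
    intro T hT s hs
    apply Nat.Coprime.prod_left
    intro p hp
    apply Nat.Coprime.prod_right
    intro q hq
    obtain ⟨g1, g2⟩ := hQ1 p (hT hp)
    obtain ⟨g4, g5, g6⟩ := hP1 q (hs hq)
    rw [Nat.coprime_primes g1 g4]
    intro h
    rw [h] at g2
    linarith
  rw [← sieve_sum k l (u0 - Δ) L Δ Q P cs cb hco]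
  apply cnt k hk l x y hx hy u0 u1 hu0 hu1 L Δ hL hΔ (fun v =>
    (∑ T ∈ Q.powerset, cs T * (if (∏ p ∈ T, p) ∣ v.natAbs then 1 else 0)) *
        (∑ s ∈ P.powerset, cb s * (if (∏ q ∈ s, q) ∣ v.natAbs then 1 else 0)))
  · intro v
    exact mul_nonneg (hQ4 _) (hP2 _)
  · intro p hp hpX
    simp only [Int.natAbs_natCast]
    have h1 : 1 ≤ ∑ T ∈ Q.powerset, cs T * (if (∏ p ∈ T, p) ∣ p then (1 : ℝ) else 0) := by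
      apply hQ5
      intro q hq hqp
      obtain ⟨g1, g2⟩ := hQ1 q hq
      have g4 := (Nat.prime_dvd_prime_iff_eq g1 hp).1 hqp
      rw [g4] at g2
      have g5 : (X : ℝ) ^ ε₁ ≤ (X : ℝ) ^ (3 / 4 : ℝ) := Real.rpow_le_rpow_of_exponent_le hX1 (by linarith)
      linarith
    have h2 : 1 ≤ ∑ s ∈ P.powerset, cb s * (if (∏ q ∈ s, q) ∣ p then (1 : ℝ) else 0) := by
      apply hP3
      intro q hq hqp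
      obtain ⟨g1, g2, g3⟩ := hP1 q hq
      have g4 := (Nat.prime_dvd_prime_iff_eq g1 hp).1 hqp
      rw [g4] at g3
      linarith
    calc (1 : ℝ) = 1 * 1 := by norm_num
      _ ≤ _ := mul_le_mul h1 h2 (by norm_num) (by linarith)

theorem core (ω ε₁ ϖ C κ Γ : ℝ) (n0 K X : ℕ) (hω0 : 0 < ω) (hω1 : ω ≤ 1 / 1000) (hε₁ : 0 < ε₁) (hε₁1 : ε₁ ≤ 1 / 4)
    (hC0 : 0 < C) (hs : SmlP (ω / 100) ω ε₁ X) (hl : LscP (ω / 100) (3 / 4) ε₁ ϖ n0 K X) (hr : ErrP κ Γ ω ϖ C n0 K X)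
    (h4 : 6400 * C / ω ^ 2 * Real.log X ≤ (X : ℝ) ^ (4 * ω)) (hX1 : 1 < (X : ℝ))
    (k : ℕ) (l : ℤ) (x y z : ℝ) (hk : 1 ≤ k) (hlk : IsCoprime l (k : ℤ)) (hx : 0 < x) (hy0 : 0 < y) (hyz : y = k * z)
    (hz0 : 0 < z) (hyx : y ≤ x) (γ : ℝ) (hXγ : (X : ℝ) ^ γ = x / z) (hγ1 : 4 * κ ≤ γ) (hγ2 : γ ≤ Γ)
    (hzlow : (X : ℝ) ^ (3 / 4 - ω) ≤ z) (hzup : z ≤ 2 * (X : ℝ) ^ (3 / 4 : ℝ))
    (hlogXl : (1 + ω) * (1 - ω / 100) * Real.log z ≤ 3 / 4 * Real.log X)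
    (hCl : (k.primeFactors.card : ℝ) ≤ (Real.log X) ^ 2)
    (u0 u1 : ℤ) (hu0 : u0 = ⌊(x - y - l) / k⌋) (hu1 : u1 = ⌊(x - l) / k⌋) (L Δ : ℕ)
    (hL : (L : ℤ) = u1 - u0) (hΔ1 : 1 ≤ Δ) (hΔl : ω / 100 * z ≤ Δ) (hΔL : (Δ + L : ℝ) ≤ z * (1 + ω / 50))
    (hpts : ∀ t : ℤ, (t = (u0 - Δ) ∨ t = (u0 - Δ) + Δ ∨ t = (u0 - Δ) + (Δ + L : ℕ) ∨ t = (u0 - Δ) + (2 * Δ + L : ℕ)) →
        |(k : ℝ) * t + l| ≤ 3 * x ∧ (x / 8 ≤ |(k : ℝ) * t + l| ∨ x / z ≤ 16 * k))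
    (hR : (((Pr k l x y).filter (fun p : ℕ => ¬ (X : ℝ) ^ (3 / 4 : ℝ) < (p : ℝ))).card : ℝ) ≤ ω / 64 * (z / Real.log z))
    (hLz0 : 0 < Real.log z) (hLzX : Real.log z ≤ Real.log X) :
    ((Pr k l x y).card : ℝ) < (2 - ω / 2) * (z / Real.log z) * (k / Nat.totient k) := by
  classical
  haveI : NeZero k := ⟨by omega⟩
  have hX1' : (1 : ℝ) ≤ X := hX1.le
  have hXpos : (0 : ℝ) < X := by linarith
  have hlogX : 0 < Real.log X := Real.log_pos hX1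
  have hkγ : (k : ℝ) ≤ (X : ℝ) ^ γ := by
    rw [hXγ, le_div_iff₀ hz0, ← hyz]
    exact hyx
  have hzXγ : z * (X : ℝ) ^ γ = x := by rw [hXγ]; field_simp
  obtain ⟨Q, cs, hQ1, hQ2, hQ3, hQ4, hQ5, hQ6, hQ7⟩ := hs k hk
  obtain ⟨P, hP1, hP2, hP3, hP4⟩ := hl k.primeFactors hCl
  have hP5 : ∀ p ∈ P, p.Prime ∧ Nat.Coprime p k ∧ p ≤ X := by
    intro p hp
    obtain ⟨h1, h2, h3, h4⟩ := hP1 p hp
    refine ⟨h1, ?_, ?_⟩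
    · rw [Nat.Prime.coprime_iff_not_dvd h1]
      intro h5
      exact h4 (Nat.mem_primeFactors.2 ⟨h1, h5, by omega⟩)
    · have h5 : (X : ℝ) ^ (3 / 4 : ℝ) ≤ X := by
        calc (X : ℝ) ^ (3 / 4 : ℝ) ≤ (X : ℝ) ^ (1 : ℝ) := Real.rpow_le_rpow_of_exponent_le hX1' (by norm_num)
          _ = X := Real.rpow_one _
      have h6 : (p : ℝ) ≤ (X : ℝ) := h3.trans h5
      exact Nat.cast_le.1 h6
  have hcnt := cntA X hX1' ε₁ hε₁1 k hk l x y hx.le hy0.le u0 u1 hu0 hu1 L Δ hL hΔ1 Q P cs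
    (fun s => Cc n0 K true 0 (srt (cel X ϖ) s)) (fun p hp => ⟨(hQ1 p hp).1, (hQ1 p hp).2.1⟩)
    (fun p hp => ⟨(hP1 p hp).1, (hP1 p hp).2.1, (hP1 p hp).2.2.1⟩) hQ4 hQ5 hP2 hP3
  have hB0 : 0 ≤ C * (X : ℝ) ^ (3 / 2 - 8 * ω) / Δ := by positivity
  have hE1 := esum X hX1' ω (C * (X : ℝ) ^ (3 / 2 - 8 * ω) / Δ) hB0 Q cs
    (fun T => ∑ s ∈ P.powerset, Cc n0 K true 0 (srt (cel X ϖ) s) * RR k l (u0 - Δ) L Δ ((∏ p ∈ T, p) * ∏ q ∈ s, q))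
    (fun p hp => (hQ1 p hp).1) hQ2 hQ3 (by
      intro T hT hT0
      exact hr γ hγ1 hγ2 k l (u0 - Δ) L Δ hΔ1 hlk hkγ z hzlow hzup (by rw [hzXγ, hXγ]; exact hpts) P hP5 (∏ p ∈ T, p)
        (Nat.one_le_iff_ne_zero.2 (prod_pos fun p hp => (hQ1 p (hT hp)).1.pos).ne') (hQ3 T hT hT0)
        (Nat.Coprime.prod_left fun p hp => (hQ1 p (hT hp)).2.2))
  have hE2 := etail X hX1' ω C z (Real.log z) Δ hω0 hC0 hz0 hLz0 hΔl hzlow hLzX h4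
  have hE := hE1.trans hE2
  have hsplit : ((Pr k l x y).card : ℝ) = (((Pr k l x y).filter (fun p : ℕ => ¬ (X : ℝ) ^ (3 / 4 : ℝ) < (p : ℝ))).card : ℝ) +
      (((Pr k l x y).filter (fun p : ℕ => (X : ℝ) ^ (3 / 4 : ℝ) < (p : ℝ))).card : ℝ) := by
    have := card_filter_add_card_filter_not (s := Pr k l x y) (fun p : ℕ => (X : ℝ) ^ (3 / 4 : ℝ) < (p : ℝ))
    rw [← this]
    push_cast
    ring
  have hφ0 : (0 : ℝ) < Nat.totient k := by exact_mod_cast Nat.totient_pos.2 hk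
  have hφ1 : 1 ≤ (k : ℝ) / Nat.totient k := by
    rw [le_div_iff₀ hφ0, one_mul]
    exact_mod_cast Nat.totient_le k
  apply fin_num ω z (Real.log z) (Real.log X) (k / Nat.totient k) _ _ (Δ + L) _ _ _
    (Real.exp Real.eulerMascheroniConstant) ε₁ hω0 hω1 hz0 hLz0 hlogX hφ1 (Real.exp_pos _) hε₁ hQ6
  · rw [← Real.exp_neg]
    exact hQ7
  · exact hP4
  · positivity
  · exact hΔL
  · exact hR
  · exact hE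
  · exact hlogXl
  · rw [hsplit]
    linarith

end Pool.Agent.Y844.BT
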