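import Mathlib
import Pool.Agent.Y844.BT.Asa
import Pool.Agent.Y844.BT.Asd

/-! The assembly. -/

set_option autoImplicit false

namespace Pool.Agent.Y844.BT

theorem asm (ep : ℝ) (he : 0 < ep) (he1 : ep ≤ 1 / 4) : ∃ δ : ℝ, ep ^ 3 / 10 ^ 7 ≤ δ ∧ ∃ x₀ : ℝ, ∀ (k : ℕ) (l : ℤ) (x y : ℝ),
    x₀ ≤ x → 1 ≤ x ∧ (1 ≤ k → y ≤ x → IsCoprime l (k : ℤ) → x ^ ep ≤ y / k → y / k ≤ x ^ (1 - ep) →
    1 < y / k ∧ ((Pr k l x y).card : ℝ) < (2 - δ) * ((y / k) / Real.log (y / k)) * (k / Nat.totient k)) := by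
  obtain ⟨κ, ω, ε₁, ϖ, C, n0, K, X₀, hκ0, hκ2, hω0, hωl, hω1, hωe, hε₁, hε₁1, hC0, hX⟩ := consts ep he he1
  obtain ⟨x₀, hx₀⟩ := bigx ep ω X₀ he
  refine ⟨ω / 2, hωl, x₀, ?_⟩
  intro k l x y hx
  obtain ⟨hx1, hb1, hb2, hb3, hb4, hb5, hb6⟩ := hx₀ x hx
  refine ⟨hx1, ?_⟩
  intro hk hyx hlk hz1 hz2
  have hx0 : 0 < x := by linarith
  have hk0 : (0 : ℝ) < k := by exact_mod_cast hk
  have hk1 : (1 : ℝ) ≤ k := by exact_mod_cast hk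
  obtain ⟨z, hz⟩ : ∃ z : ℝ, z = y / k := ⟨_, rfl⟩
  rw [← hz] at hz1 hz2 ⊢
  have hyz : y = k * z := by rw [hz]; field_simp
  have hz200 : 200 / ω ≤ z := hb1.trans hz1
  have hzX : (X₀ : ℝ) + 200 ≤ z := hb3.trans hz1
  have hX₀0 : (0 : ℝ) ≤ X₀ := Nat.cast_nonneg _
  have hz200' : 200 ≤ z := by linarith
  have hz0 : 0 < z := by linarith
  have hy0 : 0 < y := by rw [hyz]; positivity
  have hzx : z ≤ x := by
    calc z = 1 * z := (one_mul _).symm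
      _ ≤ k * z := mul_le_mul_of_nonneg_right hk1 hz0.le
      _ = y := hyz.symm
      _ ≤ x := hyx
  have hkx : (k : ℝ) ≤ x := by
    calc (k : ℝ) = k * 1 := (mul_one _).symm
      _ ≤ k * z := mul_le_mul_of_nonneg_left (by linarith) hk0.le
      _ = y := hyz.symm
      _ ≤ x := hyx
  have hLz100 : 100 / ω ≤ Real.log z := by
    rw [Real.le_log_iff_exp_le hz0]
    exact hb2.trans hz1
  have hLz0 : 0 < Real.log z := lt_of_lt_of_le (by positivity) hLz100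
  have hLzx : Real.log z ≤ Real.log x := Real.log_le_log hz0 hzx
  have hLze : ep * Real.log x ≤ Real.log z := by
    rw [← Real.log_rpow hx0]
    exact Real.log_le_log (Real.rpow_pos_of_pos hx0 _) hz1
  obtain ⟨X, hXz, hXup, hzlow, hzup, hlogXl, hlogXu⟩ := lvl ω z hω0 hω1 hz200' hLz100
  have hX1 : (1 : ℝ) < X := by linarith
  have hXX₀ : X₀ ≤ X := by
    have : (X₀ : ℝ) ≤ X := by linarith
    exact_mod_cast this
  obtain ⟨hs, hl, hr, h4⟩ := hX X hXX₀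
  have hLzX : Real.log z ≤ Real.log X := Real.log_le_log hz0 hXz
  obtain ⟨γ, hXγ, hγ1, hγ2⟩ := gam ep κ x z he hκ0 hκ2 hx1 (by linarith) hzx hz1 hz2 X hXz hlogXu
  obtain ⟨L, Δ, hL, hΔ1, hΔl, hΔL, hpts⟩ := pts k hk l x y z ω hω0 hω1 hyz hyx hz200 hz200'
    ⌊(x - y - l) / k⌋ ⌊(x - l) / k⌋ rfl rfl
  have hR := smallp ep ω hω0 he he1 hωe k hk l x y z ((X : ℝ) ^ (3 / 4 : ℝ)) hx1 hyz hz0 hz1 hz2
    (Real.rpow_nonneg (by linarith) _) hXup hb6 hLz0 hLzx hb4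
  have hCl := cardlog ep he k hk x (Real.log X) hx0 hkx (hLze.trans hLzX) hb5
  exact ⟨by linarith, core ω ε₁ ϖ C κ (2 / ep) n0 K X hω0 hω1 hε₁ hε₁1 hC0 hs hl hr h4 hX1 k l x y z hk hlk hx0 hy0 hyz hz0 hyx
    γ hXγ hγ1 hγ2 hzlow hzup hlogXl hCl _ _ rfl rfl L Δ hL hΔ1 hΔl hΔL hpts hR hLz0 hLzX⟩

end Pool.Agent.Y844.BT
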